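import Pool.Agent.DBX.ALG.Stmts
import Pool.Agent.DBX.Cd

set_option autoImplicit false

/-! # MP_2c751f_ag, squad DBX, area ALG, module BCD: descent from `k'` to `k` -/

namespace Pool.Agent.DBX.ALG

open MvPolynomial Pool.Agent.DBX

noncomputable section

universe u

namespace BCD_

theorem dd_map {V U : Type*} [LinearOrder V] [LinearOrder U] {M N : Type*} [AddCommGroup M]
    [AddCommGroup N] (f : M →+ N) (x : Finset V → Finset U → M) (σ : Finset V) (τ : Finset U) :
    dd (fun s t => f (x s t)) σ τ = f (dd x σ τ) := by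
  unfold dd
  have h1 := congrFun (cd_map f (fun s => x s τ)) σ
  have h2 := congrFun (cd_map f (x σ)) τ
  rw [h1, h2, map_add, map_zsmul]

theorem cd_sum' {V : Type*} [LinearOrder V] {M : Type*} [AddCommGroup M] {r : ℕ}
    (x : Fin r → Finset V → M) (σ : Finset V) :
    cd (fun s => ∑ i, x i s) σ = ∑ i, cd (x i) σ := by
  have h := congrFun (cd_sum Finset.univ x) σ
  rw [Finset.sum_apply] at h
  rw [← h]
  congr 1
  funext s
  rw [Finset.sum_apply]

theorem dd_sum {V U : Type*} [LinearOrder V] [LinearOrder U] {M : Type*} [AddCommGroup M]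
    {r : ℕ} (x : Fin r → Finset V → Finset U → M) (σ : Finset V) (τ : Finset U) :
    dd (fun s t => ∑ i, x i s t) σ τ = ∑ i, dd (x i) σ τ := by
  unfold dd
  have h1 := cd_sum' (fun i s => x i s τ) σ
  have h2 := cd_sum' (fun i t => x i σ t) τ
  rw [h1, h2, Finset.smul_sum, ← Finset.sum_add_distrib]

section
variable {k : Type u} [Field k] {n : ℕ}

theorem emb_inc (p : Pol k (n + 1)) : emb k n (inc k (n + 1) p) = inc (Kx k n) (n + 1) (bcP k n p) :=
  IsLocalization.map_eq _ p

theorem emb_smul (c : k) (v : Fr k (n + 1)) :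
    emb k n (c • v) = algebraMap k (Kx k n) c • emb k n v := by
  have h1 : c • v = inc k (n + 1) (C c) * v := by
    rw [Algebra.smul_def]; rfl
  have h2 : algebraMap k (Kx k n) c • emb k n v =
      inc (Kx k n) (n + 1) (C (algebraMap k (Kx k n) c)) * emb k n v := by
    rw [Algebra.smul_def]; rfl
  rw [h1, h2, map_mul, emb_inc]
  congr 2
  exact MvPolynomial.map_C _ c

/-- the additive map `v ↦ c • emb v` -/
def fm (c : Kx k n) : Fr k (n + 1) →+ Fr (Kx k n) (n + 1) where
  toFun := fun v => c • emb k n v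
  map_zero' := by rw [map_zero, smul_zero]
  map_add' := fun v w => by rw [map_add, smul_add]

theorem fm_apply (c : Kx k n) (v : Fr k (n + 1)) : fm c v = c • emb k n v := rfl

/-- elements of the span have expansions with finitely many coefficients -/
theorem expand_one (E : Submodule k (Fr k (n + 1))) (z : Fr (Kx k n) (n + 1))
    (hz : z ∈ Submodule.span (Kx k n) (emb k n '' (E : Set (Fr k (n + 1))))) :
    ∃ (S : Finset (Kx k n)) (y : Kx k n → Fr k (n + 1)), (∀ c, y c ∈ E) ∧
      z = ∑ c ∈ S, c • emb k n (y c) := by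
  classical
  induction hz using Submodule.span_induction with
  | mem z hz =>
    obtain ⟨e, he, rfl⟩ := hz
    exact ⟨{1}, fun _ => e, fun _ => he, by simp⟩
  | zero => exact ⟨∅, fun _ => 0, fun _ => E.zero_mem, by simp⟩
  | add z w _ _ h1 h2 =>
    obtain ⟨S, y, hy, rfl⟩ := h1
    obtain ⟨T, x, hx, rfl⟩ := h2
    refine ⟨S ∪ T, fun c => (if c ∈ S then y c else 0) + (if c ∈ T then x c else 0), ?_, ?_⟩
    · intro c
      refine E.add_mem ?_ ?_
      · split_ifs
        · exact hy c
        · exact E.zero_mem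
      · split_ifs
        · exact hx c
        · exact E.zero_mem
    · have e1 : ∑ c ∈ S, c • emb k n (y c) =
          ∑ c ∈ S ∪ T, c • emb k n (if c ∈ S then y c else 0) := by
        rw [← Finset.sum_subset (Finset.subset_union_left (s₁ := S) (s₂ := T))]
        · exact Finset.sum_congr rfl (fun c hc => by rw [if_pos hc])
        · intro c _ hc
          rw [if_neg hc, map_zero, smul_zero]
      have e2 : ∑ c ∈ T, c • emb k n (x c) =
          ∑ c ∈ S ∪ T, c • emb k n (if c ∈ T then x c else 0) := by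
        rw [← Finset.sum_subset (Finset.subset_union_right (s₁ := S) (s₂ := T))]
        · exact Finset.sum_congr rfl (fun c hc => by rw [if_pos hc])
        · intro c _ hc
          rw [if_neg hc, map_zero, smul_zero]
      rw [e1, e2, ← Finset.sum_add_distrib]
      exact Finset.sum_congr rfl (fun c _ => by rw [map_add, smul_add])
  | smul a z _ h =>
    obtain ⟨S, y, hy, rfl⟩ := h
    by_cases ha : a = 0
    · exact ⟨∅, fun _ => 0, fun _ => E.zero_mem, by simp [ha]⟩
    · refine ⟨S.image (fun c => a * c), fun c => y (a⁻¹ * c), fun c => hy _, ?_⟩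
      rw [Finset.sum_image (fun c _ d _ h => mul_left_cancel₀ ha h), Finset.smul_sum]
      refine Finset.sum_congr rfl (fun c _ => ?_)
      show a • c • emb k n (y c) = (a * c) • emb k n (y (a⁻¹ * (a * c)))
      rw [← mul_assoc, inv_mul_cancel₀ ha, one_mul, smul_smul]

theorem expand {J : Type*} [Fintype J] (E : J → Submodule k (Fr k (n + 1)))
    (z : J → Fr (Kx k n) (n + 1))
    (hz : ∀ j, z j ∈ Submodule.span (Kx k n) (emb k n '' (E j : Set (Fr k (n + 1))))) :
    ∃ (r : ℕ) (b : Fin r → Kx k n) (i0 : Fin r), b i0 = 1 ∧ LinearIndependent k b ∧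
      ∃ y : Fin r → J → Fr k (n + 1), (∀ i j, y i j ∈ E j) ∧
        ∀ j, z j = ∑ i, b i • emb k n (y i j) := by
  classical
  choose S y hy hzy using fun j => expand_one (E j) (z j) (hz j)
  -- common finite set
  let T : Finset (Kx k n) := insert 1 (Finset.univ.biUnion S)
  have hST : ∀ j, S j ⊆ T := fun j c hc =>
    Finset.mem_insert_of_mem (Finset.mem_biUnion.mpr ⟨j, Finset.mem_univ j, hc⟩)
  let y1 : J → Kx k n → Fr k (n + 1) := fun j c => if c ∈ S j then y j c else 0
  have hy1 : ∀ j c, y1 j c ∈ E j := by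
    intro j c
    simp only [y1]
    split_ifs
    · exact hy j c
    · exact (E j).zero_mem
  have hz1 : ∀ j, z j = ∑ c ∈ T, c • emb k n (y1 j c) := by
    intro j
    rw [hzy j, ← Finset.sum_subset (hST j)]
    · exact Finset.sum_congr rfl (fun c hc => by simp only [y1]; rw [if_pos hc])
    · intro c _ hc
      simp only [y1]
      rw [if_neg hc, map_zero, smul_zero]
  -- independent subset containing 1
  have hs : LinearIndepOn k id ({1} : Set (Kx k n)) := by
    rw [linearIndepOn_singleton_iff]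
    exact one_ne_zero
  have hst : ({1} : Set (Kx k n)) ⊆ (T : Set (Kx k n)) := by
    intro c hc
    rw [Set.mem_singleton_iff] at hc
    subst hc
    exact Finset.mem_coe.mpr (Finset.mem_insert_self _ _)
  obtain ⟨b, hb1, hb2, hb3, hb4⟩ := exists_linearIndepOn_id_extension hs hst
  have hbf : b.Finite := T.finite_toSet.subset hb1
  have : Fintype b := hbf.fintype
  let e := (Fintype.equivFin b).symm
  refine ⟨Fintype.card b, fun i => ((e i : b) : Kx k n), (Fintype.equivFin b) ⟨1, hb2 rfl⟩, ?_, ?_, ?_⟩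
  · simp [e]
  · exact (linearIndependent_equiv e).mpr hb4
  · have hc : ∀ c ∈ T, ∃ f : b → k, ∑ d : b, f d • (d : Kx k n) = c := by
      intro c hc
      have h1 : c ∈ Submodule.span k (Set.range (fun d : b => (d : Kx k n))) := by
        rw [Subtype.range_coe]
        exact hb3 hc
      exact (Submodule.mem_span_range_iff_exists_fun k).mp h1
    choose! f hf using hc
    refine ⟨fun i j => ∑ c ∈ T, f c (e i) • y1 j c, ?_, ?_⟩
    · intro i j
      exact (E j).sum_mem (fun c _ => (E j).smul_mem _ (hy1 j c))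
    · intro j
      have h0 : ∑ i : Fin (Fintype.card b), ((e i : b) : Kx k n) •
          emb k n (∑ c ∈ T, f c (e i) • y1 j c) =
          ∑ d : b, (d : Kx k n) • emb k n (∑ c ∈ T, f c d • y1 j c) :=
        Equiv.sum_comp e (fun d : b => (d : Kx k n) • emb k n (∑ c ∈ T, f c d • y1 j c))
      rw [h0]
      have h1 : ∀ d : b, (d : Kx k n) • emb k n (∑ c ∈ T, f c d • y1 j c) =
          ∑ c ∈ T, (f c d • (d : Kx k n)) • emb k n (y1 j c) := by
        intro d
        rw [map_sum, Finset.smul_sum]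
        refine Finset.sum_congr rfl (fun c _ => ?_)
        rw [emb_smul, smul_smul, Algebra.smul_def (f c d) (d : Kx k n), mul_comm]
      rw [Finset.sum_congr rfl (fun d _ => h1 d), Finset.sum_comm, hz1 j]
      refine Finset.sum_congr rfl (fun c hc => ?_)
      rw [← Finset.sum_smul, hf c hc]


/-- the common step: `emb x = dd y` with `y` over `k'` gives `x = dd Y` with `Y` over `k` -/
theorem core_dd {p M : ℕ}
    (hB : ∀ (r : ℕ) (b : Fin r → Kx k n) (y : Fin r → Fr k (n + 1)), LinearIndependent k b →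
      ∑ i, b i • emb k n (y i) = 0 → ∀ i, y i = 0)
    (E : Finset (Fin p) → Finset (Fin M) → Submodule k (Fr k (n + 1)))
    (x : Finset (Fin p) → Finset (Fin M) → Fr k (n + 1))
    (y : Finset (Fin p) → Finset (Fin M) → Fr (Kx k n) (n + 1))
    (hy : ∀ σ τ, y σ τ ∈ Submodule.span (Kx k n) (emb k n '' (E σ τ : Set (Fr k (n + 1)))))
    (hdy : ∀ σ τ, dd y σ τ = emb k n (x σ τ)) :
    ∃ Y : Finset (Fin p) → Finset (Fin M) → Fr k (n + 1), (∀ σ τ, Y σ τ ∈ E σ τ) ∧
      ∀ σ τ, dd Y σ τ = x σ τ := by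
  classical
  obtain ⟨r, b, i0, hb1, hbi, Y, hY, hyY⟩ := expand
    (J := Finset (Fin p) × Finset (Fin M)) (fun j => E j.1 j.2) (fun j => y j.1 j.2)
    (fun j => hy j.1 j.2)
  refine ⟨fun σ τ => Y i0 (σ, τ), fun σ τ => hY i0 (σ, τ), fun σ τ => ?_⟩
  have h1 : dd y σ τ = emb k n (x σ τ) := hdy σ τ
  have h2 : dd y σ τ = ∑ i, b i • emb k n (dd (fun s t => Y i (s, t)) σ τ) := by
    have e1 : y = fun s t => ∑ i, fm (b i) (Y i (s, t)) := by
      funext s t
      exact hyY (s, t)
    rw [e1, dd_sum (fun i s t => fm (b i) (Y i (s, t)))]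
    refine Finset.sum_congr rfl (fun i _ => ?_)
    exact dd_map (fm (b i)) (fun s t => Y i (s, t)) σ τ
  have h3 : ∑ i, b i • emb k n (dd (fun s t => Y i (s, t)) σ τ - (if i = i0 then x σ τ else 0))
      = 0 := by
    have e2 : ∀ i, b i • emb k n (dd (fun s t => Y i (s, t)) σ τ -
        (if i = i0 then x σ τ else 0)) =
        b i • emb k n (dd (fun s t => Y i (s, t)) σ τ) -
          (if i = i0 then emb k n (x σ τ) else 0) := by
      intro i
      by_cases hi : i = i0
      · subst hi
        rw [if_pos rfl, if_pos rfl, map_sub, smul_sub, hb1, one_smul, one_smul]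
      · rw [if_neg hi, if_neg hi, sub_zero, sub_zero]
    rw [Finset.sum_congr rfl (fun i _ => e2 i), Finset.sum_sub_distrib,
      Finset.sum_ite_eq' Finset.univ i0, if_pos (Finset.mem_univ _), ← h2, h1, sub_self]
  have h4 := hB r b _ hbi h3 i0
  rw [if_pos rfl, sub_eq_zero] at h4
  exact h4

theorem core_cd {p : ℕ}
    (hB : ∀ (r : ℕ) (b : Fin r → Kx k n) (y : Fin r → Fr k (n + 1)), LinearIndependent k b →
      ∑ i, b i • emb k n (y i) = 0 → ∀ i, y i = 0)
    (E : Finset (Fin p) → Submodule k (Fr k (n + 1)))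
    (x : Finset (Fin p) → Fr k (n + 1))
    (y : Finset (Fin p) → Fr (Kx k n) (n + 1))
    (hy : ∀ σ, y σ ∈ Submodule.span (Kx k n) (emb k n '' (E σ : Set (Fr k (n + 1)))))
    (hdy : ∀ σ, cd y σ = emb k n (x σ)) :
    ∃ Y : Finset (Fin p) → Fr k (n + 1), (∀ σ, Y σ ∈ E σ) ∧ ∀ σ, cd Y σ = x σ := by
  classical
  obtain ⟨r, b, i0, hb1, hbi, Y, hY, hyY⟩ := expand (J := Finset (Fin p)) E y hy
  refine ⟨fun σ => Y i0 σ, fun σ => hY i0 σ, fun σ => ?_⟩
  have h1 : cd y σ = emb k n (x σ) := hdy σ
  have h2 : cd y σ = ∑ i, b i • emb k n (cd (Y i) σ) := by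
    have e1 : y = fun s => ∑ i, fm (b i) (Y i s) := by
      funext s
      exact hyY s
    rw [e1, cd_sum' (fun i s => fm (b i) (Y i s))]
    refine Finset.sum_congr rfl (fun i _ => ?_)
    exact congrFun (cd_map (fm (b i)) (Y i)) σ
  have h3 : ∑ i, b i • emb k n (cd (Y i) σ - (if i = i0 then x σ else 0)) = 0 := by
    have e2 : ∀ i, b i • emb k n (cd (Y i) σ - (if i = i0 then x σ else 0)) =
        b i • emb k n (cd (Y i) σ) - (if i = i0 then emb k n (x σ) else 0) := by
      intro i
      by_cases hi : i = i0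
      · subst hi
        rw [if_pos rfl, if_pos rfl, map_sub, smul_sub, hb1, one_smul, one_smul]
      · rw [if_neg hi, if_neg hi, sub_zero, sub_zero]
    rw [Finset.sum_congr rfl (fun i _ => e2 i), Finset.sum_sub_distrib,
      Finset.sum_ite_eq' Finset.univ i0, if_pos (Finset.mem_univ _), ← h2, h1, sub_self]
  have h4 := hB r b _ hbi h3 i0
  rw [if_pos rfl, sub_eq_zero] at h4
  exact h4

end

end BCD_

open BCD_ in
theorem bcd_proof.{v} (hBAS : Pool.Agent.DBX.Stmt_BAS.{v}) : Stmt_BCD.{v} := by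
  classical
  intro k _ _ n D hD m g
  obtain ⟨hA, hB⟩ := hBAS k n D hD
  have hmem : ∀ (σ : Finset (Fin D.p)) (τ : Finset (Fin D.M)), (σ.Nonempty ∨ τ = ∅) →
      ∀ z, z ∈ D.bc.Eg m σ τ ↔ z ∈ Submodule.span (Kx k n) (emb k n '' D.Eg m σ τ) := by
    intro σ τ h z
    rw [hA m σ τ h]
  constructor
  · intro hQ x hx hxg hdx
    have hx' : D.bc.InQ m (fun s t => emb k n (x s t)) := by
      refine ⟨fun τ => ?_, fun σ τ => ?_⟩
      · have h1 : emb k n (x ∅ τ) = 0 := by rw [hx.1 τ, map_zero]
        exact h1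
      · by_cases hσ : σ = ∅
        · have h1 : emb k n (x σ τ) = 0 := by
            have h2 : x σ τ = 0 := by
              subst hσ
              exact hx.1 τ
            exact (congrArg (emb k n) h2).trans (map_zero _)
          have h3 : (fun (s : Finset (Fin D.p)) (t : Finset (Fin D.M)) => emb k n (x s t)) σ τ
            ∈ D.bc.Eg m σ τ := by
            have h4 : (fun (s : Finset (Fin D.p)) (t : Finset (Fin D.M)) =>
              emb k n (x s t)) σ τ = 0 := h1
            exact h4 ▸ Submodule.zero_mem (D.bc.Eg m σ τ)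
          exact h3
        · exact (hmem σ τ (Or.inl (Finset.nonempty_iff_ne_empty.mpr hσ)) _).mpr
            (Submodule.subset_span ⟨_, hx.2 σ τ, rfl⟩)
    obtain ⟨y, hy, hdy⟩ := hQ (fun s t => emb k n (x s t)) hx'
      (fun σ τ h => (congrArg (emb k n) (hxg σ τ h)).trans (map_zero _))
      (by
        funext σ τ
        have h1 := dd_map (emb k n : Fr k (n + 1) →+* Fr (Kx k n) (n + 1)).toAddMonoidHom x σ τ
        have h2 : dd x σ τ = 0 := by rw [hdx]; rfl
        rw [h2, map_zero] at h1
        exact h1)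
    obtain ⟨Y, hY, hdY⟩ := core_dd (p := D.p) (M := D.M) hB
      (fun σ τ => if σ = ∅ then ⊥ else D.Eg m σ τ) x y
      (by
        intro σ τ
        by_cases hσ : σ = ∅
        · have h1 : y σ τ = 0 := by
            subst hσ
            exact hy.1 τ
          rw [h1]
          exact Submodule.zero_mem _
        · rw [if_neg hσ]
          exact (hmem σ τ (Or.inl (Finset.nonempty_iff_ne_empty.mpr hσ)) _).mp (hy.2 σ τ))
      (fun σ τ => congrFun (congrFun hdy σ) τ)
    refine ⟨Y, ⟨fun τ => ?_, fun σ τ => ?_⟩, ?_⟩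
    · have h1 := hY ∅ τ
      rw [if_pos rfl] at h1
      exact (Submodule.mem_bot k).mp h1
    · have h1 := hY σ τ
      by_cases hσ : σ = ∅
      · rw [if_pos hσ] at h1
        rw [(Submodule.mem_bot k).mp h1]
        exact Submodule.zero_mem _
      · rwa [if_neg hσ] at h1
    · funext σ τ
      exact hdY σ τ
  · intro hQ x hx hxg hdx
    obtain ⟨y, hy, hdy⟩ := hQ (fun s => emb k n (x s))
      (fun σ => (hmem σ ∅ (Or.inr rfl) _).mpr (Submodule.subset_span ⟨_, hx σ, rfl⟩))
      (fun σ h => (congrArg (emb k n) (hxg σ h)).trans (map_zero _))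
      (by
        intro σ
        have h1 := congrFun (cd_map (emb k n : Fr k (n + 1) →+* Fr (Kx k n) (n + 1)).toAddMonoidHom
          x) σ
        have h2 : cd x σ = 0 := hdx σ
        exact h1.trans ((congrArg (emb k n) h2).trans (map_zero _)))
    obtain ⟨Y, hY, hdY⟩ := core_cd (p := D.p) hB (fun σ => D.Eg m σ ∅) x y
      (fun σ => (hmem σ ∅ (Or.inr rfl) _).mp (hy σ)) hdy
    exact ⟨Y, hY, hdY⟩

end

end Pool.Agent.DBX.ALG
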