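import Pool.Agent.DBX.ALG.Stmts

set_option autoImplicit false

/-! # MP_2c751f_ag, squad DBX, area ALG, module BCU: ascent of vanishing to `k'` -/

namespace Pool.Agent.DBX.ALG

open MvPolynomial Pool.Agent.DBX

noncomputable section

universe u

namespace BCU_

variable {k : Type u} [Field k] {n : ℕ}

theorem emb_smul (c : k) (s : Fr k (n + 1)) :
    emb k n (c • s) = (algebraMap k (Kx k n) c) • emb k n s := by
  rw [Algebra.smul_def, map_mul, Algebra.smul_def]
  congr 1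
  have h1 : algebraMap k (Fr k (n + 1)) c =
      algebraMap (Pol k (n + 1)) (Fr k (n + 1)) (C c) := by
    rw [IsScalarTower.algebraMap_apply k (Pol k (n + 1)) (Fr k (n + 1))]
    rfl
  have h2 : algebraMap (Kx k n) (Fr (Kx k n) (n + 1)) (algebraMap k (Kx k n) c) =
      algebraMap (Pol (Kx k n) (n + 1)) (Fr (Kx k n) (n + 1)) (C (algebraMap k (Kx k n) c)) := by
    rw [IsScalarTower.algebraMap_apply (Kx k n) (Pol (Kx k n) (n + 1)) (Fr (Kx k n) (n + 1))]
    rfl
  rw [h1, h2, emb, IsLocalization.map_eq]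
  congr 1
  rw [bcP, MvPolynomial.map_C]

/-- the additive map `(y_j) ↦ ∑ b_j • emb y_j` -/
def LL {I : Type u} (b : I → Kx k n) : (I →₀ Fr k (n + 1)) →+ Fr (Kx k n) (n + 1) :=
  Finsupp.liftAddHom (fun j =>
    ({ toFun := fun v => b j • emb k n v
       map_zero' := by rw [map_zero, smul_zero]
       map_add' := fun v w => by rw [map_add, smul_add] } :
      Fr k (n + 1) →+ Fr (Kx k n) (n + 1)))

theorem LL_apply {I : Type u} (b : I → Kx k n) (y : I →₀ Fr k (n + 1)) :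
    LL b y = y.sum (fun j v => b j • emb k n v) := rfl

theorem expand {I : Type u} (B : Module.Basis I k (Kx k n)) (S : Submodule k (Fr k (n + 1)))
    (z : Fr (Kx k n) (n + 1)) (hz : z ∈ Submodule.span (Kx k n) (emb k n '' S)) :
    ∃ y : I →₀ Fr k (n + 1), (∀ j, y j ∈ S) ∧ z = LL B y := by
  classical
  obtain ⟨N, f, g, rfl⟩ := (Submodule.mem_span_set'.1 hz)
  refine Finset.sum_induction (fun l => f l • (g l : Fr (Kx k n) (n + 1)))
    (fun z => ∃ y : I →₀ Fr k (n + 1), (∀ j, y j ∈ S) ∧ z = LL B y) ?_ ?_ ?_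
  · rintro z z' ⟨y, hy, rfl⟩ ⟨y', hy', rfl⟩
    exact ⟨y + y', fun j => S.add_mem (hy j) (hy' j), (map_add _ _ _).symm⟩
  · exact ⟨0, fun j => S.zero_mem, (map_zero _).symm⟩
  · intro l _
    obtain ⟨s, hs, hsg⟩ := (g l).2
    refine ⟨(B.repr (f l)).mapRange (fun c => c • s) (zero_smul k s), ?_, ?_⟩
    · intro j
      rw [Finsupp.mapRange_apply]
      exact S.smul_mem _ hs
    · rw [LL_apply, Finsupp.sum_mapRange_index (by intro j; rw [map_zero, smul_zero])]
      have h : f l = (B.repr (f l)).sum (fun j c => c • B j) := (B.linearCombination_repr _).symm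
      rw [← hsg]
      conv_lhs => rw [h]
      rw [Finsupp.sum, Finsupp.sum, Finset.sum_smul]
      refine Finset.sum_congr rfl fun j _ => ?_
      have h3 : (B.repr (f l)) j • B j = B j * algebraMap k (Kx k n) ((B.repr (f l)) j) := by
        rw [Algebra.smul_def, mul_comm]
      rw [emb_smul, smul_smul, h3]

theorem cd_lin {p r : ℕ} (b : Fin r → Kx k n) (z : Fin r → Finset (Fin p) → Fr k (n + 1))
    (σ : Finset (Fin p)) :
    cd (fun s => ∑ i, b i • emb k n (z i s)) σ = ∑ i, b i • emb k n (cd (z i) σ) := by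
  unfold cd
  simp_rw [map_sum, map_zsmul, Finset.smul_sum]
  rw [Finset.sum_comm]
  refine Finset.sum_congr rfl fun i _ => Finset.sum_congr rfl fun v _ => ?_
  rw [smul_comm]

/-- simultaneous decomposition of a cochain -/
theorem decomp {p : ℕ} (S : Finset (Fin p) → Submodule k (Fr k (n + 1)))
    (x : Finset (Fin p) → Fr (Kx k n) (n + 1))
    (hx : ∀ σ, x σ ∈ Submodule.span (Kx k n) (emb k n '' S σ)) :
    ∃ (r : ℕ) (b : Fin r → Kx k n) (z : Fin r → Finset (Fin p) → Fr k (n + 1)),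
      LinearIndependent k b ∧ (∀ i σ, z i σ ∈ S σ) ∧ (∀ i σ, x σ = 0 → z i σ = 0) ∧
      ∀ σ, x σ = ∑ i, b i • emb k n (z i σ) := by
  classical
  let B := Module.Basis.ofVectorSpace k (Kx k n)
  have h1 : ∀ σ, ∃ y : (Module.Basis.ofVectorSpaceIndex k (Kx k n)) →₀ Fr k (n + 1),
      (∀ j, y j ∈ S σ) ∧ (x σ = 0 → y = 0) ∧ x σ = LL B y := by
    intro σ
    by_cases h : x σ = 0
    · exact ⟨0, fun j => (S σ).zero_mem, fun _ => rfl, by rw [h, map_zero]⟩
    · obtain ⟨y, hy, hy'⟩ := expand B (S σ) (x σ) (hx σ)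
      exact ⟨y, hy, fun h' => absurd h' h, hy'⟩
  choose y hy hy0 hyx using h1
  let t : Finset (Module.Basis.ofVectorSpaceIndex k (Kx k n)) :=
    Finset.univ.biUnion (fun σ => (y σ).support)
  let e : Fin t.card ≃ t := t.equivFin.symm
  refine ⟨t.card, fun i => B (e i), fun i σ => y σ (e i), ?_, fun i σ => hy σ _, ?_, ?_⟩
  · refine B.linearIndependent.comp (fun i => ((e i : t) : Module.Basis.ofVectorSpaceIndex k (Kx k n))) ?_
    intro i j hij
    exact e.injective (Subtype.ext hij)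
  · intro i σ h
    show y σ (e i) = 0
    rw [hy0 σ h]
    rfl
  · intro σ
    rw [hyx σ, LL_apply]
    have hsub : (y σ).support ⊆ t := Finset.subset_biUnion_of_mem (fun σ => (y σ).support)
      (Finset.mem_univ σ)
    rw [Finsupp.sum_of_support_subset _ hsub _ (by intro j _; rw [map_zero, smul_zero])]
    rw [← Finset.sum_coe_sort t (fun j => B j • emb k n (y σ j))]
    exact (Equiv.sum_comp e (fun j : t => B (j : _) • emb k n (y σ (j : _)))).symm

end BCU_

open BCU_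

theorem bcu_proof (hBAS : Stmt_BAS.{u}) : Stmt_BCU.{u} := by
  intro k _ _ n D hD m g
  obtain ⟨h1, h2⟩ := hBAS k n D hD
  have hE : ∀ σ : Finset (Fin D.p), D.bc.Eg m σ ∅ =
      Submodule.span (Kx k n) (emb k n '' D.Eg m σ ∅) := fun σ => h1 m σ ∅ (Or.inr rfl)
  -- the common part
  have key : ∀ x : Finset (Fin D.p) → Fr (Kx k n) (n + 1),
      (∀ σ, x σ ∈ D.bc.Eg m σ ∅) → (∀ σ, cd x σ = 0) →
      ∃ (r : ℕ) (b : Fin r → Kx k n) (z : Fin r → Finset (Fin D.p) → Fr k (n + 1)),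
        (∀ i σ, z i σ ∈ D.Eg m σ ∅) ∧ (∀ i σ, x σ = 0 → z i σ = 0) ∧
        (∀ i σ, cd (z i) σ = 0) ∧ x = fun σ => ∑ i, b i • emb k n (z i σ) := by
    intro x hx hc
    obtain ⟨r, b, z, hb, hz, hz0, hxz⟩ := decomp (fun σ => D.Eg m σ ∅) x
      (fun σ => by rw [← hE σ]; exact hx σ)
    have hxe : x = fun σ => ∑ i, b i • emb k n (z i σ) := funext hxz
    refine ⟨r, b, z, hz, hz0, ?_, hxe⟩
    intro i σ
    refine h2 r b (fun i => cd (z i) σ) hb ?_ i
    have h := hc σ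
    rw [hxe, cd_lin] at h
    exact h
  have fin : ∀ (r : ℕ) (b : Fin r → Kx k n) (y : Fin r → Finset (Fin D.p) → Fr k (n + 1)),
      (∀ i σ, y i σ ∈ D.Eg m σ ∅) →
      ∀ σ, ∑ i, b i • emb k n (y i σ) ∈ D.bc.Eg m σ ∅ := by
    intro r b y hy σ
    rw [hE σ]
    exact Submodule.sum_mem _ fun i _ => Submodule.smul_mem _ _
      (Submodule.subset_span ⟨y i σ, hy i σ, rfl⟩)
  constructor
  · intro hA x hx0 hx hg hc
    obtain ⟨r, b, z, hz, hz0, hzc, hxz⟩ := key x hx hc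
    have h3 : ∀ i, ∃ y : Finset (Fin D.p) → Fr k (n + 1), y ∅ = 0 ∧
        (∀ σ, y σ ∈ D.Eg m σ ∅) ∧ ∀ σ, cd y σ = z i σ := fun i =>
      hA (z i) (hz0 i ∅ hx0) (hz i) (fun σ hσ => hz0 i σ (hg σ hσ)) (hzc i)
    choose y hy0 hy hyc using h3
    refine ⟨fun σ => ∑ i, b i • emb k n (y i σ), ?_, fin r b y hy, ?_⟩
    · show ∑ i, b i • emb k n (y i ∅) = 0
      refine Finset.sum_eq_zero fun i _ => ?_
      rw [hy0 i, map_zero, smul_zero]
    · intro σ
      refine (cd_lin b y σ).trans ?_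
      rw [hxz]
      refine Finset.sum_congr rfl fun i _ => ?_
      rw [hyc i σ]
  · intro hA x hx hg hc
    obtain ⟨r, b, z, hz, hz0, hzc, hxz⟩ := key x hx hc
    have h3 : ∀ i, ∃ y : Finset (Fin D.p) → Fr k (n + 1),
        (∀ σ, y σ ∈ D.Eg m σ ∅) ∧ ∀ σ, cd y σ = z i σ := fun i =>
      hA (z i) (hz i) (fun σ hσ => hz0 i σ (hg σ hσ)) (hzc i)
    choose y hy hyc using h3
    refine ⟨fun σ => ∑ i, b i • emb k n (y i σ), fin r b y hy, ?_⟩
    intro σ
    refine (cd_lin b y σ).trans ?_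
    rw [hxz]
    refine Finset.sum_congr rfl fun i _ => ?_
    rw [hyc i σ]

end

end Pool.Agent.DBX.ALG
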