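import Pool.Agent.DBX.ALG.Stmts

set_option autoImplicit false

namespace Pool.Agent.DBX.ALG

open MvPolynomial Pool.Agent.DBX

namespace BZE_

universe u

variable {k : Type u} [Field k] {n : ℕ}

lemma cd_empty {V : Type*} [LinearOrder V] {M : Type*} [AddCommGroup M] (x : Finset V → M) :
    cd x ∅ = 0 := by
  unfold cd
  exact Finset.sum_empty

lemma cd_mem {V : Type*} [LinearOrder V] {F : Type*} [AddCommGroup F] (N : AddSubgroup F)
    (x : Finset V → F) (σ : Finset V) (h : ∀ v ∈ σ, x (σ.erase v) ∈ N) : cd x σ ∈ N := by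
  unfold cd
  exact N.sum_mem (fun v hv => N.zsmul_mem (h v hv) _)

lemma cd_zero' {V : Type*} [LinearOrder V] {M : Type*} [AddCommGroup M] (x : Finset V → M)
    (hx : ∀ σ, x σ = 0) (σ : Finset V) : cd x σ = 0 := by
  unfold cd
  exact Finset.sum_eq_zero (fun v _ => by rw [hx, smul_zero])

lemma dd_right {V U : Type*} [LinearOrder V] [LinearOrder U] {M : Type*} [AddCommGroup M]
    (x : Finset V → Finset U → M) (σ : Finset V) : dd x σ ∅ = cd (fun s => x s ∅) σ := by
  unfold dd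
  rw [cd_empty, smul_zero, add_zero]

lemma dd_left {V U : Type*} [LinearOrder V] [LinearOrder U] {M : Type*} [AddCommGroup M]
    (x : Finset V → Finset U → M) (hx : ∀ τ, x ∅ τ = 0) (τ : Finset U) : dd x ∅ τ = 0 := by
  unfold dd
  rw [cd_empty, cd_zero' (x ∅) hx, smul_zero, add_zero]

lemma dd_mem {V U : Type*} [LinearOrder V] [LinearOrder U] {M : Type*} [AddCommGroup M]
    (N : AddSubgroup M) (x : Finset V → Finset U → M) (σ : Finset V) (τ : Finset U)
    (h1 : ∀ v ∈ σ, x (σ.erase v) τ ∈ N) (h2 : ∀ v ∈ τ, x σ (τ.erase v) ∈ N) :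
    dd x σ τ ∈ N := by
  unfold dd
  exact N.add_mem (cd_mem N _ _ h1) (N.zsmul_mem (cd_mem N _ _ h2) _)

lemma inQ_dd (hEMO : Stmt_EMO.{u}) (D : Dat k n) {m : ℤ}
    {x : Finset (Fin D.p) → Finset (Fin D.M) → Fr k n} (hx : D.InQ m x) : D.InQ m (dd x) := by
  constructor
  · intro τ
    exact dd_left x hx.1 τ
  · intro σ τ
    exact dd_mem (D.Eg m σ τ).toAddSubgroup x σ τ
      (fun v _ => (hEMO k n D _ _ _ _ (Finset.erase_subset v σ) (Finset.Subset.refl τ)).2 m
          (hx.2 _ _))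
      (fun v _ => (hEMO k n D _ _ _ _ (Finset.Subset.refl σ) (Finset.erase_subset v τ)).2 m
          (hx.2 _ _))

end BZE_

open BZE_ in
theorem bze_proof.{u} (hSUR1 : Stmt_SUR1.{u}) (hCDD : Stmt_CDD.{u}) (hDEG : Stmt_DEG.{u})
    (hEMO : Stmt_EMO.{u}) (hEML : Stmt_EML.{u}) : Stmt_BZE.{u} := by
  intro k _ _ n D l hG hl hl0 hLS g t ht hAZ z hz hzs hdz
  obtain ⟨y, w, hy, hw, hw0, hzyw⟩ := hSUR1 k n D l hG hl hl0 hLS t ht z hz hdz
  obtain ⟨-, dgd⟩ := hDEG D.p D.M (Fr k n)
  obtain ⟨-, -, -, -, dadd, dsub, ddd, dmap⟩ := hCDD D.p D.M (Fr k n)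
  set y1 : Finset (Fin D.p) → Finset (Fin D.M) → Fr k n :=
    fun s t => if s.card + t.card = g then y s t else 0 with hy1
  set w1 : Finset (Fin D.p) → Finset (Fin D.M) → Fr k n :=
    fun s t => if s.card + t.card = g then w s t else 0 with hw1
  have hz1 : ∀ σ τ, z σ τ = dd y1 σ τ + inc k n l ^ (t - 1) * dd w1 σ τ := by
    intro σ τ
    rw [hy1, hw1, dgd, dgd]
    by_cases h : σ.card + τ.card = g + 1
    · rw [if_pos h, if_pos h]
      exact hzyw σ τ
    · rw [if_neg h, if_neg h, mul_zero, add_zero]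
      exact hzs σ τ h
  have hw1Q : D.InQ (-(t : ℤ)) w1 := by
    constructor
    · intro τ
      simp only [hw1]
      split_ifs
      · exact hw.1 τ
      · rfl
    · intro σ τ
      simp only [hw1]
      split_ifs
      · exact hw.2 σ τ
      · exact Submodule.zero_mem _
  have hy1B : D.InB (-1) y1 := by
    refine ⟨⟨?_, ?_⟩, ?_⟩
    · intro τ
      simp only [hy1]
      split_ifs
      · exact hy.1.1 τ
      · rfl
    · intro σ τ
      simp only [hy1]
      split_ifs
      · exact hy.1.2 σ τ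
      · exact Submodule.zero_mem _
    · intro σ
      simp only [hy1]
      split_ifs
      · exact hy.2 σ
      · rfl
  have hdw1 : ∀ σ, cd (fun s => w1 s ∅) σ = 0 := by
    intro σ
    have h1 : dd w1 σ ∅ = 0 := by
      rw [hw1, dgd]
      split_ifs
      · exact hw0 σ
      · rfl
    rwa [dd_right] at h1
  obtain ⟨b, hb0, hb1, hb2⟩ := hAZ (fun s => w1 s ∅) (hw1Q.1 ∅) (fun σ => hw1Q.2 σ ∅)
    (fun σ hσ => by
      simp only [hw1, Finset.card_empty, add_zero]
      rw [if_neg hσ]) hdw1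
  set b' : Finset (Fin D.p) → Finset (Fin D.M) → Fr k n :=
    fun s t => if t = ∅ then b s else 0 with hb'
  have hb'Q : D.InQ (-(t : ℤ)) b' := by
    constructor
    · intro τ
      simp only [hb']
      split_ifs
      · exact hb0
      · rfl
    · intro σ τ
      simp only [hb']
      split_ifs with h
      · rw [h]
        exact hb1 σ
      · exact Submodule.zero_mem _
  have hdbQ := inQ_dd hEMO D hb'Q
  have hdb0 : ∀ σ, dd b' σ ∅ = w1 σ ∅ := by
    intro σ
    rw [dd_right]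
    have h1 : (fun s => b' s ∅) = b := by
      funext s
      simp [hb']
    rw [h1]
    exact hb2 σ
  set w2 : Finset (Fin D.p) → Finset (Fin D.M) → Fr k n := w1 - dd b' with hw2
  have hw2Q : D.InQ (-(t : ℤ)) w2 := by
    constructor
    · intro τ
      simp only [hw2, Pi.sub_apply]
      rw [hw1Q.1, hdbQ.1, sub_zero]
    · intro σ τ
      simp only [hw2, Pi.sub_apply]
      exact Submodule.sub_mem _ (hw1Q.2 σ τ) (hdbQ.2 σ τ)
  have hw20 : ∀ σ, w2 σ ∅ = 0 := by
    intro σ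
    simp only [hw2, Pi.sub_apply]
    rw [hdb0, sub_self]
  have hdw2 : ∀ σ τ, dd w2 σ τ = dd w1 σ τ := by
    intro σ τ
    rw [hw2, dsub, ddd, sub_zero]
  -- multiplication by the power of `l`
  set c : Fr k n := inc k n (l ^ (t - 1)) with hc
  have hc' : c = inc k n l ^ (t - 1) := by rw [hc, map_pow]
  set v : Finset (Fin D.p) → Finset (Fin D.M) → Fr k n := fun s t => c * w2 s t with hv
  have hdv : ∀ σ τ, dd v σ τ = c * dd w2 σ τ := by
    intro σ τ
    have := dmap (Fr k n) (AddMonoidHom.mulLeft c) w2 σ τ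
    simpa using this
  obtain ⟨eml1, eml2, -, -⟩ := hEML k n D
  have hlt : (l ^ (t - 1)).IsHomogeneous (t - 1) := by
    have := hl.pow (t - 1)
    rwa [one_mul] at this
  have hvB : D.InB (-1) v := by
    refine ⟨⟨?_, ?_⟩, ?_⟩
    · intro τ
      simp only [hv]
      rw [hw2Q.1, mul_zero]
    · intro σ τ
      have h1 := hw2Q.2 σ τ
      refine ⟨?_, ?_⟩
      · exact eml1 σ τ (l ^ (t - 1)) _ h1.1
      · have h2 := eml2 (t - 1) (-(t : ℤ)) (l ^ (t - 1)) hlt _ h1.2
        have h3 : (-(t : ℤ)) + ((t - 1 : ℕ) : ℤ) = -1 := by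
          rw [Nat.cast_sub ht]
          push_cast
          ring
        rw [h3] at h2
        exact h2
    · intro σ
      simp only [hv]
      rw [hw20, mul_zero]
  refine ⟨y1 + v, ⟨⟨?_, ?_⟩, ?_⟩, ?_⟩
  · intro τ
    simp only [Pi.add_apply]
    rw [hy1B.1.1, hvB.1.1, add_zero]
  · intro σ τ
    simp only [Pi.add_apply]
    exact Submodule.add_mem _ (hy1B.1.2 σ τ) (hvB.1.2 σ τ)
  · intro σ
    simp only [Pi.add_apply]
    rw [hy1B.2, hvB.2, add_zero]
  · funext σ τ
    rw [dadd, hdv, hdw2, hz1 σ τ, hc']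

end Pool.Agent.DBX.ALG
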