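import Pool.Agent.DBX.ALG.Stmts

set_option autoImplicit false

namespace Pool.Agent.DBX.ALG

open MvPolynomial Pool.Agent.DBX

noncomputable section

section
variable {V : Type*} [LinearOrder V] {M N : Type*} [AddCommGroup M] [AddCommGroup N]

/-- The sign. -/
def CDD_sgn (v : V) (σ : Finset V) : ℤ := (-1) ^ (σ.filter (fun w => w < v)).card

theorem CDD_cd_apply (x : Finset V → M) (σ : Finset V) :
    cd x σ = ∑ v ∈ σ, CDD_sgn v σ • x (σ.erase v) := rfl

theorem CDD_sgn_erase_of_lt {v w : V} {σ : Finset V} (hw : w ∈ σ) (h : w < v) :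
    CDD_sgn v (σ.erase w) = - CDD_sgn v σ := by
  unfold CDD_sgn
  have h1 : (σ.erase w).filter (fun u => u < v) = (σ.filter (fun u => u < v)).erase w := by
    ext u; simp only [Finset.mem_filter, Finset.mem_erase]; tauto
  have h2 : w ∈ σ.filter (fun u => u < v) := Finset.mem_filter.2 ⟨hw, h⟩
  have h3 := Finset.card_erase_add_one h2
  rw [h1, ← h3, pow_succ]
  ring

theorem CDD_sgn_erase_of_not_lt {v w : V} {σ : Finset V} (h : ¬ w < v) :
    CDD_sgn v (σ.erase w) = CDD_sgn v σ := by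
  unfold CDD_sgn
  have h1 : (σ.erase w).filter (fun u => u < v) = σ.filter (fun u => u < v) := by
    ext u
    simp only [Finset.mem_filter, Finset.mem_erase]
    constructor
    · rintro ⟨⟨_, a⟩, b⟩; exact ⟨a, b⟩
    · rintro ⟨a, b⟩
      refine ⟨⟨?_, a⟩, b⟩
      rintro rfl; exact h b
  rw [h1]

theorem CDD_sgn_swap {v w : V} {σ : Finset V} (hv : v ∈ σ) (hw : w ∈ σ) (h : v ≠ w) :
    CDD_sgn v σ * CDD_sgn w (σ.erase v) = - (CDD_sgn w σ * CDD_sgn v (σ.erase w)) := by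
  rcases lt_or_gt_of_ne h with h' | h'
  · rw [CDD_sgn_erase_of_lt hv h', CDD_sgn_erase_of_not_lt (not_lt.2 h'.le)]
    ring
  · rw [CDD_sgn_erase_of_not_lt (not_lt.2 h'.le), CDD_sgn_erase_of_lt hw h']
    ring

theorem CDD_cd_cd (x : Finset V → M) : cd (cd x) = 0 := by
  funext σ
  change ∑ v ∈ σ, CDD_sgn v σ • ∑ w ∈ σ.erase v,
    CDD_sgn w (σ.erase v) • x ((σ.erase v).erase w) = 0
  have h1 : ∀ v ∈ σ, CDD_sgn v σ • ∑ w ∈ σ.erase v,
      CDD_sgn w (σ.erase v) • x ((σ.erase v).erase w) =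
      ∑ w ∈ σ.erase v, (CDD_sgn v σ * CDD_sgn w (σ.erase v)) • x ((σ.erase v).erase w) := by
    intro v _
    rw [Finset.smul_sum]
    exact Finset.sum_congr rfl (fun w _ => by rw [smul_smul])
  rw [Finset.sum_congr rfl h1, Finset.sum_sigma']
  refine Finset.sum_involution (fun p _ => (⟨p.2, p.1⟩ : Σ _ : V, V)) ?_ ?_ ?_ ?_
  · rintro ⟨v, w⟩ hp
    simp only [Finset.mem_sigma, Finset.mem_erase] at hp
    obtain ⟨hv, hwv, hw⟩ := hp
    change (CDD_sgn v σ * CDD_sgn w (σ.erase v)) • x ((σ.erase v).erase w) +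
      (CDD_sgn w σ * CDD_sgn v (σ.erase w)) • x ((σ.erase w).erase v) = 0
    rw [CDD_sgn_swap hv hw (Ne.symm hwv), Finset.erase_right_comm, neg_smul]
    exact neg_add_cancel _
  · rintro ⟨v, w⟩ hp _ h
    simp only [Finset.mem_sigma, Finset.mem_erase] at hp
    obtain ⟨hv, hwv, hw⟩ := hp
    have h' : w = v := congrArg Sigma.fst h
    exact hwv h'
  · rintro ⟨v, w⟩ hp
    simp only [Finset.mem_sigma, Finset.mem_erase] at hp ⊢
    obtain ⟨hv, hwv, hw⟩ := hp
    exact ⟨hw, Ne.symm hwv, hv⟩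
  · rintro ⟨v, w⟩ _
    rfl

theorem CDD_cd_add (x y : Finset V → M) : cd (x + y) = cd x + cd y := by
  funext σ; simp [cd, Finset.sum_add_distrib]

theorem CDD_cd_neg (x : Finset V → M) : cd (-x) = - cd x := by
  funext σ; simp [cd]

theorem CDD_cd_sub (x y : Finset V → M) : cd (x - y) = cd x - cd y := by
  rw [sub_eq_add_neg, CDD_cd_add, CDD_cd_neg, ← sub_eq_add_neg]

theorem CDD_cd_map (f : M →+ N) (x : Finset V → M) :
    cd (fun σ => f (x σ)) = fun σ => f (cd x σ) := by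
  funext σ; simp [cd, map_sum, map_zsmul]

theorem CDD_cd_zsmul (a : ℤ) (x : Finset V → M) : cd (fun σ => a • x σ) = fun σ => a • cd x σ :=
  CDD_cd_map (zsmulAddGroupHom a) x

end

section
variable {V U : Type*} [LinearOrder V] [LinearOrder U] {M N : Type*} [AddCommGroup M]
  [AddCommGroup N]

/-- The two differentials commute. -/
theorem CDD_comm (x : Finset V → Finset U → M) (σ : Finset V) (τ : Finset U) :
    cd (fun s => cd (x s) τ) σ = cd (fun t => cd (fun s => x s t) σ) τ := by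
  change ∑ v ∈ σ, CDD_sgn v σ • ∑ w ∈ τ, CDD_sgn w τ • x (σ.erase v) (τ.erase w) =
    ∑ w ∈ τ, CDD_sgn w τ • ∑ v ∈ σ, CDD_sgn v σ • x (σ.erase v) (τ.erase w)
  simp only [Finset.smul_sum]
  rw [Finset.sum_comm]
  refine Finset.sum_congr rfl fun w _ => Finset.sum_congr rfl fun v _ => ?_
  rw [smul_comm]

theorem CDD_dd_dd (x : Finset V → Finset U → M) (σ : Finset V) (τ : Finset U) :
    dd (dd x) σ τ = 0 := by
  have e1 : cd (fun s => dd x s τ) σ =
      cd (fun s => cd (fun s' => x s' τ) s) σ +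
        cd (fun s => ((-1 : ℤ) ^ s.card) • cd (x s) τ) σ := by
    have := CDD_cd_add (fun s => cd (fun s' => x s' τ) s)
      (fun s => ((-1 : ℤ) ^ s.card) • cd (x s) τ)
    exact congrFun this σ
  have e2 : cd (fun s => cd (fun s' => x s' τ) s) σ = 0 :=
    congrFun (CDD_cd_cd (fun s' => x s' τ)) σ
  have e3 : cd (dd x σ) τ = cd (fun t => cd (fun s => x s t) σ) τ +
      ((-1 : ℤ) ^ σ.card) • cd (cd (x σ)) τ := by
    have h1 := CDD_cd_add (fun t => cd (fun s => x s t) σ)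
      (fun t => ((-1 : ℤ) ^ σ.card) • cd (x σ) t)
    have h2 := CDD_cd_zsmul ((-1 : ℤ) ^ σ.card) (cd (x σ))
    have h3 := congrFun h1 τ
    have h4 := congrFun h2 τ
    calc cd (dd x σ) τ = cd ((fun t => cd (fun s => x s t) σ) +
        (fun t => ((-1 : ℤ) ^ σ.card) • cd (x σ) t)) τ := rfl
      _ = _ := h3
      _ = _ := by rw [Pi.add_apply, h4]
  have e4 : cd (cd (x σ)) τ = 0 := congrFun (CDD_cd_cd (x σ)) τ
  have e5 : cd (fun s => ((-1 : ℤ) ^ s.card) • cd (x s) τ) σ =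
      - (((-1 : ℤ) ^ σ.card) • cd (fun s => cd (x s) τ) σ) := by
    rw [CDD_cd_apply, CDD_cd_apply, Finset.smul_sum, ← Finset.sum_neg_distrib]
    refine Finset.sum_congr rfl fun v hv => ?_
    have h1 := Finset.card_erase_add_one hv
    have h2 : ((-1 : ℤ) ^ σ.card) = - ((-1 : ℤ) ^ (σ.erase v).card) := by
      rw [← h1, pow_succ]; ring
    rw [h2, neg_smul, neg_neg, smul_comm]
  change cd (fun s => dd x s τ) σ + ((-1 : ℤ) ^ σ.card) • cd (dd x σ) τ = 0
  rw [e1, e2, e3, e4, e5, smul_zero, add_zero, zero_add, CDD_comm]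
  exact neg_add_cancel _

end

theorem cdd_proof.{u} : Stmt_CDD.{u} := by
  intro p q A _
  refine ⟨fun x y σ => ?_, fun x y σ => ?_, fun x σ => ?_, fun B _ f x σ => ?_,
    fun x y σ τ => ?_, fun x y σ τ => ?_, fun x σ τ => CDD_dd_dd x σ τ, fun B _ f x σ τ => ?_⟩
  · exact congrFun (CDD_cd_add x y) σ
  · exact congrFun (CDD_cd_sub x y) σ
  · exact congrFun (CDD_cd_cd x) σ
  · exact congrFun (CDD_cd_map f x) σ
  · have h1 := congrFun (CDD_cd_add (fun s => x s τ) (fun s => y s τ)) σ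
    have h2 := congrFun (CDD_cd_add (x σ) (y σ)) τ
    change cd ((fun s => x s τ) + (fun s => y s τ)) σ +
      ((-1 : ℤ) ^ σ.card) • cd (x σ + y σ) τ = _
    rw [h1, h2]
    simp only [dd, Pi.add_apply, smul_add]
    abel
  · have h1 := congrFun (CDD_cd_sub (fun s => x s τ) (fun s => y s τ)) σ
    have h2 := congrFun (CDD_cd_sub (x σ) (y σ)) τ
    change cd ((fun s => x s τ) - (fun s => y s τ)) σ +
      ((-1 : ℤ) ^ σ.card) • cd (x σ - y σ) τ = _
    rw [h1, h2]
    simp only [dd, Pi.sub_apply, smul_sub]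
    abel
  · have h1 := congrFun (CDD_cd_map f (fun s => x s τ)) σ
    have h2 := congrFun (CDD_cd_map f (x σ)) τ
    change cd (fun s => f (x s τ)) σ + ((-1 : ℤ) ^ σ.card) • cd (fun t => f (x σ t)) τ =
      f (cd (fun s => x s τ) σ + ((-1 : ℤ) ^ σ.card) • cd (x σ) τ)
    rw [map_add, map_zsmul]
    exact congrArg₂ (· + ·) h1 (congrArg _ h2)

end

end Pool.Agent.DBX.ALG
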