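import Pool.Agent.DBX.ALG.Stmts

set_option autoImplicit false

/-! # MP_2c751f_ag, squad DBX, area ALG, module CL1: Claim 1 -/

namespace Pool.Agent.DBX.ALG

open MvPolynomial Pool.Agent.DBX

universe u

theorem CL1_charZero_Kx (k : Type u) [Field k] [CharZero k] (n : ℕ) : CharZero (Kx k n) :=
  charZero_of_injective_algebraMap (R := k) (algebraMap k (Kx k n)).injective

theorem cl1_proof (hQZ0 : Pool.Agent.DBX.Stmt_QZ0.{u}) (hST1 : Stmt_ST1.{u})
    (hBCD : Stmt_BCD.{u}) (hCLS : Stmt_CLS.{u}) : Pool.Agent.DBX.Stmt_CL1.{u} := by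
  intro k _ _ n
  induction n generalizing k with
  | zero =>
    intro D r c h m g _
    exact hQZ0 k 0 D (c + r - 2) h.good h.db (by omega) m g
  | succ n ih =>
    intro D r c h m g hg
    have hc := h.c1
    have hr := h.r2
    by_cases hn : n + 1 ≤ c + r - 2 + 1
    · exact hQZ0 k (n + 1) D (c + r - 2) h.good h.db hn m g
    · have hn1 : 1 ≤ n := by omega
      haveI := CL1_charZero_Kx k n
      have hsec : D.sec.Cls r c := hCLS.1 k n D r c hn1 h
      have h1 : ∀ m g, g ≤ r → D.sec.QZ m g := ih (Kx k n) D.sec r c hsec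
      have h2 := hST1 k n D r c hn1 h (by omega) h1 m g hg
      exact (hBCD k n D h.good m g).1 h2

end Pool.Agent.DBX.ALG
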