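import Pool.Agent.DBX.ALG.Stmts

set_option autoImplicit false

namespace Pool.Agent.DBX.ALG

open MvPolynomial Pool.Agent.DBX

universe u

namespace CL2_

theorem cd_empty {V : Type*} [LinearOrder V] {M : Type*} [AddCommGroup M] (x : Finset V → M) :
    cd x ∅ = 0 := by
  simp [cd]

theorem cd_zero {V : Type*} [LinearOrder V] {M : Type*} [AddCommGroup M] (x : Finset V → M)
    (hx : ∀ s, x s = 0) (s : Finset V) : cd x s = 0 := by
  simp [cd, hx]

theorem cd_mem {V : Type*} [LinearOrder V] {K M : Type*} [Field K] [AddCommGroup M] [Module K M]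
    (S : Submodule K M) (x : Finset V → M) (s : Finset V) (h : ∀ v ∈ s, x (s.erase v) ∈ S) :
    cd x s ∈ S := by
  unfold cd
  exact S.sum_mem (fun v hv => S.toAddSubgroup.zsmul_mem (h v hv) _)

theorem dd_empty_right {V U : Type*} [LinearOrder V] [LinearOrder U] {M : Type*} [AddCommGroup M]
    (X : Finset V → Finset U → M) (s : Finset V) : dd X s ∅ = cd (fun s' => X s' ∅) s := by
  unfold dd
  rw [cd_empty, smul_zero, add_zero]

theorem dd_empty_left {V U : Type*} [LinearOrder V] [LinearOrder U] {M : Type*} [AddCommGroup M]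
    (X : Finset V → Finset U → M) (h : ∀ t, X ∅ t = 0) (t : Finset U) : dd X ∅ t = 0 := by
  unfold dd
  rw [cd_empty, cd_zero (X ∅) h, smul_zero, add_zero]

variable {k : Type u} [Field k] {n : ℕ}

theorem InQ_dd (D : Dat k n)
    (hE : ∀ σ σ' τ τ', σ ⊆ σ' → τ ⊆ τ' → D.E σ τ ≤ D.E σ' τ' ∧ ∀ m, D.Eg m σ τ ≤ D.Eg m σ' τ')
    (m : ℤ) (X : Finset (Fin D.p) → Finset (Fin D.M) → Fr k n) (hX : D.InQ m X) :
    D.InQ m (dd X) := by
  refine ⟨?_, ?_⟩
  · intro τ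
    exact dd_empty_left X hX.1 τ
  · intro σ τ
    unfold dd
    refine Submodule.add_mem _ ?_ ?_
    · exact cd_mem _ _ _ (fun v _ => (hE _ _ _ _ (Finset.erase_subset v σ)
        (Finset.Subset.refl τ)).2 m (hX.2 _ _))
    · refine (D.Eg m σ τ).toAddSubgroup.zsmul_mem ?_ _
      exact cd_mem _ _ _ (fun v _ => (hE _ _ _ _ (Finset.Subset.refl σ)
        (Finset.erase_subset v τ)).2 m (hX.2 _ _))

theorem InQ_add (D : Dat k n) (m : ℤ) (X Y : Finset (Fin D.p) → Finset (Fin D.M) → Fr k n)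
    (hX : D.InQ m X) (hY : D.InQ m Y) : D.InQ m (X + Y) :=
  ⟨fun τ => by rw [Pi.add_apply, Pi.add_apply, hX.1, hY.1, add_zero],
    fun σ τ => Submodule.add_mem _ (hX.2 σ τ) (hY.2 σ τ)⟩

theorem InQ_sub (D : Dat k n) (m : ℤ) (X Y : Finset (Fin D.p) → Finset (Fin D.M) → Fr k n)
    (hX : D.InQ m X) (hY : D.InQ m Y) : D.InQ m (X - Y) :=
  ⟨fun τ => by rw [Pi.sub_apply, Pi.sub_apply, hX.1, hY.1, sub_zero],
    fun σ τ => Submodule.sub_mem _ (hX.2 σ τ) (hY.2 σ τ)⟩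

/-- cochain placed at `τ = ∅` -/
noncomputable def pl {p q : ℕ} {A : Type u} [AddCommGroup A] (x : Finset (Fin p) → A)
    (s : Finset (Fin p)) (t : Finset (Fin q)) : A :=
  if t = ∅ then x s else 0

theorem pl_InQ (D : Dat k n) (m : ℤ) (x : Finset (Fin D.p) → Fr k n) (h0 : x ∅ = 0)
    (hx : ∀ σ, x σ ∈ D.Eg m σ ∅) : D.InQ m (pl x) := by
  refine ⟨fun τ => ?_, fun σ τ => ?_⟩
  · unfold pl
    split_ifs
    · exact h0
    · rfl
  · unfold pl
    split_ifs with h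
    · rw [h]
      exact hx σ
    · exact Submodule.zero_mem _

theorem InQ_mul (D : Dat k n) (hM : (∀ σ τ, ∀ w : Pol k n, ∀ x ∈ D.E σ τ, inc k n w * x ∈ D.E σ τ) ∧
      (∀ (d : ℕ) (m : ℤ) (w : Pol k n), w.IsHomogeneous d → ∀ x ∈ HF k n m,
      inc k n w * x ∈ HF k n (m + d)))
    (m : ℤ) (l : Pol k n) (hl : l.IsHomogeneous 1)
    (X : Finset (Fin D.p) → Finset (Fin D.M) → Fr k n) (hX : D.InQ m X) :
    D.InQ (m + 1) (fun s t => inc k n l * X s t) := by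
  refine ⟨fun τ => by simp only [hX.1, mul_zero], fun σ τ => ⟨hM.1 _ _ _ _ (hX.2 σ τ).1, ?_⟩⟩
  have := hM.2 1 m l hl _ (hX.2 σ τ).2
  rwa [Nat.cast_one] at this

theorem lgen_hom : (lgen k n).IsHomogeneous 1 := by
  unfold lgen
  refine (isHomogeneous_X _ _).sub ?_
  refine IsHomogeneous.sum _ _ _ (fun i _ => ?_)
  have := (isHomogeneous_C (Fin (n + 1)) (vv k n i)).mul (isHomogeneous_X (Kx k n) i.castSucc)
  rwa [zero_add] at this

theorem lgen_ne : lgen k n ≠ 0 := by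
  intro h
  have h1 := congrArg (MvPolynomial.coeff (Finsupp.single (Fin.last n) 1)) h
  unfold lgen at h1
  rw [coeff_sub, coeff_sum, coeff_zero, coeff_X] at h1
  have h2 : ∀ i : Fin n, coeff (Finsupp.single (Fin.last n) 1)
      (C (vv k n i) * X i.castSucc : MvPolynomial (Fin (n + 1)) (Kx k n)) = 0 := by
    intro i
    rw [coeff_C_mul, coeff_X, if_neg, mul_zero]
    intro h3
    have h4 := Finsupp.single_left_injective (one_ne_zero) h3
    exact (Fin.castSucc_lt_last i).ne h4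
  rw [Finset.sum_eq_zero (fun i _ => h2 i), sub_zero, if_pos rfl] at h1
  exact one_ne_zero h1

theorem core (D : Dat k n) (l : Pol k n) (hl : l.IsHomogeneous 1) (r : ℕ) (hr : 1 ≤ r)
    (hCDD : Stmt_CDD.{u}) (hDEG : Stmt_DEG.{u})
    (hE : ∀ σ σ' τ τ', σ ⊆ σ' → τ ⊆ τ' → D.E σ τ ≤ D.E σ' τ' ∧ ∀ m, D.Eg m σ τ ≤ D.Eg m σ' τ')
    (hM : (∀ σ τ, ∀ w : Pol k n, ∀ x ∈ D.E σ τ, inc k n w * x ∈ D.E σ τ) ∧
      (∀ (d : ℕ) (m : ℤ) (w : Pol k n), w.IsHomogeneous d → ∀ x ∈ HF k n m,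
      inc k n w * x ∈ HF k n (m + d)))
    (H1 : ∀ z, D.InB (-1) z → (∀ σ τ, σ.card + τ.card ≠ r + 1 + 1 → z σ τ = 0) → dd z = 0 →
      ∃ y, D.InB (-1) y ∧ dd y = z)
    (H2 : ∀ z, D.InB 0 z → dd z = 0 → ∃ y, D.InQ 0 y ∧ dd y = z)
    (H3 : ∀ z, D.InQ (-1) z → (∀ σ τ, σ.card + τ.card ≠ r + 1 → z σ τ = 0) → dd z = 0 →
      ∀ u, D.InQ 0 u → (∀ σ τ, dd u σ τ = inc k n l * z σ τ) → ∃ y, D.InQ (-1) y ∧ dd y = z)
    (x : Finset (Fin D.p) → Fr k n) (hx0 : x ∅ = 0) (hx : ∀ σ, x σ ∈ D.Eg (-1) σ ∅)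
    (hxc : ∀ σ, σ.card ≠ r + 1 → x σ = 0) (hxd : ∀ σ, cd x σ = 0)
    (u : Finset (Fin D.p) → Fr k n) (hu : ∀ σ, u σ ∈ D.Eg 0 σ ∅)
    (hcu : ∀ σ, cd u σ = inc k n l * x σ) :
    ∃ y : Finset (Fin D.p) → Fr k n, y ∅ = 0 ∧ (∀ σ, y σ ∈ D.Eg (-1) σ ∅) ∧
      ∀ σ, cd y σ = x σ := by
  obtain ⟨ca, cs, cc, cf, da, ds, d2, df⟩ := hCDD D.p D.M (Fr k n)
  obtain ⟨gc, gd⟩ := hDEG D.p D.M (Fr k n)
  have hx' : D.InQ (-1) (pl x) := pl_InQ D (-1) x hx0 hx
  have hplc : ∀ (s : Finset (Fin D.p)) (t : Finset (Fin D.M)), s.card + t.card ≠ r + 1 →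
      (pl x s t : Fr k n) = 0 := by
    intro s t h
    unfold pl
    split_ifs with h1
    · rw [h1, Finset.card_empty, add_zero] at h
      exact hxc s h
    · rfl
  have hple : (fun (s : Finset (Fin D.p)) (t : Finset (Fin D.M)) =>
      if s.card + t.card = r + 1 then (pl x s t : Fr k n) else 0) = pl x := by
    funext s t
    split_ifs with h
    · rfl
    · exact (hplc s t h).symm
  -- the boundary of x at τ = ∅
  have hec : ∀ (s : Finset (Fin D.p)) (t : Finset (Fin D.M)), s.card + t.card ≠ r + 1 + 1 →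
      dd (pl x : Finset (Fin D.p) → Finset (Fin D.M) → Fr k n) s t = 0 := by
    intro s t h
    have := gd (pl x) (r + 1) s t
    rw [hple, if_neg h] at this
    exact this
  have heB : D.InB (-1) (dd (pl x)) := by
    refine ⟨InQ_dd D hE (-1) _ hx', fun s => ?_⟩
    rw [dd_empty_right]
    exact hxd s
  obtain ⟨b, hbB, hbe⟩ := H1 (dd (pl x)) heB hec (by funext s t; exact d2 _ s t)
  obtain ⟨b', hb'B, hb'e, hb'c⟩ : ∃ b' : Finset (Fin D.p) → Finset (Fin D.M) →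
      Fr k n, D.InB (-1) b' ∧ (∀ s t, dd b' s t = dd (pl x) s t) ∧
      ∀ s t, s.card + t.card ≠ r + 1 → b' s t = 0 := by
    refine ⟨fun s t => if s.card + t.card = r + 1 then b s t else 0, ⟨⟨fun t => ?_, fun s t => ?_⟩,
      fun s => ?_⟩, fun s t => ?_, fun s t h => if_neg h⟩
    · show (if _ then b ∅ t else 0) = 0
      rw [hbB.1.1 t, ite_self]
    · show (if _ then b s t else 0) ∈ _
      split_ifs
      · exact hbB.1.2 s t
      · exact Submodule.zero_mem _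
    · show (if _ then b s ∅ else 0) = 0
      rw [hbB.2 s, ite_self]
    · have h1 := gd b (r + 1) s t
      refine h1.trans ?_
      split_ifs with h2
      · exact congrFun (congrFun hbe s) t
      · exact (hec s t h2).symm
  obtain ⟨q, hqQ, hqd, hqc, hqe⟩ : ∃ q : Finset (Fin D.p) → Finset (Fin D.M) → Fr k n,
      D.InQ (-1) q ∧ (∀ s t, dd q s t = 0) ∧ (∀ s t, s.card + t.card ≠ r + 1 → q s t = 0) ∧
      ∀ s, q s ∅ = x s := by
    refine ⟨pl x - b', InQ_sub D (-1) _ _ hx' hb'B.1, fun s t => ?_, fun s t h => ?_,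
      fun s => ?_⟩
    · rw [ds, hb'e, sub_self]
    · rw [Pi.sub_apply, Pi.sub_apply, hplc s t h, hb'c s t h, sub_zero]
    · rw [Pi.sub_apply, Pi.sub_apply, hb'B.2 s, sub_zero]
      exact if_pos rfl
  -- the cochain u
  obtain ⟨u', hu'0, hu'm, hu'd⟩ : ∃ u' : Finset (Fin D.p) → Fr k n, u' ∅ = 0 ∧
      (∀ s, u' s ∈ D.Eg 0 s ∅) ∧ ∀ s, cd u' s = inc k n l * x s := by
    refine ⟨fun s => if s.card = r then u s else 0, ?_, fun s => ?_, fun s => ?_⟩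
    · refine if_neg ?_
      rw [Finset.card_empty]
      omega
    · show (if _ then u s else 0) ∈ _
      split_ifs
      · exact hu s
      · exact Submodule.zero_mem _
    · rw [gc u r s, hcu]
      split_ifs with h
      · rfl
      · rw [hxc s h, mul_zero]
  have hUQ : D.InQ 0 (pl u') := pl_InQ D 0 u' hu'0 hu'm
  have hlq : D.InQ 0 (fun s t => inc k n l * q s t) := by
    have := InQ_mul D hM (-1) l hl _ hqQ
    rwa [neg_add_cancel] at this
  have hldd : ∀ (s : Finset (Fin D.p)) (t : Finset (Fin D.M)),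
      dd (fun s t => inc k n l * q s t) s t = 0 := by
    intro s t
    have h1 := df _ (AddMonoidHom.mulLeft (inc k n l : Fr k n)) q s t
    rw [hqd, map_zero] at h1
    exact h1
  have he'B : D.InB 0 ((fun s t => inc k n l * q s t) - dd (pl u')) := by
    refine ⟨InQ_sub D 0 _ _ hlq (InQ_dd D hE 0 _ hUQ), fun s => ?_⟩
    rw [Pi.sub_apply, Pi.sub_apply, dd_empty_right, hqe]
    have : cd (fun s' => (pl u' s' (∅ : Finset (Fin D.M)) : Fr k n)) s = cd u' s := rfl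
    rw [this, hu'd, sub_self]
  obtain ⟨y, hyQ, hye⟩ := H2 _ he'B (by
    funext s t
    rw [ds, d2, hldd, sub_zero]
    rfl)
  obtain ⟨w, hwQ, hwe⟩ := H3 q hqQ hqc (by funext s t; exact hqd s t) (pl u' + y)
    (InQ_add D 0 _ _ hUQ hyQ) (by
      intro s t
      rw [da, hye]
      simp only [Pi.sub_apply]
      ring)
  refine ⟨fun s => w s ∅, hwQ.1 ∅, fun s => hwQ.2 s ∅, fun s => ?_⟩
  rw [← dd_empty_right w s, hwe, hqe]

end CL2_

open CL2_ in
theorem cl2_proof (hVAN : Pool.Agent.DBX.Stmt_VAN.{u}) (hINH : Pool.Agent.DBX.Stmt_INH.{u})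
    (hSUR0 : Pool.Agent.DBX.Stmt_SUR0.{u}) (hBCU : Stmt_BCU.{u}) (hLIN : Stmt_LIN.{u})
    (hBZE : Stmt_BZE.{u}) (hCL1 : Pool.Agent.DBX.Stmt_CL1.{u}) (hCLS : Stmt_CLS.{u})
    (hCDD : Stmt_CDD.{u}) (hDEG : Stmt_DEG.{u}) (hEMO : Stmt_EMO.{u}) (hEML : Stmt_EML.{u}) :
    Pool.Agent.DBX.Stmt_CL2.{u} := by
  intro k _ _ n D r c hn hcls hcr x hx0 hx hxc hxd u hu hcu
  have hCZ : CharZero (Kx k n) :=
    charZero_of_injective_algebraMap (algebraMap k (Kx k n)).injective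
  obtain ⟨hg', hsg, hls, -⟩ := hINH k n D hn hcls.good
  obtain ⟨hH, -⟩ := hls hcls.ls
  obtain ⟨t0, ht0⟩ := hVAN k (n + 1) D r c hcls.good hcls.c1 (by omega) hcls.pd
  obtain ⟨t, ht1, htt⟩ : ∃ t : ℕ, 1 ≤ t ∧ t0 ≤ t := ⟨max t0 1, le_max_right _ _, le_max_left _ _⟩
  have hAZ : D.bc.AZ (-(t : ℤ)) (r + 1) := by
    refine (hBCU k n D hcls.good _ _).1 (ht0 t htt (r + 1) ?_)
    have h2 : min r (n + 1 - c - 1) = r := min_eq_left (by omega)
    rw [h2]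
  have hM := hEML (Kx k n) (n + 1) D.bc
  have hLS : D.bc.LogSmooth := by
    intro a b q hq
    obtain ⟨s, hs, t, e, hc, -⟩ := hH a b q hq
    exact ⟨s, hs, t, e, hc⟩
  have hsQ : D.sec.QZ 0 r := hCL1 (Kx k n) n D.sec r c (hCLS.1 k n D r c hn hcls) 0 r le_rfl
  have H3 := hLIN k n D hn hcls.good 0 r hsQ
  rw [zero_sub] at H3
  exact core D.bc (lgen k n) lgen_hom r (by have := hcls.r2; omega) hCDD hDEG
    (hEMO (Kx k n) (n + 1) D.bc) ⟨hM.1, hM.2.1⟩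
    (hBZE (Kx k n) (n + 1) D.bc (lgen k n) hg' lgen_hom lgen_ne hH (r + 1) t ht1 hAZ)
    (hSUR0 (Kx k n) (n + 1) D.bc hg' hLS) H3 x hx0 hx hxc hxd u hu hcu

end Pool.Agent.DBX.ALG
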