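import Pool.Agent.DBX.ALG.Stmts

set_option autoImplicit false

/-! # MP_2c751f_ag, squad DBX, area ALG, module CLA: exact columns over `D(g_a)` -/

namespace Pool.Agent.DBX.ALG

open MvPolynomial Pool.Agent.DBX

noncomputable section

universe u

theorem CLA_cd_sum {V : Type*} [LinearOrder V] {M : Type*} [AddCommGroup M] {ι : Type*}
    (T : Finset ι) (Z : Finset V → ι → M) (σ : Finset V) :
    cd (fun s => ∑ j ∈ T, Z s j) σ = ∑ j ∈ T, cd (fun s => Z s j) σ := by
  unfold cd
  rw [Finset.sum_comm]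
  refine Finset.sum_congr rfl ?_
  intro v _
  rw [Finset.smul_sum]

theorem CLA_cd_zero {V : Type*} [LinearOrder V] {M : Type*} [AddCommGroup M] (σ : Finset V) :
    cd (fun _ => (0 : M)) σ = 0 := by
  unfold cd
  exact Finset.sum_eq_zero (fun v _ => smul_zero _)

theorem CLA_cd_mem {k : Type u} [Field k] {F : Type u} [AddCommGroup F] [Module k F]
    (P : Submodule k F) {V : Type*} [LinearOrder V] (x : Finset V → F)
    (hx : ∀ s, x s ∈ P) (σ : Finset V) : cd x σ ∈ P := by
  unfold cd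
  refine P.sum_mem ?_
  intro v _
  exact P.toAddSubgroup.zsmul_mem (hx _) _

theorem CLA_cd_mul {F : Type u} [Field F] {V : Type*} [LinearOrder V] (c : F)
    (x : Finset V → F) (σ : Finset V) : cd (fun s => c * x s) σ = c * cd x σ := by
  unfold cd
  rw [Finset.mul_sum]
  refine Finset.sum_congr rfl ?_
  intro v _
  rw [mul_smul_comm]

/-- homogeneous components of a primitive -/
theorem CLA_comp (hEML : Stmt_EML.{u}) (hHFI : Stmt_HFI.{u}) (hEGR : Stmt_EGR.{u})
    (k : Type u) [Field k] (n : ℕ) (D : Dat k n) (hD : D.Good) (a : Fin D.p) (m : ℤ)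
    (x : Finset (Fin D.M) → Fr k n) (hx : ∀ τ, x τ ∈ D.Eg m {a} τ)
    (s : Pol k n) (y : Finset (Fin D.M) → Fr k n) (hy : ∀ τ, y τ ∈ D.E {a} τ)
    (hcd : ∀ τ, cd y τ = inc k n s * x τ) (d : ℕ) :
    ∃ y' : Finset (Fin D.M) → Fr k n, (∀ τ, y' τ ∈ D.Eg (m + d) {a} τ) ∧
      ∀ τ, cd y' τ = inc k n (homogeneousComponent d s) * x τ := by
  classical
  choose T Y hY hyT using fun τ => hEGR k n D hD {a} τ (y τ) (hy τ)
  -- components extended by zero
  let Z : Finset (Fin D.M) → ℤ → Fr k n := fun τ j => if j ∈ T τ then Y τ j else 0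
  have hZ : ∀ τ j, Z τ j ∈ D.Eg j {a} τ := by
    intro τ j
    by_cases h : j ∈ T τ
    · have : Z τ j = Y τ j := if_pos h
      rw [this]; exact hY τ j
    · have : Z τ j = 0 := if_neg h
      rw [this]; exact Submodule.zero_mem _
  let T0 : Finset ℤ := (Finset.univ.biUnion T) ∪
    ((Finset.range (s.totalDegree + 1)).image (fun i : ℕ => m + (i : ℤ))) ∪ {m + (d : ℤ)}
  have hsub : ∀ τ, T τ ⊆ T0 := by
    intro τ j hj
    refine Finset.mem_union_left _ (Finset.mem_union_left _ ?_)
    exact Finset.mem_biUnion.mpr ⟨τ, Finset.mem_univ _, hj⟩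
  have hsum : ∀ τ, y τ = ∑ j ∈ T0, Z τ j := by
    intro τ
    rw [hyT τ]
    have h1 : ∑ j ∈ T τ, Y τ j = ∑ j ∈ T τ, Z τ j :=
      Finset.sum_congr rfl (fun j hj => (if_pos hj).symm)
    rw [h1]
    exact Finset.sum_subset (hsub τ) (fun j _ hj => if_neg hj)
  -- components of `s * x τ`
  let W : Finset (Fin D.M) → ℤ → Fr k n := fun τ j =>
    if m ≤ j then inc k n (homogeneousComponent (j - m).toNat s) * x τ else 0
  have hW : ∀ τ j, W τ j ∈ HF k n j := by
    intro τ j
    by_cases h : m ≤ j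
    · have e1 : W τ j = inc k n (homogeneousComponent (j - m).toNat s) * x τ := if_pos h
      rw [e1]
      have h1 := (hEML k n D).2.1 (j - m).toNat m _
        (homogeneousComponent_isHomogeneous (j - m).toNat s) (x τ) (hx τ).2
      have e2 : m + (((j - m).toNat : ℕ) : ℤ) = j := by
        rw [Int.toNat_of_nonneg (by omega)]; omega
      rw [e2] at h1
      exact h1
    · have e1 : W τ j = 0 := if_neg h
      rw [e1]; exact Submodule.zero_mem _
  have hWsum : ∀ τ, ∑ j ∈ T0, W τ j = inc k n s * x τ := by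
    intro τ
    have himg : ((Finset.range (s.totalDegree + 1)).image (fun i : ℕ => m + (i : ℤ))) ⊆ T0 := by
      intro j hj
      exact Finset.mem_union_left _ (Finset.mem_union_right _ hj)
    have h1 : ∑ j ∈ (Finset.range (s.totalDegree + 1)).image (fun i : ℕ => m + (i : ℤ)), W τ j =
        ∑ j ∈ T0, W τ j := by
      refine Finset.sum_subset himg ?_
      intro j _ hj
      by_cases h : m ≤ j
      · have e1 : W τ j = inc k n (homogeneousComponent (j - m).toNat s) * x τ := if_pos h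
        rw [e1]
        have h2 : s.totalDegree < (j - m).toNat := by
          by_contra hlt
          apply hj
          refine Finset.mem_image.mpr ⟨(j - m).toNat, ?_, ?_⟩
          · rw [Finset.mem_range]; omega
          · rw [Int.toNat_of_nonneg (by omega)]; omega
        rw [homogeneousComponent_eq_zero _ _ h2, map_zero, zero_mul]
      · exact if_neg h
    rw [← h1, Finset.sum_image (by
      intro i _ i' _ h
      have : (m : ℤ) + (i : ℤ) = m + (i' : ℤ) := h
      omega)]
    have h3 : ∀ i ∈ Finset.range (s.totalDegree + 1), W τ (m + (i : ℤ)) =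
        inc k n (homogeneousComponent i s) * x τ := by
      intro i _
      have e1 : W τ (m + (i : ℤ)) =
          inc k n (homogeneousComponent (m + (i : ℤ) - m).toNat s) * x τ := if_pos (by omega)
      have e2 : (m + (i : ℤ) - m).toNat = i := by omega
      rw [e1, e2]
    rw [Finset.sum_congr rfl h3, ← Finset.sum_mul, ← map_sum, sum_homogeneousComponent]
  refine ⟨fun τ => Z τ (m + d), fun τ => hZ τ (m + d), ?_⟩
  intro τ
  have hzero : ∑ j ∈ T0, (cd (fun s => Z s j) τ - W τ j) = 0 := by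
    rw [Finset.sum_sub_distrib, hWsum τ, ← hcd τ, ← CLA_cd_sum]
    have : y = fun s => ∑ j ∈ T0, Z s j := funext hsum
    rw [← this, sub_self]
  have hcomp := hHFI k n T0 (fun j => cd (fun s => Z s j) τ - W τ j) (by
    intro j
    refine Submodule.sub_mem _ ?_ (hW τ j)
    exact CLA_cd_mem (HF k n j) (fun s => Z s j) (fun s => (hZ s j).2) τ) hzero (m + d)
    (Finset.mem_union_right _ (Finset.mem_singleton_self _))
  have e3 : W τ (m + (d : ℤ)) = inc k n (homogeneousComponent d s) * x τ := by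
    have e1 : W τ (m + (d : ℤ)) =
        inc k n (homogeneousComponent (m + (d : ℤ) - m).toNat s) * x τ := if_pos (by omega)
    have e2 : (m + (d : ℤ) - m).toNat = d := by omega
    rw [e1, e2]
  rw [← e3]
  exact sub_eq_zero.mp hcomp

theorem cla_proof (_hCDD : Stmt_CDD.{u}) (hEML : Stmt_EML.{u}) (hHFI : Stmt_HFI.{u})
    (hEGR : Stmt_EGR.{u}) (hHCO : Stmt_HCO.{u}) (hHHT : Stmt_HHT.{u}) : Stmt_CLA.{u} := by
  intro k _ n D e hD hDB hne a m x hx hcdx
  have hcomp := CLA_comp hEML hHFI hEGR k n D hD a m x hx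
  -- the ideal
  let J : Ideal (Pol k n) :=
    { carrier := {s | ∃ y : Finset (Fin D.M) → Fr k n, (∀ τ, y τ ∈ D.E {a} τ) ∧
        ∀ τ, cd y τ = inc k n s * x τ}
      add_mem' := by
        rintro s s' ⟨y, hy, hy2⟩ ⟨y', hy', hy2'⟩
        refine ⟨y + y', fun τ => Submodule.add_mem _ (hy τ) (hy' τ), ?_⟩
        intro τ
        rw [(_hCDD D.M D.M (Fr k n)).1 y y' τ, hy2 τ, hy2' τ, map_add, add_mul]
      zero_mem' := by
        refine ⟨fun _ => 0, fun τ => Submodule.zero_mem _, ?_⟩
        intro τ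
        rw [map_zero, zero_mul]
        exact CLA_cd_zero τ
      smul_mem' := by
        rintro c s ⟨y, hy, hy2⟩
        refine ⟨fun τ => inc k n c * y τ, fun τ => (hEML k n D).1 {a} τ c (y τ) (hy τ), ?_⟩
        intro τ
        rw [CLA_cd_mul, hy2 τ, smul_eq_mul, map_mul, mul_assoc] }
  have hJ : ∀ s, s ∈ J ↔ ∃ y : Finset (Fin D.M) → Fr k n, (∀ τ, y τ ∈ D.E {a} τ) ∧
        ∀ τ, cd y τ = inc k n s * x τ := fun s => Iff.rfl
  have hJhom : HomIdeal J := by
    intro s hs d
    obtain ⟨y, hy, hy2⟩ := (hJ s).mp hs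
    obtain ⟨y', hy', hy2'⟩ := hcomp s y hy hy2 d
    exact (hJ _).mpr ⟨y', fun τ => (hy' τ).1, hy2'⟩
  by_cases hN : ∃ N : ℕ, D.g a ^ N ∈ J
  · obtain ⟨N, hN⟩ := hN
    obtain ⟨y, hy, hy2⟩ := (hJ _).mp hN
    have hpow : ∀ (N : ℕ) (τ : Finset (Fin D.M)) (z : Fr k n), z ∈ D.E {a} τ →
        ((inc k n (D.g a))⁻¹) ^ N * z ∈ D.E {a} τ := by
      intro N τ z hz
      induction N with
      | zero => rw [pow_zero, one_mul]; exact hz
      | succ N ih =>
        rw [pow_succ', mul_assoc]
        exact (hEML k n D).2.2.2 {a} τ a (Finset.mem_singleton_self a) _ ih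
    have hg : inc k n (D.g a) ≠ 0 := inc_ne (hD.g_ne a)
    obtain ⟨y', hy', hy2'⟩ := hcomp 1 (fun τ => ((inc k n (D.g a))⁻¹) ^ N * y τ)
      (fun τ => hpow N τ (y τ) (hy τ)) (by
        intro τ
        rw [CLA_cd_mul, hy2 τ, map_pow, map_one, one_mul, ← mul_assoc, ← mul_pow,
          inv_mul_cancel₀ hg, one_pow, one_mul]) 0
    refine ⟨y', ?_, ?_⟩
    · intro τ
      have := hy' τ
      rwa [Nat.cast_zero, add_zero] at this
    · intro τ
      have h1 : homogeneousComponent 0 (1 : Pol k n) = 1 := by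
        rw [homogeneousComponent_zero]
        simp
      rw [hy2' τ, h1, map_one, one_mul]
  · exfalso
    push Not at hN
    obtain ⟨q, hqp, hqh, hJq, hgq⟩ := hHCO k n J (D.g a) 1 hJhom (hD.g_hom a) hN
    have hht := hHHT k n q hqp hqh (D.g a) (hD.g_hom a) hgq
    have hle : q.height ≤ (e : ℕ∞) := by
      have h1 : q.height + 1 ≤ (e : ℕ∞) + 1 := by
        refine hht.trans ?_
        exact_mod_cast hne
      exact (ENat.add_le_add_iff_right (by simp)).mp h1
    obtain ⟨s, hsq, y, hy, hy2⟩ := hDB q hqp hqh hle a hgq x (fun τ => (hx τ).1) hcdx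
    exact hsq (hJq ((hJ s).mpr ⟨y, hy, hy2⟩))

end

end Pool.Agent.DBX.ALG
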