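import Pool.Agent.DBX.ALG.Stmts

set_option autoImplicit false

/-! # MP_2c751f_ag, squad DBX, area ALG, module CLB: exact columns -/

namespace Pool.Agent.DBX.ALG

open MvPolynomial Pool.Agent.DBX

noncomputable section

universe u

namespace CLB_

theorem cd_mul {F : Type*} [Field F] {V : Type*} [LinearOrder V] (c : F)
    (x : Finset V → F) (σ : Finset V) : cd (fun s => c * x s) σ = c * cd x σ := by
  unfold cd
  rw [Finset.mul_sum]
  refine Finset.sum_congr rfl ?_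
  intro v _
  rw [mul_smul_comm]

/-- division by the product of the `g b` -/
theorem inv_prod (hEML : Stmt_EML.{u}) {k : Type u} [Field k] {n : ℕ} (D : Dat k n)
    (σ : Finset (Fin D.p)) (τ : Finset (Fin D.M)) :
    ∀ (s : Finset (Fin D.p)), s ⊆ σ → ∀ y ∈ D.E σ τ,
      (inc k n (∏ b ∈ s, D.g b))⁻¹ * y ∈ D.E σ τ := by
  classical
  intro s
  induction s using Finset.induction_on with
  | empty =>
    intro _ y hy
    rw [Finset.prod_empty, map_one, inv_one, one_mul]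
    exact hy
  | insert b s hb ih =>
    intro hs y hy
    rw [Finset.prod_insert hb, map_mul, mul_inv, mul_assoc]
    refine (hEML k n D).2.2.2 σ τ b (hs (Finset.mem_insert_self _ _)) _ ?_
    exact ih (fun z hz => hs (Finset.mem_insert_of_mem hz)) y hy

theorem inv_pow (hEML : Stmt_EML.{u}) {k : Type u} [Field k] {n : ℕ} (D : Dat k n)
    (σ : Finset (Fin D.p)) (τ : Finset (Fin D.M)) (N : ℕ) :
    ∀ y ∈ D.E σ τ, (inc k n ((∏ b ∈ σ, D.g b) ^ N))⁻¹ * y ∈ D.E σ τ := by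
  induction N with
  | zero =>
    intro y hy
    rw [pow_zero, map_one, inv_one, one_mul]
    exact hy
  | succ N ih =>
    intro y hy
    rw [pow_succ, map_mul, mul_inv, mul_assoc]
    exact ih _ (inv_prod hEML D σ τ σ (Finset.Subset.refl _) y hy)

theorem hom_prod {k : Type u} [Field k] {n : ℕ} (D : Dat k n) (hD : D.Good)
    (σ : Finset (Fin D.p)) : (∏ b ∈ σ, D.g b).IsHomogeneous σ.card := by
  have h := MvPolynomial.IsHomogeneous.prod σ D.g (fun _ => 1) (fun b _ => hD.g_hom b)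
  simpa using h

end CLB_

open CLB_

theorem clb_proof (_hCDD : Stmt_CDD.{u}) (hEMO : Stmt_EMO.{u}) (hEML : Stmt_EML.{u})
    (hELO : Stmt_ELO.{u}) (hCLA : Stmt_CLA.{u}) : Stmt_CLB.{u} := by
  classical
  intro k _ n D e hD hDB hn σ hσ m x hx hcd
  obtain ⟨a, ha⟩ := hσ
  choose N0 hN0 using fun τ => hELO k n D hD.g_ne σ τ a ha (x τ) (hx τ).1
  let N : ℕ := ∑ τ : Finset (Fin D.M), N0 τ
  have hN : ∀ τ, inc k n ((∏ b ∈ σ, D.g b) ^ N) * x τ ∈ D.E {a} τ := by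
    intro τ
    have h1 : N0 τ ≤ N := Finset.single_le_sum (f := N0) (fun _ _ => Nat.zero_le _)
      (Finset.mem_univ τ)
    obtain ⟨K, hK⟩ := Nat.exists_eq_add_of_le h1
    rw [hK, pow_add, mul_comm ((∏ b ∈ σ, D.g b) ^ N0 τ), map_mul, mul_assoc]
    exact (hEML k n D).1 {a} τ _ _ (hN0 τ)
  have hG : ((∏ b ∈ σ, D.g b) ^ N).IsHomogeneous (σ.card * N) :=
    (hom_prod D hD σ).pow N
  have hG0 : (∏ b ∈ σ, D.g b) ^ N ≠ 0 :=
    pow_ne_zero _ (Finset.prod_ne_zero_iff.mpr (fun b _ => hD.g_ne b))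
  have hi0 : inc k n ((∏ b ∈ σ, D.g b) ^ N) ≠ 0 := inc_ne hG0
  obtain ⟨y, hy, hyc⟩ := hCLA k n D e hD hDB hn a (m + ((σ.card * N : ℕ) : ℤ))
    (fun τ => inc k n ((∏ b ∈ σ, D.g b) ^ N) * x τ)
    (fun τ => ⟨hN τ, (hEML k n D).2.1 _ m _ hG (x τ) (hx τ).2⟩)
    (fun τ => by rw [cd_mul, hcd τ, mul_zero])
  refine ⟨fun τ => (inc k n ((∏ b ∈ σ, D.g b) ^ N))⁻¹ * y τ, ?_, ?_⟩
  · intro τ
    refine ⟨?_, ?_⟩
    · have h2 : y τ ∈ D.E σ τ :=
        (hEMO k n D {a} σ τ τ (Finset.singleton_subset_iff.mpr ha) (Finset.Subset.refl _)).1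
          (hy τ).1
      exact inv_pow hEML D σ τ N _ h2
    · have h3 := (hEML k n D).2.2.1 _ _ _ hG (y τ) (hy τ).2
      have h4 : m + ((σ.card * N : ℕ) : ℤ) - ((σ.card * N : ℕ) : ℤ) = m := by ring
      rw [h4] at h3
      exact h3
  · intro τ
    rw [cd_mul, hyc τ, ← mul_assoc, inv_mul_cancel₀ hi0, one_mul]

end

end Pool.Agent.DBX.ALG
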