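import Pool.Agent.DBX.ALG.Stmts

set_option autoImplicit false

/-! # MP_2c751f_ag, squad DBX, area ALG, module CLS: inheritance of the class of data -/

namespace Pool.Agent.DBX.ALG

open MvPolynomial Pool.Agent.DBX

universe u

theorem cls_proof (hINH : Pool.Agent.DBX.Stmt_INH.{u}) (hINP : Pool.Agent.DBX.Stmt_INP.{u}) :
    Stmt_CLS.{u} := by
  refine ⟨?_, ?_⟩
  · intro k _ _ n D r c hn h
    obtain ⟨-, h1, h2, h3⟩ := hINH k n D hn h.good
    obtain ⟨h4, h5⟩ := hINP k n D r c hn h.good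
    exact ⟨h1, h.c1, h.r2, (h2 h.ls).2, h3 _ h.db, h4 h.pd, h5 h.dm⟩
  · intro k _ _ n D r r' c h2 hr h
    refine ⟨h.good, h.c1, h2, h.ls, ?_, ?_, h.dm⟩
    · intro q hq hh hht a ha
      exact h.db q hq hh (hht.trans (by exact_mod_cast (by omega : c + r' - 2 ≤ c + r - 2))) a ha
    · intro q hq hh hI ha e he
      have := h.pd q hh hI ha e he
      exact CategoryTheory.hasProjectiveDimensionLT_of_ge _ (max (e - r) c + 1)
        (max (e - r') c + 1) (by omega)

end Pool.Agent.DBX.ALG
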