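import Pool.Agent.DBX.ALG.Stmts
import Pool.Agent.DBX.Cd

set_option autoImplicit false

/-! # MP_2c751f_ag, squad DBX, area ALG, module CMP: comparison of `LC` and `LCZero` -/

namespace Pool.Agent.DBX.ALG

open MvPolynomial Pool.Agent.DBX

noncomputable section

universe u

namespace CMP_

variable {k : Type u} [Field k] {n : ℕ}

/-- the module `I S_σ` -/
def IS (I : Ideal (Pol k n)) (σ : Finset (Fin n)) : Submodule k (Fr k n) :=
  toF (Sl k n σ) (genIn (Sl k n σ) (inc k n '' I))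

theorem IS_le (I : Ideal (Pol k n)) (σ : Finset (Fin n)) {x : Fr k n} (h : x ∈ IS I σ) :
    x ∈ Sl k n σ := by
  obtain ⟨a, -, rfl⟩ := Submodule.mem_map.1 h
  exact a.2

theorem Eg_eq (I : Ideal (Pol k n)) (M δ : ℕ) (f : Fin M → Pol k n) (m : ℤ)
    (σ : Finset (Fin n)) (x : Fr k n) :
    x ∈ (mkDat I M δ f).Eg m σ ∅ ↔ x ∈ IS I σ ∧ x ∈ HF k n m := by
  have h1 : (mkDat I M δ f).R σ ∅ = Sl k n σ := by
    unfold Dat.R Sl
    congr 1
    ext z
    constructor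
    · rintro ((h | h) | h)
      · exact Or.inl h
      · exact Or.inr h
      · obtain ⟨b, hb, -⟩ := h
        exact absurd hb (Finset.notMem_empty b)
    · rintro (h | h)
      · exact Or.inl (Or.inl h)
      · exact Or.inl (Or.inr h)
  have h2 : (mkDat I M δ f).E σ ∅ = IS I σ := by
    unfold Dat.E IS
    rw [if_pos rfl, h1]
    rfl
  unfold Dat.Eg
  rw [h2]
  exact Submodule.mem_inf

theorem cd_mem {A : Type*} [AddCommGroup A] (P : AddSubgroup A) (x : Finset (Fin n) → A)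
    (h : ∀ σ, x σ ∈ P) (σ : Finset (Fin n)) : cd x σ ∈ P :=
  AddSubgroup.sum_mem _ (fun _ _ => AddSubgroup.zsmul_mem _ (h _) _)

theorem cd_mem_HF (m : ℤ) (x : Finset (Fin n) → Fr k n)
    (h : ∀ σ, x σ ∈ HF k n m) (σ : Finset (Fin n)) : cd x σ ∈ HF k n m :=
  cd_mem (HF k n m).toAddSubgroup x h σ

end CMP_

open CMP_ in
theorem cmp_proof.{v} (hSCZ : Stmt_SCZ.{v}) (_hCDD : Stmt_CDD.{v}) (_hDEG : Stmt_DEG.{v}) :
    Stmt_CMP.{v} := by
  intro k _ _ n I hI M δ f m j hj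
  constructor
  · intro hL x hx hxc hx0
    have hx' : ∀ σ : Finset (Fin n), x σ ∈ IS I σ ∧ x σ ∈ HF k n m :=
      fun σ => (Eg_eq I M δ f m σ _).1 (hx σ)
    obtain ⟨y, hy1, hy2, hy3⟩ := hSCZ k n m (j + 1) (by omega) x
      (fun σ => ⟨IS_le I σ (hx' σ).1, (hx' σ).2⟩) hxc hx0
    obtain ⟨z, hz1, hz2, hz3⟩ := hL y hy1 (fun σ hσ => hy2 σ (by omega))
      (fun σ => by rw [hy3 σ]; exact (hx' σ).1)
    refine ⟨y - cd z, fun σ => (Eg_eq I M δ f m σ _).2 ⟨hz3 σ, ?_⟩, fun σ => ?_⟩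
    · exact (HF k n m).sub_mem (hy1 σ).2 (cd_mem_HF m z (fun σ => (hz1 σ).2) σ)
    · have h1 : cd (y - cd z) = cd y := by rw [cd_sub, cd_cd, sub_zero]
      exact (congrFun h1 σ).trans (hy3 σ)
  · intro hL x hx hxc hx0
    have h1 : ∀ σ, cd (cd x) σ = 0 := fun σ => by rw [cd_cd]; rfl
    obtain ⟨w, hw1', hw2'⟩ : ∃ w : Finset (Fin n) → Fr k n,
        (∀ σ, w σ ∈ IS I σ ∧ w σ ∈ HF k n m) ∧ cd w = cd x := by
      obtain ⟨w, hw1, hw2⟩ := hL (cd x)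
        (fun σ => (Eg_eq I M δ f m σ _).2 ⟨hx0 σ, cd_mem_HF m x (fun σ => (hx σ).2) σ⟩)
        (fun σ hσ => cd_card hxc hσ) h1
      exact ⟨w, fun σ => (Eg_eq I M δ f m σ _).1 (hw1 σ), funext hw2⟩
    have h2 : ∀ σ : Finset (Fin n), cpt j w σ ∈ IS I σ ∧ cpt j w σ ∈ HF k n m := by
      intro σ
      unfold cpt
      split_ifs
      · exact hw1' σ
      · exact ⟨Submodule.zero_mem _, Submodule.zero_mem _⟩
    have h3 : cd (cpt j w) = cd x := by
      rw [cd_cpt, hw2', ← cd_cpt, cpt_self hxc]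
    obtain ⟨y, hy1, hy2, hy3⟩ := hSCZ k n m j (by omega) (x - cpt j w)
      (fun σ => ⟨(Sl k n σ).sub_mem (hx σ).1 (IS_le I σ (h2 σ).1),
        (HF k n m).sub_mem (hx σ).2 (h2 σ).2⟩)
      (fun σ hσ => by
        show x σ - cpt j w σ = 0
        rw [hxc σ hσ, cpt_of_ne _ hσ, sub_zero])
      (fun σ => by rw [cd_sub, h3, sub_self]; rfl)
    refine ⟨y, hy1, hy2, fun σ => ?_⟩
    rw [hy3 σ]
    show x σ - (x σ - cpt j w σ) ∈ _
    rw [sub_sub_cancel]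
    exact (h2 σ).1

end

end Pool.Agent.DBX.ALG
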