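import Pool.Agent.DBX.ALG.Stmts

set_option autoImplicit false

/-! # MP_2c751f_ag, squad DBX, area ALG, module CO1 -/

namespace Pool.Agent.DBX.ALG

open MvPolynomial Pool.Agent.DBX

universe u

theorem co1_proof : Stmt_CO1.{u} := by
  intro k _ _ n I hbot htop
  obtain ⟨f, hfI, hf0⟩ := Submodule.exists_mem_ne_zero_of_ne_bot hbot
  have : Nontrivial (Pol k n ⧸ I) := Ideal.Quotient.nontrivial_iff.mpr htop
  have h1 : ringKrullDim (Pol k n ⧸ I) + 1 ≤ ringKrullDim (Pol k n) := by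
    refine ringKrullDim_succ_le_of_surjective (Ideal.Quotient.mk I)
      Ideal.Quotient.mk_surjective (r := f) (mem_nonZeroDivisors_of_ne_zero hf0) ?_
    exact Ideal.Quotient.eq_zero_iff_mem.mpr hfI
  have h2 : ringKrullDim (Pol k n) = (n : WithBot ℕ∞) := by
    rw [MvPolynomial.ringKrullDim_of_isNoetherianRing, ringKrullDim_eq_zero_of_field]
    simp
  rw [h2] at h1
  have h3 : (0 : WithBot ℕ∞) ≤ ringKrullDim (Pol k n ⧸ I) := ringKrullDim_nonneg_of_nontrivial
  have key : ∀ x : WithBot ℕ∞, 0 ≤ x → x + 1 ≤ (n : WithBot ℕ∞) → ∃ d : ℕ, x = d ∧ d + 1 ≤ n := by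
    intro x hx hx1
    induction x with
    | bot => exact absurd hx (by simp)
    | coe y =>
      induction y with
      | top =>
        exfalso
        have h4 : ((⊤ : ℕ∞) : WithBot ℕ∞) + 1 ≤ ((n : ℕ∞) : WithBot ℕ∞) := hx1
        have h5 : ((⊤ + 1 : ℕ∞) : WithBot ℕ∞) ≤ ((n : ℕ∞) : WithBot ℕ∞) := h4
        rw [WithBot.coe_le_coe] at h5
        simp at h5
      | coe d =>
        refine ⟨d, rfl, ?_⟩
        have h5 : (((d + 1 : ℕ) : ℕ∞) : WithBot ℕ∞) ≤ ((n : ℕ∞) : WithBot ℕ∞) := by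
          simpa using hx1
        rw [WithBot.coe_le_coe] at h5
        exact_mod_cast h5
  exact key _ h3 h1

end Pool.Agent.DBX.ALG
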