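import Pool.Agent.DBX.ALG.Stmts

set_option autoImplicit false

namespace Pool.Agent.DBX.ALG

open MvPolynomial Pool.Agent.DBX

universe u

theorem dbx_proof (hUNE : Stmt_UNE.{u}) : Stmt_DBX.{u} := by
  intro k _ _ n I r c d hI hIt hr hdim hn hht M δ f hG hP q hq hqh hqe a ha
  by_cases hIq : I ≤ q
  · have hcom : (q.map (Ideal.Quotient.mk I)).comap (Ideal.Quotient.mk I) = q :=
      Ideal.comap_map_mk hIq
    have hPp : (q.map (Ideal.Quotient.mk I)).IsPrime := by
      apply Ideal.map_isPrime_of_surjective Ideal.Quotient.mk_surjective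
      rw [Ideal.mk_ker]
      exact hIq
    have h1 := hht (q.map (Ideal.Quotient.mk I))
    have hloc : ringKrullDim (Localization.AtPrime (q.map (Ideal.Quotient.mk I))) =
        ((q.map (Ideal.Quotient.mk I)).height : WithBot ℕ∞) :=
      IsLocalization.AtPrime.ringKrullDim_eq_height (q.map (Ideal.Quotient.mk I))
        (Localization.AtPrime (q.map (Ideal.Quotient.mk I)))
    rw [hcom, hloc] at h1
    have h2 : q.height = (q.map (Ideal.Quotient.mk I)).height + (c : ℕ∞) := by
      exact_mod_cast h1
    have h3 : (q.map (Ideal.Quotient.mk I)).height ≤ ((r - 2 : ℕ) : ℕ∞) := by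
      rw [h2] at hqe
      have e : c + r - 2 = (r - 2) + c := by omega
      rw [e, Nat.cast_add] at hqe
      exact (ENat.add_le_add_iff_right (ENat.natCast_ne_top c)).mp hqe
    have h4 : ringKrullDim (Localization.AtPrime (q.map (Ideal.Quotient.mk I))) ≤
        ((r - 2 : ℕ) : WithBot ℕ∞) := by
      rw [hloc]
      exact WithBot.coe_le_coe.mpr h3
    have h5 := hP (q.map (Ideal.Quotient.mk I)) h4 a (by rw [hcom]; exact ha)
    rw [hcom] at h5
    exact h5
  · exact hUNE k n (mkDat I M δ f) hG q hq hIq a ha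

end Pool.Agent.DBX.ALG
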