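import Pool.Agent.DBX.ALG.Stmts
import Pool.Agent.DBX.Cd

set_option autoImplicit false

namespace Pool.Agent.DBX.ALG

open MvPolynomial Pool.Agent.DBX

universe u

theorem DEG_aux1 {V : Type*} [LinearOrder V] {A : Type*} [AddCommGroup A]
    (x : Finset V → A) (g c : ℕ) (σ : Finset V) :
    cd (fun s => if s.card + c = g then x s else 0) σ =
      if σ.card + c = g + 1 then cd x σ else 0 := by
  by_cases h : σ.card + c = g + 1
  · rw [if_pos h, cd_apply, cd_apply]
    refine Finset.sum_congr rfl (fun v hv => ?_)
    have h1 := Finset.card_erase_add_one hv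
    have h2 : (σ.erase v).card + c = g := by omega
    rw [if_pos h2]
  · rw [if_neg h, cd_apply]
    refine Finset.sum_eq_zero (fun v hv => ?_)
    have h1 := Finset.card_erase_add_one hv
    have h2 : ¬ (σ.erase v).card + c = g := by omega
    rw [if_neg h2, smul_zero]

theorem deg_proof : Stmt_DEG.{u} := by
  intro p q A _
  refine ⟨fun x g σ => ?_, fun x g σ τ => ?_⟩
  · exact DEG_aux1 x g 0 σ
  · unfold dd
    have h1 := DEG_aux1 (fun s => x s τ) g τ.card σ
    have h2 := DEG_aux1 (x σ) g σ.card τ
    have e2 : (fun t : Finset (Fin q) => if σ.card + t.card = g then x σ t else 0) =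
        fun t => if t.card + σ.card = g then x σ t else 0 := by
      funext t
      rw [add_comm]
    dsimp only
    rw [e2, h1, h2]
    by_cases h : σ.card + τ.card = g + 1
    · have h' : τ.card + σ.card = g + 1 := by omega
      rw [if_pos h, if_pos h', if_pos h]
    · have h' : ¬ τ.card + σ.card = g + 1 := by omega
      rw [if_neg h, if_neg h', if_neg h, smul_zero, add_zero]

end Pool.Agent.DBX.ALG
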