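import Pool.Agent.DBX.ALG.Stmts
import Pool.Agent.DBX.Cd

set_option autoImplicit false

/-! # MP_2c751f_ag, squad DBX, area ALG: module DUP -/

namespace Pool.Agent.DBX.ALG

open MvPolynomial Pool.Agent.DBX

noncomputable section

universe u

namespace DUP_

variable {k : Type u} [Field k] {n : ℕ}

/-- `secP` kills the generic linear form -/
theorem secP_lgen : secP k n (lgen k n) = 0 := by
  unfold lgen secP
  rw [map_sub, map_sum, aeval_X, Fin.snoc_last, sub_eq_zero]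
  refine Finset.sum_congr rfl (fun i _ => ?_)
  rw [map_mul, aeval_X, Fin.snoc_castSucc]
  congr 1
  exact (MvPolynomial.aeval_C _ _).symm

theorem secP_rename (q : Pol (Kx k n) n) : secP k n (rename Fin.castSucc q) = q := by
  unfold secP
  rw [aeval_rename]
  have h : (Fin.snoc (α := fun _ => Pol (Kx k n) n) X (∑ i, C (vv k n i) * X i)) ∘ Fin.castSucc
      = (X : Fin n → Pol (Kx k n) n) := by
    funext i
    simp [Fin.snoc_castSucc]
  rw [h, aeval_X_left_apply]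

theorem secP_surj : Function.Surjective (secP k n) := fun q => ⟨_, secP_rename q⟩

/-- `secP` preserves homogeneity -/
theorem secP_hom {q : Pol (Kx k n) (n + 1)} {d : ℕ} (h : q.IsHomogeneous d) :
    (secP k n q).IsHomogeneous d := by
  unfold secP
  have h1 := h.aeval (R := Kx k n) (Fin.snoc (α := fun _ => Pol (Kx k n) n) X
      (∑ i, C (vv k n i) * X i)) (n := 1) ?_
  · simpa using h1
  · intro i
    refine Fin.lastCases ?_ ?_ i
    · rw [Fin.snoc_last]
      refine IsHomogeneous.sum _ _ _ (fun j _ => ?_)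
      have := (isHomogeneous_C (Fin n) (vv k n j)).mul (isHomogeneous_X (Kx k n) j)
      rwa [zero_add] at this
    · intro j
      rw [Fin.snoc_castSucc]
      exact isHomogeneous_X _ _

theorem secP_comp (q : Pol (Kx k n) (n + 1)) (d : ℕ) :
    homogeneousComponent d (secP k n q) = secP k n (homogeneousComponent d q) := by
  conv_lhs => rw [← sum_homogeneousComponent q]
  rw [map_sum, map_sum]
  by_cases hd : d ∈ Finset.range (q.totalDegree + 1)
  · rw [Finset.sum_eq_single d]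
    · exact homogeneousComponent_of_mem (secP_hom (homogeneousComponent_isHomogeneous d q)) |>.trans
        (if_pos rfl)
    · intro e _ he
      rw [homogeneousComponent_of_mem (secP_hom (homogeneousComponent_isHomogeneous e q)),
        if_neg (Ne.symm he)]
    · intro h; exact absurd hd h
  · rw [Finset.sum_eq_zero, homogeneousComponent_eq_zero, map_zero]
    · rw [Finset.mem_range] at hd; omega
    · intro e he
      rw [homogeneousComponent_of_mem (secP_hom (homogeneousComponent_isHomogeneous e q)),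
        if_neg]
      rintro rfl
      exact hd he


/-- elements of `R σ ∅` (over `k'`) have denominators not vanishing on the hyperplane -/
theorem frac (D : Dat k (n + 1)) (hs : ∀ a, D.sec.g a ≠ 0) (σ : Finset (Fin D.p))
    {z : Fr (Kx k n) (n + 1)} (hz : z ∈ D.bc.R σ ∅) :
    ∃ A B : Pol (Kx k n) (n + 1), secP k n B ≠ 0 ∧ z = inc _ _ A / inc _ _ B := by
  unfold Dat.R at hz
  induction hz using Algebra.adjoin_induction with
  | mem x hx =>
    rcases hx with (⟨A, rfl⟩ | ⟨a, _, rfl⟩) | ⟨b, hb, _⟩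
    · exact ⟨A, 1, by simp, by simp⟩
    · refine ⟨1, D.bc.g a, hs a, ?_⟩
      rw [map_one, one_div]
    · exact absurd hb (Finset.notMem_empty b)
  | algebraMap r =>
    refine ⟨C r, 1, by simp, ?_⟩
    rw [map_one, div_one]
    exact (IsScalarTower.algebraMap_apply (Kx k n) (Pol (Kx k n) (n + 1))
      (Fr (Kx k n) (n + 1)) r)
  | add x y _ _ hx hy =>
    obtain ⟨A, B, hB, rfl⟩ := hx
    obtain ⟨A', B', hB', rfl⟩ := hy
    refine ⟨A * B' + B * A', B * B', by rw [map_mul]; exact mul_ne_zero hB hB', ?_⟩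
    have h1 : inc (Kx k n) (n + 1) B ≠ 0 := inc_ne (fun h => hB (by rw [h, map_zero]))
    have h2 : inc (Kx k n) (n + 1) B' ≠ 0 := inc_ne (fun h => hB' (by rw [h, map_zero]))
    rw [div_add_div _ _ h1 h2, map_add, map_mul, map_mul, map_mul]
  | mul x y _ _ hx hy =>
    obtain ⟨A, B, hB, rfl⟩ := hx
    obtain ⟨A', B', hB', rfl⟩ := hy
    refine ⟨A * A', B * B', by rw [map_mul]; exact mul_ne_zero hB hB', ?_⟩
    rw [div_mul_div_comm, map_mul, map_mul]

theorem sp_l (D : Dat k (n + 1)) (hs : ∀ a, D.sec.g a ≠ 0)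
    {sp : Fr (Kx k n) (n + 1) →ₗ[Kx k n] Fr (Kx k n) n} (hsp : IsSp (k := k) (n := n) sp)
    (σ : Finset (Fin D.p)) {z : Fr (Kx k n) (n + 1)} (hz : z ∈ D.bc.R σ ∅) :
    sp (inc _ _ (lgen k n) * z) = 0 := by
  obtain ⟨A, B, hB, rfl⟩ := frac D hs σ hz
  rw [← mul_div_assoc, ← map_mul, hsp _ _ hB, map_mul, secP_lgen, zero_mul, map_zero, zero_div]

theorem E_sub_R (D : Dat k n) (σ : Finset (Fin D.p)) {z : Fr k n} (hz : z ∈ D.E σ ∅) :
    z ∈ D.R σ ∅ := by
  unfold Dat.E at hz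
  rw [if_pos rfl] at hz
  obtain ⟨w, _, rfl⟩ := hz
  exact w.2

/-- elements of `E ∅ ∅` are elements of the ideal -/
theorem E_empty (D : Dat k n) {z : Fr k n} (hz : z ∈ D.E ∅ ∅) :
    ∃ w ∈ D.I, z = inc k n w := by
  unfold Dat.E at hz
  rw [if_pos rfl] at hz
  obtain ⟨w, hw, rfl⟩ := hz
  have hw' : w ∈ genIn (D.R ∅ ∅) (inc k n '' D.I) := hw
  have hR : ∀ x ∈ D.R ∅ ∅, ∃ a : Pol k n, x = inc k n a := by
    intro x hx
    unfold Dat.R at hx
    induction hx using Algebra.adjoin_induction with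
    | mem x hx =>
      rcases hx with (⟨A, rfl⟩ | ⟨a, ha, _⟩) | ⟨b, hb, _⟩
      · exact ⟨A, rfl⟩
      · exact absurd ha (Finset.notMem_empty a)
      · exact absurd hb (Finset.notMem_empty b)
    | algebraMap r =>
      exact ⟨C r, (IsScalarTower.algebraMap_apply k (Pol k n) (Fr k n) r)⟩
    | add x y _ _ hx hy =>
      obtain ⟨A, rfl⟩ := hx
      obtain ⟨A', rfl⟩ := hy
      exact ⟨A + A', by rw [map_add]⟩
    | mul x y _ _ hx hy =>
      obtain ⟨A, rfl⟩ := hx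
      obtain ⟨A', rfl⟩ := hy
      exact ⟨A * A', by rw [map_mul]⟩
  unfold genIn at hw'
  change ∃ w' ∈ D.I, (w : Fr k n) = inc k n w'
  clear hw
  induction hw' using Submodule.span_induction with
  | mem x hx =>
    obtain ⟨a, ha, hax⟩ := hx
    exact ⟨a, ha, hax.symm⟩
  | zero => exact ⟨0, D.I.zero_mem, by simp⟩
  | add x y _ _ hx hy =>
    obtain ⟨A, hA, hA'⟩ := hx
    obtain ⟨B, hB, hB'⟩ := hy
    exact ⟨A + B, D.I.add_mem hA hB, by rw [map_add, ← hA', ← hB']; rfl⟩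
  | smul a x _ hx =>
    obtain ⟨A, hA, hA'⟩ := hx
    obtain ⟨r, hr⟩ := hR a a.2
    refine ⟨r * A, D.I.mul_mem_left r hA, ?_⟩
    rw [map_mul, ← hA', ← hr]; rfl

/-- elements of the ideal of degree `m` -/
theorem Eg_empty (D : Dat k n) (m : ℤ) {z : Fr k n}
    (hz : z ∈ D.Eg m ∅ ∅) (h0 : z ≠ 0) :
    ∃ (d : ℕ) (w : Pol k n), w ∈ D.I ∧ w.IsHomogeneous d ∧ (d : ℤ) = m ∧ z = inc k n w := by
  obtain ⟨w, hw, rfl⟩ := E_empty D hz.1
  obtain ⟨a, b, i, j, ha, hb, hb0, hm, he⟩ := hz.2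
  have hbi := inc_ne hb0
  have e1 : inc k n (w * b) = inc k n a := by
    rw [map_mul, he, div_mul_cancel₀ _ hbi]
  have e2 : w * b = a := IsFractionRing.injective (MvPolynomial (Fin n) k)
    (FractionRing (MvPolynomial (Fin n) k)) e1
  have ha0 : a ≠ 0 := by
    rintro rfl
    rw [map_zero, zero_div] at he
    exact h0 he
  have hm' := hm ha0
  have hw0 : w ≠ 0 := by rintro rfl; exact h0 (map_zero _)
  have key : ∀ d : ℕ, homogeneousComponent (d + j) (w * b) = homogeneousComponent d w * b := by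
    intro d
    conv_lhs => rw [← sum_homogeneousComponent w, Finset.sum_mul]
    rw [map_sum]
    by_cases hd : d ∈ Finset.range (w.totalDegree + 1)
    · rw [Finset.sum_eq_single d]
      · rw [homogeneousComponent_of_mem ((homogeneousComponent_isHomogeneous d w).mul hb),
          if_pos rfl]
      · intro e _ he
        rw [homogeneousComponent_of_mem ((homogeneousComponent_isHomogeneous e w).mul hb),
          if_neg]
        intro h; apply he; omega
      · intro h; exact absurd hd h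
    · rw [Finset.sum_eq_zero, homogeneousComponent_eq_zero, zero_mul]
      · rw [Finset.mem_range] at hd; omega
      · intro e he
        rw [homogeneousComponent_of_mem ((homogeneousComponent_isHomogeneous e w).mul hb),
          if_neg]
        intro h
        apply hd
        have : d = e := by omega
        rw [this]; exact he
  -- a nonzero component of w
  have hex : ∃ d, homogeneousComponent d w ≠ 0 := by
    by_contra hcon
    push Not at hcon
    apply hw0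
    rw [← sum_homogeneousComponent w]
    exact Finset.sum_eq_zero (fun d _ => hcon d)
  obtain ⟨d, hd⟩ := hex
  have hdj : ∀ e, homogeneousComponent e w ≠ 0 → e + j = i := by
    intro e hen
    by_contra hne
    have h1 := key e
    rw [e2, homogeneousComponent_of_mem ha, if_neg hne] at h1
    exact mul_ne_zero hen hb0 h1.symm
  have hdi := hdj d hd
  have hwd : w = homogeneousComponent d w := by
    conv_lhs => rw [← sum_homogeneousComponent w]
    rw [Finset.sum_eq_single d]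
    · intro e _ he
      by_contra hne
      have := hdj e hne
      apply he; omega
    · intro h
      rw [homogeneousComponent_eq_zero]
      rw [Finset.mem_range] at h; omega
  refine ⟨d, w, hw, ?_, ?_, rfl⟩
  · rw [hwd]; exact homogeneousComponent_isHomogeneous d w
  · omega

theorem mem_Eg_empty (D : Dat k n) {d : ℕ} {w : Pol k n} (hw : w ∈ D.I)
    (hd : w.IsHomogeneous d) (σ : Finset (Fin D.p)) : inc k n w ∈ D.Eg d σ ∅ := by
  refine ⟨?_, ⟨w, 1, d, 0, hd, isHomogeneous_one _ _, one_ne_zero, by simp, by simp⟩⟩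
  unfold Dat.E
  rw [if_pos rfl]
  have h1 : inc k n w ∈ D.R σ ∅ :=
    Algebra.subset_adjoin (Or.inl (Or.inl ⟨w, rfl⟩))
  refine ⟨⟨_, h1⟩, ?_, rfl⟩
  exact Ideal.subset_span ⟨w, hw, rfl⟩

/-- lifting at the empty set -/
theorem lift_empty (D : Dat k (n + 1)) (hb : D.bc.Good)
    {sp : Fr (Kx k n) (n + 1) →ₗ[Kx k n] Fr (Kx k n) n} (hsp : IsSp (k := k) (n := n) sp)
    (m : ℤ) {y : Fr (Kx k n) n} (hy : y ∈ D.sec.Eg m ∅ ∅) :
    ∃ x ∈ D.bc.Eg m ∅ ∅, sp x = y := by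
  by_cases h0 : y = 0
  · exact ⟨0, Submodule.zero_mem _, by rw [map_zero, h0]⟩
  obtain ⟨d, w, hw, hwd, hdm, rfl⟩ := Eg_empty D.sec m hy h0
  have hw' : w ∈ Ideal.map (secP k n) (D.bc.I) := hw
  rw [Ideal.mem_map_iff_of_surjective _ secP_surj] at hw'
  obtain ⟨v, hv, rfl⟩ := hw'
  refine ⟨inc _ _ (homogeneousComponent d v), ?_, ?_⟩
  · rw [← hdm]
    exact mem_Eg_empty D.bc (hb.I_hom v hv d) (homogeneousComponent_isHomogeneous d v) ∅
  · have h1 := hsp (homogeneousComponent d v) 1 (by simp)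
    rw [map_one, div_one, map_one, map_one, div_one] at h1
    rw [h1, ← secP_comp, homogeneousComponent_of_mem hwd, if_pos rfl]


/-! ## Monotonicity and multiplication -/

theorem toF_mono {k F : Type*} [Field k] [Field F] [Algebra k F] {A B : Subalgebra k F}
    (h : A ≤ B) (J : Set F) : toF A (genIn A J) ≤ toF B (genIn B J) := by
  rintro z ⟨w, hw, rfl⟩
  have hw' : w ∈ genIn A J := hw
  have h1 : (genIn A J).map (Subalgebra.inclusion h) ≤ genIn B J := by
    unfold genIn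
    rw [Ideal.map_span]
    refine Ideal.span_mono ?_
    rintro _ ⟨z, hz, rfl⟩
    have : ((Subalgebra.inclusion h z : B) : F) = z := Subalgebra.coe_inclusion h z
    rw [Set.mem_ofPred_eq]
    exact this ▸ hz
  refine ⟨Subalgebra.inclusion h w, h1 (Ideal.mem_map_of_mem _ hw'), ?_⟩
  exact Subalgebra.coe_inclusion h w

theorem R_mono (D : Dat k n) {σ σ' : Finset (Fin D.p)} (h : σ ⊆ σ') :
    D.R σ ∅ ≤ D.R σ' ∅ := by
  unfold Dat.R
  refine Algebra.adjoin_mono ?_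
  rintro z ((h1 | ⟨a, ha, h2⟩) | ⟨b, hb, _⟩)
  · exact Or.inl (Or.inl h1)
  · exact Or.inl (Or.inr ⟨a, h ha, h2⟩)
  · exact absurd hb (Finset.notMem_empty b)

theorem E_mono (D : Dat k n) {σ σ' : Finset (Fin D.p)} (h : σ ⊆ σ') :
    D.E σ ∅ ≤ D.E σ' ∅ := by
  unfold Dat.E
  rw [if_pos rfl, if_pos rfl]
  exact toF_mono (R_mono D h) _

theorem Eg_mono (D : Dat k n) (m : ℤ) {σ σ' : Finset (Fin D.p)} (h : σ ⊆ σ') :
    D.Eg m σ ∅ ≤ D.Eg m σ' ∅ :=
  fun _ hz => ⟨E_mono D h hz.1, hz.2⟩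

theorem E_mul (D : Dat k n) (σ : Finset (Fin D.p)) (w : Pol k n) {z : Fr k n}
    (hz : z ∈ D.E σ ∅) : inc k n w * z ∈ D.E σ ∅ := by
  unfold Dat.E at hz ⊢
  rw [if_pos rfl] at hz ⊢
  obtain ⟨v, hv, rfl⟩ := hz
  have h1 : inc k n w ∈ D.R σ ∅ := Algebra.subset_adjoin (Or.inl (Or.inl ⟨w, rfl⟩))
  refine ⟨⟨_, h1⟩ * v, ?_, rfl⟩
  exact Ideal.mul_mem_left _ _ hv

theorem HF_mul {m : ℤ} {d : ℕ} {w : Pol k n} (hw : w.IsHomogeneous d) {z : Fr k n}
    (hz : z ∈ HF k n m) : inc k n w * z ∈ HF k n (m + d) := by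
  obtain ⟨a, b, i, j, ha, hb, hb0, hm, rfl⟩ := hz
  refine ⟨w * a, b, d + i, j, hw.mul ha, hb, hb0, ?_, ?_⟩
  · intro h
    have := hm (fun h0 => h (by rw [h0, mul_zero]))
    push_cast; omega
  · rw [map_mul, mul_div_assoc]

theorem Eg_mul (D : Dat k n) (m : ℤ) (σ : Finset (Fin D.p)) {w : Pol k n}
    (hw : w.IsHomogeneous 1) {z : Fr k n}
    (hz : z ∈ D.Eg m σ ∅) : inc k n w * z ∈ D.Eg (m + 1) σ ∅ :=
  ⟨E_mul D σ w hz.1, by exact_mod_cast HF_mul hw hz.2⟩

theorem cd_mem (D : Dat k n) (m : ℤ) {y : Finset (Fin D.p) → Fr k n}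
    (hy : ∀ σ, y σ ∈ D.Eg m σ ∅) (σ : Finset (Fin D.p)) : cd y σ ∈ D.Eg m σ ∅ := by
  rw [cd_apply]
  refine Submodule.sum_mem _ (fun v _ => ?_)
  exact zsmul_mem (Eg_mono D m (Finset.erase_subset v σ) (hy _)) _

theorem lgen_ne : lgen k n ≠ 0 := by
  intro h
  have h1 := congrArg (MvPolynomial.eval (Fin.snoc (α := fun _ => Kx k n) 0 1)) h
  unfold lgen at h1
  simp [Fin.snoc_last, Fin.snoc_castSucc] at h1

theorem lgen_hom : (lgen k n).IsHomogeneous 1 := by
  unfold lgen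
  refine (isHomogeneous_X _ _).sub (IsHomogeneous.sum _ _ _ (fun j _ => ?_))
  have := (isHomogeneous_C (Fin (n + 1)) (vv k n j)).mul (isHomogeneous_X (Kx k n) j.castSucc)
  rwa [zero_add] at this

theorem cd_l (c : Fr (Kx k n) (n + 1)) {p : ℕ} (x : Finset (Fin p) → Fr (Kx k n) (n + 1))
    (σ : Finset (Fin p)) : cd (fun s => c * x s) σ = c * cd x σ :=
  congrFun (cd_map (AddMonoidHom.mulLeft c) x) σ

/-- one step: if `l w` is a coboundary, then `w` is -/
theorem step (D : Dat k (n + 1)) (hb : D.bc.Good) (hs : D.sec.Good)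
    {sp : Fr (Kx k n) (n + 1) →ₗ[Kx k n] Fr (Kx k n) n} (hsp : IsSp (k := k) (n := n) sp)
    (h1 : ∀ (m : ℤ) (σ : Finset (Fin D.p)), ∀ x ∈ D.bc.Eg m σ ∅, sp x ∈ D.sec.Eg m σ ∅)
    (h2 : ∀ (m : ℤ) (σ : Finset (Fin D.p)), σ.Nonempty →
      (∀ y ∈ D.sec.Eg m σ ∅, ∃ x ∈ D.bc.Eg m σ ∅, sp x = y))
    (h3 : ∀ (m : ℤ) (σ : Finset (Fin D.p)), σ.Nonempty → (∀ x ∈ D.bc.Eg m σ ∅, sp x = 0 →
        ∃ x' ∈ D.bc.Eg (m - 1) σ ∅, x = inc _ _ (lgen k n) * x'))
    (m : ℤ) (g : ℕ) (hg : 1 ≤ g) (hL : D.sec.LC m g)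
    (w : Finset (Fin D.p) → Fr (Kx k n) (n + 1)) (hw : ∀ σ, w σ ∈ D.bc.Eg (m - 1) σ ∅)
    (hwc : ∀ σ, σ.card ≠ g + 1 → w σ = 0)
    (u : Finset (Fin D.p) → Fr (Kx k n) (n + 1)) (hu : ∀ σ, u σ ∈ D.bc.Eg m σ ∅)
    (huw : ∀ σ, cd u σ = inc _ _ (lgen k n) * w σ) :
    ∃ y : Finset (Fin D.p) → Fr (Kx k n) (n + 1), (∀ σ, y σ ∈ D.bc.Eg (m - 1) σ ∅) ∧
      ∀ σ, cd y σ = w σ := by
  have hsg : ∀ a, D.sec.g a ≠ 0 := hs.g_ne
  have hl0 : inc (Kx k n) (n + 1) (lgen k n) ≠ 0 := inc_ne lgen_ne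
  -- cut u
  have hu'm : ∀ σ, cpt g u σ ∈ D.bc.Eg m σ ∅ := by
    intro σ
    unfold cpt
    split_ifs
    · exact hu σ
    · exact Submodule.zero_mem _
  have hcu : ∀ σ, cd (cpt g u) σ = inc _ _ (lgen k n) * w σ := by
    intro σ
    rw [cd_cpt]
    by_cases h : σ.card = g + 1
    · rw [cpt_of_eq _ h, huw]
    · rw [cpt_of_ne _ h, hwc σ h, mul_zero]
  -- the image under sp
  have hcs : ∀ σ, cd (fun s => sp (cpt g u s)) σ = 0 := by
    intro σ
    have e1 := congrFun (cd_map sp.toAddMonoidHom (cpt g u)) σ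
    have e2 : cd (fun s => sp (cpt g u s)) σ = sp (cd (cpt g u) σ) := e1
    rw [e2, hcu]
    exact sp_l D hsg hsp σ (E_sub_R D.bc σ (hw σ).1)
  obtain ⟨y', hy'm, hy'c⟩ := hL (fun s => sp (cpt g u s)) (fun σ => h1 m σ _ (hu'm σ))
    (fun σ hσ => by
      have : cpt g u σ = 0 := cpt_of_ne _ hσ
      simp only [this, map_zero]) hcs
  -- lift
  have hlift : ∀ σ : Finset (Fin D.p), ∃ x ∈ D.bc.Eg m σ ∅, sp x = y' σ := by
    intro σ
    rcases σ.eq_empty_or_nonempty with rfl | hne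
    · exact lift_empty D hb hsp m (hy'm ∅)
    · exact h2 m σ hne _ (hy'm σ)
  choose y hym hyy using hlift
  have hvm : ∀ σ, cpt g u σ - cd y σ ∈ D.bc.Eg m σ ∅ :=
    fun σ => Submodule.sub_mem _ (hu'm σ) (cd_mem D.bc m hym σ)
  have hv0 : ∀ σ, sp (cpt g u σ - cd y σ) = 0 := by
    intro σ
    have e1 := congrFun (cd_map sp.toAddMonoidHom y) σ
    have e2 : cd (fun s => sp (y s)) σ = sp (cd y σ) := e1
    rw [map_sub, ← e2, ← hy'c σ, sub_eq_zero]
    congr 1
    funext s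
    exact (hyy s).symm
  have hex : ∀ σ : Finset (Fin D.p), ∃ x' ∈ D.bc.Eg (m - 1) σ ∅,
      cpt g u σ - cd y σ = inc _ _ (lgen k n) * x' := by
    intro σ
    rcases σ.eq_empty_or_nonempty with rfl | hne
    · refine ⟨0, Submodule.zero_mem _, ?_⟩
      rw [cd_empty, cpt_of_ne _ (by simp; omega), sub_zero, mul_zero]
    · exact h3 m σ hne _ (hvm σ) (hv0 σ)
  choose x' hx'm hx' using hex
  refine ⟨x', hx'm, fun σ => ?_⟩
  have e1 : cd (fun s => inc _ _ (lgen k n) * x' s) σ = inc _ _ (lgen k n) * w σ := by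
    have e2 : (fun s => inc _ _ (lgen k n) * x' s) = cpt g u - cd y := by
      funext s
      rw [Pi.sub_apply]
      exact (hx' s).symm
    rw [e2, cd_sub, cd_cd, sub_zero, hcu]
  rw [cd_l] at e1
  exact mul_left_cancel₀ hl0 e1

/-- iteration -/
theorem iter (D : Dat k (n + 1)) (hb : D.bc.Good) (hs : D.sec.Good)
    {sp : Fr (Kx k n) (n + 1) →ₗ[Kx k n] Fr (Kx k n) n} (hsp : IsSp (k := k) (n := n) sp)
    (h1 : ∀ (m : ℤ) (σ : Finset (Fin D.p)), ∀ x ∈ D.bc.Eg m σ ∅, sp x ∈ D.sec.Eg m σ ∅)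
    (h2 : ∀ (m : ℤ) (σ : Finset (Fin D.p)), σ.Nonempty →
      (∀ y ∈ D.sec.Eg m σ ∅, ∃ x ∈ D.bc.Eg m σ ∅, sp x = y))
    (h3 : ∀ (m : ℤ) (σ : Finset (Fin D.p)), σ.Nonempty → (∀ x ∈ D.bc.Eg m σ ∅, sp x = 0 →
        ∃ x' ∈ D.bc.Eg (m - 1) σ ∅, x = inc _ _ (lgen k n) * x'))
    (g : ℕ) (hg : 1 ≤ g) (hL : ∀ m, D.sec.LC m g) (N : ℕ) :
    ∀ (m : ℤ) (w : Finset (Fin D.p) → Fr (Kx k n) (n + 1)), (∀ σ, w σ ∈ D.bc.Eg m σ ∅) →
    (∀ σ, σ.card ≠ g + 1 → w σ = 0) → 
    (∃ u : Finset (Fin D.p) → Fr (Kx k n) (n + 1), (∀ σ, u σ ∈ D.bc.Eg (m + N) σ ∅) ∧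
      (∀ σ, cd u σ = inc _ _ (lgen k n ^ N) * w σ)) →
    ∃ y : Finset (Fin D.p) → Fr (Kx k n) (n + 1), (∀ σ, y σ ∈ D.bc.Eg m σ ∅) ∧
      ∀ σ, cd y σ = w σ := by
  induction N with
  | zero =>
    rintro m w hw hwc ⟨u, hu, huw⟩
    refine ⟨u, fun σ => ?_, fun σ => ?_⟩
    · have := hu σ
      rwa [Nat.cast_zero, add_zero] at this
    · rw [huw, pow_zero, map_one, one_mul]
  | succ N ih =>
    rintro m w hw hwc ⟨u, hu, huw⟩
    obtain ⟨u', hu', hu'w⟩ := ih (m + 1) (fun s => inc _ _ (lgen k n) * w s)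
      (fun σ => Eg_mul D.bc m σ lgen_hom (hw σ))
      (fun σ hσ => by rw [hwc σ hσ, mul_zero])
      ⟨u, fun σ => by
        have := hu σ
        have e : m + ((N + 1 : ℕ) : ℤ) = m + 1 + N := by push_cast; ring
        rwa [e] at this, fun σ => by
        rw [huw, pow_succ, map_mul, mul_assoc]⟩
    have := step D hb hs hsp h1 h2 h3 (m + 1) g hg (hL (m + 1)) w
      (fun σ => by rw [add_sub_cancel_right]; exact hw σ) hwc u' hu' hu'w
    rwa [add_sub_cancel_right] at this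

end DUP_

theorem dup_proof (hSEC : Stmt_SEC.{u}) (_hBCU : Stmt_BCU.{u}) (hBCD : Stmt_BCD.{u})
    (hINH : Stmt_INH.{u}) (hTRS : Stmt_TRS.{u}) (_hCDD : Stmt_CDD.{u}) (_hDEG : Stmt_DEG.{u}) :
    Stmt_DUP.{u} := by
  intro k _ _ n D c hn hc hD hcn hL1 hsec m g hg
  rcases Nat.lt_or_ge g 2 with h | h
  · interval_cases g
    · -- card 0
      intro x hx hxc hxd
      refine ⟨0, fun σ => Submodule.zero_mem _, fun σ => ?_⟩
      rw [cd_zero]
      rcases σ.eq_empty_or_nonempty with rfl | hne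
      · have hp : ∃ a : Fin D.p, True := by
          by_contra hcon
          push Not at hcon
          have h0 : Set.range D.g = ∅ := by
            rw [Set.range_eq_empty_iff]
            exact ⟨fun a => hcon a⟩
          have h1 := hD.g_span 0
          rw [h0, Submodule.span_empty, Submodule.mem_bot] at h1
          exact MvPolynomial.X_ne_zero _ h1
        obtain ⟨a, _⟩ := hp
        have := hxd {a}
        rw [cd_singleton] at this
        rw [this]; rfl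
      · rw [hxc σ (by rw [← Finset.card_pos] at hne; omega)]; rfl
    · exact hL1 m
  · refine (hBCD k n D hD m g).2 ?_
    obtain ⟨hbG, hsG, _, _⟩ := hINH k n D hn hD
    obtain ⟨sp, hsp, hS⟩ := hSEC k n hn
    obtain ⟨hS1, hS2⟩ := hS D hD
    obtain ⟨g', rfl⟩ : ∃ g', g = g' + 1 := ⟨g - 1, by omega⟩
    intro x hx hxc hxd
    obtain ⟨N, y, hy, hyx⟩ := hTRS (Kx k n) (n + 1) D.bc hbG m (g' + 1) x hx hxc hxd
      (lgen k n) DUP_.lgen_hom
    exact DUP_.iter D hbG hsG hsp hS1 (fun m σ hσ => (hS2 m σ ∅ hσ).2.1)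
      (fun m σ hσ => (hS2 m σ ∅ hσ).2.2) g' (by omega) (fun m => hsec m g' (by omega)) N m x hx hxc
      ⟨y, hy, hyx⟩

end

end Pool.Agent.DBX.ALG
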