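import Pool.Agent.DBX.ALG.Stmts

set_option autoImplicit false

/-! # MP_2c751f_ag, squad DBX, area ALG, module EGR: `E` is graded -/

namespace Pool.Agent.DBX.ALG

open MvPolynomial Pool.Agent.DBX

noncomputable section

universe u

namespace EGR_

variable {k : Type u} [Field k] {n : ℕ}

theorem one_HF : (1 : Fr k n) ∈ HF k n 0 :=
  ⟨1, 1, 0, 0, isHomogeneous_one _ _, isHomogeneous_one _ _, one_ne_zero, fun _ => rfl, by simp⟩

theorem mul_HF {m m' : ℤ} {x y : Fr k n} (hx : x ∈ HF k n m) (hy : y ∈ HF k n m') :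
    x * y ∈ HF k n (m + m') := by
  obtain ⟨a, b, i, j, ha, hb, hb0, hm, rfl⟩ := hx
  obtain ⟨a', b', i', j', ha', hb', hb0', hm', rfl⟩ := hy
  refine ⟨a * a', b * b', i + i', j + j', ha.mul ha', hb.mul hb', mul_ne_zero hb0 hb0', ?_, ?_⟩
  · intro h
    have e1 := hm (left_ne_zero_of_mul h)
    have e2 := hm' (right_ne_zero_of_mul h)
    push_cast
    omega
  · rw [map_mul, map_mul, div_mul_div_comm]

theorem inc_HF {d : ℕ} {w : Pol k n} (hw : w.IsHomogeneous d) : inc k n w ∈ HF k n d :=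
  ⟨w, 1, d, 0, hw, isHomogeneous_one _ _, one_ne_zero, fun _ => by simp, by simp⟩

theorem inv_HF {d : ℕ} {w : Pol k n} (hw : w.IsHomogeneous d) (h0 : w ≠ 0) :
    (inc k n w)⁻¹ ∈ HF k n (-(d : ℤ)) :=
  ⟨1, w, 0, d, isHomogeneous_one _ _, hw, h0, fun _ => by simp, by simp⟩

/-- the grading of a subalgebra -/
def gr (A : Subalgebra k (Fr k n)) (m : ℤ) : Submodule k A :=
  (HF k n m).comap A.val.toLinearMap

theorem mem_gr (A : Subalgebra k (Fr k n)) (m : ℤ) (z : A) : z ∈ gr A m ↔ (z : Fr k n) ∈ HF k n m :=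
  Iff.rfl

theorem gr_mul (A : Subalgebra k (Fr k n)) {m m' : ℤ} {x y : A} (hx : x ∈ gr A m)
    (hy : y ∈ gr A m') : x * y ∈ gr A (m + m') :=
  mul_HF hx hy

instance grMon (A : Subalgebra k (Fr k n)) : SetLike.GradedMonoid (gr A) where
  one_mem := one_HF
  mul_mem := fun _ _ _ _ hx hy => mul_HF hx hy

theorem iSup_mul (A : Subalgebra k (Fr k n)) (x y : A) (hx : x ∈ iSup (gr A))
    (hy : y ∈ iSup (gr A)) : x * y ∈ iSup (gr A) := by
  induction hx using Submodule.iSup_induction' with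
  | mem m x hx =>
    induction hy using Submodule.iSup_induction' with
    | mem m' y hy => exact Submodule.mem_iSup_of_mem (m + m') (gr_mul A hx hy)
    | zero => rw [mul_zero]; exact Submodule.zero_mem _
    | add y z _ _ h1 h2 => rw [mul_add]; exact Submodule.add_mem _ h1 h2
  | zero => rw [zero_mul]; exact Submodule.zero_mem _
  | add x z _ _ h1 h2 => rw [add_mul]; exact Submodule.add_mem _ h1 h2

/-- an element of the field which is a sum of homogeneous elements of `A` -/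
def good (A : Subalgebra k (Fr k n)) (z : Fr k n) : Prop :=
  ∃ h : z ∈ A, (⟨z, h⟩ : A) ∈ iSup (gr A)

theorem good_HF (A : Subalgebra k (Fr k n)) {z : Fr k n} (h : z ∈ A) {m : ℤ} (hm : z ∈ HF k n m) :
    good A z :=
  ⟨h, Submodule.mem_iSup_of_mem m hm⟩

theorem good_add (A : Subalgebra k (Fr k n)) {x y : Fr k n} (hx : good A x) (hy : good A y) :
    good A (x + y) := by
  obtain ⟨h1, h1'⟩ := hx
  obtain ⟨h2, h2'⟩ := hy
  exact ⟨add_mem h1 h2, Submodule.add_mem _ h1' h2'⟩

theorem good_mul (A : Subalgebra k (Fr k n)) {x y : Fr k n} (hx : good A x) (hy : good A y) :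
    good A (x * y) := by
  obtain ⟨h1, h1'⟩ := hx
  obtain ⟨h2, h2'⟩ := hy
  exact ⟨mul_mem h1 h2, iSup_mul A _ _ h1' h2'⟩

theorem good_sum (A : Subalgebra k (Fr k n)) {ι : Type*} (s : Finset ι) (x : ι → Fr k n)
    (hx : ∀ i ∈ s, good A (x i)) : good A (∑ i ∈ s, x i) := by
  classical
  induction s using Finset.induction_on with
  | empty =>
    rw [Finset.sum_empty]
    exact ⟨zero_mem _, Submodule.zero_mem _⟩
  | insert a s ha ih =>
    rw [Finset.sum_insert ha]
    exact good_add A (hx a (Finset.mem_insert_self _ _))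
      (ih fun i hi => hx i (Finset.mem_insert_of_mem hi))

variable (D : Dat k n)

theorem inc_mem (σ : Finset (Fin D.p)) (τ : Finset (Fin D.M)) (w : Pol k n) :
    inc k n w ∈ D.R σ τ :=
  Algebra.subset_adjoin (Or.inl (Or.inl ⟨w, rfl⟩))

theorem R_good (hD : D.Good) (σ : Finset (Fin D.p)) (τ : Finset (Fin D.M)) (z : Fr k n)
    (hz : z ∈ D.R σ τ) : good (D.R σ τ) z := by
  have hz' := hz
  unfold Dat.R at hz'
  induction hz' using Algebra.adjoin_induction with
  | mem z hz' =>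
    rcases hz' with (⟨w, rfl⟩ | ⟨b, hb, rfl⟩) | ⟨b, hb, j, rfl⟩
    · have e : inc k n w = ∑ i ∈ Finset.range (w.totalDegree + 1),
          inc k n (homogeneousComponent i w) := by
        rw [← map_sum, sum_homogeneousComponent]
      rw [e]
      refine good_sum _ _ _ fun i _ => ?_
      exact good_HF _ (inc_mem D σ τ _) (inc_HF (homogeneousComponent_isHomogeneous i w))
    · exact good_HF _ hz (inv_HF (hD.g_hom b) (hD.g_ne b))
    · refine good_HF (m := 0) _ hz ⟨D.f j, D.f b, D.δ, D.δ, hD.f_hom j, hD.f_hom b, hD.f_ne b,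
        fun _ => by simp, rfl⟩
  | algebraMap r =>
    have e : algebraMap k (Fr k n) r = r • (1 : Fr k n) := Algebra.algebraMap_eq_smul_one r
    rw [e] at hz ⊢
    exact good_HF (m := 0) _ hz (Submodule.smul_mem _ _ one_HF)
  | add x y hx hy ihx ihy => exact good_add _ (ihx hx) (ihy hy)
  | mul x y hx hy ihx ihy => exact good_mul _ (ihx hx) (ihy hy)

theorem internal (hHFI : Stmt_HFI.{u}) (hD : D.Good) (σ : Finset (Fin D.p))
    (τ : Finset (Fin D.M)) : DirectSum.IsInternal (gr (D.R σ τ)) := by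
  rw [DirectSum.isInternal_submodule_iff_iSupIndep_and_iSup_eq_top]
  constructor
  · rw [iSupIndep_iff_finsetSum_eq_zero_imp_eq_zero]
    intro s v hv hsum i hi
    classical
    have h := hHFI k n s (fun m => if m ∈ s then ((v m : D.R σ τ) : Fr k n) else 0) (by
      intro m
      by_cases hm : m ∈ s
      · simp only [if_pos hm]
        exact hv m hm
      · simp only [if_neg hm]
        exact Submodule.zero_mem _) (by
      have h1 : (((∑ i ∈ s, v i : D.R σ τ)) : Fr k n) = 0 := by rw [hsum]; rfl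
      rw [← h1]
      rw [AddSubmonoidClass.coe_finsetSum]
      exact Finset.sum_congr rfl fun m hm => by simp only [if_pos hm]) i hi
    simp only [if_pos hi] at h
    exact Subtype.ext h
  · rw [eq_top_iff]
    intro z _
    obtain ⟨_, h⟩ := R_good D hD σ τ z z.2
    exact h

theorem gen_eq (hD : D.Good) (σ : Finset (Fin D.p)) (τ : Finset (Fin D.M)) :
    genIn (D.R σ τ) (inc k n '' D.I) = Ideal.span {z : D.R σ τ | ∃ w ∈ D.I, ∃ d : ℕ,
      w.IsHomogeneous d ∧ (z : Fr k n) = inc k n w} := by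
  apply le_antisymm
  · unfold genIn
    rw [Ideal.span_le]
    rintro z ⟨w, hw, hwz⟩
    have e : z = ∑ i ∈ Finset.range (w.totalDegree + 1),
        (⟨inc k n (homogeneousComponent i w), inc_mem D σ τ _⟩ : D.R σ τ) := by
      apply Subtype.ext
      rw [AddSubmonoidClass.coe_finsetSum, ← hwz]
      change inc k n w = ∑ i ∈ Finset.range (w.totalDegree + 1),
          inc k n (homogeneousComponent i w)
      rw [← map_sum, sum_homogeneousComponent]
    rw [e]
    refine Ideal.sum_mem _ fun i _ => ?_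
    exact Ideal.subset_span ⟨_, hD.I_hom w hw i, i, homogeneousComponent_isHomogeneous i w, rfl⟩
  · rw [Ideal.span_le]
    rintro z ⟨w, hw, d, hd, hz⟩
    exact Ideal.subset_span ⟨w, hw, hz.symm⟩

theorem final (hHFI : Stmt_HFI.{u}) (hD : D.Good) (σ : Finset (Fin D.p))
    (τ : Finset (Fin D.M)) (z : D.R σ τ) :
    ∃ (T : Finset ℤ) (y : ℤ → D.R σ τ), (∀ m, (y m : Fr k n) ∈ HF k n m) ∧
      z = ∑ m ∈ T, y m ∧ (z ∈ genIn (D.R σ τ) (inc k n '' D.I) →
        ∀ m, y m ∈ genIn (D.R σ τ) (inc k n '' D.I)) ∧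
      (z ∈ (genIn (D.R σ τ) (inc k n '' D.I)).radical →
        ∀ m, y m ∈ (genIn (D.R σ τ) (inc k n '' D.I)).radical) := by
  classical
  letI i1 : DirectSum.Decomposition (gr (D.R σ τ)) := (internal D hHFI hD σ τ).chooseDecomposition
  letI i2 : GradedRing (gr (D.R σ τ)) := { grMon (D.R σ τ), i1 with }
  have hJ : (genIn (D.R σ τ) (inc k n '' D.I)).IsHomogeneous (gr (D.R σ τ)) := by
    rw [gen_eq D hD]
    apply Ideal.homogeneous_span
    rintro x ⟨w, hw, d, hd, hx⟩
    refine ⟨(d : ℤ), ?_⟩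
    rw [mem_gr, hx]
    exact inc_HF hd
  have hJr := hJ.radical
  refine ⟨(DirectSum.decompose (gr (D.R σ τ)) z).support,
    fun m => (DirectSum.decompose (gr (D.R σ τ)) z m : D.R σ τ), ?_, ?_, ?_, ?_⟩
  · intro m
    exact (DirectSum.decompose (gr (D.R σ τ)) z m).2
  · exact (DirectSum.sum_support_decompose (gr (D.R σ τ)) z).symm
  · intro hz m
    exact hJ m hz
  · intro hz m
    exact hJr m hz

end EGR_

theorem egr_proof.{v} (hHFI : Stmt_HFI.{v}) : Stmt_EGR.{v} := by
  intro k _ n D hD σ τ x hx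
  unfold Dat.Eg Dat.E
  unfold Dat.E at hx
  by_cases hτ : τ = ∅
  · simp only [if_pos hτ] at hx ⊢
    obtain ⟨z, hz, rfl⟩ := hx
    obtain ⟨T, y, h1, h2, h3, _⟩ := EGR_.final D hHFI hD σ τ z
    refine ⟨T, fun m => (y m : Fr k n), fun m => ⟨⟨y m, h3 hz m, rfl⟩, h1 m⟩, ?_⟩
    conv_lhs => rw [h2]
    rw [map_sum]
    rfl
  · simp only [if_neg hτ] at hx ⊢
    obtain ⟨z, hz, rfl⟩ := hx
    obtain ⟨T, y, h1, h2, _, h3⟩ := EGR_.final D hHFI hD σ τ z
    refine ⟨T, fun m => (y m : Fr k n), fun m => ⟨⟨y m, h3 hz m, rfl⟩, h1 m⟩, ?_⟩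
    conv_lhs => rw [h2]
    rw [map_sum]
    rfl

end

end Pool.Agent.DBX.ALG
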