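import Pool.Agent.DBX.ALG.Stmts

set_option autoImplicit false

/-! # MP_2c751f_ag, squad DBX, area ALG, module ELO: localisation of `E` -/

namespace Pool.Agent.DBX.ALG

open MvPolynomial Pool.Agent.DBX

noncomputable section

universe u

namespace ELO_

variable {k : Type u} [Field k] {n : ℕ} (D : Dat k n)

theorem inc_mem (σ : Finset (Fin D.p)) (τ : Finset (Fin D.M)) (w : Pol k n) :
    inc k n w ∈ D.R σ τ :=
  Algebra.subset_adjoin (Or.inl (Or.inl ⟨w, rfl⟩))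

theorem loc (hg : ∀ a, D.g a ≠ 0) (σ : Finset (Fin D.p)) (τ : Finset (Fin D.M)) (a : Fin D.p)
    (z : Fr k n) (hz : z ∈ D.R σ τ) :
    ∃ N : ℕ, inc k n (∏ b ∈ σ, D.g b) ^ N * z ∈ D.R {a} τ := by
  unfold Dat.R at hz
  induction hz using Algebra.adjoin_induction with
  | mem z hz =>
    rcases hz with (⟨w, rfl⟩ | ⟨b, hb, rfl⟩) | ⟨b, hb, j, rfl⟩
    · exact ⟨0, by rw [pow_zero, one_mul]; exact inc_mem D _ _ _⟩
    · refine ⟨1, ?_⟩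
      have h0 : inc k n (D.g b) ≠ 0 := inc_ne (hg b)
      have h1 : inc k n (∏ b ∈ σ, D.g b) ^ 1 * (inc k n (D.g b))⁻¹ =
          inc k n (∏ b ∈ σ.erase b, D.g b) := by
        rw [pow_one, ← Finset.mul_prod_erase σ D.g hb, map_mul,
          mul_comm (inc k n (D.g b)), mul_assoc, mul_inv_cancel₀ h0, mul_one]
      rw [h1]
      exact inc_mem D _ _ _
    · refine ⟨0, ?_⟩
      rw [pow_zero, one_mul]
      exact Algebra.subset_adjoin (Or.inr ⟨b, hb, j, rfl⟩)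
  | algebraMap r =>
    exact ⟨0, by rw [pow_zero, one_mul]; exact Subalgebra.algebraMap_mem _ _⟩
  | add x y hx hy ihx ihy =>
    obtain ⟨N1, h1⟩ := ihx
    obtain ⟨N2, h2⟩ := ihy
    have hG := inc_mem D {a} τ (∏ b ∈ σ, D.g b)
    refine ⟨N1 + N2, ?_⟩
    have e : inc k n (∏ b ∈ σ, D.g b) ^ (N1 + N2) * (x + y) =
        inc k n (∏ b ∈ σ, D.g b) ^ N2 * (inc k n (∏ b ∈ σ, D.g b) ^ N1 * x) +
        inc k n (∏ b ∈ σ, D.g b) ^ N1 * (inc k n (∏ b ∈ σ, D.g b) ^ N2 * y) := by ring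
    rw [e]
    exact add_mem (mul_mem (pow_mem hG _) h1) (mul_mem (pow_mem hG _) h2)
  | mul x y hx hy ihx ihy =>
    obtain ⟨N1, h1⟩ := ihx
    obtain ⟨N2, h2⟩ := ihy
    refine ⟨N1 + N2, ?_⟩
    have e : inc k n (∏ b ∈ σ, D.g b) ^ (N1 + N2) * (x * y) =
        (inc k n (∏ b ∈ σ, D.g b) ^ N1 * x) *
        (inc k n (∏ b ∈ σ, D.g b) ^ N2 * y) := by ring
    rw [e]
    exact mul_mem h1 h2

theorem loc_gen (hg : ∀ a, D.g a ≠ 0) (σ : Finset (Fin D.p)) (τ : Finset (Fin D.M)) (a : Fin D.p)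
    (z : D.R σ τ) (hz : z ∈ genIn (D.R σ τ) (inc k n '' D.I)) :
    ∃ N : ℕ, ∃ y : D.R {a} τ, y ∈ genIn (D.R {a} τ) (inc k n '' D.I) ∧
      (y : Fr k n) = inc k n (∏ b ∈ σ, D.g b) ^ N * (z : Fr k n) := by
  have hG := inc_mem D {a} τ (∏ b ∈ σ, D.g b)
  unfold genIn at hz
  induction hz using Submodule.span_induction with
  | mem z hz =>
    obtain ⟨w, hw, hwz⟩ := hz
    refine ⟨0, ⟨inc k n w, inc_mem D _ _ _⟩, Ideal.subset_span ⟨w, hw, rfl⟩, ?_⟩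
    rw [pow_zero, one_mul]
    exact hwz
  | zero => exact ⟨0, 0, Ideal.zero_mem _, by simp⟩
  | add x y hx hy ihx ihy =>
    obtain ⟨N1, y1, h1, e1⟩ := ihx
    obtain ⟨N2, y2, h2, e2⟩ := ihy
    refine ⟨N1 + N2, (⟨_, hG⟩ : D.R {a} τ) ^ N2 * y1 + (⟨_, hG⟩ : D.R {a} τ) ^ N1 * y2,
      Ideal.add_mem _ (Ideal.mul_mem_left _ _ h1) (Ideal.mul_mem_left _ _ h2), ?_⟩
    simp only [Subalgebra.coe_add, Subalgebra.coe_mul, Subalgebra.coe_pow]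
    rw [e1, e2]
    ring
  | smul r x hx ihx =>
    obtain ⟨N2, y2, h2, e2⟩ := ihx
    obtain ⟨N1, h1⟩ := loc D hg σ τ a r r.2
    refine ⟨N1 + N2, (⟨_, h1⟩ : D.R {a} τ) * y2, Ideal.mul_mem_left _ _ h2, ?_⟩
    rw [smul_eq_mul]
    simp only [Subalgebra.coe_add, Subalgebra.coe_mul, Subalgebra.coe_pow]
    rw [e2]
    ring

theorem loc_rad (hg : ∀ a, D.g a ≠ 0) (σ : Finset (Fin D.p)) (τ : Finset (Fin D.M)) (a : Fin D.p)
    (z : D.R σ τ) (hz : z ∈ (genIn (D.R σ τ) (inc k n '' D.I)).radical) :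
    ∃ N : ℕ, ∃ y : D.R {a} τ, y ∈ (genIn (D.R {a} τ) (inc k n '' D.I)).radical ∧
      (y : Fr k n) = inc k n (∏ b ∈ σ, D.g b) ^ N * (z : Fr k n) := by
  have hG := inc_mem D {a} τ (∏ b ∈ σ, D.g b)
  obtain ⟨K, hK⟩ := hz
  obtain ⟨N', y', h', e'⟩ := loc_gen D hg σ τ a _ hK
  obtain ⟨N, h⟩ := loc D hg σ τ a z z.2
  refine ⟨N + N', (⟨_, hG⟩ : D.R {a} τ) ^ N' * ⟨_, h⟩, ⟨K + 1, ?_⟩, ?_⟩
  · have e : ((⟨_, hG⟩ : D.R {a} τ) ^ N' * ⟨_, h⟩) ^ (K + 1) =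
        ((⟨_, hG⟩ : D.R {a} τ) ^ ((N + N') * K) * ⟨_, h⟩) * y' := by
      apply Subtype.ext
      simp only [Subalgebra.coe_add, Subalgebra.coe_mul, Subalgebra.coe_pow]
      rw [e']
      simp only [Subalgebra.coe_add, Subalgebra.coe_mul, Subalgebra.coe_pow]
      ring
    rw [e]
    exact Ideal.mul_mem_left _ _ h'
  · simp only [Subalgebra.coe_add, Subalgebra.coe_mul, Subalgebra.coe_pow]
    ring

end ELO_

theorem elo_proof.{v} : Stmt_ELO.{v} := by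
  intro k _ n D hg σ τ a _ x hx
  unfold Dat.E at hx ⊢
  by_cases hτ : τ = ∅
  · rw [if_pos hτ] at hx
    simp only [if_pos hτ]
    obtain ⟨z, hz, rfl⟩ := hx
    obtain ⟨N, y, hy, e⟩ := ELO_.loc_gen D hg σ τ a z hz
    exact ⟨N, y, hy, by rw [map_pow]; exact e⟩
  · rw [if_neg hτ] at hx
    simp only [if_neg hτ]
    obtain ⟨z, hz, rfl⟩ := hx
    obtain ⟨N, y, hy, e⟩ := ELO_.loc_rad D hg σ τ a z hz
    exact ⟨N, y, hy, by rw [map_pow]; exact e⟩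

end

end Pool.Agent.DBX.ALG
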