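import Pool.Agent.DBX.ALG.Stmts

set_option autoImplicit false

namespace Pool.Agent.DBX.ALG

open MvPolynomial Pool.Agent.DBX

universe u

theorem EML_toF {k F : Type*} [Field k] [Field F] [Algebra k F] (A : Subalgebra k F)
    (J : Ideal A) (r x : F) (hr : r ∈ A) (hx : x ∈ toF A J) : r * x ∈ toF A J := by
  obtain ⟨z, hz, rfl⟩ := hx
  exact ⟨⟨r, hr⟩ * z, J.mul_mem_left _ hz, rfl⟩

theorem EML_E {k : Type u} [Field k] {n : ℕ} (D : Dat k n) (σ : Finset (Fin D.p))
    (τ : Finset (Fin D.M)) (r x : Fr k n) (hr : r ∈ D.R σ τ) (hx : x ∈ D.E σ τ) :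
    r * x ∈ D.E σ τ := by
  unfold Dat.E at hx ⊢
  split_ifs at hx ⊢ with h
  · exact EML_toF _ _ r x hr hx
  · exact EML_toF _ _ r x hr hx

theorem EML_proof : Stmt_EML.{u} := by
  intro k _ n D
  refine ⟨?_, ?_, ?_, ?_⟩
  · intro σ τ w x hx
    exact EML_E D σ τ _ x (Algebra.subset_adjoin (Or.inl (Or.inl ⟨w, rfl⟩))) hx
  · rintro d m w hw x ⟨a, b, i, j, ha, hb, hb0, hm, rfl⟩
    refine ⟨w * a, b, d + i, j, hw.mul ha, hb, hb0, ?_, ?_⟩
    · intro h
      have := hm (fun h0 => h (by rw [h0, mul_zero]))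
      push_cast
      omega
    · rw [map_mul, mul_div_assoc]
  · rintro d m w hw x ⟨a, b, i, j, ha, hb, hb0, hm, rfl⟩
    by_cases hw0 : w = 0
    · subst hw0
      rw [map_zero, inv_zero, zero_mul]
      exact Submodule.zero_mem _
    refine ⟨a, w * b, i, d + j, ha, hw.mul hb, mul_ne_zero hw0 hb0, ?_, ?_⟩
    · intro h
      have := hm h
      push_cast
      omega
    · rw [map_mul]
      have h1 := inc_ne hb0
      have h2 := inc_ne hw0
      field_simp
  · intro σ τ a ha x hx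
    exact EML_E D σ τ _ x (Algebra.subset_adjoin (Or.inl (Or.inr ⟨a, ha, rfl⟩))) hx

end Pool.Agent.DBX.ALG
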