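import Pool.Agent.DBX.ALG.Stmts

set_option autoImplicit false

namespace Pool.Agent.DBX.ALG

open MvPolynomial Pool.Agent.DBX

noncomputable section

universe u

namespace EMO_

variable {k F : Type*} [Field k] [Field F] [Algebra k F]

theorem mem_toF {A : Subalgebra k F} {J : Ideal A} {x : F} :
    x ∈ toF A J ↔ ∃ z : A, z ∈ J ∧ (z : F) = x := by
  unfold toF
  rw [Submodule.mem_map]
  constructor
  · rintro ⟨z, hz, rfl⟩
    exact ⟨z, hz, rfl⟩
  · rintro ⟨z, hz, rfl⟩
    exact ⟨z, hz, rfl⟩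

theorem inclusion_mem {A A' : Subalgebra k F} (h : A ≤ A') (J : Set F) {z : A}
    (hz : z ∈ genIn A J) : Subalgebra.inclusion h z ∈ genIn A' J := by
  have hle : genIn A J ≤ (genIn A' J).comap (Subalgebra.inclusion h) := by
    unfold genIn
    rw [Ideal.span_le]
    intro w hw
    exact Ideal.subset_span (by simpa using hw)
  exact hle hz

theorem toF_mono {A A' : Subalgebra k F} (h : A ≤ A') (J : Set F) :
    toF A (genIn A J) ≤ toF A' (genIn A' J) := by
  intro x hx
  obtain ⟨z, hz, rfl⟩ := mem_toF.1 hx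
  exact mem_toF.2 ⟨Subalgebra.inclusion h z, inclusion_mem h J hz, rfl⟩

theorem toF_rad_mono {A A' : Subalgebra k F} (h : A ≤ A') (J : Set F) :
    toF A (genIn A J).radical ≤ toF A' (genIn A' J).radical := by
  intro x hx
  obtain ⟨z, ⟨N, hN⟩, rfl⟩ := mem_toF.1 hx
  refine mem_toF.2 ⟨Subalgebra.inclusion h z, ⟨N, ?_⟩, rfl⟩
  have := inclusion_mem h J hN
  rwa [map_pow] at this

theorem toF_le_rad (A : Subalgebra k F) (J : Set F) :
    toF A (genIn A J) ≤ toF A (genIn A J).radical := by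
  intro x hx
  obtain ⟨z, hz, rfl⟩ := mem_toF.1 hx
  exact mem_toF.2 ⟨z, Ideal.le_radical hz, rfl⟩

end EMO_

open EMO_ in
theorem emo_proof.{v} : Stmt_EMO.{v} := by
  intro k _ n D σ σ' τ τ' hσ hτ
  have hR : D.R σ τ ≤ D.R σ' τ' := by
    unfold Dat.R
    apply Algebra.adjoin_mono
    apply Set.union_subset_union
    · apply Set.union_subset_union_right
      rintro z ⟨a, ha, rfl⟩
      exact ⟨a, hσ ha, rfl⟩
    · rintro z ⟨b, hb, j, rfl⟩
      exact ⟨b, hτ hb, j, rfl⟩
  have hE : D.E σ τ ≤ D.E σ' τ' := by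
    unfold Dat.E
    by_cases h1 : τ = ∅
    · rw [if_pos h1]
      by_cases h2 : τ' = ∅
      · rw [if_pos h2]
        exact toF_mono hR _
      · rw [if_neg h2]
        exact (toF_mono hR _).trans (toF_le_rad _ _)
    · have h2 : τ' ≠ ∅ := by
        rintro rfl
        exact h1 (Finset.subset_empty.1 hτ)
      rw [if_neg h1, if_neg h2]
      exact toF_rad_mono hR _
  refine ⟨hE, fun m => ?_⟩
  unfold Dat.Eg
  exact inf_le_inf_right _ hE

end

end Pool.Agent.DBX.ALG
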