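import Pool.Agent.DBX.ALG.Stmts

set_option autoImplicit false

namespace Pool.Agent.DBX.ALG

open MvPolynomial Pool.Agent.DBX

noncomputable section

universe u

attribute [local instance] MvPolynomial.gradedAlgebra

namespace HCO_

variable {k : Type u} [Field k] {n : ℕ}

theorem hom_iff (I : Ideal (Pol k n)) :
    I.IsHomogeneous (homogeneousSubmodule (Fin n) k) ↔ HomIdeal I := by
  constructor
  · intro h w hw d
    have := h d hw
    rwa [← MvPolynomial.decomposition.decompose'_apply]
  · intro h d w hw
    have := h w hw d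
    rwa [← MvPolynomial.decomposition.decompose'_apply] at this

end HCO_

theorem hco_proof : Stmt_HCO.{u} := by
  intro k _ n J g d hJ hg hN
  have hdis : Disjoint (J : Set (Pol k n)) (Submonoid.powers g : Set (Pol k n)) := by
    rw [Set.disjoint_left]
    rintro x hx ⟨N, rfl⟩
    exact hN N hx
  obtain ⟨Q, hQ, hJQ, hd⟩ := Ideal.exists_le_prime_disjoint J (Submonoid.powers g) hdis
  have hgQ : g ∉ Q := fun h =>
    Set.disjoint_left.mp hd h (Submonoid.mem_powers g)
  refine ⟨(Q.homogeneousCore (homogeneousSubmodule (Fin n) k)).toIdeal, hQ.homogeneousCore, ?_, ?_, ?_⟩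
  · exact (HCO_.hom_iff _).mp (Q.homogeneousCore _).isHomogeneous
  · have h1 := ((HCO_.hom_iff J).mpr hJ).toIdeal_homogeneousCore_eq_self
    rw [← h1]
    exact Ideal.homogeneousCore_mono _ hJQ
  · intro h
    exact hgQ (Ideal.toIdeal_homogeneousCore_le _ Q h)

end

end Pool.Agent.DBX.ALG
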