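import Pool.Agent.DBX.ALG.Stmts

set_option autoImplicit false

/-! # MP_2c751f_ag, squad DBX, area ALG: homogeneous components in `k(x)` are unique -/

namespace Pool.Agent.DBX.ALG

open MvPolynomial Pool.Agent.DBX

noncomputable section

universe u

namespace HFI_

theorem comp {k : Type u} [Field k] {n : ℕ} {p : Pol k n} {d : ℕ} (h : p.IsHomogeneous d)
    (e : ℕ) : homogeneousComponent e p = if e = d then p else 0 :=
  homogeneousComponent_of_mem h

end HFI_

theorem hfi_proof : Stmt_HFI.{u} := by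
  classical
  intro k _ n T x hx hsum m0 hm0
  have hx' : ∀ m, ∃ (a b : Pol k n) (i j : ℕ), a.IsHomogeneous i ∧ b.IsHomogeneous j ∧ b ≠ 0 ∧
      (a ≠ 0 → (i : ℤ) - j = m) ∧ x m = inc k n a / inc k n b := fun m => hx m
  choose a b i j ha hb hb0 hm hxe using hx'
  let P : ℤ → Pol k n := fun m => a m * ∏ m' ∈ T.erase m, b m'
  let d : ℤ → ℕ := fun m => i m + ∑ m' ∈ T.erase m, j m'
  have hP : ∀ m, (P m).IsHomogeneous (d m) := fun m =>
    (ha m).mul (IsHomogeneous.prod (T.erase m) b j (fun m' _ => hb m'))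
  have hQ : ∀ m ∈ T, inc k n (P m) = x m * inc k n (∏ m' ∈ T, b m') := by
    intro m hmT
    have h2 : inc k n (P m) = inc k n (a m) * inc k n (∏ m' ∈ T.erase m, b m') :=
      map_mul (inc k n) _ _
    rw [h2, ← Finset.mul_prod_erase T b hmT, map_mul (inc k n) (b m), hxe m]
    have h1 := inc_ne (hb0 m)
    field_simp
  have hS : ∑ m ∈ T, P m = 0 := by
    have h1 : inc k n (∑ m ∈ T, P m) = 0 := by
      rw [map_sum, Finset.sum_congr rfl hQ, ← Finset.sum_mul, hsum, zero_mul]
    by_contra h2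
    exact inc_ne h2 h1
  have hd : ∀ m ∈ T, a m ≠ 0 → (d m : ℤ) = m + ∑ m' ∈ T, (j m' : ℤ) := by
    intro m hmT h0
    have h1 := hm m h0
    have h2 : (∑ m' ∈ T, (j m' : ℤ)) = j m + ∑ m' ∈ T.erase m, (j m' : ℤ) :=
      (Finset.add_sum_erase T (fun m' => (j m' : ℤ)) hmT).symm
    rw [h2]
    show ((i m + ∑ m' ∈ T.erase m, j m' : ℕ) : ℤ) = _
    push_cast
    linarith
  by_cases h0 : a m0 = 0
  · rw [hxe m0, h0, map_zero, zero_div]
  · have h1 : homogeneousComponent (d m0) (∑ m ∈ T, P m) = P m0 := by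
      rw [map_sum, Finset.sum_eq_single m0]
      · rw [HFI_.comp (hP m0), if_pos rfl]
      · intro m hmT hne
        by_cases h3 : a m = 0
        · have h4 : P m = 0 := by
            show a m * ∏ m' ∈ T.erase m, b m' = 0
            rw [h3, zero_mul]
          rw [h4, map_zero]
        · rw [HFI_.comp (hP m), if_neg]
          intro h5
          have h6 := hd m hmT h3
          have h7 := hd m0 hm0 h0
          rw [h5] at h7
          exact hne (by linarith)
      · intro h
        exact absurd hm0 h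
    rw [hS, map_zero] at h1
    exfalso
    have h2 : P m0 ≠ 0 :=
      mul_ne_zero h0 (Finset.prod_ne_zero_iff.mpr (fun m' _ => hb0 m'))
    exact h2 h1.symm

end

end Pool.Agent.DBX.ALG
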