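import Pool.Agent.DBX.ALG.Stmts

set_option autoImplicit false

namespace Pool.Agent.DBX.ALG

open Pool.Agent.DBX MvPolynomial

universe u

theorem hht_proof : Stmt_HHT.{u} := by
  intro k _ n q hq hhom g hg hgq
  haveI := hq
  -- the irrelevant ideal
  let mm : Ideal (Pol k n) := RingHom.ker (MvPolynomial.constantCoeff (R := k) (σ := Fin n))
  haveI hmm : mm.IsPrime := RingHom.ker_isPrime _
  have hle : q ≤ mm := by
    intro w hw
    have h1 := hhom w hw 0
    rw [homogeneousComponent_zero] at h1
    change constantCoeff w = 0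
    by_contra h0
    apply hq.ne_top
    rw [Ideal.eq_top_iff_one]
    have h2 := q.mul_mem_left (C (constantCoeff w)⁻¹) h1
    rw [← map_mul] at h2
    have h3 : (constantCoeff w)⁻¹ * coeff 0 w = 1 := by
      have : constantCoeff w = coeff 0 w := rfl
      rw [← this]
      exact inv_mul_cancel₀ h0
    rwa [h3, map_one] at h2
  have hgm : g ∈ mm := by
    change constantCoeff g = 0
    rw [constantCoeff_eq]
    by_contra h0
    have := hg h0
    simp at this
  have hlt : q < mm := lt_of_le_of_ne hle (fun h => hgq (h ▸ hgm))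
  have h1 : q.height + 1 ≤ mm.height := Ideal.height_add_one_le_of_lt_of_isPrime hlt
  have h2 : (mm.height : WithBot ℕ∞) ≤ ringKrullDim (Pol k n) :=
    Ideal.height_le_ringKrullDim_of_isPrime
  have h3 : ringKrullDim (Pol k n) = n := by
    rw [MvPolynomial.ringKrullDim_of_isNoetherianRing]
    simp
  rw [h3] at h2
  have h4 : mm.height ≤ (n : ℕ∞) := by exact_mod_cast h2
  exact h1.trans h4

end Pool.Agent.DBX.ALG
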