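import Pool.Agent.DBX.ALG.Stmts

set_option autoImplicit false

namespace Pool.Agent.DBX.ALG

open MvPolynomial Pool.Agent.DBX

universe u

namespace HI0_

theorem ne_top_of_DM {k : Type u} [Field k] {n : ℕ} (D : Dat k n) (c : ℕ) (h : D.DM c) :
    D.I ≠ ⊤ := by
  intro hI
  unfold Dat.DM at h
  have hs : Subsingleton (Pol k n ⧸ D.I) := Ideal.Quotient.subsingleton_iff.2 hI
  have h1 : ringKrullDim (Pol k n ⧸ D.I) = ⊥ := ringKrullDim_eq_bot_of_subsingleton
  rw [h1, WithBot.bot_add] at h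
  exact absurd h (by
    rw [le_bot_iff]
    exact WithBot.coe_ne_bot (a := (n : ℕ∞)))

theorem hilb_zero {k : Type u} [Field k] {n : ℕ} (I : Ideal (Pol k n)) (hI : I ≠ ⊤) :
    hilb I 0 = 1 := by
  unfold hilb
  have h0 : homogeneousSubmodule (Fin n) k 0 = Submodule.span k {(1 : Pol k n)} := by
    rw [homogeneousSubmodule_zero, Submodule.one_eq_span]
  rw [h0, Submodule.map_span, Set.image_singleton]
  apply finrank_span_singleton
  have hnt : Nontrivial (Pol k n ⧸ I) := Ideal.Quotient.nontrivial_iff.2 hI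
  show (Ideal.Quotient.mkₐ k I) 1 ≠ 0
  rw [map_one]
  exact one_ne_zero

end HI0_

theorem hi0_proof (hINP : Stmt_INP.{u}) : Stmt_HI0.{u} := by
  intro k _ _ n D c hn hgood hdm _
  have h1 := HI0_.ne_top_of_DM D c hdm
  have h2 := HI0_.ne_top_of_DM D.sec c ((hINP k n D 0 c hn hgood).2 hdm)
  rw [HI0_.hilb_zero _ h1, HI0_.hilb_zero _ h2]

end Pool.Agent.DBX.ALG
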