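import Pool.Agent.DBX.ALG.Stmts

set_option autoImplicit false
set_option linter.all false

namespace Pool.Agent.DBX.ALG

open MvPolynomial Pool.Agent.DBX

universe u

namespace HIL_

/-- degree `v` part of an ideal -/
noncomputable def Iv {k : Type u} [Field k] {m : ℕ} (I : Ideal (Pol k m)) (v : ℕ) :
    Submodule k (Pol k m) := I.restrictScalars k ⊓ homogeneousSubmodule (Fin m) k v

theorem mem_Iv {k : Type u} [Field k] {m : ℕ} (I : Ideal (Pol k m)) (v : ℕ) (w : Pol k m) :
    w ∈ Iv I v ↔ w ∈ I ∧ w.IsHomogeneous v := by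
  unfold Iv
  rw [Submodule.mem_inf, mem_homogeneousSubmodule]
  rfl

instance finHS (k : Type u) [Field k] (m v : ℕ) :
    FiniteDimensional k (homogeneousSubmodule (Fin m) k v) := by
  exact Module.Finite.iff_fg.2 (homogeneousSubmodule_fg (Fin m) k v)

theorem Iv_le {k : Type u} [Field k] {m : ℕ} (I : Ideal (Pol k m)) (v : ℕ) :
    Iv I v ≤ homogeneousSubmodule (Fin m) k v := inf_le_right

instance finIv {k : Type u} [Field k] {m : ℕ} (I : Ideal (Pol k m)) (v : ℕ) :
    FiniteDimensional k (Iv I v) :=
  Submodule.finiteDimensional_of_le (Iv_le I v)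

/-- rank-nullity for a subspace `A` and a linear map `f` -/
theorem rn {k V W : Type*} [Field k] [AddCommGroup V] [Module k V] [AddCommGroup W] [Module k W]
    (f : V →ₗ[k] W) (A K : Submodule k V) [FiniteDimensional k A] (hK : K ≤ A)
    (hk : ∀ x ∈ A, f x = 0 ↔ x ∈ K) :
    Module.finrank k (Submodule.map f A) + Module.finrank k K = Module.finrank k A := by
  have h := LinearMap.finrank_range_add_finrank_ker (f.domRestrict A)
  have e1 : LinearMap.range (f.domRestrict A) = Submodule.map f A := by
    ext y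
    constructor
    · rintro ⟨x, rfl⟩
      exact ⟨x.1, x.2, rfl⟩
    · rintro ⟨x, hx, rfl⟩
      exact ⟨⟨x, hx⟩, rfl⟩
  have e2 : LinearMap.ker (f.domRestrict A) = Submodule.comap A.subtype K := by
    ext x
    rw [LinearMap.mem_ker, LinearMap.domRestrict_apply, Submodule.mem_comap]
    exact hk x.1 x.2
  have e3 : Module.finrank k (Submodule.comap A.subtype K) = Module.finrank k K :=
    LinearEquiv.finrank_eq (Submodule.comapSubtypeEquivOfLe hK)
  rw [e1, e2, e3] at h
  exact h

theorem hilb_add {k : Type u} [Field k] {m : ℕ} (I : Ideal (Pol k m)) (v : ℕ) :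
    hilb I v + Module.finrank k (Iv I v) =
      Module.finrank k (homogeneousSubmodule (Fin m) k v) := by
  unfold hilb
  apply rn _ _ _ (Iv_le I v)
  intro x hx
  rw [mem_Iv]
  constructor
  · intro h
    exact ⟨Ideal.Quotient.eq_zero_iff_mem.1 h, (mem_homogeneousSubmodule _ _).1 hx⟩
  · intro h
    exact Ideal.Quotient.eq_zero_iff_mem.2 h.1

/-- finrank of the span of the image under a base change map -/
theorem bcrank {k k' : Type u} [Field k] [Field k'] [Algebra k k'] {m : ℕ}
    (A : Submodule k (Pol k m)) [FiniteDimensional k A] :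
    Module.finrank k' (Submodule.span k' ((MvPolynomial.map (algebraMap k k')) '' (A : Set (Pol k m)))) =
      Module.finrank k A := by
  classical
  let b := Module.finBasis k A
  have hb : LinearIndependent k (fun i => (b i : Pol k m)) := by
    have := b.linearIndependent
    exact this.map' A.subtype (Submodule.ker_subtype A)
  have hli : LinearIndependent k' (fun i => MvPolynomial.map (algebraMap k k') (b i : Pol k m)) := by
    rw [Fintype.linearIndependent_iff]
    intro c hc
    -- expand the c i in a basis of their k-span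
    let T : Submodule k k' := Submodule.span k (Set.range c)
    haveI : FiniteDimensional k T := FiniteDimensional.span_of_finite k (Set.finite_range c)
    let β := Module.finBasis k T
    have hβ : LinearIndependent k (fun i => (β i : k')) := by
      have := β.linearIndependent
      exact this.map' T.subtype (Submodule.ker_subtype T)
    have hcT : ∀ j, c j ∈ T := fun j => Submodule.subset_span ⟨j, rfl⟩
    have hexp : ∀ j, c j = ∑ i, (β.repr ⟨c j, hcT j⟩ i) • (β i : k') := by
      intro j
      have h1 := congrArg (fun z : T => (z : k')) (β.sum_repr ⟨c j, hcT j⟩)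
      refine h1.symm.trans ?_
      rw [AddSubmonoidClass.coe_finset_sum]
      rfl
    have hz : ∀ i, ∑ j, (β.repr ⟨c j, hcT j⟩ i) • (b j : Pol k m) = 0 := by
      intro i
      ext d
      rw [coeff_zero]
      have h2 : ∑ i, (coeff d (∑ j, (β.repr ⟨c j, hcT j⟩ i) • (b j : Pol k m))) • (β i : k') = 0 := by
        have h3 := congrArg (coeff d) hc
        rw [coeff_zero, coeff_sum] at h3
        rw [← h3]
        simp_rw [coeff_smul, coeff_map, coeff_sum, coeff_smul]
        calc ∑ i, (∑ j, (β.repr ⟨c j, hcT j⟩ i) • coeff d (b j : Pol k m)) • (β i : k')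
            = ∑ i, ∑ j, ((β.repr ⟨c j, hcT j⟩ i) • coeff d (b j : Pol k m)) • (β i : k') := by
              refine Finset.sum_congr rfl fun i _ => ?_
              rw [Finset.sum_smul]
          _ = ∑ j, ∑ i, ((β.repr ⟨c j, hcT j⟩ i) • coeff d (b j : Pol k m)) • (β i : k') :=
              Finset.sum_comm
          _ = ∑ j, c j • (algebraMap k k') (coeff d (b j : Pol k m)) := by
              refine Finset.sum_congr rfl fun j _ => ?_
              conv_rhs => rw [hexp j]
              rw [Finset.sum_smul]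
              refine Finset.sum_congr rfl fun i _ => ?_
              rw [smul_eq_mul, Algebra.smul_def, map_mul, smul_eq_mul, Algebra.smul_def]
              ring
      exact (Fintype.linearIndependent_iff.1 hβ) _ h2 i
    intro j
    rw [hexp j]
    refine Finset.sum_eq_zero fun i _ => ?_
    have := (Fintype.linearIndependent_iff.1 hb) _ (hz i) j
    rw [this, zero_smul]
  have hspan : Submodule.span k' ((MvPolynomial.map (algebraMap k k')) '' (A : Set (Pol k m))) =
      Submodule.span k' (Set.range (fun i => MvPolynomial.map (algebraMap k k') (b i : Pol k m))) := by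
    apply le_antisymm
    · rw [Submodule.span_le]
      rintro _ ⟨x, hx, rfl⟩
      have h1 := congrArg (fun z : A => (z : Pol k m)) (b.sum_repr ⟨x, hx⟩)
      have h2 : x = ∑ i, (b.repr ⟨x, hx⟩ i) • (b i : Pol k m) := by
        refine h1.symm.trans ?_
        rw [AddSubmonoidClass.coe_finset_sum]
        rfl
      have h3 : MvPolynomial.map (algebraMap k k') x =
          ∑ i, (algebraMap k k' (b.repr ⟨x, hx⟩ i)) • MvPolynomial.map (algebraMap k k') (b i : Pol k m) := by
        conv_lhs => rw [h2]
        rw [map_sum]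
        refine Finset.sum_congr rfl fun i _ => ?_
        rw [MvPolynomial.smul_eq_C_mul, map_mul, map_C, MvPolynomial.smul_eq_C_mul]
      show MvPolynomial.map (algebraMap k k') x ∈ _
      rw [h3]
      exact Submodule.sum_mem _ fun i _ => Submodule.smul_mem _ _ (Submodule.subset_span ⟨i, rfl⟩)
    · apply Submodule.span_mono
      rintro _ ⟨i, rfl⟩
      exact ⟨(b i : Pol k m), (b i).2, rfl⟩
  rw [hspan, finrank_span_eq_card hli, Fintype.card_fin]

theorem map_monomial_one {k k' : Type u} [Field k] [Field k'] [Algebra k k'] {m : ℕ}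
    (d : Fin m →₀ ℕ) (c : k') :
    (monomial d c : Pol k' m) = c • MvPolynomial.map (algebraMap k k') (monomial d 1) := by
  rw [map_monomial, map_one, smul_monomial, smul_eq_mul, mul_one]

theorem spanS {k k' : Type u} [Field k] [Field k'] [Algebra k k'] (m v : ℕ) :
    Submodule.span k' ((MvPolynomial.map (algebraMap k k')) ''
      (homogeneousSubmodule (Fin m) k v : Set (Pol k m))) = homogeneousSubmodule (Fin m) k' v := by
  apply le_antisymm
  · rw [Submodule.span_le]
    rintro _ ⟨x, hx, rfl⟩
    have hx' : x.IsHomogeneous v := (mem_homogeneousSubmodule _ _).1 hx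
    exact (mem_homogeneousSubmodule _ _).2 (hx'.map _)
  · intro w hw
    have hw' : w.IsHomogeneous v := (mem_homogeneousSubmodule _ _).1 hw
    rw [w.as_sum]
    refine Submodule.sum_mem _ fun d hd => ?_
    rw [map_monomial_one (k := k)]
    refine Submodule.smul_mem _ _ (Submodule.subset_span ⟨monomial d 1, ?_, rfl⟩)
    refine (mem_homogeneousSubmodule _ _).2 (isHomogeneous_monomial _ ?_)
    by_contra hne
    exact (mem_support_iff.1 hd) (hw'.coeff_eq_zero hne)

theorem hc_map {k k' : Type u} [Field k] [Field k'] [Algebra k k'] {m : ℕ} (v : ℕ)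
    (x : Pol k m) :
    homogeneousComponent v (MvPolynomial.map (algebraMap k k') x) =
      MvPolynomial.map (algebraMap k k') (homogeneousComponent v x) := by
  ext d
  rw [coeff_homogeneousComponent, coeff_map, coeff_map, coeff_homogeneousComponent]
  split_ifs
  · rfl
  · rw [map_zero]

theorem map_le_span {k k' : Type u} [Field k] [Field k'] [Algebra k k'] {m : ℕ}
    (I : Ideal (Pol k m)) (w : Pol k' m) (hw : w ∈ I.map (MvPolynomial.map (algebraMap k k'))) :
    w ∈ Submodule.span k' ((MvPolynomial.map (algebraMap k k')) '' (I : Set (Pol k m))) := by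
  have hmul : ∀ (s x : Pol k' m),
      x ∈ Submodule.span k' ((MvPolynomial.map (algebraMap k k')) '' (I : Set (Pol k m))) →
      s * x ∈ Submodule.span k' ((MvPolynomial.map (algebraMap k k')) '' (I : Set (Pol k m))) := by
    intro s x hx
    induction hx using Submodule.span_induction with
    | mem x hx =>
      obtain ⟨i, hi, rfl⟩ := hx
      rw [s.as_sum, Finset.sum_mul]
      refine Submodule.sum_mem _ fun d _ => ?_
      rw [map_monomial_one (k := k), smul_mul_assoc]
      refine Submodule.smul_mem _ _ (Submodule.subset_span ⟨monomial d 1 * i, ?_, map_mul _ _ _⟩)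
      exact I.mul_mem_left _ hi
    | zero => rw [mul_zero]; exact Submodule.zero_mem _
    | add x y _ _ hx hy => rw [mul_add]; exact Submodule.add_mem _ hx hy
    | smul c x _ hx => rw [mul_smul_comm]; exact Submodule.smul_mem _ _ hx
  unfold Ideal.map at hw
  induction hw using Submodule.span_induction with
  | mem x hx => exact Submodule.subset_span hx
  | zero => exact Submodule.zero_mem _
  | add x y _ _ hx hy => exact Submodule.add_mem _ hx hy
  | smul c x _ hx => rw [smul_eq_mul]; exact hmul c x hx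

theorem spanI {k k' : Type u} [Field k] [Field k'] [Algebra k k'] {m : ℕ}
    (I : Ideal (Pol k m)) (hI : HomIdeal I) (v : ℕ) :
    Submodule.span k' ((MvPolynomial.map (algebraMap k k')) '' (Iv I v : Set (Pol k m))) =
      Iv (I.map (MvPolynomial.map (algebraMap k k'))) v := by
  apply le_antisymm
  · rw [Submodule.span_le]
    rintro _ ⟨x, hx, rfl⟩
    have hx' := (mem_Iv I v x).1 hx
    exact (mem_Iv _ _ _).2 ⟨Ideal.mem_map_of_mem _ hx'.1, hx'.2.map _⟩
  · intro w hw
    obtain ⟨h1, h2⟩ := (mem_Iv _ _ _).1 hw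
    have h3 := map_le_span I w h1
    have h4 : homogeneousComponent v w = w := homogeneousComponent_eq_self
      ((mem_homogeneousSubmodule _ _).2 h2)
    rw [← h4]
    clear h4 h2 h1 hw
    induction h3 using Submodule.span_induction with
    | mem x hx =>
      obtain ⟨i, hi, rfl⟩ := hx
      rw [hc_map]
      refine Submodule.subset_span ⟨homogeneousComponent v i, ?_, rfl⟩
      exact (mem_Iv _ _ _).2 ⟨hI i hi v, homogeneousComponent_isHomogeneous v i⟩
    | zero => rw [map_zero]; exact Submodule.zero_mem _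
    | add x y _ _ hx hy => rw [map_add]; exact Submodule.add_mem _ hx hy
    | smul c x _ hx => rw [map_smul]; exact Submodule.smul_mem _ _ hx

theorem hilb_bc {k k' : Type u} [Field k] [Field k'] [Algebra k k'] {m : ℕ}
    (I : Ideal (Pol k m)) (hI : HomIdeal I) (v : ℕ) :
    hilb (I.map (MvPolynomial.map (algebraMap k k'))) v = hilb I v := by
  have h1 := hilb_add I v
  have h2 := hilb_add (I.map (MvPolynomial.map (algebraMap k k'))) v
  have h3 : Module.finrank k' (homogeneousSubmodule (Fin m) k' v) =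
      Module.finrank k (homogeneousSubmodule (Fin m) k v) := by
    rw [← spanS (k := k) (k' := k') m v]
    exact bcrank (k := k) (k' := k') (homogeneousSubmodule (Fin m) k v)
  have h4 : Module.finrank k' (Iv (I.map (MvPolynomial.map (algebraMap k k'))) v) =
      Module.finrank k (Iv I v) := by
    rw [← spanI I hI v]
    exact bcrank (k := k) (k' := k') (Iv I v)
  omega

/-- rename castSucc is a section of secP -/
theorem secP_ren (k : Type u) [Field k] (n : ℕ) (w : Pol (Kx k n) n) :
    secP k n (rename Fin.castSucc w) = w := by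
  unfold secP
  rw [aeval_rename]
  have : (Fin.snoc (α := fun _ => Pol (Kx k n) n) X (∑ i, C (vv k n i) * X i)) ∘ Fin.castSucc =
      (X : Fin n → Pol (Kx k n) n) := by
    funext i
    simp [Fin.snoc_castSucc]
  rw [this, aeval_X_left, AlgHom.id_apply]

theorem secP_last (k : Type u) [Field k] (n : ℕ) :
    secP k n (X (Fin.last n)) = ∑ i, C (vv k n i) * X i := by
  unfold secP
  rw [aeval_X, Fin.snoc_last]

theorem secP_cast (k : Type u) [Field k] (n : ℕ) (i : Fin n) :
    secP k n (X i.castSucc) = X i := by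
  unfold secP
  rw [aeval_X, Fin.snoc_castSucc]

theorem secP_lgen (k : Type u) [Field k] (n : ℕ) : secP k n (lgen k n) = 0 := by
  unfold lgen
  rw [map_sub, secP_last, map_sum]
  simp_rw [map_mul, secP_cast]
  rw [sub_eq_zero]
  refine Finset.sum_congr rfl fun i _ => ?_
  have hC : secP k n (C (vv k n i)) = C (vv k n i) := (secP k n).commutes (vv k n i)
  rw [hC]

theorem secP_hom (k : Type u) [Field k] (n v : ℕ) (w : Pol (Kx k n) (n + 1))
    (hw : w.IsHomogeneous v) : (secP k n w).IsHomogeneous v := by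
  have h := hw.aeval (fun i => (Fin.snoc (α := fun _ => Pol (Kx k n) n) X
    (∑ i, C (vv k n i) * X i) : Fin (n + 1) → Pol (Kx k n) n) i) (n := 1) (by
      intro i
      refine Fin.lastCases ?_ (fun j => ?_) i
      · rw [Fin.snoc_last]
        exact IsHomogeneous.sum _ _ _ fun i _ => isHomogeneous_C_mul_X _ _
      · rw [Fin.snoc_castSucc]
        exact isHomogeneous_X _ _)
  rw [one_mul] at h
  exact h

theorem sub_mem_lgen (k : Type u) [Field k] (n : ℕ) (w : Pol (Kx k n) (n + 1)) :
    w - rename Fin.castSucc (secP k n w) ∈ Ideal.span {lgen k n} := by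
  rw [← Ideal.Quotient.eq]
  have h : (Ideal.Quotient.mkₐ (Kx k n) (Ideal.span {lgen k n})) =
      (Ideal.Quotient.mkₐ (Kx k n) (Ideal.span {lgen k n})).comp
        ((rename Fin.castSucc).comp (secP k n)) := by
    apply MvPolynomial.algHom_ext
    intro i
    rw [AlgHom.comp_apply, AlgHom.comp_apply]
    refine Fin.lastCases ?_ (fun j => ?_) i
    · rw [secP_last]
      refine (Ideal.Quotient.eq).2 ?_
      rw [map_sum]
      refine Ideal.mem_span_singleton.2 ?_
      refine dvd_of_eq ?_
      unfold lgen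
      congr 1
      refine Finset.sum_congr rfl fun i _ => ?_
      rw [map_mul, rename_C, rename_X]
    · rw [secP_cast, rename_X]
  exact DFunLike.congr_fun h w

theorem ker_secP (k : Type u) [Field k] (n : ℕ) (w : Pol (Kx k n) (n + 1))
    (hw : secP k n w = 0) : ∃ q, w = lgen k n * q := by
  have h := sub_mem_lgen k n w
  rw [hw, map_zero, sub_zero] at h
  exact Ideal.mem_span_singleton.1 h

theorem lgen_hom (k : Type u) [Field k] (n : ℕ) : (lgen k n).IsHomogeneous 1 := by
  unfold lgen
  exact (isHomogeneous_X _ _).sub (IsHomogeneous.sum _ _ _ fun i _ => isHomogeneous_C_mul_X _ _)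

theorem lgen_ne (k : Type u) [Field k] (n : ℕ) : lgen k n ≠ 0 := by
  intro h
  have h1 := congrArg (coeff (Finsupp.single (Fin.last n) 1)) h
  unfold lgen at h1
  rw [coeff_sub, coeff_X, coeff_sum, coeff_zero] at h1
  have h2 : ∑ i : Fin n, coeff (Finsupp.single (Fin.last n) 1)
      (C (vv k n i) * X i.castSucc : Pol (Kx k n) (n + 1)) = 0 := by
    refine Finset.sum_eq_zero fun i _ => ?_
    rw [coeff_C_mul, coeff_X']
    rw [if_neg, mul_zero]
    intro h3
    have h4 := Finsupp.single_left_injective (one_ne_zero) h3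
    exact absurd h4 (Fin.castSucc_lt_last i).ne
  rw [h2, sub_zero, if_pos rfl] at h1
  exact one_ne_zero h1

/-- component of a product with a form of degree one -/
theorem hc_mul {k : Type u} [Field k] {m : ℕ} (l q : Pol k m) (hl : l.IsHomogeneous 1) (u : ℕ) :
    homogeneousComponent (u + 1) (l * q) = l * homogeneousComponent u q := by
  conv_lhs => rw [← sum_homogeneousComponent q, Finset.mul_sum, map_sum]
  have h : ∀ i, homogeneousComponent (u + 1) (l * homogeneousComponent i q) =
      if i = u then l * homogeneousComponent u q else 0 := by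
    intro i
    have hh : (l * homogeneousComponent i q).IsHomogeneous (1 + i) :=
      hl.mul (homogeneousComponent_isHomogeneous i q)
    rw [homogeneousComponent_of_mem ((mem_homogeneousSubmodule _ _).2 hh)]
    by_cases hi : i = u
    · subst hi
      rw [if_pos (by ring), if_pos rfl]
    · rw [if_neg (by omega), if_neg hi]
  simp_rw [h]
  rw [Finset.sum_ite_eq']
  by_cases hu : u ∈ Finset.range (q.totalDegree + 1)
  · rw [if_pos hu]
  · rw [if_neg hu]
    have : q.totalDegree < u := by
      rw [Finset.mem_range] at hu; omega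
    rw [homogeneousComponent_eq_zero _ _ this, mul_zero]

/-- elements of `E ∅ ∅` -/
theorem mem_E_empty {k : Type u} [Field k] {n : ℕ} (D : Dat k n) (w : Pol k n)
    (h : inc k n w ∈ D.E ∅ ∅) : w ∈ D.I := by
  unfold Dat.E at h
  rw [if_pos rfl] at h
  unfold toF at h
  rw [Submodule.mem_map] at h
  obtain ⟨z, hz, hzw⟩ := h
  have hR : ∀ y : D.R ∅ ∅, ∃ v : Pol k n, (y : Fr k n) = inc k n v := by
    rintro ⟨y, hy⟩
    show ∃ v : Pol k n, y = inc k n v
    unfold Dat.R at hy
    induction hy using Algebra.adjoin_induction with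
    | mem x hx =>
      rcases hx with (⟨v, rfl⟩ | ⟨a, ha, _⟩) | ⟨b, hb, _⟩
      · exact ⟨v, rfl⟩
      · exact absurd ha (Finset.notMem_empty _)
      · exact absurd hb (Finset.notMem_empty _)
    | algebraMap r =>
      refine ⟨C r, ?_⟩
      rfl
    | add x y _ _ hx hy =>
      obtain ⟨a, ha⟩ := hx
      obtain ⟨b, hb⟩ := hy
      exact ⟨a + b, by rw [ha, hb, map_add]⟩
    | mul x y _ _ hx hy =>
      obtain ⟨a, ha⟩ := hx
      obtain ⟨b, hb⟩ := hy
      exact ⟨a * b, by rw [ha, hb, map_mul]⟩
  have hJ : ∀ y : D.R ∅ ∅, y ∈ genIn (D.R ∅ ∅) (inc k n '' D.I) →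
      ∃ v ∈ D.I, (y : Fr k n) = inc k n v := by
    intro y hy
    unfold genIn at hy
    induction hy using Submodule.span_induction with
    | mem x hx =>
      obtain ⟨v, hv, hvx⟩ := hx
      exact ⟨v, hv, hvx.symm⟩
    | zero => exact ⟨0, D.I.zero_mem, by rw [map_zero]; rfl⟩
    | add x y _ _ hx hy =>
      obtain ⟨a, ha, ha'⟩ := hx
      obtain ⟨b, hb, hb'⟩ := hy
      refine ⟨a + b, D.I.add_mem ha hb, ?_⟩
      rw [map_add, ← ha', ← hb']; rfl
    | smul c x _ hx =>
      obtain ⟨a, ha, ha'⟩ := hx
      obtain ⟨b, hb⟩ := hR c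
      refine ⟨b * a, D.I.mul_mem_left _ ha, ?_⟩
      rw [map_mul, ← hb, ← ha']; rfl
  obtain ⟨v, hv, hv'⟩ := hJ z hz
  have h1 : inc k n v = inc k n w := by
    rw [← hv']; exact hzw
  have h2 := IsFractionRing.injective (Pol k n) (Fr k n) h1
  rw [← h2]; exact hv

theorem inc_mem_E {k : Type u} [Field k] {n : ℕ} (D : Dat k n) (w : Pol k n) (hw : w ∈ D.I)
    (σ : Finset (Fin D.p)) : inc k n w ∈ D.E σ ∅ := by
  unfold Dat.E
  rw [if_pos rfl]
  unfold toF
  rw [Submodule.mem_map]
  have hm : inc k n w ∈ D.R σ ∅ := by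
    unfold Dat.R
    exact Algebra.subset_adjoin (Or.inl (Or.inl ⟨w, rfl⟩))
  refine ⟨⟨inc k n w, hm⟩, ?_, rfl⟩
  show (⟨inc k n w, hm⟩ : D.R σ ∅) ∈ genIn (D.R σ ∅) (inc k n '' D.I)
  unfold genIn
  exact Ideal.subset_span ⟨w, hw, rfl⟩

theorem inc_mem_HF {k : Type u} [Field k] {n : ℕ} (w : Pol k n) (d : ℕ) (hw : w.IsHomogeneous d) :
    inc k n w ∈ HF k n (d : ℤ) := by
  refine ⟨w, 1, d, 0, hw, isHomogeneous_one _ _, one_ne_zero, ?_, ?_⟩
  · intro _; simp
  · rw [map_one, div_one]

theorem cd_const {p : ℕ} {M : Type*} [AddCommGroup M] (c : M) (σ : Finset (Fin p)) :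
    cd (fun s : Finset (Fin p) => if s.card = 1 then c else 0) σ = 0 := by
  classical
  unfold cd
  by_cases h : σ.card = 2
  · have h1 : ∑ v ∈ σ, ((-1 : ℤ) ^ (σ.filter (fun w => w < v)).card) •
        (fun s : Finset (Fin p) => if s.card = 1 then c else 0) (σ.erase v) =
        ∑ v ∈ σ, ((-1 : ℤ) ^ (σ.filter (fun w => w < v)).card) • c := by
      refine Finset.sum_congr rfl fun v hv => ?_
      show _ • (if (σ.erase v).card = 1 then c else 0) = _
      rw [if_pos (by rw [Finset.card_erase_of_mem hv, h])]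
    rw [h1]
    obtain ⟨a, b, hab, rfl⟩ := Finset.card_eq_two.1 h
    rw [Finset.sum_pair hab]
    rcases lt_or_gt_of_ne hab with hlt | hlt
    · have e1 : (({a, b} : Finset (Fin p)).filter (fun w => w < a)).card = 0 := by
        rw [Finset.card_eq_zero, Finset.filter_eq_empty_iff]
        intro y hy
        rcases Finset.mem_insert.1 hy with rfl | hy
        · exact lt_irrefl _
        · rw [Finset.mem_singleton.1 hy]; exact hlt.not_gt
      have e2 : (({a, b} : Finset (Fin p)).filter (fun w => w < b)) = {a} := by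
        ext y
        rw [Finset.mem_filter, Finset.mem_insert, Finset.mem_singleton, Finset.mem_singleton]
        constructor
        · rintro ⟨rfl | rfl, h2⟩
          · rfl
          · exact absurd h2 (lt_irrefl _)
        · rintro rfl; exact ⟨Or.inl rfl, hlt⟩
      rw [e1, e2, Finset.card_singleton, pow_zero, pow_one, one_smul, neg_smul, one_smul,
        add_neg_cancel]
    · have e1 : (({a, b} : Finset (Fin p)).filter (fun w => w < b)).card = 0 := by
        rw [Finset.card_eq_zero, Finset.filter_eq_empty_iff]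
        intro y hy
        rcases Finset.mem_insert.1 hy with rfl | hy
        · exact (hlt.not_gt)
        · rw [Finset.mem_singleton.1 hy]; exact lt_irrefl _
      have e2 : (({a, b} : Finset (Fin p)).filter (fun w => w < a)) = {b} := by
        ext y
        rw [Finset.mem_filter, Finset.mem_insert, Finset.mem_singleton]
        constructor
        · rintro ⟨rfl | rfl, h2⟩
          · exact absurd h2 (lt_irrefl _)
          · rfl
        · rintro rfl; exact ⟨Or.inr rfl, hlt⟩
      rw [e1, e2, Finset.card_singleton, pow_zero, pow_one, one_smul, neg_smul, one_smul,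
        neg_add_cancel]
  · refine Finset.sum_eq_zero fun v hv => ?_
    show _ • (if (σ.erase v).card = 1 then c else 0) = _
    rw [if_neg, smul_zero]
    rw [Finset.card_erase_of_mem hv]
    have : 1 ≤ σ.card := Finset.card_pos.2 ⟨v, hv⟩
    omega

theorem cd_single {p : ℕ} {M : Type*} [AddCommGroup M] (y : Finset (Fin p) → M) (a : Fin p) :
    cd y {a} = y ∅ := by
  unfold cd
  rw [Finset.sum_singleton, Finset.erase_singleton, Finset.filter_singleton,
    if_neg (lt_irrefl _), Finset.card_empty, pow_zero, one_smul]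

theorem inj_l (hSEC : Stmt_SEC.{u}) (hBCU : Stmt_BCU.{u}) (k : Type u) [Field k] [CharZero k]
    (n : ℕ) (D : Dat k (n + 1)) (hn : 1 ≤ n) (hD : D.Good) (u : ℕ) (hLC : D.LC u 1)
    (hg : ∀ a, D.bc.g a ≠ 0) (hp : 0 < D.p)
    (w : Pol (Kx k n) (n + 1)) (hw : w.IsHomogeneous u) (hl : lgen k n * w ∈ D.bc.I) :
    w ∈ D.bc.I := by
  classical
  obtain ⟨sp, hsp, hS⟩ := hSEC k n hn
  have hS2 := (hS D hD).2
  have key : ∀ a : Fin D.p, inc (Kx k n) (n + 1) w ∈ D.bc.Eg (u : ℤ) {a} ∅ := by
    intro a
    have h3 := (hS2 ((u : ℤ) + 1) {a} ∅ (Finset.singleton_nonempty a)).2.2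
      (inc (Kx k n) (n + 1) (lgen k n * w)) ?_ ?_
    · obtain ⟨x', hx', he⟩ := h3
      rw [map_mul] at he
      have h4 := mul_left_cancel₀ (inc_ne (lgen_ne k n)) he
      rw [h4]
      rw [add_sub_cancel_right] at hx'
      exact hx'
    · refine Submodule.mem_inf.2 ⟨inc_mem_E D.bc _ hl _, ?_⟩
      have := inc_mem_HF (lgen k n * w) (1 + u) ((lgen_hom k n).mul hw)
      have e : ((1 + u : ℕ) : ℤ) = (u : ℤ) + 1 := by push_cast; ring
      rw [e] at this
      exact this
    · have h5 := hsp (lgen k n * w) 1 (by rw [map_one]; exact one_ne_zero)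
      rw [map_one, div_one] at h5
      rw [h5, map_mul, secP_lgen, zero_mul, map_zero, zero_div]
  let x : Finset (Fin D.p) → Fr (Kx k n) (n + 1) := fun σ =>
    if σ.card = 1 then inc (Kx k n) (n + 1) w else 0
  have hx1 : ∀ σ : Finset (Fin D.p), x σ ∈ D.bc.Eg (u : ℤ) σ ∅ := by
    intro σ
    show (if σ.card = 1 then inc (Kx k n) (n + 1) w else 0) ∈ _
    split_ifs with h
    · obtain ⟨a, rfl⟩ := Finset.card_eq_one.1 h
      exact key a
    · exact Submodule.zero_mem _
  have hx2 : ∀ σ : Finset (Fin D.p), σ.card ≠ 1 → x σ = 0 := fun σ h => if_neg h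
  have hx3 : ∀ σ : Finset (Fin D.p), cd x σ = 0 := fun σ => cd_const _ σ
  obtain ⟨y, hy1, hy2⟩ := (hBCU k n D hD (u : ℤ) 1).2 hLC x hx1 hx2 hx3
  have h6 := hy2 ({(⟨0, hp⟩ : Fin D.p)} : Finset (Fin D.p))
  have h7 : cd y ({(⟨0, hp⟩ : Fin D.p)} : Finset (Fin D.p)) = y ∅ := cd_single (p := D.p) y _
  have h8 : x ({(⟨0, hp⟩ : Fin D.p)} : Finset (Fin D.p)) = inc (Kx k n) (n + 1) w :=
    if_pos (Finset.card_singleton _)
  rw [h7, h8] at h6
  have h9 := (Submodule.mem_inf.1 (hy1 ∅)).1
  rw [h6] at h9
  exact mem_E_empty D.bc w h9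

end HIL_

theorem hil_proof (hSEC : Stmt_SEC.{u}) (_hBAS : Stmt_BAS.{u}) (hINH : Stmt_INH.{u})
    (hBCU : Stmt_BCU.{u}) : Stmt_HIL.{u} := by
  intro k _ _ n D hn hD u hLC
  classical
  obtain ⟨hbc, hsec, -, -⟩ := hINH k n D hn hD
  have hp : 0 < D.p := by
    rcases Nat.eq_zero_or_pos D.p with h | h
    · exfalso
      have h1 := hD.g_span 0
      haveI : IsEmpty (Fin D.p) := by rw [h]; infer_instance
      rw [Set.range_eq_empty, Submodule.span_empty, Submodule.mem_bot] at h1
      exact MvPolynomial.X_ne_zero _ h1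
    · exact h
  have hinj := HIL_.inj_l hSEC hBCU k n D hn hD u hLC hbc.g_ne hp
  -- the spaces over the big field
  let K' := Kx k n
  let V := Pol (Kx k n) (n + 1)
  let mu : V →ₗ[K'] V := LinearMap.mulLeft K' (lgen k n)
  have hmu : Function.Injective mu := by
    intro a b hab
    exact mul_left_cancel₀ (HIL_.lgen_ne k n) hab
  let B : Submodule K' V := Submodule.map mu (homogeneousSubmodule (Fin (n + 1)) K' u)
  let A : Submodule K' V := HIL_.Iv D.bc.I (u + 1)
  let S1 : Submodule K' V := homogeneousSubmodule (Fin (n + 1)) K' (u + 1)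
  have hBS : B ≤ S1 := by
    rintro _ ⟨w, hw, rfl⟩
    have hw' : w.IsHomogeneous u := (mem_homogeneousSubmodule _ _).1 hw
    have := (HIL_.lgen_hom k n).mul hw'
    rw [Nat.add_comm 1 u] at this
    exact (mem_homogeneousSubmodule _ _).2 this
  have hAS : A ≤ S1 := HIL_.Iv_le _ _
  haveI fB : FiniteDimensional K' B := Submodule.finiteDimensional_of_le hBS
  haveI fA : FiniteDimensional K' A := Submodule.finiteDimensional_of_le hAS
  have hinf : A ⊓ B = Submodule.map mu (HIL_.Iv D.bc.I u) := by
    apply le_antisymm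
    · rintro _ ⟨hA, ⟨w, hw, rfl⟩⟩
      have hw' : w.IsHomogeneous u := (mem_homogeneousSubmodule _ _).1 hw
      have hA' := (HIL_.mem_Iv _ _ _).1 hA
      exact ⟨w, (HIL_.mem_Iv _ _ _).2 ⟨hinj w hw' hA'.1, hw'⟩, rfl⟩
    · rintro _ ⟨w, hw, rfl⟩
      have hw' := (HIL_.mem_Iv _ _ _).1 hw
      refine ⟨(HIL_.mem_Iv _ _ _).2 ⟨D.bc.I.mul_mem_left _ hw'.1, ?_⟩,
        ⟨w, (mem_homogeneousSubmodule _ _).2 hw'.2, rfl⟩⟩
      have := (HIL_.lgen_hom k n).mul hw'.2
      rw [Nat.add_comm 1 u] at this
      exact this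
  have r1 : Module.finrank K' B = Module.finrank K' (homogeneousSubmodule (Fin (n + 1)) K' u) :=
    (LinearEquiv.finrank_eq (Submodule.equivMapOfInjective mu hmu _)).symm
  have r2 : Module.finrank K' (A ⊓ B : Submodule K' V) = Module.finrank K' (HIL_.Iv D.bc.I u) := by
    rw [hinf]
    exact (LinearEquiv.finrank_eq (Submodule.equivMapOfInjective mu hmu _)).symm
  have r3 := Submodule.finrank_sup_add_finrank_inf_eq A B
  let ps : V →ₗ[K'] (Pol (Kx k n) n ⧸ D.sec.I) :=
    (Ideal.Quotient.mkₐ K' D.sec.I).toLinearMap ∘ₗ (secP k n).toLinearMap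
  have hmap : Submodule.map ps S1 = Submodule.map (Ideal.Quotient.mkₐ K' D.sec.I).toLinearMap
      (homogeneousSubmodule (Fin n) K' (u + 1)) := by
    apply le_antisymm
    · rintro _ ⟨w, hw, rfl⟩
      exact ⟨secP k n w, (mem_homogeneousSubmodule _ _).2
        (HIL_.secP_hom k n _ w ((mem_homogeneousSubmodule _ _).1 hw)), rfl⟩
    · rintro _ ⟨w, hw, rfl⟩
      refine ⟨rename Fin.castSucc w, (mem_homogeneousSubmodule _ _).2
        (((mem_homogeneousSubmodule _ _).1 hw).rename_isHomogeneous), ?_⟩
      show (Ideal.Quotient.mkₐ K' D.sec.I) (secP k n (rename Fin.castSucc w)) = _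
      rw [HIL_.secP_ren]
      rfl
  have hker : ∀ x ∈ S1, ps x = 0 ↔ x ∈ A ⊔ B := by
    intro x hx
    have hx' : x.IsHomogeneous (u + 1) := (mem_homogeneousSubmodule _ _).1 hx
    constructor
    · intro h
      have h1 : secP k n x ∈ D.sec.I := Ideal.Quotient.eq_zero_iff_mem.1 h
      have hsurj : Function.Surjective (secP k n) := fun w => ⟨_, HIL_.secP_ren k n w⟩
      have h2 : secP k n x ∈ (D.bc.I).map (secP k n) := h1
      obtain ⟨i, hi, hi'⟩ := (Ideal.mem_map_iff_of_surjective (secP k n) hsurj).1 h2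
      obtain ⟨q, hq⟩ := HIL_.ker_secP k n (x - i) (by rw [map_sub, hi', sub_self])
      have h3 : x = homogeneousComponent (u + 1) i + lgen k n * homogeneousComponent u q := by
        have h4 : homogeneousComponent (u + 1) x = x := homogeneousComponent_eq_self
          ((mem_homogeneousSubmodule _ _).2 hx')
        have h5 : x = i + lgen k n * q := by rw [← hq]; ring
        rw [← h4]
        conv_lhs => rw [h5]
        rw [map_add, HIL_.hc_mul _ _ (HIL_.lgen_hom k n)]
      rw [h3]
      refine Submodule.add_mem_sup ?_ ?_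
      · exact (HIL_.mem_Iv _ _ _).2 ⟨hbc.I_hom i hi (u + 1), homogeneousComponent_isHomogeneous _ _⟩
      · exact ⟨homogeneousComponent u q, (mem_homogeneousSubmodule _ _).2
          (homogeneousComponent_isHomogeneous _ _), rfl⟩
    · intro h
      obtain ⟨a, ha, b, hb, rfl⟩ := Submodule.mem_sup.1 h
      obtain ⟨w, hw, rfl⟩ := hb
      have ha' := (HIL_.mem_Iv _ _ _).1 ha
      refine Ideal.Quotient.eq_zero_iff_mem.2 ?_
      show secP k n (a + lgen k n * w) ∈ D.sec.I
      rw [map_add, map_mul, HIL_.secP_lgen, zero_mul, add_zero]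
      exact Ideal.mem_map_of_mem _ ha'.1
  have r4 := HIL_.rn ps S1 (A ⊔ B) (sup_le hAS hBS) hker
  rw [hmap] at r4
  have r5 := HIL_.hilb_add D.bc.I u
  have r6 := HIL_.hilb_add D.bc.I (u + 1)
  have e1 : hilb D.bc.I u = hilb D.I u := HIL_.hilb_bc (k' := Kx k n) D.I hD.I_hom u
  have e2 : hilb D.bc.I (u + 1) = hilb D.I (u + 1) := HIL_.hilb_bc (k' := Kx k n) D.I hD.I_hom (u + 1)
  have e3 : hilb D.sec.I (u + 1) = Module.finrank K' (Submodule.map
      (Ideal.Quotient.mkₐ K' D.sec.I).toLinearMap (homogeneousSubmodule (Fin n) K' (u + 1))) := rfl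
  rw [e1] at r5
  rw [e2] at r6
  rw [← e3] at r4
  have r6' : hilb D.I (u + 1) + Module.finrank K' A = Module.finrank K' S1 := r6
  have r5' : hilb D.I u + Module.finrank K' (HIL_.Iv D.bc.I u) =
      Module.finrank K' (homogeneousSubmodule (Fin (n + 1)) K' u) := r5
  omega

end Pool.Agent.DBX.ALG
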