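import Pool.Agent.DBX.ALG.Stmts

set_option autoImplicit false

/-! # MP_2c751f_ag, squad DBX, area ALG, module INI: the initial data are in `Sta` -/

namespace Pool.Agent.DBX.ALG

open MvPolynomial Pool.Agent.DBX

noncomputable section

universe u

namespace INI_

variable {k : Type u} [Field k] {n : ℕ}

theorem dm (I : Ideal (Pol k n)) (c d : ℕ) (hd : ringKrullDim (Pol k n ⧸ I) = d)
    (hn : n = d + c) (M δ : ℕ) (f : Fin M → Pol k n) : (mkDat I M δ f).DM c := by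
  show ((n : ℕ) : WithBot ℕ∞) ≤ ringKrullDim (Pol k n ⧸ I) + (c : WithBot ℕ∞)
  rw [hd, hn]
  push_cast
  exact le_rfl

theorem coeff_zero (I : Ideal (Pol k n)) (hI : HomIdeal I) (hT : I ≠ ⊤) (w : Pol k n)
    (hw : w ∈ I) : coeff 0 w = 0 := by
  by_contra h
  apply hT
  have h0 := hI w hw 0
  rw [homogeneousComponent_zero] at h0
  refine Ideal.eq_top_of_isUnit_mem I h0 ?_
  exact (IsUnit.mk0 _ h).map (C : k →+* Pol k n)

theorem le_span (I : Ideal (Pol k n)) (hI : HomIdeal I) (hT : I ≠ ⊤) :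
    I ≤ (Ideal.span (Set.range (X : Fin n → Pol k n))).radical := by
  intro w hw
  apply Ideal.le_radical
  have h0 := coeff_zero I hI hT w hw
  rw [← Set.image_univ, mem_ideal_span_X_image]
  intro m hm
  by_contra hc
  push Not at hc
  have : m = 0 := by
    ext i
    exact hc i (Set.mem_univ i)
  rw [this] at hm
  exact (mem_support_iff.mp hm) h0

theorem good (I : Ideal (Pol k n)) (hI : HomIdeal I) (M δ : ℕ) (f : Fin M → Pol k n)
    (h1 : ∀ j, (f j).IsHomogeneous δ) (h2 : ∀ j, f j ≠ 0)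
    (h3 : I ≤ (Ideal.span (Set.range f)).radical) : (mkDat I M δ f).Good where
  g_hom := fun a => isHomogeneous_X k a
  g_ne := fun a => X_ne_zero a
  g_span := fun i => Submodule.subset_span ⟨i, rfl⟩
  I_hom := hI
  f_hom := h1
  f_ne := h2
  I_rad := h3

end INI_

theorem ini_proof (hSPD : Stmt_SPD.{u}) (hDEP : Stmt_DEP.{u}) (hDBX : Stmt_DBX.{u})
    (_hLC1 : Stmt_LC1.{u}) : Stmt_INI.{u} := by
  intro k _ _ n I r c d hI hT hr hc hd hn hS hDB
  have hdn : d + 1 ≤ n := by omega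
  have hdm := INI_.dm I c d hd hn
  have hvan : ∀ (M δ : ℕ) (f : Fin M → Pol k n) (r' g : ℕ), 1 ≤ g → g ≤ r' → r' ≤ r →
      g + c ≤ n → (mkDat I M δ f).LC ((r' : ℤ) - g) g := by
    intro M δ f r' g h1 h2 h3 h4
    exact hDEP k n I r d hI hT hS hd hdn M δ f _ g (le_min (by omega) (by omega))
  rcases Nat.lt_or_ge r 2 with h | h
  · refine ⟨mkDat I n 1 X, rfl, ?_, n, 1, X, rfl⟩
    have hg : (mkDat I n 1 X : Dat k n).Good :=
      INI_.good I hI n 1 X (fun j => isHomogeneous_X k j) (fun j => X_ne_zero j)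
        (INI_.le_span I hI hT)
    exact ⟨hg, hc, hdm _ _ _, fun h2 => absurd h2 (by omega), hvan _ _ _⟩
  · obtain ⟨M, δ, f, h1, h2, h3, h4, h5⟩ := hDB h
    have hg : (mkDat I M δ f : Dat k n).Good := INI_.good I hI M δ f h1 h2 h3
    obtain ⟨hp, hh⟩ := hSPD k n I r c d hI hT h hS hd hn
    refine ⟨mkDat I M δ f, rfl, ?_, M, δ, f, rfl⟩
    refine ⟨hg, hc, hdm _ _ _, fun _ => ⟨hg, hc, h, h4, ?_, hp M δ f, hdm _ _ _⟩, hvan _ _ _⟩
    exact hDBX k n I r c d hI hT h hd hn hh M δ f hg h5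

end

end Pool.Agent.DBX.ALG
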