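import Pool.Agent.DBX.ALG.Stmts

set_option autoImplicit false

/-! # MP_2c751f_ag, squad DBX, area ALG: module IZE (the case `I = 0`) -/

namespace Pool.Agent.DBX.ALG

open MvPolynomial Pool.Agent.DBX

noncomputable section

universe u

namespace IZE_

variable {k : Type u} [Field k]

theorem homIdeal_bot (n : ℕ) : HomIdeal (⊥ : Ideal (Pol k n)) := by
  intro w hw d
  rw [Ideal.mem_bot] at hw
  rw [hw, map_zero]
  exact Ideal.zero_mem _

theorem toF_bot (n : ℕ) (σ : Finset (Fin n)) :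
    toF (Sl k n σ) (genIn (Sl k n σ) (inc k n '' (⊥ : Ideal (Pol k n)))) = ⊥ := by
  have h1 : genIn (Sl k n σ) (inc k n '' (⊥ : Ideal (Pol k n))) = ⊥ := by
    unfold genIn
    rw [Ideal.span_eq_bot]
    rintro ⟨z, hz⟩ ⟨w, hw, hwz⟩
    have h2 : w = 0 := hw
    apply Subtype.ext
    change z = 0
    have h3 : inc k n w = z := hwz
    rw [← h3, h2, map_zero]
  rw [h1]
  unfold toF
  rw [Submodule.eq_bot_iff]
  rintro x hx
  rw [Submodule.mem_map] at hx
  obtain ⟨y, hy, rfl⟩ := hx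
  have hy' : y ∈ (⊥ : Ideal (Sl k n σ)) := hy
  rw [Ideal.mem_bot] at hy'
  rw [hy', map_zero]

theorem dim_bot (n : ℕ) : ringKrullDim (Pol k n ⧸ (⊥ : Ideal (Pol k n))) = n := by
  rw [ringKrullDim_eq_of_ringEquiv (RingEquiv.quotientBot (Pol k n)),
    MvPolynomial.ringKrullDim_of_isNoetherianRing, ringKrullDim_eq_zero_of_field, zero_add]
  simp

theorem lc_bot (hSCZ : Stmt_SCZ.{u}) (n : ℕ) (j : ℕ) (m : ℤ) (hj : j < n) :
    LCZero (⊥ : Ideal (Pol k n)) j m := by
  intro x hx hx0 hcd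
  have h1 : ∀ σ, cd x σ = 0 := by
    intro σ
    have h2 := hcd σ
    rw [toF_bot, Submodule.mem_bot] at h2
    exact h2
  obtain ⟨y, hy, hy0, hyx⟩ := hSCZ k n m j hj x hx hx0 h1
  refine ⟨y, hy, hy0, fun σ => ?_⟩
  rw [hyx σ, sub_self]
  exact Submodule.zero_mem _

/-- the number of monomials of degree `u` -/
theorem hilb_bot (n u : ℕ) :
    hilb (⊥ : Ideal (Pol k n)) u = (Finset.finsuppAntidiag (Finset.univ : Finset (Fin n)) u).card := by
  unfold hilb
  have hinj : Function.Injective (Ideal.Quotient.mkₐ k (⊥ : Ideal (Pol k n))).toLinearMap := by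
    intro a b hab
    have h1 : Ideal.Quotient.mk (⊥ : Ideal (Pol k n)) a = Ideal.Quotient.mk ⊥ b := hab
    rw [Ideal.Quotient.eq, Ideal.mem_bot, sub_eq_zero] at h1
    exact h1
  rw [← (Submodule.equivMapOfInjective _ hinj _).finrank_eq]
  have hset : {d : Fin n →₀ ℕ | d.degree = u} =
      ((Finset.finsuppAntidiag (Finset.univ : Finset (Fin n)) u : Finset (Fin n →₀ ℕ)) :
        Set (Fin n →₀ ℕ)) := by
    ext d
    simp only [Set.mem_setOf_eq, Finset.mem_coe, Finset.mem_finsuppAntidiag,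
      Finset.subset_univ, and_true, Finsupp.degree_eq_sum]
  rw [homogeneousSubmodule_eq_finsupp_supported, hset,
    (AddMonoidAlgebra.supportedEquivFinsupp _).finrank_eq]
  rw [Module.finrank_finsupp_self]
  exact Fintype.card_coe _

theorem series (n : ℕ) :
    (PowerSeries.mk (fun u => (((Finset.finsuppAntidiag (Finset.univ : Finset (Fin n)) u).card : ℕ) : ℤ))) *
      (1 - PowerSeries.X) ^ n = 1 := by
  have h1 : (PowerSeries.mk (fun u =>
      (((Finset.finsuppAntidiag (Finset.univ : Finset (Fin n)) u).card : ℕ) : ℤ))) =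
      (PowerSeries.mk (1 : ℕ → ℤ)) ^ n := by
    have h2 : (PowerSeries.mk (1 : ℕ → ℤ)) ^ n =
        ∏ _j ∈ (Finset.univ : Finset (Fin n)), PowerSeries.mk (1 : ℕ → ℤ) := by
      rw [Finset.prod_const, Finset.card_univ, Fintype.card_fin]
    rw [h2]
    ext u
    rw [PowerSeries.coeff_prod, PowerSeries.coeff_mk]
    simp
  rw [h1, ← mul_pow, PowerSeries.mk_one_mul_one_sub_eq_one, one_pow]

end IZE_

theorem ize_proof (hSCZ : Stmt_SCZ.{u}) (hCMQ : Pool.Agent.DBX.Stmt_CMQ.{u}) : Stmt_IZE.{u} := by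
  intro k _ _ n
  have hne : (⊥ : Ideal (Pol k n)) ≠ ⊤ := bot_ne_top
  refine ⟨hCMQ k n ⊥ n (IZE_.homIdeal_bot n) hne (IZE_.dim_bot n)
    (fun j m hj => IZE_.lc_bot hSCZ n j m hj), IZE_.dim_bot n, ?_⟩
  have h1 : (fun u => (hilb (⊥ : Ideal (Pol k n)) u : ℤ)) =
      fun u => (((Finset.finsuppAntidiag (Finset.univ : Finset (Fin n)) u).card : ℕ) : ℤ) := by
    funext u
    rw [IZE_.hilb_bot]
  rw [h1]
  exact IZE_.series n

end

end Pool.Agent.DBX.ALG
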