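import Pool.Agent.DBX.ALG.Stmts

set_option autoImplicit false

namespace Pool.Agent.DBX.ALG

open MvPolynomial Pool.Agent.DBX

universe u

namespace LC1_

variable {k : Type u} [Field k] {n : ℕ}

theorem inc_inj {a b : Pol k n} (h : inc k n a = inc k n b) : a = b :=
  IsFractionRing.injective (MvPolynomial (Fin n) k) (FractionRing (MvPolynomial (Fin n) k)) h

/-- elements of `R {a} ∅` have denominators powers of `g a` -/
theorem R_den (D : Dat k n) (a : Fin D.p) (ha : D.g a ≠ 0) (z : Fr k n) (hz : z ∈ D.R {a} ∅) :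
    ∃ (N : ℕ) (w : Pol k n), z * inc k n (D.g a) ^ N = inc k n w := by
  have hg : inc k n (D.g a) ≠ 0 := inc_ne ha
  unfold Dat.R at hz
  induction hz using Algebra.adjoin_induction with
  | mem x hx =>
    rcases hx with (⟨w, rfl⟩ | ⟨b, hb, rfl⟩) | ⟨b, hb, j, rfl⟩
    · exact ⟨0, w, by rw [pow_zero, mul_one]⟩
    · rw [Finset.mem_singleton] at hb
      subst hb
      refine ⟨1, 1, ?_⟩
      rw [pow_one, map_one, inv_mul_cancel₀ hg]
    · exact absurd hb (Finset.notMem_empty _)
  | algebraMap r =>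
    refine ⟨0, C r, ?_⟩
    rw [pow_zero, mul_one]
    rfl
  | add x y _ _ hx hy =>
    obtain ⟨N, w, h⟩ := hx
    obtain ⟨N', w', h'⟩ := hy
    refine ⟨N + N', w * D.g a ^ N' + w' * D.g a ^ N, ?_⟩
    rw [map_add, map_mul, map_mul, map_pow, map_pow, ← h, ← h']
    ring
  | mul x y _ _ hx hy =>
    obtain ⟨N, w, h⟩ := hx
    obtain ⟨N', w', h'⟩ := hy
    refine ⟨N + N', w * w', ?_⟩
    rw [map_mul, ← h, ← h']
    ring

/-- elements of `E {a} ∅` -/
theorem E_den (D : Dat k n) (a : Fin D.p) (ha : D.g a ≠ 0) (z : Fr k n) (hz : z ∈ D.E {a} ∅) :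
    ∃ (N : ℕ) (w : Pol k n), w ∈ D.I ∧ z * inc k n (D.g a) ^ N = inc k n w := by
  unfold Dat.E at hz
  rw [if_pos rfl] at hz
  obtain ⟨y, hy, rfl⟩ := hz
  have hy' : y ∈ genIn (D.R {a} ∅) (inc k n '' D.I) := hy
  unfold genIn at hy'
  show ∃ (N : ℕ) (w : Pol k n), w ∈ D.I ∧ (y : Fr k n) * inc k n (D.g a) ^ N = inc k n w
  clear hy
  induction hy' using Submodule.span_induction with
  | mem x hx =>
    obtain ⟨w, hw, h⟩ := hx
    refine ⟨0, w, hw, ?_⟩
    rw [pow_zero, mul_one]
    exact h.symm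
  | zero =>
    refine ⟨0, 0, D.I.zero_mem, ?_⟩
    rw [map_zero, pow_zero, mul_one]
    rfl
  | add x y _ _ hx hy =>
    obtain ⟨N, w, hw, h⟩ := hx
    obtain ⟨N', w', hw', h'⟩ := hy
    refine ⟨N + N', w * D.g a ^ N' + w' * D.g a ^ N, ?_, ?_⟩
    · exact D.I.add_mem (D.I.mul_mem_right _ hw) (D.I.mul_mem_right _ hw')
    · rw [map_add, map_mul, map_mul, map_pow, map_pow, ← h, ← h']
      push_cast
      ring
  | smul r x _ hx =>
    obtain ⟨N, w, hw, h⟩ := hx
    obtain ⟨N', w', h'⟩ := R_den D a ha (r : Fr k n) r.2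
    refine ⟨N' + N, w' * w, D.I.mul_mem_left _ hw, ?_⟩
    rw [map_mul, ← h, ← h', smul_eq_mul]
    push_cast
    ring

/-- linear forms are irreducible -/
theorem irr {g : Pol k n} (hg : g.IsHomogeneous 1) (h0 : g ≠ 0) : Irreducible g := by
  apply irreducible_of_totalDegree_eq_one (hg.totalDegree h0)
  intro x hx
  obtain ⟨m, hm⟩ := ne_zero_iff.mp h0
  refine isUnit_iff_ne_zero.mpr ?_
  rintro rfl
  exact hm (zero_dvd_iff.mp (hx m))

/-- two relatively prime linear forms among the `g a` -/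
theorem two (D : Dat k n) (hG : D.Good) (hn : 2 ≤ n) :
    ∃ a b : Fin D.p, IsRelPrime (D.g a) (D.g b) := by
  by_contra hcon
  push Not at hcon
  have hX : ∀ i, (X i : Pol k n) ∈ Submodule.span k (Set.range D.g) := hG.g_span
  let i0 : Fin n := ⟨0, by omega⟩
  let i1 : Fin n := ⟨1, by omega⟩
  have hne : i0 ≠ i1 := by
    intro h
    have := congrArg Fin.val h
    simp [i0, i1] at this
  have hX0 : (X i0 : Pol k n) ≠ 0 := X_ne_zero _
  have hp : Nonempty (Fin D.p) := by
    by_contra h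
    rw [not_nonempty_iff] at h
    have h1 := hX i0
    rw [Set.range_eq_empty, Submodule.span_empty, Submodule.mem_bot] at h1
    exact hX0 h1
  obtain ⟨a⟩ := hp
  have key : ∀ b, D.g b ∈ Submodule.span k ({D.g a} : Set (Pol k n)) := by
    intro b
    have h1 : ¬ IsRelPrime (D.g a) (D.g b) := hcon a b
    rw [(irr (hG.g_hom a) (hG.g_ne a)).isRelPrime_iff_not_dvd, not_not] at h1
    obtain ⟨q, hq⟩ := h1
    have h2 := irr (hG.g_hom b) (hG.g_ne b)
    rcases h2.isUnit_or_isUnit hq with h3 | h3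
    · exact absurd h3 (irr (hG.g_hom a) (hG.g_ne a)).not_isUnit
    · rw [isUnit_iff_eq_C_of_isReduced] at h3
      obtain ⟨c, _, rfl⟩ := h3
      rw [hq, Submodule.mem_span_singleton]
      refine ⟨c, ?_⟩
      rw [smul_eq_C_mul, mul_comm]
  have hspan : Submodule.span k (Set.range D.g) ≤ Submodule.span k ({D.g a} : Set (Pol k n)) := by
    rw [Submodule.span_le]
    rintro _ ⟨b, rfl⟩
    exact key b
  obtain ⟨c0, h0⟩ := Submodule.mem_span_singleton.mp (hspan (hX i0))
  obtain ⟨c1, h1⟩ := Submodule.mem_span_singleton.mp (hspan (hX i1))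
  have e : c1 • (X i0 : Pol k n) = c0 • X i1 := by
    rw [← h0, ← h1, smul_smul, smul_smul, mul_comm]
  have e2 := congrArg (eval (fun i => if i = i0 then (1 : k) else 0)) e
  rw [smul_eval, smul_eval, eval_X, eval_X, if_pos rfl, if_neg hne.symm, mul_one, mul_zero] at e2
  rw [e2, zero_smul] at h1
  exact X_ne_zero i1 h1.symm

/-- the quotient by an ideal containing powers of all `g a` has dimension at most zero -/
theorem dim0 (D : Dat k n) (hG : D.Good) (h : ∀ a, ∃ N, D.g a ^ N ∈ D.I) :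
    ringKrullDim (Pol k n ⧸ D.I) ≤ 0 := by
  have h1 : Ring.KrullDimLE 0 (Pol k n ⧸ D.I) := by
    rw [Ring.krullDimLE_zero_iff]
    intro Q hQ
    have hmem : ∀ i : Fin n, Ideal.Quotient.mk D.I (X i) ∈ Q := by
      intro i
      have h2 : ∀ w ∈ Submodule.span k (Set.range D.g), Ideal.Quotient.mk D.I w ∈ Q := by
        intro w hw
        induction hw using Submodule.span_induction with
        | mem x hx =>
          obtain ⟨a, rfl⟩ := hx
          obtain ⟨N, hN⟩ := h a
          apply hQ.mem_of_pow_mem N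
          rw [← map_pow, Ideal.Quotient.eq_zero_iff_mem.mpr hN]
          exact Q.zero_mem
        | zero => rw [map_zero]; exact Q.zero_mem
        | add x y _ _ hx hy => rw [map_add]; exact Q.add_mem hx hy
        | smul c x _ hx =>
          rw [smul_eq_C_mul, map_mul]
          exact Q.mul_mem_left _ hx
      exact h2 _ (hG.g_span i)
    constructor
    constructor
    · exact hQ.ne_top
    · intro J hJ
      obtain ⟨y, hyJ, hyQ⟩ := Set.exists_of_ssubset hJ
      obtain ⟨w, rfl⟩ := Ideal.Quotient.mk_surjective y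
      have hdec : Ideal.Quotient.mk D.I (w - C (coeff 0 w)) ∈ Q := by
        have h3 : w - C (coeff 0 w) ∈ Ideal.span (Set.range (X : Fin n → Pol k n)) := by
          rw [← Set.image_univ, MvPolynomial.mem_ideal_span_X_image]
          intro m hm
          by_contra hcon
          push Not at hcon
          have hm0 : m = 0 := by
            ext i
            exact hcon i (Set.mem_univ i)
          rw [hm0, mem_support_iff, coeff_sub, coeff_C, if_pos rfl, sub_self] at hm
          exact hm rfl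
        have h4 : Ideal.span (Set.range (X : Fin n → Pol k n)) ≤
            Q.comap (Ideal.Quotient.mk D.I) := by
          rw [Ideal.span_le]
          rintro _ ⟨i, rfl⟩
          exact hmem i
        exact h4 h3
      have hc : coeff 0 w ≠ 0 := by
        intro h0
        rw [h0, C_0, sub_zero] at hdec
        exact hyQ hdec
      have hCJ : Ideal.Quotient.mk D.I (C (coeff 0 w)) ∈ J := by
        have h5 := J.sub_mem hyJ (hJ.le hdec)
        rw [← map_sub, sub_sub_cancel] at h5
        exact h5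
      refine Ideal.eq_top_of_isUnit_mem J hCJ ?_
      exact ((isUnit_iff_ne_zero.mpr hc).map (C : k →+* Pol k n)).map (Ideal.Quotient.mk D.I)
  have h2 := Ring.krullDimLE_iff.mp h1
  simpa using h2

theorem main (D : Dat k n) (c : ℕ) (hG : D.Good) (hDM : D.DM c) (hc : 1 + c ≤ n)
    (hc1 : 1 ≤ c) (z : Fr k n) (hz : ∀ a, z ∈ D.Eg 0 {a} ∅) : z = 0 := by
  by_contra hz0
  obtain ⟨a, b, hab⟩ := two D hG (by omega)
  have hz1 : ∀ a, ∃ (N : ℕ) (w : Pol k n), w ∈ D.I ∧
      z * inc k n (D.g a) ^ N = inc k n w := fun a => E_den D a (hG.g_ne a) z (hz a).1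
  obtain ⟨Na, wa, hwa, ea⟩ := hz1 a
  obtain ⟨Nb, wb, hwb, eb⟩ := hz1 b
  have hga : inc k n (D.g a) ≠ 0 := inc_ne (hG.g_ne a)
  have e1 : wa * D.g b ^ Nb = wb * D.g a ^ Na := by
    apply inc_inj
    rw [map_mul, map_mul, map_pow, map_pow, ← ea, ← eb]
    ring
  have hdvd : D.g a ^ Na ∣ wa := by
    have h1 : IsRelPrime (D.g a ^ Na) (D.g b ^ Nb) := hab.pow
    exact h1.dvd_of_dvd_mul_right ⟨wb, by rw [e1, mul_comm]⟩
  obtain ⟨P, hP⟩ := hdvd
  have hzP : z = inc k n P := by
    have h2 : z * inc k n (D.g a) ^ Na = inc k n P * inc k n (D.g a) ^ Na := by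
      rw [ea, hP, map_mul, map_pow, mul_comm]
    exact mul_right_cancel₀ (pow_ne_zero _ hga) h2
  obtain ⟨A, B, i, j, hA, hB, hB0, hij, hAB⟩ := (hz a).2
  have hiB : inc k n B ≠ 0 := inc_ne hB0
  have e3 : P * B = A := by
    apply inc_inj
    rw [map_mul, ← hzP, hAB, div_mul_cancel₀ _ hiB]
  have hP0 : P ≠ 0 := by
    rintro rfl
    rw [map_zero] at hzP
    exact hz0 hzP
  have hA0 : A ≠ 0 := by
    rw [← e3]
    exact mul_ne_zero hP0 hB0
  have hd : P.totalDegree = 0 := by
    have h3 := totalDegree_mul_of_isDomain hP0 hB0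
    rw [e3, hA.totalDegree hA0, hB.totalDegree hB0] at h3
    have := hij hA0
    omega
  rw [totalDegree_eq_zero_iff_eq_C] at hd
  have hcc : coeff 0 P ≠ 0 := by
    intro h
    rw [h, C_0] at hd
    exact hP0 hd
  have hall : ∀ a, ∃ N, D.g a ^ N ∈ D.I := by
    intro a'
    obtain ⟨N, w, hw, e⟩ := hz1 a'
    refine ⟨N, ?_⟩
    have h4 : w = C (coeff 0 P) * D.g a' ^ N := by
      apply inc_inj
      rw [map_mul, map_pow, ← e, hzP, ← hd]
    have h5 : D.g a' ^ N = C (coeff 0 P)⁻¹ * w := by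
      rw [h4, ← mul_assoc, ← C_mul, inv_mul_cancel₀ hcc, C_1, one_mul]
    rw [h5]
    exact D.I.mul_mem_left _ hw
  have hdim := dim0 D hG hall
  unfold Dat.DM at hDM
  have h6 : (n : WithBot ℕ∞) ≤ (c : WithBot ℕ∞) := by
    refine hDM.trans ?_
    calc ringKrullDim (Pol k n ⧸ D.I) + (c : WithBot ℕ∞) ≤ 0 + c := by gcongr
      _ = c := zero_add _
  have h7 : n ≤ c := by exact_mod_cast h6
  omega

theorem cd_pair {p : ℕ} {A : Type u} [AddCommGroup A] (x : Finset (Fin p) → A) (a b : Fin p)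
    (hab : a < b) : cd x {a, b} = x {b} - x {a} := by
  unfold cd
  have hne : a ≠ b := hab.ne
  rw [Finset.sum_pair hne]
  have e1 : (({a, b} : Finset (Fin p)).filter (fun w => w < a)).card = 0 := by
    rw [Finset.card_eq_zero, Finset.filter_eq_empty_iff]
    intro w hw
    rw [Finset.mem_insert, Finset.mem_singleton] at hw
    rcases hw with rfl | rfl
    · exact lt_irrefl _
    · exact not_lt.mpr hab.le
  have e2 : (({a, b} : Finset (Fin p)).filter (fun w => w < b)).card = 1 := by
    rw [Finset.card_eq_one]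
    refine ⟨a, ?_⟩
    ext w
    rw [Finset.mem_filter, Finset.mem_insert, Finset.mem_singleton, Finset.mem_singleton]
    constructor
    · rintro ⟨rfl | rfl, h⟩
      · rfl
      · exact absurd h (lt_irrefl _)
    · rintro rfl
      exact ⟨Or.inl rfl, hab⟩
  have e3 : ({a, b} : Finset (Fin p)).erase a = {b} := by
    rw [Finset.erase_insert]
    rw [Finset.mem_singleton]
    exact hne
  have e4 : ({a, b} : Finset (Fin p)).erase b = {a} := by
    rw [Finset.pair_comm, Finset.erase_insert]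
    rw [Finset.mem_singleton]
    exact hne.symm
  rw [e1, e2, e3, e4, pow_zero, one_smul, pow_one, neg_smul, one_smul, sub_eq_add_neg]

end LC1_

open LC1_ in
theorem lc1_proof : Stmt_LC1.{u} := by
  intro k _ n D c hG hDM hc hc1 x hx hcard hcd
  have heq : ∀ a b : Fin D.p, x {a} = x {b} := by
    intro a b
    rcases lt_trichotomy a b with h | h | h
    · have h1 := hcd {a, b}
      rw [cd_pair x a b h, sub_eq_zero] at h1
      exact h1.symm
    · rw [h]
    · have h1 := hcd {b, a}
      rw [cd_pair x b a h, sub_eq_zero] at h1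
      exact h1
  have hx0 : ∀ σ, x σ = 0 := by
    intro σ
    by_cases h : σ.card = 1
    · obtain ⟨a, rfl⟩ := Finset.card_eq_one.mp h
      apply main D c hG hDM hc hc1
      intro b
      rw [heq a b]
      exact hx {b}
    · exact hcard σ h
  refine ⟨fun _ => 0, fun σ => Submodule.zero_mem _, ?_⟩
  intro σ
  rw [hx0 σ]
  unfold cd
  simp

end Pool.Agent.DBX.ALG
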