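import Pool.Agent.DBX.ALG.LCSlib

set_option autoImplicit false

/-! # MP_2c751f_ag, squad DBX, area ALG: module LCS (helper51) -/

namespace Pool.Agent.DBX.ALG

open MvPolynomial Pool.Agent.DBX

theorem lcs_proof.{u} (hSEC : Pool.Agent.DBX.Stmt_SEC.{u}) (hINH : Pool.Agent.DBX.Stmt_INH.{u})
    (hBCU : Stmt_BCU.{u}) (_hCDD : Stmt_CDD.{u}) (_hDEG : Stmt_DEG.{u}) : Stmt_LCS.{u} := by
  intro k _ _ n D hn hD m g hg h1 h2
  refine LCS_.step hSEC hINH k n D hn hD m g hg ?_ ((hBCU k n D hD m g).2 h1)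
  intro w X _ hw hwc hwd _ _
  exact (hBCU k n D hD (m - 1) (g + 1)).2 h2 w hw hwc hwd

end Pool.Agent.DBX.ALG
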