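import Pool.Agent.DBX.ALG.Stmts
import Pool.Agent.DBX.Cd

set_option autoImplicit false

/-! # MP_2c751f_ag, squad DBX, area ALG: common lemmas for LCS and LCT (helper51) -/

namespace Pool.Agent.DBX.ALG

open MvPolynomial Pool.Agent.DBX

noncomputable section

universe u

namespace LCS_

section
variable {k : Type u} [Field k] {n : ℕ}

theorem genIn_mono {F : Type u} [Field F] [Algebra k F] {A A' : Subalgebra k F} (h : A ≤ A')
    (J : Set F) : toF A (genIn A J) ≤ toF A' (genIn A' J) := by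
  rintro z ⟨w, hw, rfl⟩
  have hw' : w ∈ genIn A J := hw
  refine ⟨Subalgebra.inclusion h w, ?_, rfl⟩
  change Subalgebra.inclusion h w ∈ genIn A' J
  have h1 : (genIn A J).map (Subalgebra.inclusion h).toRingHom ≤ genIn A' J := by
    unfold genIn
    rw [Ideal.map_span]
    apply Ideal.span_mono
    rintro _ ⟨z, hz, rfl⟩
    exact hz
  exact h1 (Ideal.mem_map_of_mem _ hw')

theorem R_mono (D : Dat k n) {σ σ' : Finset (Fin D.p)} (h : σ ⊆ σ') (τ : Finset (Fin D.M)) :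
    D.R σ τ ≤ D.R σ' τ := by
  refine Algebra.adjoin_mono ?_
  refine Set.union_subset_union_left _ (Set.union_subset_union_right _ ?_)
  rintro z ⟨a, ha, rfl⟩
  exact ⟨a, h ha, rfl⟩

theorem E_eq (D : Dat k n) (σ : Finset (Fin D.p)) :
    D.E σ ∅ = toF (D.R σ ∅) (genIn (D.R σ ∅) (inc k n '' D.I)) := if_pos rfl

theorem Eg_mono (D : Dat k n) (m : ℤ) {σ σ' : Finset (Fin D.p)} (h : σ ⊆ σ') :
    D.Eg m σ ∅ ≤ D.Eg m σ' ∅ := by
  refine inf_le_inf_right _ ?_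
  rw [E_eq, E_eq]
  exact genIn_mono (R_mono D h ∅) _

theorem E_sub_R (D : Dat k n) {σ : Finset (Fin D.p)} {x : Fr k n} (hx : x ∈ D.E σ ∅) :
    x ∈ D.R σ ∅ := by
  rw [E_eq] at hx
  obtain ⟨w, -, rfl⟩ := hx
  exact w.2

theorem inc_mem_R (D : Dat k n) (σ : Finset (Fin D.p)) (τ : Finset (Fin D.M)) (w : Pol k n) :
    inc k n w ∈ D.R σ τ :=
  Algebra.subset_adjoin (Or.inl (Or.inl ⟨w, rfl⟩))

theorem E_mul (D : Dat k n) {σ : Finset (Fin D.p)} {x : Fr k n} (w : Pol k n)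
    (hx : x ∈ D.E σ ∅) : inc k n w * x ∈ D.E σ ∅ := by
  rw [E_eq] at hx ⊢
  obtain ⟨z, hz, rfl⟩ := hx
  have hz' : z ∈ genIn (D.R σ ∅) (inc k n '' D.I) := hz
  refine ⟨⟨inc k n w, inc_mem_R D σ ∅ w⟩ * z, ?_, rfl⟩
  exact Ideal.mul_mem_left _ _ hz'

theorem HF_mul {d : ℕ} {m m' : ℤ} {w : Pol k n} (hw : w.IsHomogeneous d) {x : Fr k n}
    (hx : x ∈ HF k n m) (hm : m' = m + d) : inc k n w * x ∈ HF k n m' := by
  obtain ⟨a, b, i, j, ha, hb, hb0, hij, rfl⟩ := hx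
  refine ⟨w * a, b, d + i, j, hw.mul ha, hb, hb0, ?_, ?_⟩
  · intro h
    have := hij (fun h0 => h (by rw [h0, mul_zero]))
    push_cast
    omega
  · rw [map_mul, mul_div_assoc]

theorem Eg_mul (D : Dat k n) {σ : Finset (Fin D.p)} {d : ℕ} {m m' : ℤ} {w : Pol k n}
    (hw : w.IsHomogeneous d) {x : Fr k n} (hx : x ∈ D.Eg m σ ∅) (hm : m' = m + d) :
    inc k n w * x ∈ D.Eg m' σ ∅ :=
  ⟨E_mul D w hx.1, HF_mul hw hx.2 hm⟩

theorem cd_mem (D : Dat k n) (m : ℤ) {x : Finset (Fin D.p) → Fr k n}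
    (hx : ∀ σ, x σ ∈ D.Eg m σ ∅) (σ : Finset (Fin D.p)) : cd x σ ∈ D.Eg m σ ∅ := by
  rw [cd_apply]
  refine Submodule.sum_mem _ (fun v _ => ?_)
  exact zsmul_mem (Eg_mono D m (Finset.erase_subset v σ) (hx _)) _

end

section
variable {k : Type u} [Field k] {n : ℕ}

theorem lgen_hom : (lgen k n).IsHomogeneous 1 := by
  unfold lgen
  refine (isHomogeneous_X _ _).sub ?_
  refine IsHomogeneous.sum _ _ _ (fun i _ => ?_)
  have := (isHomogeneous_C (Fin (n + 1)) (vv k n i)).mul (isHomogeneous_X (Kx k n) i.castSucc)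
  rwa [zero_add] at this

theorem secP_lgen : secP k n (lgen k n) = 0 := by
  unfold lgen secP
  rw [map_sub, map_sum, aeval_X, Fin.snoc_last, sub_eq_zero]
  refine Finset.sum_congr rfl (fun i _ => ?_)
  rw [map_mul, aeval_X, Fin.snoc_castSucc, aeval_C]
  rfl

theorem lgen_ne : lgen k n ≠ 0 := by
  intro h
  have h1 := congrArg (coeff (Finsupp.single (Fin.last n) 1)) h
  unfold lgen at h1
  rw [coeff_sub, coeff_X, coeff_sum, coeff_zero, Finset.sum_eq_zero] at h1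
  · simp at h1
  · intro i _
    rw [coeff_C_mul, coeff_X', if_neg, mul_zero]
    intro h2
    have h3 := (Finsupp.single_left_inj one_ne_zero).mp h2
    exact (Fin.castSucc_lt_last i).ne h3

theorem frac (D : Dat k (n + 1)) (hs : D.sec.Good) (σ : Finset (Fin D.p))
    {x : Fr (Kx k n) (n + 1)} (hx : x ∈ D.bc.R σ ∅) :
    ∃ A B : Pol (Kx k n) (n + 1), secP k n B ≠ 0 ∧ x = inc _ _ A / inc _ _ B := by
  have hne : ∀ B : Pol (Kx k n) (n + 1), secP k n B ≠ 0 → inc (Kx k n) (n + 1) B ≠ 0 := by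
    intro B hB
    exact inc_ne (fun h => hB (by rw [h, map_zero]))
  unfold Dat.R at hx
  induction hx using Algebra.adjoin_induction with
  | mem x hx =>
    rcases hx with (⟨a, rfl⟩ | ⟨a, -, rfl⟩) | ⟨b, hb, -⟩
    · exact ⟨a, 1, by rw [map_one]; exact one_ne_zero, by rw [map_one, div_one]⟩
    · exact ⟨1, D.bc.g a, hs.g_ne a, by rw [map_one, one_div]⟩
    · exact absurd hb (Finset.notMem_empty b)
  | algebraMap r =>
    refine ⟨C r, 1, by rw [map_one]; exact one_ne_zero, ?_⟩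
    rw [map_one, div_one]
    rfl
  | add x y _ _ hx hy =>
    obtain ⟨A, B, hB, rfl⟩ := hx
    obtain ⟨A', B', hB', rfl⟩ := hy
    refine ⟨A * B' + A' * B, B * B', ?_, ?_⟩
    · rw [map_mul]; exact mul_ne_zero hB hB'
    · have h1 := hne B hB
      have h2 := hne B' hB'
      rw [map_add, map_mul, map_mul, map_mul]
      field_simp
  | mul x y _ _ hx hy =>
    obtain ⟨A, B, hB, rfl⟩ := hx
    obtain ⟨A', B', hB', rfl⟩ := hy
    refine ⟨A * A', B * B', ?_, ?_⟩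
    · rw [map_mul]; exact mul_ne_zero hB hB'
    · have h1 := hne B hB
      have h2 := hne B' hB'
      rw [map_mul, map_mul]
      field_simp

theorem sp_l (D : Dat k (n + 1)) (hs : D.sec.Good) (σ : Finset (Fin D.p))
    (sp : Fr (Kx k n) (n + 1) →ₗ[Kx k n] Fr (Kx k n) n) (hsp : IsSp sp)
    {x : Fr (Kx k n) (n + 1)} (hx : x ∈ D.bc.R σ ∅) : sp (inc _ _ (lgen k n) * x) = 0 := by
  obtain ⟨A, B, hB, rfl⟩ := frac D hs σ hx
  rw [← mul_div_assoc, ← map_mul, hsp _ _ hB, map_mul (secP k n), secP_lgen, zero_mul, map_zero,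
    zero_div]

end

/-- The step: from `D.bc` to `D.sec`. -/
theorem step (hSEC : Pool.Agent.DBX.Stmt_SEC.{u}) (hINH : Pool.Agent.DBX.Stmt_INH.{u})
    (k : Type u) [Field k] [CharZero k] (n : ℕ) (D : Dat k (n + 1)) (hn : 1 ≤ n) (hD : D.Good)
    (m : ℤ) (g : ℕ) (hg : 1 ≤ g)
    (H : ∀ w X : Finset (Fin D.p) → Fr (Kx k n) (n + 1), w ∅ = 0 →
      (∀ σ, w σ ∈ D.bc.Eg (m - 1) σ ∅) → (∀ σ, σ.card ≠ g + 1 → w σ = 0) → (∀ σ, cd w σ = 0) →
      (∀ σ, X σ ∈ D.bc.Eg m σ ∅) → (∀ σ, cd X σ = inc _ _ (lgen k n) * w σ) →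
      ∃ u : Finset (Fin D.p) → Fr (Kx k n) (n + 1), (∀ σ, u σ ∈ D.bc.Eg (m - 1) σ ∅) ∧
        ∀ σ, cd u σ = w σ)
    (hLC : D.bc.LC m g) : D.sec.LC m g := by
  classical
  obtain ⟨sp, hsp, hall⟩ := hSEC k n hn
  obtain ⟨h1, h2⟩ := hall D hD
  obtain ⟨-, hs, -, -⟩ := hINH k n D hn hD
  have hl : inc (Kx k n) (n + 1) (lgen k n) ≠ 0 := inc_ne lgen_ne
  intro x hx hxc hxd
  -- lift of x
  have hX : ∀ σ : Finset (Fin D.p), ∃ z, z ∈ D.bc.Eg m σ ∅ ∧ sp z = x σ ∧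
      (σ.card ≠ g → z = 0) := by
    intro σ
    by_cases hc : σ.card = g
    · have hne : σ.Nonempty := by
        rw [← Finset.card_pos]; omega
      obtain ⟨z, hz, hz'⟩ := (h2 m σ ∅ hne).2.1 (x σ) (hx σ)
      exact ⟨z, hz, hz', fun h => absurd hc h⟩
    · exact ⟨0, Submodule.zero_mem _, by rw [map_zero, hxc σ hc], fun _ => rfl⟩
  choose X hX1 hX2 hX3 using hX
  have hspcd : ∀ y : Finset (Fin D.p) → Fr (Kx k n) (n + 1), ∀ σ,
      sp (cd y σ) = cd (fun s => sp (y s)) σ := by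
    intro y σ
    exact (congrFun (cd_map (sp.toAddMonoidHom) y) σ).symm
  have hspX : (fun s => sp (X s)) = x := funext hX2
  have hcdX : ∀ σ, sp (cd X σ) = 0 := by
    intro σ
    rw [hspcd, hspX]
    exact hxd σ
  -- divide by l
  have hw : ∀ σ : Finset (Fin D.p), ∃ z, z ∈ D.bc.Eg (m - 1) σ ∅ ∧
      cd X σ = inc _ _ (lgen k n) * z ∧ (σ.card ≠ g + 1 → z = 0) := by
    intro σ
    by_cases hc : σ.card = g + 1
    · have hne : σ.Nonempty := by
        rw [← Finset.card_pos]; omega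
      obtain ⟨z, hz, hz'⟩ := (h2 m σ ∅ hne).2.2 (cd X σ) (cd_mem D.bc m hX1 σ) (hcdX σ)
      exact ⟨z, hz, hz', fun h => absurd hc h⟩
    · refine ⟨0, Submodule.zero_mem _, ?_, fun _ => rfl⟩
      rw [mul_zero]
      exact cd_card hX3 hc
  choose w hw1 hw2 hw3 using hw
  have hmul : ∀ y : Finset (Fin D.p) → Fr (Kx k n) (n + 1), ∀ σ,
      cd (fun s => inc (Kx k n) (n + 1) (lgen k n) * y s) σ =
        inc (Kx k n) (n + 1) (lgen k n) * cd y σ := by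
    intro y σ
    exact congrFun (cd_map (AddMonoidHom.mulLeft (inc (Kx k n) (n + 1) (lgen k n))) y) σ
  have hwd : ∀ σ, cd w σ = 0 := by
    intro σ
    have e1 : inc (Kx k n) (n + 1) (lgen k n) * cd w σ = 0 := by
      rw [← hmul]
      have e2 : (fun s => inc (Kx k n) (n + 1) (lgen k n) * w s) = cd X := by
        funext s; exact (hw2 s).symm
      rw [e2, cd_cd]
      rfl
    exact (mul_eq_zero.mp e1).resolve_left hl
  obtain ⟨u, hu1, hu2⟩ := H w X (hw3 ∅ (by simp)) hw1 hw3 hwd hX1 hw2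
  -- cut u to card g
  have hu1' : ∀ σ, cpt g u σ ∈ D.bc.Eg (m - 1) σ ∅ := by
    intro σ
    unfold cpt
    split_ifs
    · exact hu1 σ
    · exact Submodule.zero_mem _
  have hu2' : ∀ σ, cd (cpt g u) σ = w σ := by
    intro σ
    rw [cd_cpt]
    by_cases hc : σ.card = g + 1
    · rw [cpt_of_eq _ hc, hu2]
    · rw [cpt_of_ne _ hc, hw3 σ hc]
  have hmem : ∀ σ, inc (Kx k n) (n + 1) (lgen k n) * cpt g u σ ∈ D.bc.Eg m σ ∅ := by
    intro σ
    exact Eg_mul D.bc lgen_hom (hu1' σ) (by push_cast; ring)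
  have hz0 : ∀ σ : Finset (Fin D.p), σ.card ≠ g →
      X σ - inc (Kx k n) (n + 1) (lgen k n) * cpt g u σ = 0 := by
    intro σ hc
    rw [hX3 σ hc, cpt_of_ne _ hc, mul_zero, sub_zero]
  have hz1 : ∀ σ : Finset (Fin D.p),
      cd (fun σ => X σ - inc (Kx k n) (n + 1) (lgen k n) * cpt g u σ) σ = 0 := by
    intro σ
    have e1 := congrFun (cd_sub X (fun s => inc (Kx k n) (n + 1) (lgen k n) * cpt g u s)) σ
    have e2 : (X - fun s => inc (Kx k n) (n + 1) (lgen k n) * cpt g u s) =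
      fun σ => X σ - inc (Kx k n) (n + 1) (lgen k n) * cpt g u σ := rfl
    rw [e2] at e1
    rw [e1, Pi.sub_apply, hmul, hu2', hw2, sub_self]
  obtain ⟨y, hy1, hy2⟩ : ∃ y : Finset (Fin D.p) → Fr (Kx k n) (n + 1),
      (∀ σ, y σ ∈ D.bc.Eg m σ ∅) ∧ ∀ σ : Finset (Fin D.p), cd y σ =
        X σ - inc (Kx k n) (n + 1) (lgen k n) * cpt g u σ :=
    hLC (fun σ => X σ - inc (Kx k n) (n + 1) (lgen k n) * cpt g u σ)
      (fun σ => Submodule.sub_mem _ (hX1 σ) (hmem σ)) hz0 hz1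
  have hfin : ∀ σ : Finset (Fin D.p), cd (fun s => sp (y s)) σ = x σ := by
    intro σ
    rw [← hspcd, hy2 σ, map_sub, sp_l D hs σ sp hsp (E_sub_R D.bc (hu1' σ).1), sub_zero, hX2]
  exact ⟨fun σ => sp (y σ), fun σ => h1 m σ _ (hy1 σ), hfin⟩

end LCS_

end

end Pool.Agent.DBX.ALG
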