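import Pool.Agent.DBX.ALG.LCSlib

set_option autoImplicit false

/-! # MP_2c751f_ag, squad DBX, area ALG: module LCT (helper51) -/

namespace Pool.Agent.DBX.ALG

open MvPolynomial Pool.Agent.DBX

theorem lct_proof.{u} (hSEC : Pool.Agent.DBX.Stmt_SEC.{u}) (hINH : Pool.Agent.DBX.Stmt_INH.{u})
    (hBCU : Stmt_BCU.{u}) (hCL2 : Pool.Agent.DBX.Stmt_CL2.{u}) (_hCDD : Stmt_CDD.{u})
    (_hDEG : Stmt_DEG.{u}) : Stmt_LCT.{u} := by
  intro k _ _ n D r c hn hC hcr h1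
  have hr : 1 ≤ r := le_trans (by norm_num) hC.r2
  refine LCS_.step hSEC hINH k n D hn hC.good 0 r hr ?_ ((hBCU k n D hC.good 0 r).2 h1)
  intro w X hw0 hw hwc hwd hX hXw
  rw [zero_sub] at hw ⊢
  obtain ⟨y, -, hy1, hy2⟩ := hCL2 k n D r c hn hC hcr w hw0 hw hwc hwd X hX hXw
  exact ⟨y, hy1, hy2⟩

end Pool.Agent.DBX.ALG
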