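import Pool.Agent.DBX.ALG.Stmts

set_option autoImplicit false

/-! # MP_2c751f_ag, squad DBX, area ALG, module LIN: injectivity of `l` on `H^g(Q)` -/

namespace Pool.Agent.DBX.ALG

open MvPolynomial Pool.Agent.DBX

noncomputable section

universe u

namespace LIN_

theorem cd_mem {V : Type*} [LinearOrder V] {A : Type*} [AddCommGroup A] (G : AddSubgroup A)
    (x : Finset V → A) (σ : Finset V) (h : ∀ v ∈ σ, x (σ.erase v) ∈ G) : cd x σ ∈ G := by
  unfold cd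
  exact G.sum_mem (fun v hv => G.zsmul_mem (h v hv) _)

theorem dd_mem {V U : Type*} [LinearOrder V] [LinearOrder U] {A : Type*} [AddCommGroup A]
    (G : AddSubgroup A) (x : Finset V → Finset U → A) (σ : Finset V) (τ : Finset U)
    (h1 : ∀ v ∈ σ, x (σ.erase v) τ ∈ G) (h2 : ∀ v ∈ τ, x σ (τ.erase v) ∈ G) :
    dd x σ τ ∈ G := by
  unfold dd
  exact G.add_mem (cd_mem G _ σ h1) (G.zsmul_mem (cd_mem G _ τ h2) _)

theorem dd_empty {V U : Type*} [LinearOrder V] [LinearOrder U] {A : Type*} [AddCommGroup A]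
    (x : Finset V → Finset U → A) (h : ∀ τ, x ∅ τ = 0) (τ : Finset U) : dd x ∅ τ = 0 := by
  unfold dd cd
  simp [h]

theorem core (hCDD : Stmt_CDD.{u}) (hDEG : Stmt_DEG.{u}) {p M : ℕ} {A B : Type u} [Field A]
    [AddCommGroup B] (sp : A →+ B) (l : A) (hl : l ≠ 0)
    (E1 E1' : Finset (Fin p) → Finset (Fin M) → AddSubgroup A)
    (E2 : Finset (Fin p) → Finset (Fin M) → AddSubgroup B)
    (hmono : ∀ σ σ' τ τ', σ ⊆ σ' → τ ⊆ τ' → E1 σ τ ≤ E1 σ' τ')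
    (h1 : ∀ σ τ, σ.Nonempty → ∀ x ∈ E1 σ τ, sp x ∈ E2 σ τ)
    (h2 : ∀ σ τ, σ.Nonempty → ∀ y ∈ E2 σ τ, ∃ x ∈ E1 σ τ, sp x = y)
    (h3 : ∀ σ τ, σ.Nonempty → ∀ x ∈ E1 σ τ, sp x = 0 → ∃ x' ∈ E1' σ τ, x = l * x')
    (h4 : ∀ σ τ, ∀ x ∈ E1' σ τ, sp (l * x) = 0)
    (g : ℕ)
    (hQ : ∀ x : Finset (Fin p) → Finset (Fin M) → B, (∀ τ, x ∅ τ = 0) → (∀ σ τ, x σ τ ∈ E2 σ τ) →
      (∀ σ τ, σ.card + τ.card ≠ g → x σ τ = 0) → dd x = 0 →
      ∃ y : Finset (Fin p) → Finset (Fin M) → B, (∀ τ, y ∅ τ = 0) ∧ (∀ σ τ, y σ τ ∈ E2 σ τ) ∧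
        dd y = x)
    (z : Finset (Fin p) → Finset (Fin M) → A)
    (hz : ∀ σ τ, z σ τ ∈ E1' σ τ) (hzg : ∀ σ τ, σ.card + τ.card ≠ g + 1 → z σ τ = 0)
    (u : Finset (Fin p) → Finset (Fin M) → A) (hu0 : ∀ τ, u ∅ τ = 0)
    (hu : ∀ σ τ, u σ τ ∈ E1 σ τ) (hdu : ∀ σ τ, dd u σ τ = l * z σ τ) :
    ∃ w : Finset (Fin p) → Finset (Fin M) → A,
      (∀ τ, w ∅ τ = 0) ∧ (∀ σ τ, w σ τ ∈ E1' σ τ) ∧ ∀ σ τ, dd w σ τ = z σ τ := by
  classical
  obtain ⟨_, _, _, _, hAdd, hSub, hDD, hMap⟩ := hCDD p M A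
  have hDegA := (hDEG p M A).2
  have hDegB := (hDEG p M B).2
  -- cut `u` to degree `g`
  let v : Finset (Fin p) → Finset (Fin M) → A := fun s t => if s.card + t.card = g then u s t else 0
  have hv0 : ∀ τ, v ∅ τ = 0 := by
    intro τ
    simp only [v]
    rw [hu0]
    split_ifs <;> rfl
  have hvE : ∀ σ τ, v σ τ ∈ E1 σ τ := by
    intro σ τ
    simp only [v]
    split_ifs
    · exact hu σ τ
    · exact (E1 σ τ).zero_mem
  have hvg : ∀ σ τ, σ.card + τ.card ≠ g → v σ τ = 0 := by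
    intro σ τ h
    simp only [v]
    rw [if_neg h]
  have hdv : ∀ σ τ, dd v σ τ = l * z σ τ := by
    intro σ τ
    have := hDegA u g σ τ
    show dd (fun s t => if s.card + t.card = g then u s t else 0) σ τ = _
    rw [this]
    split_ifs with h
    · exact hdu σ τ
    · rw [hzg σ τ h, mul_zero]
  rcases g with _ | g'
  · -- degree 0
    have hv' : v = fun _ _ => 0 := by
      funext σ τ
      by_cases h : σ.card + τ.card = 0
      · have hσ : σ = ∅ := Finset.card_eq_zero.mp (by omega)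
        rw [hσ]; exact hv0 τ
      · exact hvg σ τ h
    have hzz : dd (fun (_ : Finset (Fin p)) (_ : Finset (Fin M)) => (0 : A)) = fun _ _ => 0 := by
      funext σ τ
      simp [dd, cd]
    have hz' : ∀ σ τ, z σ τ = 0 := by
      intro σ τ
      have e := hdv σ τ
      rw [hv', hzz] at e
      exact (mul_eq_zero.mp e.symm).resolve_left hl
    refine ⟨fun _ _ => 0, fun _ => rfl, fun σ τ => (E1' σ τ).zero_mem, fun σ τ => ?_⟩
    rw [hzz, hz' σ τ]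
  -- degree g' + 1
  have hd1 : dd (fun s t => sp (v s t)) = 0 := by
    funext σ τ
    rw [hMap B sp v σ τ, hdv σ τ, h4 σ τ _ (hz σ τ)]
    rfl
  obtain ⟨y1, hy10, hy1, hdy1⟩ := hQ (fun s t => sp (v s t))
    (fun τ => by rw [hv0 τ, map_zero])
    (fun σ τ => by
      rcases Finset.eq_empty_or_nonempty σ with hσ | hσ
      · subst hσ
        show sp (v ∅ τ) ∈ _
        rw [hv0 τ, map_zero]; exact (E2 ∅ τ).zero_mem
      · exact h1 σ τ hσ _ (hvE σ τ))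
    (fun σ τ h => by rw [hvg σ τ h, map_zero]) hd1
  -- cut
  let y2 : Finset (Fin p) → Finset (Fin M) → B := fun s t => if s.card + t.card = g' then y1 s t else 0
  have hdy2 : ∀ σ τ, dd y2 σ τ = sp (v σ τ) := by
    intro σ τ
    have := hDegB y1 g' σ τ
    show dd (fun s t => if s.card + t.card = g' then y1 s t else 0) σ τ = _
    rw [this]
    split_ifs with h
    · rw [hdy1]
    · rw [hvg σ τ h, map_zero]
  have hy2 : ∀ σ τ, y2 σ τ ∈ E2 σ τ := by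
    intro σ τ
    simp only [y2]
    split_ifs
    · exact hy1 σ τ
    · exact (E2 σ τ).zero_mem
  -- lift
  have hlift : ∀ σ τ, ∃ x ∈ E1 σ τ, sp x = y2 σ τ ∧ (σ = ∅ → x = 0) := by
    intro σ τ
    rcases Finset.eq_empty_or_nonempty σ with hσ | hσ
    · refine ⟨0, (E1 σ τ).zero_mem, ?_, fun _ => rfl⟩
      subst hσ
      rw [map_zero]
      simp only [y2]
      rw [hy10]
      split_ifs <;> rfl
    · obtain ⟨x, hx, hx2⟩ := h2 σ τ hσ _ (hy2 σ τ)
      exact ⟨x, hx, hx2, fun h => absurd h hσ.ne_empty⟩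
  choose y hyE hysp hy0 using hlift
  have hddyE : ∀ σ τ, dd y σ τ ∈ E1 σ τ := by
    intro σ τ
    apply dd_mem
    · intro v _
      exact hmono _ _ _ _ (Finset.erase_subset v σ) (Finset.Subset.refl τ) (hyE _ _)
    · intro v _
      exact hmono _ _ _ _ (Finset.Subset.refl σ) (Finset.erase_subset v τ) (hyE _ _)
  have hw : ∀ σ τ, v σ τ - dd y σ τ ∈ E1 σ τ := fun σ τ =>
    (E1 σ τ).sub_mem (hvE σ τ) (hddyE σ τ)
  have hspw : ∀ σ τ, sp (v σ τ - dd y σ τ) = 0 := by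
    intro σ τ
    have e1 : dd (fun s t => sp (y s t)) σ τ = sp (dd y σ τ) := hMap B sp y σ τ
    have e2 : (fun s t => sp (y s t)) = y2 := by
      funext s t; exact hysp s t
    rw [e2, hdy2] at e1
    rw [map_sub, ← e1, sub_self]
  have hwex : ∀ σ τ, ∃ x' ∈ E1' σ τ, v σ τ - dd y σ τ = l * x' ∧ (σ = ∅ → x' = 0) := by
    intro σ τ
    rcases Finset.eq_empty_or_nonempty σ with hσ | hσ
    · refine ⟨0, (E1' σ τ).zero_mem, ?_, fun _ => rfl⟩
      subst hσ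
      rw [hv0 τ, dd_empty y (fun t => hy0 ∅ t rfl) τ, sub_zero, mul_zero]
    · obtain ⟨x', hx', hx2⟩ := h3 σ τ hσ _ (hw σ τ) (hspw σ τ)
      exact ⟨x', hx', hx2, fun h => absurd h hσ.ne_empty⟩
  choose w hwE hwl hw0 using hwex
  refine ⟨w, fun τ => hw0 ∅ τ rfl, hwE, ?_⟩
  intro σ τ
  have e1 : dd (fun s t => (AddMonoidHom.mulLeft l) (w s t)) σ τ =
      (AddMonoidHom.mulLeft l) (dd w σ τ) := hMap A (AddMonoidHom.mulLeft l) w σ τ
  have e2 : (fun s t => (AddMonoidHom.mulLeft l) (w s t)) = v - dd y := by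
    funext s t
    show l * w s t = v s t - dd y s t
    exact (hwl s t).symm
  rw [e2, hSub, hdv, hDD, sub_zero] at e1
  have e3 : l * z σ τ = l * dd w σ τ := e1
  exact (mul_left_cancel₀ hl e3).symm

section
variable {k : Type u} [Field k] {n : ℕ}

theorem lgen_ne : lgen k n ≠ 0 := by
  intro h
  have h1 := congrArg (MvPolynomial.eval (fun i : Fin (n + 1) => if i = Fin.last n then
    (1 : Kx k n) else 0)) h
  simp only [lgen, map_sub, eval_X, map_sum, map_mul, eval_C, map_zero, if_true] at h1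
  rw [Finset.sum_eq_zero, sub_zero] at h1
  · exact one_ne_zero h1
  · intro i _
    rw [if_neg (ne_of_lt (Fin.castSucc_lt_last i)), mul_zero]

theorem secP_lgen : secP k n (lgen k n) = 0 := by
  unfold lgen secP
  rw [map_sub, map_sum, aeval_X, Fin.snoc_last, sub_eq_zero]
  refine Finset.sum_congr rfl (fun i _ => ?_)
  rw [map_mul, aeval_X, Fin.snoc_castSucc, aeval_C]
  rfl

theorem frac (D : Dat k (n + 1)) (hs : D.sec.Good) (σ : Finset (Fin D.p)) (τ : Finset (Fin D.M))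
    {x : Fr (Kx k n) (n + 1)} (hx : x ∈ D.bc.R σ τ) :
    ∃ A B : Pol (Kx k n) (n + 1), secP k n B ≠ 0 ∧ x = inc _ _ A / inc _ _ B := by
  have hne : ∀ B : Pol (Kx k n) (n + 1), secP k n B ≠ 0 → inc (Kx k n) (n + 1) B ≠ 0 := by
    intro B hB
    exact inc_ne (fun h => hB (by rw [h, map_zero]))
  unfold Dat.R at hx
  induction hx using Algebra.adjoin_induction with
  | mem x hx =>
    rcases hx with (⟨a, rfl⟩ | ⟨a, -, rfl⟩) | ⟨b, -, j, rfl⟩
    · exact ⟨a, 1, by rw [map_one]; exact one_ne_zero, by rw [map_one, div_one]⟩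
    · exact ⟨1, D.bc.g a, hs.g_ne a, by rw [map_one, one_div]⟩
    · exact ⟨D.bc.f j, D.bc.f b, hs.f_ne b, rfl⟩
  | algebraMap r =>
    refine ⟨C r, 1, by rw [map_one]; exact one_ne_zero, ?_⟩
    rw [map_one, div_one]
    rfl
  | add x y _ _ hx hy =>
    obtain ⟨A, B, hB, rfl⟩ := hx
    obtain ⟨A', B', hB', rfl⟩ := hy
    refine ⟨A * B' + A' * B, B * B', ?_, ?_⟩
    · rw [map_mul]; exact mul_ne_zero hB hB'
    · have h1 := hne B hB
      have h2 := hne B' hB'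
      rw [map_add, map_mul, map_mul, map_mul]
      field_simp
  | mul x y _ _ hx hy =>
    obtain ⟨A, B, hB, rfl⟩ := hx
    obtain ⟨A', B', hB', rfl⟩ := hy
    refine ⟨A * A', B * B', ?_, ?_⟩
    · rw [map_mul]; exact mul_ne_zero hB hB'
    · have h1 := hne B hB
      have h2 := hne B' hB'
      rw [map_mul, map_mul]
      field_simp

theorem toF_sub {F : Type u} [Field F] [Algebra k F] (A : Subalgebra k F) (J : Ideal A) {x : F}
    (hx : x ∈ toF A J) : x ∈ A := by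
  obtain ⟨w, -, rfl⟩ := hx
  exact w.2

theorem E_sub_R (D : Dat k n) (σ : Finset (Fin D.p)) (τ : Finset (Fin D.M)) {x : Fr k n}
    (hx : x ∈ D.E σ τ) : x ∈ D.R σ τ := by
  unfold Dat.E at hx
  split_ifs at hx with h
  · exact toF_sub _ _ hx
  · exact toF_sub _ _ hx

theorem sp_l (D : Dat k (n + 1)) (hs : D.sec.Good) (σ : Finset (Fin D.p)) (τ : Finset (Fin D.M))
    (sp : Fr (Kx k n) (n + 1) →ₗ[Kx k n] Fr (Kx k n) n) (hsp : IsSp sp)
    {x : Fr (Kx k n) (n + 1)} (hx : x ∈ D.bc.R σ τ) : sp (inc _ _ (lgen k n) * x) = 0 := by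
  obtain ⟨A, B, hB, rfl⟩ := frac D hs σ τ hx
  rw [← mul_div_assoc, ← map_mul, hsp _ _ hB, map_mul (secP k n), secP_lgen, zero_mul, map_zero,
    zero_div]

end

end LIN_

open LIN_ in
theorem lin_proof.{v} (hSEC : Pool.Agent.DBX.Stmt_SEC.{v}) (hINH : Pool.Agent.DBX.Stmt_INH.{v})
    (hCDD : Stmt_CDD.{v}) (hDEG : Stmt_DEG.{v}) (hEMO : Stmt_EMO.{v}) : Stmt_LIN.{v} := by
  classical
  intro k _ _ n D hn hD m g hQ z hz hzg _ u hu hdu
  obtain ⟨sp, hIs, hsp⟩ := hSEC k n hn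
  obtain ⟨_, hS⟩ := hsp D hD
  obtain ⟨_, hs, _, _⟩ := hINH k n D hn hD
  have hl : inc (Kx k n) (n + 1) (lgen k n) ≠ 0 := inc_ne lgen_ne
  obtain ⟨w, a1, a2, a3⟩ := core hCDD hDEG (p := D.p) (M := D.M)
    (A := Fr (Kx k n) (n + 1)) (B := Fr (Kx k n) n) sp.toAddMonoidHom
    (inc (Kx k n) (n + 1) (lgen k n)) hl
    (fun σ τ => (D.bc.Eg m σ τ).toAddSubgroup) (fun σ τ => (D.bc.Eg (m - 1) σ τ).toAddSubgroup)
    (fun σ τ => (D.sec.Eg m σ τ).toAddSubgroup)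
    (fun σ σ' τ τ' h h' => fun x hx => (hEMO (Kx k n) (n + 1) D.bc σ σ' τ τ' h h').2 m hx)
    (fun σ τ hσ x hx => (hS m σ τ hσ).1 x hx)
    (fun σ τ hσ x hx => (hS m σ τ hσ).2.1 x hx)
    (fun σ τ hσ x hx h0 => (hS m σ τ hσ).2.2 x hx h0)
    (fun σ τ x hx => sp_l D hs σ τ sp hIs (E_sub_R D.bc σ τ hx.1))
    g
    (fun x h0 hE hg hd => by
      obtain ⟨y, hy, hdy⟩ := hQ x ⟨h0, hE⟩ hg hd
      exact ⟨y, hy.1, hy.2, hdy⟩)
    z hz.2 hzg u hu.1 hu.2 hdu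
  exact ⟨w, ⟨a1, a2⟩, by funext σ τ; exact a3 σ τ⟩

end

end Pool.Agent.DBX.ALG
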