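import Pool.Agent.DBX.ALG.Stmts

set_option autoImplicit false

/-! # MP_2c751f_ag, squad DBX, area ALG, module LSU: surjectivity of `l` on `H^g(Q)` -/

namespace Pool.Agent.DBX.ALG

open MvPolynomial Pool.Agent.DBX

noncomputable section

universe u

namespace LSU_

theorem cd_mem {V : Type*} [LinearOrder V] {A : Type*} [AddCommGroup A] (G : AddSubgroup A)
    (x : Finset V → A) (σ : Finset V) (h : ∀ v ∈ σ, x (σ.erase v) ∈ G) : cd x σ ∈ G := by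
  unfold cd
  exact G.sum_mem (fun v hv => G.zsmul_mem (h v hv) _)

theorem dd_mem {V U : Type*} [LinearOrder V] [LinearOrder U] {A : Type*} [AddCommGroup A]
    (G : AddSubgroup A) (x : Finset V → Finset U → A) (σ : Finset V) (τ : Finset U)
    (h1 : ∀ v ∈ σ, x (σ.erase v) τ ∈ G) (h2 : ∀ v ∈ τ, x σ (τ.erase v) ∈ G) :
    dd x σ τ ∈ G := by
  unfold dd
  exact G.add_mem (cd_mem G _ σ h1) (G.zsmul_mem (cd_mem G _ τ h2) _)

theorem dd_empty {V U : Type*} [LinearOrder V] [LinearOrder U] {A : Type*} [AddCommGroup A]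
    (x : Finset V → Finset U → A) (h : ∀ τ, x ∅ τ = 0) (τ : Finset U) : dd x ∅ τ = 0 := by
  unfold dd cd
  simp [h]

theorem core (hCDD : Stmt_CDD.{u}) (hDEG : Stmt_DEG.{u}) {p M : ℕ} {A B : Type u} [Field A]
    [AddCommGroup B] (sp : A →+ B) (l : A) (hl : l ≠ 0)
    (E1 E1' : Finset (Fin p) → Finset (Fin M) → AddSubgroup A)
    (E2 : Finset (Fin p) → Finset (Fin M) → AddSubgroup B)
    (hmono : ∀ σ σ' τ τ', σ ⊆ σ' → τ ⊆ τ' → E1 σ τ ≤ E1 σ' τ')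
    (h1 : ∀ σ τ, σ.Nonempty → ∀ x ∈ E1 σ τ, sp x ∈ E2 σ τ)
    (h2 : ∀ σ τ, σ.Nonempty → ∀ y ∈ E2 σ τ, ∃ x ∈ E1 σ τ, sp x = y)
    (h3 : ∀ σ τ, σ.Nonempty → ∀ x ∈ E1 σ τ, sp x = 0 → ∃ x' ∈ E1' σ τ, x = l * x')
    (g : ℕ)
    (hQ : ∀ x : Finset (Fin p) → Finset (Fin M) → B, (∀ τ, x ∅ τ = 0) → (∀ σ τ, x σ τ ∈ E2 σ τ) →
      (∀ σ τ, σ.card + τ.card ≠ g → x σ τ = 0) → dd x = 0 →
      ∃ y : Finset (Fin p) → Finset (Fin M) → B, (∀ τ, y ∅ τ = 0) ∧ (∀ σ τ, y σ τ ∈ E2 σ τ) ∧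
        dd y = x)
    (z : Finset (Fin p) → Finset (Fin M) → A) (hz0 : ∀ τ, z ∅ τ = 0)
    (hz : ∀ σ τ, z σ τ ∈ E1 σ τ) (hzg : ∀ σ τ, σ.card + τ.card ≠ g → z σ τ = 0)
    (hdz : ∀ σ τ, dd z σ τ = 0) :
    ∃ z' y : Finset (Fin p) → Finset (Fin M) → A,
      (∀ τ, z' ∅ τ = 0) ∧ (∀ σ τ, z' σ τ ∈ E1' σ τ) ∧
      (∀ σ τ, σ.card + τ.card ≠ g → z' σ τ = 0) ∧ (∀ σ τ, dd z' σ τ = 0) ∧
      (∀ τ, y ∅ τ = 0) ∧ (∀ σ τ, y σ τ ∈ E1 σ τ) ∧
      ∀ σ τ, z σ τ = l * z' σ τ + dd y σ τ := by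
  classical
  obtain ⟨_, _, _, _, hAdd, hSub, hDD, hMap⟩ := hCDD p M A
  obtain ⟨_, _, _, _, _, _, _, _⟩ := hCDD p M B
  have hDegA := (hDEG p M A).2
  have hDegB := (hDEG p M B).2
  rcases g with _ | g'
  · -- degree 0
    have hz' : ∀ σ τ, z σ τ = 0 := by
      intro σ τ
      by_cases h : σ.card + τ.card = 0
      · have hσ : σ = ∅ := Finset.card_eq_zero.mp (by omega)
        rw [hσ]; exact hz0 τ
      · exact hzg σ τ h
    have hzz : dd (fun (_ : Finset (Fin p)) (_ : Finset (Fin M)) => (0 : A)) = fun _ _ => 0 := by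
      funext σ τ
      simp [dd, cd]
    refine ⟨fun _ _ => 0, fun _ _ => 0, fun _ => rfl, fun σ τ => (E1' σ τ).zero_mem,
      fun _ _ _ => rfl, fun σ τ => by rw [hzz], fun _ => rfl, fun σ τ => (E1 σ τ).zero_mem, ?_⟩
    intro σ τ
    rw [hzz, hz' σ τ]
    simp
  -- degree g' + 1
  have hd1 : dd (fun s t => sp (z s t)) = 0 := by
    funext σ τ
    rw [hMap B sp z σ τ, hdz σ τ, map_zero]
    rfl
  obtain ⟨y1, hy10, hy1, hdy1⟩ := hQ (fun s t => sp (z s t))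
    (fun τ => by rw [hz0 τ, map_zero])
    (fun σ τ => by
      rcases Finset.eq_empty_or_nonempty σ with hσ | hσ
      · subst hσ
        show sp (z ∅ τ) ∈ _
        rw [hz0 τ, map_zero]; exact (E2 ∅ τ).zero_mem
      · exact h1 σ τ hσ _ (hz σ τ))
    (fun σ τ h => by rw [hzg σ τ h, map_zero]) hd1
  -- cut
  let y2 : Finset (Fin p) → Finset (Fin M) → B := fun s t => if s.card + t.card = g' then y1 s t else 0
  have hdy2 : ∀ σ τ, dd y2 σ τ = sp (z σ τ) := by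
    intro σ τ
    have := hDegB y1 g' σ τ
    show dd (fun s t => if s.card + t.card = g' then y1 s t else 0) σ τ = _
    rw [this]
    split_ifs with h
    · rw [hdy1]
    · rw [hzg σ τ h, map_zero]
  have hy2 : ∀ σ τ, y2 σ τ ∈ E2 σ τ := by
    intro σ τ
    simp only [y2]
    split_ifs
    · exact hy1 σ τ
    · exact (E2 σ τ).zero_mem
  -- lift
  have hlift : ∀ σ τ, ∃ x ∈ E1 σ τ, sp x = y2 σ τ ∧ (σ = ∅ → x = 0) ∧
      (σ.card + τ.card ≠ g' → x = 0) := by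
    intro σ τ
    rcases Finset.eq_empty_or_nonempty σ with hσ | hσ
    · refine ⟨0, (E1 σ τ).zero_mem, ?_, fun _ => rfl, fun _ => rfl⟩
      subst hσ
      rw [map_zero]
      simp only [y2]
      rw [hy10]
      split_ifs <;> rfl
    · by_cases hg : σ.card + τ.card = g'
      · obtain ⟨x, hx, hx2⟩ := h2 σ τ hσ _ (hy2 σ τ)
        exact ⟨x, hx, hx2, fun h => absurd h hσ.ne_empty, fun h => absurd hg h⟩
      · refine ⟨0, (E1 σ τ).zero_mem, ?_, fun _ => rfl, fun _ => rfl⟩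
        rw [map_zero]
        simp only [y2]
        rw [if_neg hg]
  choose y hyE hysp hy0 hyg using hlift
  have hddyE : ∀ σ τ, dd y σ τ ∈ E1 σ τ := by
    intro σ τ
    apply dd_mem
    · intro v _
      exact hmono _ _ _ _ (Finset.erase_subset v σ) (Finset.Subset.refl τ) (hyE _ _)
    · intro v _
      exact hmono _ _ _ _ (Finset.Subset.refl σ) (Finset.erase_subset v τ) (hyE _ _)
  have hw : ∀ σ τ, z σ τ - dd y σ τ ∈ E1 σ τ := fun σ τ =>
    (E1 σ τ).sub_mem (hz σ τ) (hddyE σ τ)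
  have hspw : ∀ σ τ, sp (z σ τ - dd y σ τ) = 0 := by
    intro σ τ
    have e1 : dd (fun s t => sp (y s t)) σ τ = sp (dd y σ τ) := hMap B sp y σ τ
    have e2 : (fun s t => sp (y s t)) = y2 := by
      funext s t; exact hysp s t
    rw [e2, hdy2] at e1
    rw [map_sub, ← e1, sub_self]
  have hddy0 : ∀ σ τ, σ.card + τ.card ≠ g' + 1 → dd y σ τ = 0 := by
    intro σ τ h
    have e1 : y = fun s t => if s.card + t.card = g' then y s t else 0 := by
      funext s t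
      split_ifs with h'
      · rfl
      · exact hyg s t h'
    rw [e1, hDegA y g' σ τ, if_neg h]
  have hz'ex : ∀ σ τ, ∃ x' ∈ E1' σ τ, z σ τ - dd y σ τ = l * x' ∧ (σ = ∅ → x' = 0) ∧
      (σ.card + τ.card ≠ g' + 1 → x' = 0) := by
    intro σ τ
    by_cases h0 : z σ τ - dd y σ τ = 0
    · exact ⟨0, (E1' σ τ).zero_mem, by rw [h0, mul_zero], fun _ => rfl, fun _ => rfl⟩
    · rcases Finset.eq_empty_or_nonempty σ with hσ | hσ
      · exfalso
        apply h0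
        subst hσ
        rw [hz0 τ, dd_empty y (fun t => hy0 ∅ t rfl) τ, sub_zero]
      · obtain ⟨x', hx', hx2⟩ := h3 σ τ hσ _ (hw σ τ) (hspw σ τ)
        refine ⟨x', hx', hx2, fun h => absurd h hσ.ne_empty, fun h => ?_⟩
        exfalso
        apply h0
        rw [hzg σ τ h, hddy0 σ τ h, sub_zero]
  choose z' hz'E hz'l hz'0 hz'g using hz'ex
  refine ⟨z', y, fun τ => hz'0 ∅ τ rfl, hz'E, hz'g, ?_, fun τ => hy0 ∅ τ rfl, hyE, ?_⟩
  · intro σ τ
    have e1 : dd (fun s t => (AddMonoidHom.mulLeft l) (z' s t)) σ τ =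
        (AddMonoidHom.mulLeft l) (dd z' σ τ) := hMap A (AddMonoidHom.mulLeft l) z' σ τ
    have e2 : (fun s t => (AddMonoidHom.mulLeft l) (z' s t)) = z - dd y := by
      funext s t
      show l * z' s t = z s t - dd y s t
      exact (hz'l s t).symm
    rw [e2, hSub, hdz, hDD, sub_zero] at e1
    have e3 : l * dd z' σ τ = 0 := e1.symm
    exact (mul_eq_zero.mp e3).resolve_left hl
  · intro σ τ
    rw [← hz'l σ τ]
    ring

theorem lgen_ne (k : Type u) [Field k] (n : ℕ) : lgen k n ≠ 0 := by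
  intro h
  have h1 := congrArg (MvPolynomial.eval (fun i : Fin (n + 1) => if i = Fin.last n then
    (1 : Kx k n) else 0)) h
  simp only [lgen, map_sub, eval_X, map_sum, map_mul, eval_C, map_zero, if_true] at h1
  rw [Finset.sum_eq_zero, sub_zero] at h1
  · exact one_ne_zero h1
  · intro i _
    rw [if_neg (ne_of_lt (Fin.castSucc_lt_last i)), mul_zero]

end LSU_

open LSU_ in
theorem lsu_proof.{v} (hSEC : Pool.Agent.DBX.Stmt_SEC.{v}) (_hINH : Pool.Agent.DBX.Stmt_INH.{v})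
    (hCDD : Stmt_CDD.{v}) (hDEG : Stmt_DEG.{v}) (hEMO : Stmt_EMO.{v}) : Stmt_LSU.{v} := by
  classical
  intro k _ _ n D hn hD m g hQ z hz hzg hdz
  obtain ⟨sp, _, hsp⟩ := hSEC k n hn
  obtain ⟨_, hS⟩ := hsp D hD
  have hl : inc (Kx k n) (n + 1) (lgen k n) ≠ 0 := inc_ne (lgen_ne k n)
  obtain ⟨z', y, a1, a2, a3, a4, a5, a6, a7⟩ := core hCDD hDEG (p := D.p) (M := D.M)
    (A := Fr (Kx k n) (n + 1)) (B := Fr (Kx k n) n) sp.toAddMonoidHom
    (inc (Kx k n) (n + 1) (lgen k n)) hl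
    (fun σ τ => (D.bc.Eg m σ τ).toAddSubgroup) (fun σ τ => (D.bc.Eg (m - 1) σ τ).toAddSubgroup)
    (fun σ τ => (D.sec.Eg m σ τ).toAddSubgroup)
    (fun σ σ' τ τ' h h' => fun x hx => (hEMO (Kx k n) (n + 1) D.bc σ σ' τ τ' h h').2 m hx)
    (fun σ τ hσ x hx => (hS m σ τ hσ).1 x hx)
    (fun σ τ hσ x hx => (hS m σ τ hσ).2.1 x hx)
    (fun σ τ hσ x hx h0 => (hS m σ τ hσ).2.2 x hx h0)
    g
    (fun x h0 hE hg hd => by
      obtain ⟨y, hy, hdy⟩ := hQ x ⟨h0, hE⟩ hg hd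
      exact ⟨y, hy.1, hy.2, hdy⟩)
    z hz.1 hz.2 hzg (fun σ τ => congrFun (congrFun hdz σ) τ)
  exact ⟨z', y, ⟨a1, a2⟩, a3, by funext σ τ; exact a4 σ τ, ⟨a5, a6⟩, a7⟩

end

end Pool.Agent.DBX.ALG
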