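import Pool.Agent.DBX.ALG.Stmts

set_option autoImplicit false

/-! # MP_2c751f_ag, squad DBX, area ALG, module MAIN -/

namespace Pool.Agent.DBX.ALG

open MvPolynomial Pool.Agent.DBX

noncomputable section

universe u

theorem main_proof (hCMQ : Stmt_CMQ.{u}) (hNUM : Stmt_NUM) (hQQ1 : Stmt_QQ1.{u})
    (hQQ2 : Stmt_QQ2.{u}) (hCMP : Stmt_CMP.{u}) (hIZE : Stmt_IZE.{u}) (hCO1 : Stmt_CO1.{u})
    (hINI : Stmt_INI.{u}) : Stmt_MAIN.{u} := by
  intro k _ _ n I hI hne r hr hS hDB
  by_cases hbot : I = ⊥
  · subst hbot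
    obtain ⟨hcm, hdim, hser⟩ := hIZE k n
    refine ⟨?_, fun _ => hcm⟩
    intro d h hd hh i _
    have hdn : d = n := by
      rw [hdim] at hd
      exact_mod_cast hd.symm
    subst hdn
    rw [hser] at hh
    have h1 : h = 1 := by
      apply Polynomial.coe_injective ℤ
      rw [← hh, Polynomial.coe_one]
    rw [h1, Polynomial.coeff_one]
    split_ifs <;> norm_num
  · obtain ⟨d, hd, hdn⟩ := hCO1 k n I hbot hne
    obtain ⟨D, hDI, hSta, M, δ, f, hD⟩ := hINI k n I r (n - d) d hI hne hr (by omega) hd
      (by omega) hS hDB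
    constructor
    · intro d' h hd' hh i hi
      have hdd : d' = d := by
        rw [hd] at hd'
        exact_mod_cast hd'.symm
      subst hdd
      rcases Nat.eq_zero_or_pos d' with h0 | hpos
      · subst h0
        refine hNUM r 0 (fun _ u => (hilb I u : ℤ)) (fun _ _ => Int.natCast_nonneg _)
          (fun s hs => absurd hs (Nat.not_lt_zero s))
          (fun s hs => absurd hs (Nat.not_lt_zero s)) h hh i hi
      · obtain ⟨H, H0, H1, H2, H3⟩ := hQQ1 k n D r (n - d') hr hSta (by omega)
        have hnd : n - (n - d') = d' := by omega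
        rw [hnd] at H1 H2
        refine hNUM r d' H H0 H1 H2 h ?_ i hi
        rw [← hh]
        congr 2
        funext u
        rw [H3 u, hDI]
    · intro hreg
      refine hCMQ k n I d hI hne hd ?_
      intro j m hj
      rw [hCMP k n I hI M δ f m j (by omega), ← hD]
      refine hQQ2 k n D r (n - d) hr hSta ?_ m (j + 1) (by omega)
      intro m' g hg1 hgn hrg
      have h1 := (hCMP k n I hI M δ f m' (g - 1) (by omega)).1
        (hreg (g - 1) m' (by push_cast [Nat.cast_sub hg1]; omega))
      rw [Nat.sub_add_cancel hg1, ← hD] at h1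
      exact h1

end

end Pool.Agent.DBX.ALG
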