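import Pool.Agent.DBX.ALG.Stmts

set_option autoImplicit false

namespace Pool.Agent.DBX.ALG

open MvPolynomial Pool.Agent.DBX

universe u

section
variable {k : Type u} [Field k] {n : ℕ}

theorem NEG_.lin_prime {g : Pol k n} (hg : g.IsHomogeneous 1) (h0 : g ≠ 0) : Prime g := by
  refine Irreducible.prime ?_
  refine irreducible_of_totalDegree_eq_one (hg.totalDegree h0) ?_
  intro x hx
  rw [isUnit_iff_ne_zero]
  rintro rfl
  apply h0
  ext i
  have := hx i
  rw [zero_dvd_iff] at this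
  rw [this, coeff_zero]

theorem NEG_.not_all_dvd (D : Dat k n) (hD : D.Good) (hn : 2 ≤ n) (a : Fin D.p) :
    ∃ b, ¬ D.g a ∣ D.g b := by
  by_contra hcon
  push Not at hcon
  have hX : ∀ i, D.g a ∣ (X i : Pol k n) := by
    intro i
    have h1 := hD.g_span i
    have h2 : Submodule.span k (Set.range D.g) ≤ (Ideal.span {D.g a}).restrictScalars k := by
      rw [Submodule.span_le]
      rintro _ ⟨b, rfl⟩
      exact Ideal.mem_span_singleton.2 (hcon b)
    exact Ideal.mem_span_singleton.1 (h2 h1)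
  have hp := NEG_.lin_prime (hD.g_hom a) (hD.g_ne a)
  have h0 : Associated (D.g a) (X ⟨0, by omega⟩ : Pol k n) :=
    (hp.associated_of_dvd (X_prime (R := k) (σ := Fin n)) (hX _))
  have h1 : Associated (D.g a) (X ⟨1, by omega⟩ : Pol k n) :=
    (hp.associated_of_dvd (X_prime (R := k) (σ := Fin n)) (hX _))
  have h2 : (X ⟨0, by omega⟩ : Pol k n) ∣ (X ⟨1, by omega⟩ : Pol k n) := (h0.symm.trans h1).dvd
  rw [X_dvd_X] at h2
  exact one_ne_zero (congrArg Nat.cast (congrArg Fin.val h2.symm) : ((1:ℕ):ℤ) = ((0:ℕ):ℤ))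

theorem NEG_.den (D : Dat k n) (hg : ∀ a, D.g a ≠ 0) (a : Fin D.p) {z : Fr k n}
    (hz : z ∈ D.R {a} ∅) : ∃ (N : ℕ) (P : Pol k n), z * (inc k n (D.g a)) ^ N = inc k n P := by
  have hga := inc_ne (hg a)
  unfold Dat.R at hz
  induction hz using Algebra.adjoin_induction with
  | mem x hx =>
    rcases hx with (⟨w, rfl⟩ | ⟨b, hb, rfl⟩) | ⟨b, hb, _⟩
    · exact ⟨0, w, by simp⟩
    · rw [Finset.mem_singleton] at hb
      subst hb
      exact ⟨1, 1, by rw [pow_one, inv_mul_cancel₀ hga, map_one]⟩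
    · exact absurd hb (Finset.notMem_empty b)
  | algebraMap r =>
    exact ⟨0, C r, by rw [pow_zero, mul_one]; rfl⟩
  | add x y _ _ hx hy =>
    obtain ⟨N, P, hP⟩ := hx
    obtain ⟨M, Q, hQ⟩ := hy
    refine ⟨N + M, P * D.g a ^ M + Q * D.g a ^ N, ?_⟩
    rw [map_add, map_mul, map_mul, map_pow, map_pow, ← hP, ← hQ]
    ring
  | mul x y _ _ hx hy =>
    obtain ⟨N, P, hP⟩ := hx
    obtain ⟨M, Q, hQ⟩ := hy
    refine ⟨N + M, P * Q, ?_⟩
    rw [map_mul, ← hP, ← hQ]
    ring

theorem NEG_.mem_R (D : Dat k n) (m : ℤ) (a : Fin D.p) {z : Fr k n}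
    (hz : z ∈ D.Eg m {a} ∅) : z ∈ D.R {a} ∅ ∧ z ∈ HF k n m := by
  refine ⟨?_, hz.2⟩
  have h1 := hz.1
  unfold Dat.E at h1
  rw [if_pos rfl] at h1
  obtain ⟨w, _, hw⟩ := h1
  rw [← hw]
  exact w.2

theorem NEG_.neg_zero {m : ℤ} (hm : m < 0) {P : Pol k n} (h : inc k n P ∈ HF k n m) : P = 0 := by
  obtain ⟨a, b, i, j, ha, hb, hb0, hij, he⟩ := h
  have hbi := inc_ne hb0
  have h1 : P * b = a := by
    apply IsFractionRing.injective (MvPolynomial (Fin n) k) (FractionRing (MvPolynomial (Fin n) k))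
    have : inc k n P * inc k n b = inc k n a := by
      rw [he]; field_simp
    rw [map_mul]
    exact this
  by_contra hP
  have ha0 : a ≠ 0 := by
    rw [← h1]; exact mul_ne_zero hP hb0
  have h2 := hij ha0
  have h3 := congrArg MvPolynomial.totalDegree h1
  rw [totalDegree_mul_of_isDomain hP hb0, hb.totalDegree hb0, ha.totalDegree ha0] at h3
  omega

theorem NEG_.cd_pair {p : ℕ} {A : Type*} [AddCommGroup A] (x : Finset (Fin p) → A)
    {a b : Fin p} (hab : a < b) : cd x {a, b} = x {b} - x {a} := by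
  have hne : a ≠ b := ne_of_lt hab
  unfold cd
  rw [Finset.sum_pair hne]
  have e1 : ({a, b} : Finset (Fin p)).erase a = {b} := by
    rw [Finset.erase_insert]
    simpa using hne
  have e2 : ({a, b} : Finset (Fin p)).erase b = {a} := by
    ext v
    simp only [Finset.mem_erase, Finset.mem_insert, Finset.mem_singleton]
    constructor
    · rintro ⟨h1, h2 | h2⟩
      · exact h2
      · exact absurd h2 h1
    · rintro rfl
      exact ⟨hne, Or.inl rfl⟩
  have f1 : ({a, b} : Finset (Fin p)).filter (fun w => w < a) = ∅ := by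
    ext v
    simp only [Finset.mem_filter, Finset.mem_insert, Finset.mem_singleton, Finset.notMem_empty,
      iff_false, not_and]
    rintro (rfl | rfl)
    · exact lt_irrefl _
    · exact not_lt.2 hab.le
  have f2 : ({a, b} : Finset (Fin p)).filter (fun w => w < b) = {a} := by
    ext v
    simp only [Finset.mem_filter, Finset.mem_insert, Finset.mem_singleton]
    constructor
    · rintro ⟨h1 | h1, h2⟩
      · exact h1
      · subst h1; exact absurd h2 (lt_irrefl _)
    · rintro rfl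
      exact ⟨Or.inl rfl, hab⟩
  rw [e1, e2, f1, f2]
  simp only [Finset.card_empty, Finset.card_singleton, pow_zero, pow_one, one_smul, neg_smul]
  abel

end

theorem neg_proof.{v} : Stmt_NEG.{v} := by
  intro k _ n D hD hn m hm x hx hs hc
  have hpair : ∀ a b : Fin D.p, a < b → x {b} = x {a} := by
    intro a b hab
    have h1 := hc {a, b}
    rw [NEG_.cd_pair x hab] at h1
    exact sub_eq_zero.1 h1
  have hall : ∀ a b : Fin D.p, x {b} = x {a} := by
    intro a b
    rcases lt_trichotomy a b with h | h | h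
    · exact hpair a b h
    · rw [h]
    · exact (hpair b a h).symm
  have hz : ∀ a, x {a} = 0 := by
    intro a
    obtain ⟨b, hb⟩ := NEG_.not_all_dvd D hD hn a
    obtain ⟨h1, h2⟩ := NEG_.mem_R D m a (hx {a})
    obtain ⟨h3, h4⟩ := NEG_.mem_R D m b (hx {b})
    rw [hall a b] at h3 h4
    obtain ⟨N, P, hP⟩ := NEG_.den D hD.g_ne a h1
    obtain ⟨M, Q, hQ⟩ := NEG_.den D hD.g_ne b h3
    have hp := NEG_.lin_prime (hD.g_hom a) (hD.g_ne a)
    have h5 : P * D.g b ^ M = Q * D.g a ^ N := by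
      apply IsFractionRing.injective (MvPolynomial (Fin n) k)
        (FractionRing (MvPolynomial (Fin n) k))
      have : inc k n P * inc k n (D.g b) ^ M = inc k n Q * inc k n (D.g a) ^ N := by
        rw [← hP, ← hQ]; ring
      rw [map_mul, map_mul, map_pow, map_pow]
      exact this
    have h6 : D.g a ^ N ∣ P := by
      refine hp.pow_dvd_of_dvd_mul_right N (fun h => hb (hp.dvd_of_dvd_pow h)) (b := D.g b ^ M) ?_
      exact ⟨Q, by rw [h5, mul_comm]⟩
    obtain ⟨w, hw⟩ := h6
    have hga := inc_ne (hD.g_ne a)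
    have h7 : x {a} = inc k n w := by
      have h8 : x {a} * inc k n (D.g a) ^ N = inc k n w * inc k n (D.g a) ^ N := by
        rw [hP, hw, map_mul, map_pow, mul_comm]
      exact mul_right_cancel₀ (pow_ne_zero N hga) h8
    rw [h7] at h2 ⊢
    rw [NEG_.neg_zero hm h2, map_zero]
  have hx0 : ∀ σ, x σ = 0 := by
    intro σ
    by_cases h : σ.card = 1
    · obtain ⟨a, rfl⟩ := Finset.card_eq_one.1 h
      exact hz a
    · exact hs σ h
  refine ⟨x, hx, ?_⟩
  intro σ
  rw [hc σ, hx0 σ]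

end Pool.Agent.DBX.ALG
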