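import Pool.Agent.DBX.ALG.Stmts

set_option autoImplicit false

namespace Pool.Agent.DBX.ALG

open MvPolynomial Pool.Agent.DBX

theorem NUM_.key (r d : ℕ) (H : ℕ → ℕ → ℤ) (h0 : ∀ s, s < d → H (s + 1) 0 = H s 0)
    (h1 : ∀ s, s < d → ∀ u, u + 1 ≤ r → H (s + 1) (u + 1) + H s u = H s (u + 1)) :
    ∀ s, s ≤ d → ∀ i, i ≤ r →
      PowerSeries.coeff i ((PowerSeries.mk (fun u => H 0 u)) * (1 - PowerSeries.X) ^ s) = H s i := by
  intro s
  induction s with
  | zero =>
    intro _ i _
    rw [pow_zero, mul_one, PowerSeries.coeff_mk]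
  | succ s ih =>
    intro hs i hi
    have hs' : s < d := hs
    rw [pow_succ, ← mul_assoc, mul_sub, mul_one, map_sub, ih (by omega) i hi]
    cases i with
    | zero =>
      rw [PowerSeries.coeff_zero_mul_X, sub_zero, h0 s hs']
    | succ u =>
      rw [PowerSeries.coeff_succ_mul_X, ih (by omega) u (by omega)]
      have := h1 s hs' u hi
      linarith

theorem num_proof : Stmt_NUM := by
  intro r d H hpos h0 h1 h hh i hi
  have h2 := NUM_.key r d H h0 h1 d le_rfl i hi
  rw [hh, Polynomial.coeff_coe] at h2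
  rw [h2]
  exact hpos d i

end Pool.Agent.DBX.ALG
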