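import Pool.Agent.DBX.ALG.Stmts

set_option autoImplicit false

/-! # MP_2c751f_ag, squad DBX, area ALG, module QQ1 -/

namespace Pool.Agent.DBX.ALG

open MvPolynomial Pool.Agent.DBX

noncomputable section

universe u

namespace QQ1_

theorem charZero_Kx (k : Type u) [Field k] [CharZero k] (n : ℕ) : CharZero (Kx k n) := by
  have h1 : Function.Injective (algebraMap k (MvPolynomial (Fin n) k)) :=
    MvPolynomial.C_injective (Fin n) k
  have h2 : CharZero (MvPolynomial (Fin n) k) :=
    charZero_of_injective_algebraMap h1
  exact charZero_of_injective_algebraMap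
    (IsFractionRing.injective (MvPolynomial (Fin n) k) (FractionRing (MvPolynomial (Fin n) k)))

end QQ1_

theorem qq1_proof (hSTA : Stmt_STA.{u}) (hHIL : Stmt_HIL.{u}) (hHI0 : Stmt_HI0.{u}) :
    Stmt_QQ1.{u} := by
  have key : ∀ (n : ℕ) (k : Type u) [Field k] [CharZero k] (D : Dat k n) (r c : ℕ), 1 ≤ r →
      Sta D r c → c + 1 ≤ n →
      ∃ H : ℕ → ℕ → ℤ, (∀ s u, 0 ≤ H s u) ∧ (∀ s, s < n - c → H (s + 1) 0 = H s 0) ∧
        (∀ s, s < n - c → ∀ u, u + 1 ≤ r → H (s + 1) (u + 1) + H s u = H s (u + 1)) ∧
        ∀ u, H 0 u = hilb D.I u := by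
    intro n
    induction n with
    | zero =>
      intro k _ _ D r c _ hS hc
      omega
    | succ n ih =>
      intro k _ _ D r c hr hS hcn
      have hc := hS.c1
      have hn1 : 1 ≤ n := by omega
      have : CharZero (Kx k n) := QQ1_.charZero_Kx k n
      have hS' : Sta D.sec r c := hSTA k n D r c hn1 hS
      have hz : hilb D.sec.I 0 = hilb D.I 0 := hHI0 k n D c hn1 hS.good hS.dm hcn
      have hl : ∀ u : ℕ, u + 1 ≤ r → hilb D.sec.I (u + 1) + hilb D.I u = hilb D.I (u + 1) := by
        intro u hu
        refine hHIL k n D hn1 hS.good u ?_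
        have h1 := hS.van (u + 1) 1 le_rfl (by omega) hu (by omega)
        have h2 : (((u + 1 : ℕ) : ℤ) - ((1 : ℕ) : ℤ)) = (u : ℤ) := by
          push_cast
          ring
        rw [h2] at h1
        exact h1
      by_cases hnc : c + 1 ≤ n
      · obtain ⟨H', h0', h1', h2', h3'⟩ := ih (Kx k n) D.sec r c hr hS' hnc
        refine ⟨fun s => match s with
          | 0 => fun u => (hilb D.I u : ℤ)
          | s + 1 => H' s, ?_, ?_, ?_, ?_⟩
        · intro s u
          cases s with
          | zero => exact Int.natCast_nonneg _
          | succ s => exact h0' s u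
        · intro s hs
          cases s with
          | zero =>
            show H' 0 0 = (hilb D.I 0 : ℤ)
            rw [h3' 0, hz]
          | succ s =>
            exact h1' s (by omega)
        · intro s hs u hu
          cases s with
          | zero =>
            show H' 0 (u + 1) + (hilb D.I u : ℤ) = (hilb D.I (u + 1) : ℤ)
            rw [h3' (u + 1)]
            exact_mod_cast hl u hu
          | succ s =>
            exact h2' s (by omega) u hu
        · intro u
          rfl
      · have hnc' : n = c := by omega
        refine ⟨fun s => match s with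
          | 0 => fun u => (hilb D.I u : ℤ)
          | 1 => fun u => (hilb D.sec.I u : ℤ)
          | _ + 2 => fun _ => 0, ?_, ?_, ?_, ?_⟩
        · intro s u
          match s with
          | 0 => exact Int.natCast_nonneg _
          | 1 => exact Int.natCast_nonneg _
          | s + 2 => exact le_refl (0 : ℤ)
        · intro s hs
          have hs0 : s = 0 := by omega
          subst hs0
          show (hilb D.sec.I 0 : ℤ) = (hilb D.I 0 : ℤ)
          rw [hz]
        · intro s hs u hu
          have hs0 : s = 0 := by omega
          subst hs0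
          show (hilb D.sec.I (u + 1) : ℤ) + (hilb D.I u : ℤ) = (hilb D.I (u + 1) : ℤ)
          exact_mod_cast hl u hu
        · intro u
          rfl
  intro k _ _ n D r c hr hS hcn
  exact key n k D r c hr hS hcn

end

end Pool.Agent.DBX.ALG
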