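import Pool.Agent.DBX.ALG.Stmts

set_option autoImplicit false

/-! # MP_2c751f_ag, squad DBX, area ALG, module QQ2 -/

namespace Pool.Agent.DBX.ALG

open MvPolynomial Pool.Agent.DBX

noncomputable section

universe u

namespace QQ2_

theorem charZero_Kx (k : Type u) [Field k] [CharZero k] (n : ℕ) : CharZero (Kx k n) := by
  have h1 : Function.Injective (algebraMap k (MvPolynomial (Fin n) k)) :=
    MvPolynomial.C_injective (Fin n) k
  have h2 : CharZero (MvPolynomial (Fin n) k) :=
    charZero_of_injective_algebraMap h1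
  exact charZero_of_injective_algebraMap
    (IsFractionRing.injective (MvPolynomial (Fin n) k) (FractionRing (MvPolynomial (Fin n) k)))

/-- degree zero -/
theorem lc_zero {k : Type u} [Field k] {n : ℕ} (D : Dat k n) (hD : D.Good) (hn : 1 ≤ n) (m : ℤ) :
    D.LC m 0 := by
  intro x _ hx0 hcd
  have hp : Nonempty (Fin D.p) := by
    by_contra hcon
    rw [not_nonempty_iff] at hcon
    have h1 := hD.g_span ⟨0, hn⟩
    rw [Set.range_eq_empty, Submodule.span_empty, Submodule.mem_bot] at h1
    exact (MvPolynomial.X_ne_zero (R := k) (⟨0, hn⟩ : Fin n)) h1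
  obtain ⟨a⟩ := hp
  have h2 : x ∅ = 0 := by
    have h3 := hcd {a}
    simp only [cd, Finset.sum_singleton, Finset.erase_singleton] at h3
    have h4 : (Finset.filter (fun w => w < a) {a}) = ∅ := by
      ext w
      simp only [Finset.mem_filter, Finset.mem_singleton, Finset.notMem_empty, iff_false,
        not_and]
      rintro rfl
      exact lt_irrefl _
    rw [h4, Finset.card_empty, pow_zero, one_smul] at h3
    exact h3
  have h5 : ∀ σ, x σ = 0 := by
    intro σ
    by_cases hσ : σ = ∅
    · rw [hσ]; exact h2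
    · exact hx0 σ (fun h => hσ (Finset.card_eq_zero.1 h))
  refine ⟨fun _ => 0, fun σ => Submodule.zero_mem _, ?_⟩
  intro σ
  rw [h5 σ]
  simp [cd]

end QQ2_

theorem qq2_proof (hSTA : Stmt_STA.{u}) (hREG : Stmt_REG.{u}) (_hINH : Stmt_INH.{u})
    (hNEG : Stmt_NEG.{u}) (hDUP : Stmt_DUP.{u}) : Stmt_QQ2.{u} := by
  have key : ∀ (n : ℕ) (k : Type u) [Field k] [CharZero k] (D : Dat k n) (r c : ℕ), 1 ≤ r →
      Sta D r c →
      (∀ (m : ℤ) (g : ℕ), 1 ≤ g → g + 1 ≤ n → (r : ℤ) + 1 ≤ m + g → D.LC m g) →
      ∀ (m : ℤ) (g : ℕ), g + c ≤ n → D.LC m g := by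
    intro n
    induction n with
    | zero =>
      intro k _ _ D r c _ hS _ m g hg
      have := hS.c1
      omega
    | succ n ih =>
      intro k _ _ D r c hr hS hreg m g hg
      have hc := hS.c1
      by_cases hnc : n + 1 ≤ c
      · have h0 : g = 0 := by omega
        subst h0
        exact QQ2_.lc_zero D hS.good (by omega) m
      · have hn1 : 1 ≤ n := by omega
        haveI : CharZero (Kx k n) := QQ2_.charZero_Kx k n
        have hS' : Sta D.sec r c := hSTA k n D r c hn1 hS
        have hreg' : ∀ (m : ℤ) (g : ℕ), 1 ≤ g → g + 1 ≤ n → (r : ℤ) + 1 ≤ m + g →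
            D.sec.LC m g :=
          hREG k n D r hn1 hS.good (fun m g h1 h2 h3 => hreg m g h1 (by omega) h3)
        have hsec : ∀ (m : ℤ) (g : ℕ), g + c ≤ n → D.sec.LC m g :=
          ih (Kx k n) D.sec r c hr hS' hreg'
        have hone : ∀ m : ℤ, D.LC m 1 := by
          intro m
          rcases lt_or_ge m 0 with hm | hm
          · exact hNEG k (n + 1) D hS.good (by omega) m hm
          · rcases lt_or_ge m (r : ℤ) with hm2 | hm2
            · have h1 := hS.van (m.toNat + 1) 1 le_rfl (by omega) (by omega) (by omega)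
              have h2 : (((m.toNat + 1 : ℕ) : ℤ) - ((1 : ℕ) : ℤ)) = m := by
                push_cast
                omega
              rw [h2] at h1
              exact h1
            · exact hreg m 1 le_rfl (by omega) (by push_cast; omega)
        exact hDUP k n D c hn1 hc hS.good (by omega) hone hsec m g hg
  intro k _ _ n D r c hr hS hreg m g hg
  exact key n k D r c hr hS hreg m g hg

end

end Pool.Agent.DBX.ALG
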