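import Pool.Agent.DBX.ALG.Stmts

set_option autoImplicit false

namespace Pool.Agent.DBX.ALG

open MvPolynomial Pool.Agent.DBX

theorem qz0_proof.{u} (hTOT : Stmt_TOT.{u}) (hEMO : Stmt_EMO.{u}) (hCLB : Stmt_CLB.{u}) :
    Stmt_QZ0.{u} := by
  intro k _ _ n D e hG hD hn m g x hx _ hdd
  obtain ⟨y, h1, h2, h3⟩ := hTOT D.p D.M (Fr k n) (fun σ τ => (D.Eg m σ τ).toAddSubgroup)
    (fun σ σ' τ τ' h h' => by
      intro z hz
      exact (hEMO k n D σ σ' τ τ' h h').2 m hz)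
    (fun σ hσ z hz hc => hCLB k n D e hG hD hn σ hσ m z hz hc)
    x hx.1 hx.2 hdd
  exact ⟨y, ⟨h1, h2⟩, h3⟩

end Pool.Agent.DBX.ALG
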