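import Pool.Agent.DBX.ALG.Stmts

set_option autoImplicit false

/-! # MP_2c751f_ag, squad DBX, module ALG.REG -/

namespace Pool.Agent.DBX.ALG

open MvPolynomial Pool.Agent.DBX

universe u

theorem reg_proof (hLCS : Stmt_LCS.{u}) : Stmt_REG.{u} := by
  intro k _ _ n D r hn hD h m g hg hgn hm
  refine hLCS k n D hn hD m g hg (h m g hg (by omega) hm) (h (m - 1) (g + 1) (by omega) hgn ?_)
  push_cast
  omega

end Pool.Agent.DBX.ALG
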