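import Pool.Agent.DBX.ALG.Stmts
import Pool.Agent.DBX.Cd

set_option autoImplicit false

/-! # MP_2c751f_ag, squad DBX, area ALG: module SCZ -/

namespace Pool.Agent.DBX.ALG

open MvPolynomial Pool.Agent.DBX

noncomputable section

universe u

namespace SCZ_

section
variable {k : Type u} [Field k] {n : ℕ}

/-- the product of the variables in `σ` -/
def G (k : Type u) [Field k] {n : ℕ} (σ : Finset (Fin n)) : Pol k n := ∏ i ∈ σ, X i

theorem G_ne (σ : Finset (Fin n)) : G k σ ≠ 0 := by
  unfold G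
  exact Finset.prod_ne_zero_iff.mpr (fun i _ => X_ne_zero i)

theorem inc_X_ne (i : Fin n) : inc k n (X i) ≠ 0 := inc_ne (X_ne_zero i)

theorem inc_mem (σ : Finset (Fin n)) (w : Pol k n) : inc k n w ∈ Sl k n σ :=
  Algebra.subset_adjoin (Or.inl ⟨w, rfl⟩)

theorem inv_mem {σ : Finset (Fin n)} {a : Fin n} (ha : a ∈ σ) :
    (inc k n (X a))⁻¹ ∈ Sl k n σ :=
  Algebra.subset_adjoin (Or.inr ⟨a, ha, rfl⟩)

theorem den {σ : Finset (Fin n)} {z : Fr k n} (hz : z ∈ Sl k n σ) :
    ∃ (N : ℕ) (P : Pol k n), inc k n (G k σ ^ N) * z = inc k n P := by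
  unfold Sl at hz
  induction hz using Algebra.adjoin_induction with
  | mem z hz =>
    rcases hz with ⟨w, rfl⟩ | ⟨a, ha, rfl⟩
    · exact ⟨0, w, by simp⟩
    · refine ⟨1, ∏ i ∈ σ.erase a, X i, ?_⟩
      have h1 : G k σ = X a * ∏ i ∈ σ.erase a, X i := by
        unfold G
        rw [Finset.mul_prod_erase σ (fun i => (X i : Pol k n)) ha]
      rw [pow_one, h1, map_mul, mul_comm (inc k n (X a)), mul_assoc,
        mul_inv_cancel₀ (inc_X_ne a), mul_one]
  | algebraMap c => exact ⟨0, C c, by rw [pow_zero, map_one, one_mul]; rfl⟩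
  | add z w _ _ h1 h2 =>
    obtain ⟨N, P, h1⟩ := h1
    obtain ⟨M, Q, h2⟩ := h2
    refine ⟨N + M, G k σ ^ M * P + G k σ ^ N * Q, ?_⟩
    rw [map_add, map_mul, map_mul, ← h1, ← h2, pow_add, map_mul]
    ring
  | mul z w _ _ h1 h2 =>
    obtain ⟨N, P, h1⟩ := h1
    obtain ⟨M, Q, h2⟩ := h2
    refine ⟨N + M, P * Q, ?_⟩
    rw [map_mul, ← h1, ← h2, pow_add, map_mul]
    ring

theorem den_mono {σ : Finset (Fin n)} {z : Fr k n} {N M : ℕ} (hNM : N ≤ M)
    (h : ∃ P : Pol k n, inc k n (G k σ ^ N) * z = inc k n P) :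
    ∃ P : Pol k n, inc k n (G k σ ^ M) * z = inc k n P := by
  obtain ⟨P, hP⟩ := h
  refine ⟨G k σ ^ (M - N) * P, ?_⟩
  rw [map_mul, ← hP, ← mul_assoc, ← map_mul, ← pow_add, Nat.sub_add_cancel hNM]

/-- polynomials divisible enough divided by the full monomial are in `Sl` -/
theorem mem_Sl {σ : Finset (Fin n)} {N : ℕ} {Y : Pol k n}
    (h : ∀ β : Fin n →₀ ℕ, coeff β Y ≠ 0 → ∀ i ∉ σ, N ≤ β i) :
    inc k n Y / inc k n (G k Finset.univ ^ N) ∈ Sl k n σ := by
  rw [Y.as_sum, map_sum, Finset.sum_div]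
  refine Subalgebra.sum_mem _ (fun β hβ => ?_)
  have hβ' : coeff β Y ≠ 0 := by rwa [mem_support_iff] at hβ
  have h1 : inc k n (monomial β (coeff β Y)) / inc k n (G k Finset.univ ^ N) =
      inc k n (C (coeff β Y)) * ∏ i : Fin n, ((inc k n (X i)) ^ (β i) * ((inc k n (X i))⁻¹) ^ N) := by
    rw [monomial_eq, map_mul, mul_div_assoc]
    congr 1
    rw [Finsupp.prod_fintype _ _ (fun i => pow_zero _), Finset.prod_mul_distrib, div_eq_mul_inv]
    congr 1
    · rw [map_prod]
      exact Finset.prod_congr rfl (fun i _ => by rw [map_pow])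
    · unfold G
      rw [map_pow, map_prod, ← Finset.prod_pow, ← Finset.prod_inv_distrib]
      exact Finset.prod_congr rfl (fun i _ => by rw [inv_pow])
  rw [h1]
  refine Subalgebra.mul_mem _ (inc_mem σ _) (Subalgebra.prod_mem _ (fun i _ => ?_))
  by_cases hi : i ∈ σ
  · exact Subalgebra.mul_mem _ (Subalgebra.pow_mem _ (inc_mem σ _) _)
      (Subalgebra.pow_mem _ (inv_mem hi) _)
  · have h2 := h β hβ' i hi
    have h3 : (inc k n (X i)) ^ (β i) * ((inc k n (X i))⁻¹) ^ N = (inc k n (X i)) ^ (β i - N) := by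
      rw [inv_pow]
      nth_rewrite 1 [← Nat.sub_add_cancel h2]
      rw [pow_add, mul_assoc, mul_inv_cancel₀ (pow_ne_zero _ (inc_X_ne i)), mul_one]
    rw [h3]
    exact Subalgebra.pow_mem _ (inc_mem σ _) _

theorem G_hom (σ : Finset (Fin n)) : (G k σ).IsHomogeneous σ.card := by
  unfold G
  have h := IsHomogeneous.prod (R := k) σ (fun i => (X i : Pol k n)) (fun _ => 1)
    (fun i _ => isHomogeneous_X k i)
  simpa using h

/-- a cofactor of a homogeneous polynomial -/
theorem hom_of_mul {P b : Pol k n} {D j : ℕ} (hb : b.IsHomogeneous j) (hb0 : b ≠ 0)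
    (h : (P * b).IsHomogeneous D) {β : Fin n →₀ ℕ} (hβ : coeff β P ≠ 0) :
    β.degree + j = D := by
  by_contra hne
  have h1 : P * b = ∑ d ∈ Finset.range (P.totalDegree + 1), homogeneousComponent d P * b := by
    rw [← Finset.sum_mul, sum_homogeneousComponent]
  have hd : ∀ d : ℕ, (homogeneousComponent d P * b).IsHomogeneous (d + j) := fun d =>
    (homogeneousComponent_isHomogeneous d P).mul hb
  have h2 : homogeneousComponent (β.degree + j) (P * b) = homogeneousComponent β.degree P * b := by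
    rw [h1, map_sum, Finset.sum_eq_single β.degree]
    · rw [homogeneousComponent_of_mem (hd _), if_pos rfl]
    · intro d _ hd1
      rw [homogeneousComponent_of_mem (hd _), if_neg (by omega)]
    · intro h3
      rw [Finset.mem_range, not_lt] at h3
      have h4 : homogeneousComponent β.degree P = 0 := homogeneousComponent_eq_zero _ _ (by omega)
      rw [h4, zero_mul, map_zero]
  rw [homogeneousComponent_of_mem h, if_neg (fun h' => hne h')] at h2
  have h3 : homogeneousComponent β.degree P = 0 := by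
    rcases mul_eq_zero.mp h2.symm with h4 | h4
    · exact h4
    · exact absurd h4 hb0
  apply hβ
  have h4 : coeff β (homogeneousComponent β.degree P) = coeff β P := by
    rw [coeff_homogeneousComponent, if_pos rfl]
  rw [← h4, h3, coeff_zero]

end

end SCZ_

open SCZ_

theorem scz_proof.{v} : Stmt_SCZ.{v} := by
  intro k _ n m g hg x hx hxg hcd
  classical
  -- common denominator
  have h1 : ∀ σ : Finset (Fin n), ∃ N : ℕ, ∃ P : Pol k n, inc k n (G k σ ^ N) * x σ = inc k n P :=
    fun σ => den (hx σ).1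
  choose N0 hN0 using h1
  set N : ℕ := Finset.univ.sup N0 with hN
  have h2 : ∀ σ : Finset (Fin n), ∃ P : Pol k n, inc k n (G k σ ^ N) * x σ = inc k n P := fun σ =>
    den_mono (Finset.le_sup (Finset.mem_univ σ)) (hN0 σ)
  choose P hP using h2
  set M : Pol k n := G k Finset.univ ^ N with hM
  have hM0 : M ≠ 0 := pow_ne_zero _ (G_ne _)
  have hMi : inc k n M ≠ 0 := inc_ne hM0
  have hMh : M.IsHomogeneous (n * N) := by
    have h3 := (G_hom (k := k) (Finset.univ : Finset (Fin n))).pow N
    rwa [Finset.card_univ, Fintype.card_fin] at h3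
  set Q : Finset (Fin n) → Pol k n := fun σ => G k σᶜ ^ N * P σ with hQ
  have hQx : ∀ σ, inc k n M * x σ = inc k n (Q σ) := by
    intro σ
    have h3 : M = G k σᶜ ^ N * G k σ ^ N := by
      rw [hM, ← mul_pow]
      congr 1
      unfold G
      rw [mul_comm, Finset.prod_mul_prod_compl]
    rw [h3, hQ, map_mul, map_mul, ← hP σ, mul_assoc]
  have hinj : Function.Injective (inc k n) :=
    IsFractionRing.injective (MvPolynomial (Fin n) k) (FractionRing (MvPolynomial (Fin n) k))
  -- divisibility of the coefficients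
  have hQd : ∀ σ (β : Fin n →₀ ℕ), coeff β (Q σ) ≠ 0 → ∀ i ∉ σ, N ≤ β i := by
    intro σ β hβ i hi
    have h3 : G k σᶜ ^ N * P σ = monomial (Finsupp.single i N) 1 *
        ((∏ j ∈ σᶜ.erase i, (X j : Pol k n)) ^ N * P σ) := by
      have h4 : G k σᶜ = X i * ∏ j ∈ σᶜ.erase i, X j := by
        unfold G
        rw [Finset.mul_prod_erase σᶜ (fun i => (X i : Pol k n)) (Finset.mem_compl.mpr hi)]
      rw [h4, mul_pow, mul_assoc, X_pow_eq_monomial]
    rw [hQ] at hβ
    dsimp only at hβ
    rw [h3, coeff_monomial_mul'] at hβ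
    by_contra h5
    apply hβ
    rw [if_neg]
    intro h6
    have := h6 i
    rw [Finsupp.single_eq_same] at this
    exact h5 this
  -- degrees
  have hQh : ∀ σ (β : Fin n →₀ ℕ), coeff β (Q σ) ≠ 0 → (β.degree : ℤ) = n * N + m := by
    intro σ β hβ
    obtain ⟨a, b, i, j, ha, hb, hb0, hij, hxab⟩ := (hx σ).2
    have h3 : Q σ * b = M * a := by
      apply hinj
      rw [map_mul, ← hQx σ, map_mul, hxab]
      have := inc_ne hb0
      field_simp
    have h4 : a ≠ 0 := by
      rintro rfl
      rw [mul_zero] at h3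
      rcases mul_eq_zero.mp h3 with h5 | h5
      · rw [h5, coeff_zero] at hβ
        exact hβ rfl
      · exact hb0 h5
    have h5 := hij h4
    have h6 : (Q σ * b).IsHomogeneous (n * N + i) := by
      rw [h3]; exact hMh.mul ha
    have h7 := hom_of_mul hb hb0 h6 hβ
    have h8 : (β.degree : ℤ) + j = n * N + i := by exact_mod_cast h7
    linarith
  -- the cocycle condition
  have hQc : ∀ β : Fin n →₀ ℕ, cd (fun σ => coeff β (Q σ)) = 0 := by
    intro β
    have h3 : ∀ σ, cd Q σ = 0 := by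
      intro σ
      apply hinj
      have h4 := congrFun (cd_map (inc k n).toAddMonoidHom Q) σ
      have h5 : (fun s => (inc k n).toAddMonoidHom (Q s)) = fun s => (AddMonoidHom.mulLeft (inc k n M)) (x s) := by
        funext s
        exact (hQx s).symm
      rw [h5] at h4
      have h6 := congrFun (cd_map (AddMonoidHom.mulLeft (inc k n M)) x) σ
      rw [h6] at h4
      have h7 : (AddMonoidHom.mulLeft (inc k n M)) (cd x σ) = 0 := by rw [hcd σ, map_zero]
      rw [h7] at h4
      rw [map_zero]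
      exact h4.symm
    funext σ
    have h4 := congrFun (cd_map ((lcoeff k β).toAddMonoidHom) Q) σ
    have h5 : ((lcoeff k β).toAddMonoidHom) (cd Q σ) = 0 := by rw [h3 σ, map_zero]
    rw [h5] at h4
    exact h4
  have hQg : ∀ σ, σ.card ≠ g → Q σ = 0 := by
    intro σ hσ
    apply hinj
    rw [← hQx σ, hxg σ hσ, mul_zero, map_zero]
  have : NeZero n := ⟨by omega⟩
  -- the choice of the contraction
  have hv : ∀ β : Fin n →₀ ℕ, ∃ v : Fin n, (∃ σ, coeff β (Q σ) ≠ 0) → N ≤ β v := by
    intro β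
    by_cases h3 : ∃ σ, coeff β (Q σ) ≠ 0
    · obtain ⟨σ, hσ⟩ := h3
      have h4 : σ.card = g := by
        by_contra h5
        rw [hQg σ h5, coeff_zero] at hσ
        exact hσ rfl
      have h5 : ∃ i, i ∉ σ := by
        by_contra h6
        push Not at h6
        have h7 : σ = Finset.univ := Finset.eq_univ_iff_forall.mpr h6
        rw [h7, Finset.card_univ, Fintype.card_fin] at h4
        omega
      obtain ⟨i, hi⟩ := h5
      exact ⟨i, fun _ => hQd σ β hσ i hi⟩
    · exact ⟨0, fun h4 => absurd h4 h3⟩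
  choose v hv using hv
  set B : Finset (Fin n →₀ ℕ) := Finset.univ.biUnion (fun σ => (Q σ).support) with hB
  have hBm : ∀ β, β ∉ B → ∀ σ, coeff β (Q σ) = 0 := by
    intro β hβ σ
    by_contra h3
    apply hβ
    rw [hB, Finset.mem_biUnion]
    exact ⟨σ, Finset.mem_univ _, mem_support_iff.mpr h3⟩
  set Y : Finset (Fin n) → Pol k n := fun σ =>
    ∑ β ∈ B, monomial β (kk (v β) (fun τ => coeff β (Q τ)) σ) with hY
  have hYc : ∀ σ β, coeff β (Y σ) = kk (v β) (fun τ => coeff β (Q τ)) σ := by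
    intro σ β
    rw [hY]
    dsimp only
    rw [coeff_sum]
    simp only [coeff_monomial]
    rw [Finset.sum_ite_eq']
    split_ifs with h3
    · rfl
    · unfold kk
      split_ifs with h4
      · rfl
      · dsimp only
        rw [hBm β h3, smul_zero]
  have hYne : ∀ σ β, coeff β (Y σ) ≠ 0 → v β ∉ σ ∧ coeff β (Q (insert (v β) σ)) ≠ 0 := by
    intro σ β h3
    rw [hYc] at h3
    unfold kk at h3
    split_ifs at h3 with h4
    · exact absurd rfl h3
    · refine ⟨h4, fun h5 => h3 ?_⟩
      dsimp only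
      rw [h5, smul_zero]
  refine ⟨fun σ => inc k n (Y σ) / inc k n M, fun σ => ⟨?_, ?_⟩, ?_, ?_⟩
  · -- membership in Sl
    apply mem_Sl
    intro β hβ i hi
    obtain ⟨h3, h4⟩ := hYne σ β hβ
    by_cases h5 : i = v β
    · rw [h5]
      exact hv β ⟨_, h4⟩
    · exact hQd _ β h4 i (by rw [Finset.mem_insert]; tauto)
  · -- homogeneity
    refine ⟨Y σ, M, (n * N + m : ℤ).toNat, n * N, ?_, hMh, hM0, ?_, rfl⟩
    · rw [← mem_homogeneousSubmodule, mem_homogeneousSubmodule]
      intro β hβ
      obtain ⟨_, h4⟩ := hYne σ β hβ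
      have h5 := hQh _ β h4
      have h6 : β.degree = (n * N + m : ℤ).toNat := by
        rw [← h5]; simp
      rw [← h6, Finsupp.degree_eq_weight_one]
      rfl
    · intro h3
      obtain ⟨β, hβ⟩ := MvPolynomial.ne_zero_iff.mp h3
      obtain ⟨_, h4⟩ := hYne σ β hβ
      have h5 := hQh _ β h4
      rw [← h5]
      push_cast
      have h6 : ((β.degree : ℤ).toNat : ℤ) = β.degree := by simp
      rw [h6, h5]
      ring
  · -- support
    intro σ hσ
    have h3 : Y σ = 0 := by
      by_contra h4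
      obtain ⟨β, hβ⟩ := MvPolynomial.ne_zero_iff.mp h4
      obtain ⟨h5, h6⟩ := hYne σ β hβ
      apply h6
      rw [hQg _ (by rw [Finset.card_insert_of_notMem h5]; exact hσ), coeff_zero]
    dsimp only
    rw [h3, map_zero, zero_div]
  · -- boundary
    intro σ
    have h3 : cd Y σ = Q σ := by
      ext β
      have h4 := congrFun (cd_map ((lcoeff k β).toAddMonoidHom) Y) σ
      have h5 : (fun s => ((lcoeff k β).toAddMonoidHom) (Y s)) =
          kk (v β) (fun τ => coeff β (Q τ)) := by
        funext s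
        exact hYc s β
      rw [h5, cd_kk_of_cocycle (v β) (hQc β)] at h4
      exact h4.symm
    have h4 := congrFun (cd_map ((AddMonoidHom.mulRight (inc k n M)⁻¹).comp
      (inc k n).toAddMonoidHom) Y) σ
    have h5 : (fun s => inc k n (Y s) / inc k n M) = fun s =>
        ((AddMonoidHom.mulRight (inc k n M)⁻¹).comp (inc k n).toAddMonoidHom) (Y s) := by
      funext s
      rw [div_eq_mul_inv]
      rfl
    rw [h5, h4, h3]
    have h6 : ((AddMonoidHom.mulRight (inc k n M)⁻¹).comp (inc k n).toAddMonoidHom) (Q σ) =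
        inc k n (Q σ) * (inc k n M)⁻¹ := rfl
    rw [h6, ← hQx σ, mul_comm, ← mul_assoc, inv_mul_cancel₀ hMi, one_mul]

end

end Pool.Agent.DBX.ALG
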