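import Pool.Agent.DBX.ALG.Stmts

set_option autoImplicit false

namespace Pool.Agent.DBX.ALG

open MvPolynomial Pool.Agent.DBX

noncomputable section

universe u

namespace ST1_

variable {k : Type u} [Field k] {n : ℕ}

theorem cd_emp {V : Type*} [LinearOrder V] {M : Type*} [AddCommGroup M] (x : Finset V → M) :
    cd x ∅ = 0 := by
  simp [cd]

theorem dd_zero {V U : Type*} [LinearOrder V] [LinearOrder U] {M : Type*} [AddCommGroup M] :
    dd (0 : Finset V → Finset U → M) = 0 := by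
  funext σ τ
  simp [dd, cd]

theorem dd_emp {V U : Type*} [LinearOrder V] [LinearOrder U] {M : Type*} [AddCommGroup M]
    (x : Finset V → Finset U → M) (σ : Finset V) :
    dd x σ ∅ = cd (fun s => x s ∅) σ := by
  simp [dd, cd_emp]

theorem dd_mul (hCDD : Stmt_CDD.{u}) {p q : ℕ} (c : Fr k n)
    (x : Finset (Fin p) → Finset (Fin q) → Fr k n) (σ : Finset (Fin p)) (τ : Finset (Fin q)) :
    dd (fun s t => c * x s t) σ τ = c * dd x σ τ :=
  (hCDD p q (Fr k n)).2.2.2.2.2.2.2 (Fr k n) (AddMonoidHom.mulLeft c) x σ τ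

theorem dd_add (hCDD : Stmt_CDD.{u}) {p q : ℕ}
    (x y : Finset (Fin p) → Finset (Fin q) → Fr k n) (σ : Finset (Fin p)) (τ : Finset (Fin q)) :
    dd (x + y) σ τ = dd x σ τ + dd y σ τ :=
  (hCDD p q (Fr k n)).2.2.2.2.1 x y σ τ

theorem dd_sub (hCDD : Stmt_CDD.{u}) {p q : ℕ}
    (x y : Finset (Fin p) → Finset (Fin q) → Fr k n) (σ : Finset (Fin p)) (τ : Finset (Fin q)) :
    dd (x - y) σ τ = dd x σ τ - dd y σ τ :=
  (hCDD p q (Fr k n)).2.2.2.2.2.1 x y σ τ

theorem dd_dd (hCDD : Stmt_CDD.{u}) {p q : ℕ}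
    (x : Finset (Fin p) → Finset (Fin q) → Fr k n) : dd (dd x) = 0 := by
  funext σ τ
  exact (hCDD p q (Fr k n)).2.2.2.2.2.2.1 x σ τ

theorem ddQ (hEMO : Stmt_EMO.{u}) (D : Dat k n) (m : ℤ)
    (x : Finset (Fin D.p) → Finset (Fin D.M) → Fr k n) (hx : D.InQ m x) : D.InQ m (dd x) := by
  constructor
  · intro τ
    have h1 : x ∅ = fun _ => 0 := by funext t; exact hx.1 t
    simp [dd, h1, cd]
  · intro σ τ
    unfold dd cd
    refine Submodule.add_mem _ (Submodule.sum_mem _ (fun v hv => ?_))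
      (zsmul_mem (Submodule.sum_mem _ (fun v hv => ?_)) _)
    · exact zsmul_mem ((hEMO k n D (σ.erase v) σ τ τ (Finset.erase_subset _ _) subset_rfl).2 m
        (hx.2 _ _)) _
    · exact zsmul_mem ((hEMO k n D σ σ (τ.erase v) τ subset_rfl (Finset.erase_subset _ _)).2 m
        (hx.2 _ _)) _

theorem addQ (D : Dat k n) (m : ℤ) {x y : Finset (Fin D.p) → Finset (Fin D.M) → Fr k n}
    (hx : D.InQ m x) (hy : D.InQ m y) : D.InQ m (x + y) :=
  ⟨fun τ => by simp [hx.1 τ, hy.1 τ], fun σ τ => Submodule.add_mem _ (hx.2 σ τ) (hy.2 σ τ)⟩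

theorem subQ (D : Dat k n) (m : ℤ) {x y : Finset (Fin D.p) → Finset (Fin D.M) → Fr k n}
    (hx : D.InQ m x) (hy : D.InQ m y) : D.InQ m (x - y) :=
  ⟨fun τ => by simp [hx.1 τ, hy.1 τ], fun σ τ => Submodule.sub_mem _ (hx.2 σ τ) (hy.2 σ τ)⟩

theorem mulQ (hEML : Stmt_EML.{u}) (D : Dat k n) (m : ℤ) (d : ℕ) (w : Pol k n)
    (hw : w.IsHomogeneous d) (m' : ℤ) (hm : m' = m + d)
    {x : Finset (Fin D.p) → Finset (Fin D.M) → Fr k n}
    (hx : D.InQ m x) : D.InQ m' (fun σ τ => inc k n w * x σ τ) := by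
  subst hm
  refine ⟨fun τ => by simp [hx.1 τ], fun σ τ => ⟨?_, ?_⟩⟩
  · exact (hEML k n D).1 σ τ w _ (hx.2 σ τ).1
  · exact (hEML k n D).2.1 d m w hw _ (hx.2 σ τ).2

/-- degree zero -/
theorem deg0 (D : Dat k n) (m : ℤ) : D.QZ m 0 := by
  intro x hx hs _
  refine ⟨0, ⟨fun _ => rfl, fun σ τ => Submodule.zero_mem _⟩, ?_⟩
  rw [dd_zero]
  funext σ τ
  by_cases h : σ = ∅
  · subst h; exact (hx.1 τ).symm
  · refine (hs σ τ ?_).symm
    have := Finset.card_pos.mpr (Finset.nonempty_iff_ne_empty.mpr h)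
    omega

/-- the main step in an abstract form -/
theorem main (hCDD : Stmt_CDD.{u}) (hDEG : Stmt_DEG.{u}) (hEMO : Stmt_EMO.{u})
    (hEML : Stmt_EML.{u}) (D : Dat k n) (l : Pol k n) (hl : l.IsHomogeneous 1)
    (g : ℕ) (t : ℕ) (ht : 1 ≤ t) (hAZ : D.AZ (-(t : ℤ)) (g + 1))
    (hB : ∀ z, D.InB (-1) z → (∀ σ τ, σ.card + τ.card ≠ g + 1 → z σ τ = 0) → dd z = 0 →
      ∃ y, D.InB (-1) y ∧ dd y = z)
    (hsu : ∀ m z, D.InQ m z → (∀ σ τ, σ.card + τ.card ≠ g + 1 → z σ τ = 0) → dd z = 0 →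
      ∃ z' y, D.InQ (m - 1) z' ∧ (∀ σ τ, σ.card + τ.card ≠ g + 1 → z' σ τ = 0) ∧ dd z' = 0 ∧
        D.InQ m y ∧ ∀ σ τ, z σ τ = inc _ _ l * z' σ τ + dd y σ τ)
    (hin : ∀ m z, D.InQ (m - 1) z → (∀ σ τ, σ.card + τ.card ≠ g + 1 → z σ τ = 0) → dd z = 0 →
      ∀ u, D.InQ m u → (∀ σ τ, dd u σ τ = inc _ _ l * z σ τ) →
        ∃ y, D.InQ (m - 1) y ∧ dd y = z) :
    ∀ m, D.QZ m (g + 1) := by
  -- iteration
  have hit : ∀ s : ℕ, ∀ z, D.InQ (-1) z → (∀ σ τ, σ.card + τ.card ≠ g + 1 → z σ τ = 0) →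
      dd z = 0 → ∃ z' y, D.InQ (-1 - (s : ℤ)) z' ∧
        (∀ σ τ, σ.card + τ.card ≠ g + 1 → z' σ τ = 0) ∧ dd z' = 0 ∧
        D.InQ (-1) y ∧ ∀ σ τ, z σ τ = inc _ _ (l ^ s) * z' σ τ + dd y σ τ := by
    intro s
    induction s with
    | zero =>
      intro z hz hs hd
      refine ⟨z, 0, by simpa using hz, hs, hd,
        ⟨fun _ => rfl, fun σ τ => Submodule.zero_mem _⟩, fun σ τ => ?_⟩
      rw [dd_zero]; simp
    | succ s ih =>
      intro z hz hs hd
      obtain ⟨z', y, h1, h2, h3, h4, h5⟩ := ih z hz hs hd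
      obtain ⟨z2, y2, g1, g2, g3, g4, g5⟩ := hsu _ z' h1 h2 h3
      refine ⟨z2, (fun σ τ => inc _ _ (l ^ s) * y2 σ τ) + y, ?_, g2, g3, ?_, ?_⟩
      · have e : (-1 - ((s + 1 : ℕ) : ℤ)) = -1 - (s : ℤ) - 1 := by push_cast; ring
        rw [e]; exact g1
      · refine addQ D _ (mulQ hEML D _ s (l ^ s) ?_ _ ?_ g4) h4
        · simpa using hl.pow s
        · ring
      · intro σ τ
        rw [dd_add hCDD, dd_mul hCDD, h5, g5, pow_succ, map_mul]
        ring
  have hm1 : D.QZ (-1) (g + 1) := by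
    intro z hz hs hd
    obtain ⟨z', y, h1, h2, h3, h4, h5⟩ := hit (t - 1) z hz hs hd
    have e1 : (-1 - ((t - 1 : ℕ) : ℤ)) = -(t : ℤ) := by omega
    rw [e1] at h1
    -- the part at `∅`
    obtain ⟨a, a0, a1, a2⟩ := hAZ (fun σ => z' σ ∅) (h1.1 ∅) (fun σ => h1.2 σ ∅)
      (fun σ hσ => h2 σ ∅ (by simpa using hσ)) (fun σ => by
        rw [← dd_emp, h3]; rfl)
    let b : Finset (Fin D.p) → Finset (Fin D.M) → Fr k n :=
      fun σ τ => if τ = ∅ ∧ σ.card = g then a σ else 0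
    have hb : D.InQ (-(t : ℤ)) b := by
      constructor
      · intro τ
        simp only [b]
        split_ifs
        · exact a0
        · rfl
      · intro σ τ
        simp only [b]
        split_ifs with h
        · rw [h.1]; exact a1 σ
        · exact Submodule.zero_mem _
    have hb1 : ∀ σ, dd b σ ∅ = z' σ ∅ := by
      intro σ
      rw [dd_emp]
      have e2 : (fun s => b s ∅) = fun s => if s.card = g then a s else 0 := by
        funext s; simp [b]
      rw [e2, (hDEG D.p D.M (Fr k n)).1 a g σ, a2]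
      split_ifs with h
      · rfl
      · exact (h2 σ ∅ (by simpa using h)).symm
    have hb2 : ∀ σ τ, σ.card + τ.card ≠ g + 1 → dd b σ τ = 0 := by
      intro σ τ h
      have e3 : b = fun s t => if s.card + t.card = g then b s t else 0 := by
        funext s t
        by_cases ht : t = ∅
        · subst ht
          by_cases hs : s.card = g
          · simp [b, hs]
          · simp [b, hs]
        · simp [b, ht]
      rw [e3, (hDEG D.p D.M (Fr k n)).2 b g σ τ, if_neg h]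
    -- z''
    let z2 : Finset (Fin D.p) → Finset (Fin D.M) → Fr k n :=
      fun σ τ => inc _ _ (l ^ (t - 1)) * (z' - dd b) σ τ
    have hz2 : D.InB (-1) z2 := by
      refine ⟨?_, fun σ => ?_⟩
      · refine mulQ hEML D (-(t : ℤ)) (t - 1) (l ^ (t - 1)) ?_ _ (by omega)
          (subQ D _ h1 (ddQ hEMO D _ b hb))
        simpa using hl.pow (t - 1)
      · simp only [z2, Pi.sub_apply, hb1, sub_self, mul_zero]
    have hz2s : ∀ σ τ, σ.card + τ.card ≠ g + 1 → z2 σ τ = 0 := by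
      intro σ τ h
      simp only [z2, Pi.sub_apply, h2 σ τ h, hb2 σ τ h, sub_self, mul_zero]
    have hz2d : dd z2 = 0 := by
      funext σ τ
      simp only [z2]
      rw [dd_mul hCDD, dd_sub hCDD, h3, dd_dd hCDD]
      simp
    obtain ⟨y3, hy3, hy4⟩ := hB z2 hz2 hz2s hz2d
    refine ⟨(fun σ τ => inc _ _ (l ^ (t - 1)) * b σ τ) + y3 + y, ?_, ?_⟩
    · refine addQ D _ (addQ D _ (mulQ hEML D (-(t : ℤ)) (t - 1) (l ^ (t - 1)) ?_ _ (by omega) hb)
        hy3.1) h4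
      simpa using hl.pow (t - 1)
    · funext σ τ
      rw [dd_add hCDD, dd_add hCDD, dd_mul hCDD, h5 σ τ, hy4]
      simp only [z2, Pi.sub_apply]
      ring
  -- upwards
  have hup : ∀ j : ℕ, D.QZ (-1 + (j : ℤ)) (g + 1) := by
    intro j
    induction j with
    | zero => simpa using hm1
    | succ j ih =>
      intro z hz hs hd
      obtain ⟨z', y, h1, h2, h3, h4, h5⟩ := hsu _ z hz hs hd
      have e : (-1 + ((j + 1 : ℕ) : ℤ) - 1) = -1 + (j : ℤ) := by push_cast; ring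
      rw [e] at h1
      obtain ⟨y', g1, g2⟩ := ih z' h1 h2 h3
      refine ⟨(fun σ τ => inc _ _ l * y' σ τ) + y, addQ D _ (mulQ hEML D _ 1 l hl _ ?_ g1) h4, ?_⟩
      · push_cast; ring
      · funext σ τ
        rw [dd_add hCDD, dd_mul hCDD, h5 σ τ, g2]
  -- downwards
  have hdn : ∀ j : ℕ, D.QZ (-1 - (j : ℤ)) (g + 1) := by
    intro j
    induction j with
    | zero => simpa using hm1
    | succ j ih =>
      intro z hz hs hd
      have e : (-1 - ((j + 1 : ℕ) : ℤ)) = -1 - (j : ℤ) - 1 := by push_cast; ring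
      rw [e] at hz ⊢
      obtain ⟨u, hu1, hu2⟩ := ih (fun σ τ => inc _ _ l * z σ τ)
        (mulQ hEML D _ 1 l hl _ (by push_cast; ring) hz)
        (fun σ τ h => by rw [hs σ τ h, mul_zero])
        (by funext σ τ; rw [dd_mul hCDD, hd]; simp)
      exact hin _ z hz hs hd u hu1 (fun σ τ => by rw [hu2])
  intro m
  rcases le_total (-1) m with h | h
  · have := hup (m + 1).toNat
    have e : (-1 + ((m + 1).toNat : ℤ)) = m := by
      rw [Int.toNat_of_nonneg (by omega)]; ring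
    rwa [e] at this
  · have := hdn (-1 - m).toNat
    have e : (-1 - ((-1 - m).toNat : ℤ)) = m := by
      rw [Int.toNat_of_nonneg (by omega)]; ring
    rwa [e] at this

theorem lgen_hom (k : Type u) [Field k] (n : ℕ) : (lgen k n).IsHomogeneous 1 := by
  unfold lgen
  refine (isHomogeneous_X _ _).sub (IsHomogeneous.sum _ _ _ (fun i _ => ?_))
  have := (isHomogeneous_C (Fin (n + 1)) (vv k n i)).mul (isHomogeneous_X (Kx k n) i.castSucc)
  simpa using this

theorem lgen_ne (k : Type u) [Field k] (n : ℕ) : lgen k n ≠ 0 := by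
  intro h
  have h1 : MvPolynomial.coeff (Finsupp.single (Fin.last n) 1) (lgen k n) = 0 := by
    rw [h]; simp
  unfold lgen at h1
  rw [MvPolynomial.coeff_sub, MvPolynomial.coeff_X, MvPolynomial.coeff_sum] at h1
  rw [Finset.sum_eq_zero, sub_zero] at h1
  · rw [if_pos rfl] at h1
    exact one_ne_zero h1
  · intro i _
    rw [MvPolynomial.coeff_C_mul, MvPolynomial.coeff_X, if_neg, mul_zero]
    intro h2
    have := Finsupp.single_left_injective (one_ne_zero) h2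
    exact absurd this (Fin.castSucc_lt_last i).ne

end ST1_

theorem st1_proof (hVAN : Stmt_VAN.{u}) (hINH : Stmt_INH.{u}) (hBCU : Stmt_BCU.{u})
    (hLSU : Stmt_LSU.{u}) (hLIN : Stmt_LIN.{u}) (hBZE : Stmt_BZE.{u}) (hCDD : Stmt_CDD.{u})
    (hDEG : Stmt_DEG.{u}) (hEMO : Stmt_EMO.{u}) (hEML : Stmt_EML.{u}) : Stmt_ST1.{u} := by
  intro k _ _ n D r c hn hD hcr hQ m g hg
  have : CharZero (Kx k n) := charZero_of_injective_algebraMap
    (algebraMap k (Kx k n)).injective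
  have hr := hD.r2
  have hc := hD.c1
  obtain ⟨t0, ht0⟩ := hVAN k (n + 1) D r c hD.good hc (by omega) hD.pd
  obtain ⟨hbG, hsG, hLS, _⟩ := hINH k n D hn hD.good
  obtain ⟨hH, _⟩ := hLS hD.ls
  rcases g with _ | g
  · exact ST1_.deg0 _ _
  · have hAZ : ∀ g' ≤ r, D.bc.AZ (-((max t0 1 : ℕ) : ℤ)) g' := fun g' hg' =>
      (hBCU k n D hD.good _ g').1 (ht0 _ (le_max_left _ _) g' (by omega))
    refine ST1_.main hCDD hDEG hEMO hEML D.bc (lgen k n) (ST1_.lgen_hom k n) g (max t0 1)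
      (le_max_right _ _) (hAZ _ hg) ?_ ?_ ?_ m
    · exact hBZE (Kx k n) (n + 1) D.bc (lgen k n) hbG (ST1_.lgen_hom k n) (ST1_.lgen_ne k n) hH g
        (max t0 1) (le_max_right _ _) (hAZ g (by omega))
    · intro m z
      exact hLSU k n D hn hD.good m (g + 1) (hQ m (g + 1) hg) z
    · intro m z
      exact hLIN k n D hn hD.good m g (hQ m g (by omega)) z

end

end Pool.Agent.DBX.ALG
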