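import Pool.Agent.DBX.ALG.Stmts

set_option autoImplicit false

/-! # MP_2c751f_ag, squad DBX, area ALG, module STA -/

namespace Pool.Agent.DBX.ALG

open MvPolynomial Pool.Agent.DBX

noncomputable section

universe u

theorem sta_proof (hINH : Stmt_INH.{u}) (hINP : Stmt_INP.{u}) (hCLS : Stmt_CLS.{u})
    (hLCS : Stmt_LCS.{u}) (hLCT : Stmt_LCT.{u}) (hLC1 : Stmt_LC1.{u}) : Stmt_STA.{u} := by
  intro k _ _ n D r c hn h
  have hgood : D.sec.Good := (hINH k n D hn h.good).2.1
  have hdm : D.sec.DM c := (hINP k n D r c hn h.good).2 h.dm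
  refine ⟨hgood, h.c1, hdm, fun h2 => hCLS.1 k n D r c hn (h.cls h2), ?_⟩
  intro r' g hg1 hgr hr' hgc
  rcases Nat.lt_or_ge g r' with hlt | hge
  · refine hLCS k n D hn h.good _ g hg1 (h.van r' g hg1 hgr hr' (by omega)) ?_
    have h1 := h.van r' (g + 1) (by omega) (by omega) hr' (by omega)
    have h2 : ((r' : ℤ) - ((g + 1 : ℕ) : ℤ)) = (r' : ℤ) - g - 1 := by push_cast; ring
    rw [h2] at h1
    exact h1
  · have hgr' : g = r' := le_antisymm hgr hge
    subst hgr'
    rw [sub_self]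
    rcases Nat.lt_or_ge g 2 with h1 | h2
    · have hg : g = 1 := by omega
      subst hg
      exact hLC1 (Kx k n) n D.sec c hgood hdm (by omega) h.c1
    · have h3 := h.van g g hg1 le_rfl hr' (by omega)
      rw [sub_self] at h3
      exact hLCT k n D g c hn (hCLS.2 k (n + 1) D r g c h2 hr' (h.cls (by omega))) (by omega) h3

end

end Pool.Agent.DBX.ALG
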