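import Pool.Agent.DBX.Alg

set_option autoImplicit false

/-! # MP_2c751f_ag, squad DBX, area ALG: statements of the modules -/

namespace Pool.Agent.DBX.ALG

open MvPolynomial Pool.Agent.DBX

noncomputable section

universe u

/-! ## Generalities on cochains -/

/-- `cd`, `dd` are additive, commute with scalars, and square to zero. -/
def Stmt_CDD : Prop :=
  ∀ (p q : ℕ) (A : Type u) [AddCommGroup A],
    (∀ x y : Finset (Fin p) → A, ∀ σ, cd (x + y) σ = cd x σ + cd y σ) ∧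
    (∀ x y : Finset (Fin p) → A, ∀ σ, cd (x - y) σ = cd x σ - cd y σ) ∧
    (∀ x : Finset (Fin p) → A, ∀ σ, cd (cd x) σ = 0) ∧
    (∀ (B : Type u) [AddCommGroup B] (f : A →+ B) (x : Finset (Fin p) → A) (σ : Finset (Fin p)),
      cd (fun s => f (x s)) σ = f (cd x σ)) ∧
    (∀ x y : Finset (Fin p) → Finset (Fin q) → A, ∀ σ τ, dd (x + y) σ τ = dd x σ τ + dd y σ τ) ∧
    (∀ x y : Finset (Fin p) → Finset (Fin q) → A, ∀ σ τ, dd (x - y) σ τ = dd x σ τ - dd y σ τ) ∧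
    (∀ x : Finset (Fin p) → Finset (Fin q) → A, ∀ σ τ, dd (dd x) σ τ = 0) ∧
    (∀ (B : Type u) [AddCommGroup B] (f : A →+ B) (x : Finset (Fin p) → Finset (Fin q) → A) σ τ,
      dd (fun s t => f (x s t)) σ τ = f (dd x σ τ))

/-- Homogeneous components of cochains. -/
def Stmt_DEG : Prop :=
  ∀ (p q : ℕ) (A : Type u) [AddCommGroup A],
    (∀ (x : Finset (Fin p) → A) (g : ℕ) (σ : Finset (Fin p)),
      cd (fun s => if s.card = g then x s else 0) σ = if σ.card = g + 1 then cd x σ else 0) ∧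
    (∀ (x : Finset (Fin p) → Finset (Fin q) → A) (g : ℕ) (σ : Finset (Fin p)) (τ : Finset (Fin q)),
      dd (fun s t => if s.card + t.card = g then x s t else 0) σ τ =
        if σ.card + τ.card = g + 1 then dd x σ τ else 0)

/-- A double complex with exact columns is exact. -/
def Stmt_TOT : Prop :=
  ∀ (p q : ℕ) (A : Type u) [AddCommGroup A]
    (M : Finset (Fin p) → Finset (Fin q) → AddSubgroup A),
    (∀ σ σ' τ τ', σ ⊆ σ' → τ ⊆ τ' → M σ τ ≤ M σ' τ') →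
    (∀ σ, σ.Nonempty → ∀ x : Finset (Fin q) → A, (∀ τ, x τ ∈ M σ τ) → (∀ τ, cd x τ = 0) →
      ∃ y : Finset (Fin q) → A, (∀ τ, y τ ∈ M σ τ) ∧ ∀ τ, cd y τ = x τ) →
    ∀ z : Finset (Fin p) → Finset (Fin q) → A, (∀ τ, z ∅ τ = 0) → (∀ σ τ, z σ τ ∈ M σ τ) →
      dd z = 0 →
      ∃ y : Finset (Fin p) → Finset (Fin q) → A, (∀ τ, y ∅ τ = 0) ∧ (∀ σ τ, y σ τ ∈ M σ τ) ∧
        dd y = z

/-! ## The modules `E σ τ` -/

/-- monotonicity -/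
def Stmt_EMO : Prop :=
  ∀ (k : Type u) [Field k] (n : ℕ) (D : Dat k n), 
    ∀ σ σ' τ τ', σ ⊆ σ' → τ ⊆ τ' → D.E σ τ ≤ D.E σ' τ' ∧ ∀ m, D.Eg m σ τ ≤ D.Eg m σ' τ'

/-- multiplication by polynomials and inverses of the `g a` -/
def Stmt_EML : Prop :=
  ∀ (k : Type u) [Field k] (n : ℕ) (D : Dat k n), 
    (∀ σ τ, ∀ w : Pol k n, ∀ x ∈ D.E σ τ, inc k n w * x ∈ D.E σ τ) ∧
    (∀ (d : ℕ) (m : ℤ) (w : Pol k n), w.IsHomogeneous d → ∀ x ∈ HF k n m,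
      inc k n w * x ∈ HF k n (m + d)) ∧
    (∀ (d : ℕ) (m : ℤ) (w : Pol k n), w.IsHomogeneous d → ∀ x ∈ HF k n m,
      (inc k n w)⁻¹ * x ∈ HF k n (m - d)) ∧
    (∀ σ τ a, a ∈ σ → ∀ x ∈ D.E σ τ, (inc k n (D.g a))⁻¹ * x ∈ D.E σ τ)

/-- localisation: `E σ τ = E {a} τ [1/g_b : b ∈ σ]` for `a ∈ σ` -/
def Stmt_ELO : Prop :=
  ∀ (k : Type u) [Field k] (n : ℕ) (D : Dat k n), (∀ a, D.g a ≠ 0) →
    ∀ σ τ, ∀ a ∈ σ, ∀ x ∈ D.E σ τ, ∃ N : ℕ, inc k n ((∏ b ∈ σ, D.g b) ^ N) * x ∈ D.E {a} τ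

/-- homogeneous components in `k(x)` are unique -/
def Stmt_HFI : Prop :=
  ∀ (k : Type u) [Field k] (n : ℕ) (T : Finset ℤ) (x : ℤ → Fr k n), (∀ m, x m ∈ HF k n m) →
    ∑ m ∈ T, x m = 0 → ∀ m ∈ T, x m = 0

/-- `E σ τ` is graded -/
def Stmt_EGR : Prop :=
  ∀ (k : Type u) [Field k] (n : ℕ) (D : Dat k n), D.Good → ∀ σ τ, ∀ x ∈ D.E σ τ,
    ∃ (T : Finset ℤ) (y : ℤ → Fr k n), (∀ m, y m ∈ D.Eg m σ τ) ∧ x = ∑ m ∈ T, y m

/-! ## Exactness of `Q(m)` when the data are Du Bois everywhere -/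

/-- homogeneous primes avoiding a given element -/
def Stmt_HCO : Prop :=
  ∀ (k : Type u) [Field k] (n : ℕ) (J : Ideal (Pol k n)) (g : Pol k n) (d : ℕ), HomIdeal J →
    g.IsHomogeneous d → (∀ N : ℕ, g ^ N ∉ J) →
    ∃ q : Ideal (Pol k n), q.IsPrime ∧ HomIdeal q ∧ J ≤ q ∧ g ∉ q

/-- height of homogeneous primes different from the irrelevant ideal -/
def Stmt_HHT : Prop :=
  ∀ (k : Type u) [Field k] (n : ℕ) (q : Ideal (Pol k n)), q.IsPrime → HomIdeal q →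
    ∀ g : Pol k n, g.IsHomogeneous 1 → g ∉ q → q.height + 1 ≤ n

/-- exact columns over `D(g_a)` -/
def Stmt_CLA : Prop :=
  ∀ (k : Type u) [Field k] (n : ℕ) (D : Dat k n) (e : ℕ), D.Good → D.DB e → n ≤ e + 1 →
    ∀ (a : Fin D.p) (m : ℤ) (x : Finset (Fin D.M) → Fr k n), (∀ τ, x τ ∈ D.Eg m {a} τ) →
      (∀ τ, cd x τ = 0) → ∃ y : Finset (Fin D.M) → Fr k n, (∀ τ, y τ ∈ D.Eg m {a} τ) ∧
        ∀ τ, cd y τ = x τ

/-- exact columns -/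
def Stmt_CLB : Prop :=
  ∀ (k : Type u) [Field k] (n : ℕ) (D : Dat k n) (e : ℕ), D.Good → D.DB e → n ≤ e + 1 →
    ∀ (σ : Finset (Fin D.p)), σ.Nonempty → ∀ (m : ℤ) (x : Finset (Fin D.M) → Fr k n),
      (∀ τ, x τ ∈ D.Eg m σ τ) → (∀ τ, cd x τ = 0) →
      ∃ y : Finset (Fin D.M) → Fr k n, (∀ τ, y τ ∈ D.Eg m σ τ) ∧ ∀ τ, cd y τ = x τ

/-! ## Base change and hyperplane sections on cohomology -/

/-- ascent of the vanishing of local cohomology -/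
def Stmt_BCU : Prop :=
  ∀ (k : Type u) [Field k] [CharZero k] (n : ℕ) (D : Dat k (n + 1)), D.Good → ∀ m g,
    (D.AZ m g → D.bc.AZ m g) ∧ (D.LC m g → D.bc.LC m g)

/-- descent of vanishing from `k'` to `k` -/
def Stmt_BCD : Prop :=
  ∀ (k : Type u) [Field k] [CharZero k] (n : ℕ) (D : Dat k (n + 1)), D.Good → ∀ m g,
    (D.bc.QZ m g → D.QZ m g) ∧ (D.bc.LC m g → D.LC m g)

/-- multiplication by `l` on `H^g(Q)` is surjective if `H^g(Q') = 0` -/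
def Stmt_LSU : Prop :=
  ∀ (k : Type u) [Field k] [CharZero k] (n : ℕ) (D : Dat k (n + 1)), 1 ≤ n → D.Good → ∀ m g,
    D.sec.QZ m g →
    ∀ z, D.bc.InQ m z → (∀ σ τ, σ.card + τ.card ≠ g → z σ τ = 0) → dd z = 0 →
      ∃ z' y, D.bc.InQ (m - 1) z' ∧ (∀ σ τ, σ.card + τ.card ≠ g → z' σ τ = 0) ∧ dd z' = 0 ∧
        D.bc.InQ m y ∧ ∀ σ τ, z σ τ = inc _ _ (lgen k n) * z' σ τ + dd y σ τ

/-- multiplication by `l` on `H^g(Q)` is injective if `H^{g-1}(Q') = 0` -/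
def Stmt_LIN : Prop :=
  ∀ (k : Type u) [Field k] [CharZero k] (n : ℕ) (D : Dat k (n + 1)), 1 ≤ n → D.Good → ∀ m g,
    D.sec.QZ m g →
    ∀ z, D.bc.InQ (m - 1) z → (∀ σ τ, σ.card + τ.card ≠ g + 1 → z σ τ = 0) → dd z = 0 →
      ∀ u, D.bc.InQ m u → (∀ σ τ, dd u σ τ = inc _ _ (lgen k n) * z σ τ) →
        ∃ y, D.bc.InQ (m - 1) y ∧ dd y = z

/-- `H^g(B(-1)) = 0` if `H^{g-1}(A(-t)) = 0` for large `t` -/
def Stmt_BZE : Prop :=
  ∀ (k : Type u) [Field k] [CharZero k] (n : ℕ) (D : Dat k n) (l : Pol k n), D.Good →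
    l.IsHomogeneous 1 → l ≠ 0 → D.LogSmoothH l → ∀ (g t : ℕ), 1 ≤ t → D.AZ (-(t : ℤ)) g →
    ∀ z, D.InB (-1) z → (∀ σ τ, σ.card + τ.card ≠ g + 1 → z σ τ = 0) → dd z = 0 →
      ∃ y, D.InB (-1) y ∧ dd y = z

/-- the step of Claim 1, over `k'` -/
def Stmt_ST1 : Prop :=
  ∀ (k : Type u) [Field k] [CharZero k] (n : ℕ) (D : Dat k (n + 1)) (r c : ℕ), 1 ≤ n →
    D.Cls r c → c + r ≤ n + 1 → (∀ m g, g ≤ r → D.sec.QZ m g) →
    ∀ m g, g ≤ r → D.bc.QZ m g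

/-- the class is closed under generic hyperplane sections, and decreasing in `r` -/
def Stmt_CLS : Prop :=
  (∀ (k : Type u) [Field k] [CharZero k] (n : ℕ) (D : Dat k (n + 1)) (r c : ℕ), 1 ≤ n →
    D.Cls r c → D.sec.Cls r c) ∧
  (∀ (k : Type u) [Field k] [CharZero k] (n : ℕ) (D : Dat k n) (r r' c : ℕ), 2 ≤ r' → r' ≤ r →
    D.Cls r c → D.Cls r' c)

/-! ## The vanishing of `H^g(I)_{r-g}` -/

/-- the data of the induction for the theorem: class for all `2 ≤ r' ≤ r`, and vanishing -/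
structure Sta {k : Type u} [Field k] {n : ℕ} (D : Dat k n) (r c : ℕ) : Prop where
  good : D.Good
  c1 : 1 ≤ c
  dm : D.DM c
  cls : 2 ≤ r → D.Cls r c
  van : ∀ r' g, 1 ≤ g → g ≤ r' → r' ≤ r → g + c ≤ n → D.LC ((r' : ℤ) - g) g

/-- one step: from `D` to `D.sec` -/
def Stmt_STA : Prop :=
  ∀ (k : Type u) [Field k] [CharZero k] (n : ℕ) (D : Dat k (n + 1)) (r c : ℕ), 1 ≤ n →
    Sta D r c → Sta D.sec r c

/-- one step for one pair of degrees, for `g < r'` -/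
def Stmt_LCS : Prop :=
  ∀ (k : Type u) [Field k] [CharZero k] (n : ℕ) (D : Dat k (n + 1)), 1 ≤ n → D.Good →
    ∀ (m : ℤ) (g : ℕ), 1 ≤ g → D.LC m g → D.LC (m - 1) (g + 1) → D.sec.LC m g

/-- one step for `m = 0` -/
def Stmt_LCT : Prop :=
  ∀ (k : Type u) [Field k] [CharZero k] (n : ℕ) (D : Dat k (n + 1)) (r c : ℕ), 1 ≤ n →
    D.Cls r c → c + r ≤ n → D.LC 0 r → D.sec.LC 0 r

/-- `H^1(I)_0 = 0` if `dim S/I ≥ 1` -/
def Stmt_LC1 : Prop :=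
  ∀ (k : Type u) [Field k] (n : ℕ) (D : Dat k n) (c : ℕ), D.Good → D.DM c → 1 + c ≤ n →
    1 ≤ c → D.LC 0 1

/-- all degrees, when the regularity is less than `r` -/
def Stmt_REG : Prop :=
  ∀ (k : Type u) [Field k] [CharZero k] (n : ℕ) (D : Dat k (n + 1)) (r : ℕ), 1 ≤ n → D.Good →
    (∀ (m : ℤ) (g : ℕ), 1 ≤ g → g ≤ n → (r : ℤ) + 1 ≤ m + g → D.LC m g) →
    ∀ (m : ℤ) (g : ℕ), 1 ≤ g → g + 1 ≤ n → (r : ℤ) + 1 ≤ m + g → D.sec.LC m g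

/-! ## Hilbert functions -/

/-- `l` is injective on (S'/I')_u` if `H^1(I)_u = 0`, so the Hilbert function of the generic
hyperplane section is the difference. -/
def Stmt_HIL : Prop :=
  ∀ (k : Type u) [Field k] [CharZero k] (n : ℕ) (D : Dat k (n + 1)), 1 ≤ n → D.Good →
    ∀ u : ℕ, D.LC u 1 → hilb D.sec.I (u + 1) + hilb D.I u = hilb D.I (u + 1)

/-- degree zero -/
def Stmt_HI0 : Prop :=
  ∀ (k : Type u) [Field k] [CharZero k] (n : ℕ) (D : Dat k (n + 1)) (c : ℕ), 1 ≤ n → D.Good →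
    D.DM c → c + 1 ≤ n + 1 → hilb D.sec.I 0 = hilb D.I 0

/-- the coefficients of the `h`-polynomial are values of the Hilbert function after `d` generic
sections: purely numerical -/
def Stmt_NUM : Prop :=
  ∀ (r d : ℕ) (H : ℕ → ℕ → ℤ), (∀ s u, 0 ≤ H s u) → (∀ s, s < d → H (s + 1) 0 = H s 0) →
    (∀ s, s < d → ∀ u, u + 1 ≤ r → H (s + 1) (u + 1) + H s u = H s (u + 1)) →
    ∀ h : Polynomial ℤ,
      (PowerSeries.mk (fun u => H 0 u)) * (1 - PowerSeries.X) ^ d = (h : PowerSeries ℤ) →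
      ∀ i ≤ r, 0 ≤ h.coeff i

/-- Q1 for data in `Sta`: a chain of sections -/
def Stmt_QQ1 : Prop :=
  ∀ (k : Type u) [Field k] [CharZero k] (n : ℕ) (D : Dat k n) (r c : ℕ), 1 ≤ r → Sta D r c →
    c + 1 ≤ n →
    ∃ H : ℕ → ℕ → ℤ, (∀ s u, 0 ≤ H s u) ∧ (∀ s, s < n - c → H (s + 1) 0 = H s 0) ∧
      (∀ s, s < n - c → ∀ u, u + 1 ≤ r → H (s + 1) (u + 1) + H s u = H s (u + 1)) ∧
      ∀ u, H 0 u = hilb D.I u

/-! ## Q2 -/

/-- classes in the local cohomology of `I` are killed by a power of every linear form -/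
def Stmt_TRS : Prop :=
  ∀ (k : Type u) [Field k] (n : ℕ) (D : Dat k n), D.Good → ∀ (m : ℤ) (g : ℕ)
    (x : Finset (Fin D.p) → Fr k n), (∀ σ, x σ ∈ D.Eg m σ ∅) → (∀ σ, σ.card ≠ g → x σ = 0) →
    (∀ σ, cd x σ = 0) → ∀ l : Pol k n, l.IsHomogeneous 1 →
    ∃ (N : ℕ) (y : Finset (Fin D.p) → Fr k n), (∀ σ, y σ ∈ D.Eg (m + N) σ ∅) ∧
      ∀ σ, cd y σ = inc k n (l ^ N) * x σ

/-- negative degrees -/
def Stmt_NEG : Prop :=
  ∀ (k : Type u) [Field k] (n : ℕ) (D : Dat k n), D.Good → 2 ≤ n → ∀ m : ℤ, m < 0 → D.LC m 1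

/-- if `l` is injective on `S'/I'` in all degrees, depth goes up: vanishing of `H^{g+1}(I)` from
`H^g(I')` and boundedness -/
def Stmt_DUP : Prop :=
  ∀ (k : Type u) [Field k] [CharZero k] (n : ℕ) (D : Dat k (n + 1)) (c : ℕ), 1 ≤ n → 1 ≤ c →
    D.Good → c + 1 ≤ n + 1 → (∀ m, D.LC m 1) →
    (∀ (m : ℤ) (g : ℕ), g + c ≤ n → D.sec.LC m g) →
    ∀ (m : ℤ) (g : ℕ), g + c ≤ n + 1 → D.LC m g

/-- Q2 for data in `Sta` -/
def Stmt_QQ2 : Prop :=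
  ∀ (k : Type u) [Field k] [CharZero k] (n : ℕ) (D : Dat k n) (r c : ℕ), 1 ≤ r → Sta D r c →
    (∀ (m : ℤ) (g : ℕ), 1 ≤ g → g + 1 ≤ n → (r : ℤ) + 1 ≤ m + g → D.LC m g) →
    ∀ (m : ℤ) (g : ℕ), g + c ≤ n → D.LC m g

/-! ## The ring `S/I` -/

/-- `H^g_𝔪(S)_m = 0` for `g < n` -/
def Stmt_SCZ : Prop :=
  ∀ (k : Type u) [Field k] (n : ℕ) (m : ℤ) (g : ℕ), g < n → ∀ x : Finset (Fin n) → Fr k n,
    (∀ σ, x σ ∈ Sl k n σ ∧ x σ ∈ HF k n m) → (∀ σ, σ.card ≠ g → x σ = 0) →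
    (∀ σ, cd x σ = 0) →
    ∃ y : Finset (Fin n) → Fr k n, (∀ σ, y σ ∈ Sl k n σ ∧ y σ ∈ HF k n m) ∧
      (∀ σ, σ.card + 1 ≠ g → y σ = 0) ∧ ∀ σ, cd y σ = x σ

/-- exactness at primes not containing `I` -/
def Stmt_UNE : Prop :=
  ∀ (k : Type u) [Field k] (n : ℕ) (D : Dat k n), D.Good → ∀ q : Ideal (Pol k n), q.IsPrime →
    ¬ D.I ≤ q → ∀ a, D.g a ∉ q → D.ExactAt a q

/-- `E σ ∅` for `mkDat` is the module of `LCZero`; comparison of `LC` and `LCZero` -/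
def Stmt_CMP : Prop :=
  ∀ (k : Type u) [Field k] [CharZero k] (n : ℕ) (I : Ideal (Pol k n)), HomIdeal I →
    ∀ (M δ : ℕ) (f : Fin M → Pol k n) (m : ℤ) (j : ℕ), j + 2 ≤ n →
      (LCZero I j m ↔ (mkDat I M δ f).LC m (j + 1))

/-- from the Du Bois hypothesis to `DB` -/
def Stmt_DBX : Prop :=
  ∀ (k : Type u) [Field k] [CharZero k] (n : ℕ) (I : Ideal (Pol k n)) (r c d : ℕ), HomIdeal I →
    I ≠ ⊤ → 2 ≤ r → ringKrullDim (Pol k n ⧸ I) = d → n = d + c →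
    (∀ (P : Ideal (Pol k n ⧸ I)) [P.IsPrime],
      ((P.comap (Ideal.Quotient.mk I)).height : WithBot ℕ∞) =
        ringKrullDim (Localization.AtPrime P) + (c : WithBot ℕ∞)) →
    ∀ (M δ : ℕ) (f : Fin M → Pol k n), (mkDat I M δ f).Good →
      (∀ (P : Ideal (Pol k n ⧸ I)) [P.IsPrime],
        ringKrullDim (Localization.AtPrime P) ≤ ((r - 2 : ℕ) : WithBot ℕ∞) →
        ∀ a : Fin n, (X a : Pol k n) ∉ P.comap (Ideal.Quotient.mk I) →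
          (mkDat I M δ f).ExactAt a (P.comap (Ideal.Quotient.mk I))) →
      (mkDat I M δ f).DB (c + r - 2)

/-- the case `I = 0` -/
def Stmt_IZE : Prop :=
  ∀ (k : Type u) [Field k] [CharZero k] (n : ℕ), CM (Pol k n ⧸ (⊥ : Ideal (Pol k n))) ∧
    ringKrullDim (Pol k n ⧸ (⊥ : Ideal (Pol k n))) = n ∧
    (PowerSeries.mk (fun u => (hilb (⊥ : Ideal (Pol k n)) u : ℤ))) *
      (1 - PowerSeries.X) ^ n = 1

/-- `I ≠ 0` has codimension at least one -/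
def Stmt_CO1 : Prop :=
  ∀ (k : Type u) [Field k] [CharZero k] (n : ℕ) (I : Ideal (Pol k n)), I ≠ ⊥ → I ≠ ⊤ →
    ∃ d : ℕ, ringKrullDim (Pol k n ⧸ I) = d ∧ d + 1 ≤ n

/-- the initial data are in `Sta` -/
def Stmt_INI : Prop :=
  ∀ (k : Type u) [Field k] [CharZero k] (n : ℕ) (I : Ideal (Pol k n)) (r c d : ℕ), HomIdeal I →
    I ≠ ⊤ → 1 ≤ r → 1 ≤ c → ringKrullDim (Pol k n ⧸ I) = d → n = d + c →
    SerreCond (Pol k n ⧸ I) r → (2 ≤ r → DuBoisInCodim I (r - 2)) →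
    ∃ D : Dat k n, D.I = I ∧ Sta D r c ∧ ∃ (M δ : ℕ) (f : Fin M → Pol k n), D = mkDat I M δ f

end

end Pool.Agent.DBX.ALG
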