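import Pool.Agent.DBX.ALG.Stmts
import Pool.Agent.DBX.Cd

set_option autoImplicit false

namespace Pool.Agent.DBX.ALG

open MvPolynomial Pool.Agent.DBX

universe u

theorem TOT_memcd {V : Type*} [LinearOrder V] {A : Type*} [AddCommGroup A]
    (M : Finset V → AddSubgroup A) (hM : ∀ σ σ', σ ⊆ σ' → M σ ≤ M σ')
    (x : Finset V → A) (hx : ∀ σ, x σ ∈ M σ) (σ : Finset V) : cd x σ ∈ M σ := by
  rw [cd_apply]
  exact AddSubgroup.sum_mem _ (fun v _ => AddSubgroup.zsmul_mem _
    (hM _ _ (Finset.erase_subset v σ) (hx _)) _)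

theorem TOT_step {p q : ℕ} {A : Type u} [AddCommGroup A]
    (hdd : ∀ x : Finset (Fin p) → Finset (Fin q) → A, ∀ σ τ, dd (dd x) σ τ = 0)
    (hsub : ∀ x y : Finset (Fin p) → Finset (Fin q) → A, ∀ σ τ,
      dd (x - y) σ τ = dd x σ τ - dd y σ τ)
    (hadd : ∀ x y : Finset (Fin p) → Finset (Fin q) → A, ∀ σ τ,
      dd (x + y) σ τ = dd x σ τ + dd y σ τ)
    (M : Finset (Fin p) → Finset (Fin q) → AddSubgroup A)
    (hM : ∀ σ σ' τ τ', σ ⊆ σ' → τ ⊆ τ' → M σ τ ≤ M σ' τ')
    (hex : ∀ σ, σ.Nonempty → ∀ x : Finset (Fin q) → A, (∀ τ, x τ ∈ M σ τ) → (∀ τ, cd x τ = 0) →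
      ∃ y : Finset (Fin q) → A, (∀ τ, y τ ∈ M σ τ) ∧ ∀ τ, cd y τ = x τ)
    (z : Finset (Fin p) → Finset (Fin q) → A) (hz0 : ∀ τ, z ∅ τ = 0)
    (hzM : ∀ σ τ, z σ τ ∈ M σ τ) (hz : dd z = 0) (j : ℕ) :
    ∃ y : Finset (Fin p) → Finset (Fin q) → A, (∀ τ, y ∅ τ = 0) ∧ (∀ σ τ, y σ τ ∈ M σ τ) ∧
      ∀ σ τ, σ.card < j → dd y σ τ = z σ τ := by
  classical
  have hMdd : ∀ y : Finset (Fin p) → Finset (Fin q) → A, (∀ σ τ, y σ τ ∈ M σ τ) →
      ∀ σ τ, dd y σ τ ∈ M σ τ := by
    intro y hy σ τ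
    unfold dd
    refine AddSubgroup.add_mem _ ?_ (AddSubgroup.zsmul_mem _ ?_ _)
    · exact TOT_memcd (fun s => M s τ) (fun s s' h => hM s s' τ τ h (Finset.Subset.refl τ))
        (fun s => y s τ) (fun s => hy s τ) σ
    · exact TOT_memcd (M σ) (fun t t' h => hM σ σ t t' (Finset.Subset.refl σ) h)
        (y σ) (fun t => hy σ t) τ
  have hdd0 : ∀ y : Finset (Fin p) → Finset (Fin q) → A, (∀ τ, y ∅ τ = 0) →
      ∀ τ, dd y ∅ τ = 0 := by
    intro y hy τ
    unfold dd
    have h1 : y ∅ = 0 := funext hy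
    rw [cd_empty, h1, cd_zero]
    simp
  induction j with
  | zero => exact ⟨0, fun _ => rfl, fun σ τ => AddSubgroup.zero_mem _, fun σ τ h => by omega⟩
  | succ j ih =>
    obtain ⟨y, hy0, hyM, hy⟩ := ih
    have hz'0 : ∀ τ, (z - dd y) ∅ τ = 0 := by
      intro τ
      rw [Pi.sub_apply, Pi.sub_apply, hz0, hdd0 y hy0, sub_zero]
    have hz'M : ∀ σ τ, (z - dd y) σ τ ∈ M σ τ := by
      intro σ τ
      rw [Pi.sub_apply, Pi.sub_apply]
      exact AddSubgroup.sub_mem _ (hzM σ τ) (hMdd y hyM σ τ)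
    have hz' : ∀ σ τ, dd (z - dd y) σ τ = 0 := by
      intro σ τ
      rw [hsub, hdd, hz]; simp
    have hlow : ∀ σ τ, σ.card < j → (z - dd y) σ τ = 0 := by
      intro σ τ h
      rw [Pi.sub_apply, Pi.sub_apply, hy σ τ h, sub_self]
    have key : ∃ w : Finset (Fin p) → Finset (Fin q) → A, (∀ τ, w ∅ τ = 0) ∧
        (∀ σ τ, w σ τ ∈ M σ τ) ∧ ∀ σ τ, σ.card < j + 1 → dd w σ τ = (z - dd y) σ τ := by
      generalize z - dd y = z' at hz'0 hz'M hz' hlow
      have hc : ∀ σ : Finset (Fin p), σ.card = j → ∀ τ, cd (z' σ) τ = 0 := by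
        intro σ hσ τ
        have h1 := hz' σ τ
        unfold dd at h1
        have h2 : cd (fun s => z' s τ) σ = 0 := by
          rw [cd_apply]
          refine Finset.sum_eq_zero (fun v hv => ?_)
          have h3 := Finset.card_erase_add_one hv
          rw [hlow (σ.erase v) τ (by omega), smul_zero]
        rw [h2, zero_add] at h1
        have h4 : ((-1 : ℤ) ^ σ.card) • ((-1 : ℤ) ^ σ.card) • cd (z' σ) τ = 0 := by
          rw [h1, smul_zero]
        rwa [smul_smul, ← mul_pow, show (-1 : ℤ) * -1 = 1 by norm_num, one_pow, one_smul] at h4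
      have hch : ∀ σ : Finset (Fin p), ∃ v : Finset (Fin q) → A, (σ = ∅ → v = 0) ∧
          (∀ τ, v τ ∈ M σ τ) ∧ (σ.card = j → ∀ τ, cd v τ = z' σ τ) := by
        intro σ
        by_cases h0 : σ = ∅
        · refine ⟨0, fun _ => rfl, fun τ => AddSubgroup.zero_mem _, fun _ τ => ?_⟩
          subst h0
          rw [hz'0, cd_zero]; rfl
        by_cases hj : σ.card = j
        · obtain ⟨v, hv1, hv2⟩ := hex σ (Finset.nonempty_iff_ne_empty.mpr h0) (z' σ)
            (fun τ => hz'M σ τ) (hc σ hj)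
          exact ⟨v, fun h => absurd h h0, hv1, fun _ => hv2⟩
        · exact ⟨0, fun _ => rfl, fun τ => AddSubgroup.zero_mem _, fun h => absurd h hj⟩
      choose v hv0 hvM hv using hch
      refine ⟨fun σ τ => if σ.card = j then ((-1 : ℤ) ^ j) • v σ τ else 0, ?_, ?_, ?_⟩
      · intro τ
        dsimp only
        rw [hv0 ∅ rfl]
        split_ifs <;> simp
      · intro σ τ
        dsimp only
        split_ifs
        · exact AddSubgroup.zsmul_mem _ (hvM σ τ) _
        · exact AddSubgroup.zero_mem _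
      · intro σ τ hσ
        unfold dd
        dsimp only
        have h1 : cd (fun s : Finset (Fin p) => if s.card = j then ((-1 : ℤ) ^ j) • v s τ else 0) σ
            = 0 := by
          rw [cd_apply]
          refine Finset.sum_eq_zero (fun b hb => ?_)
          have h3 := Finset.card_erase_add_one hb
          rw [if_neg (by omega), smul_zero]
        rw [h1, zero_add]
        by_cases hj : σ.card = j
        · have h2 : (fun t => if σ.card = j then ((-1 : ℤ) ^ j) • v σ t else 0) =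
              ((-1 : ℤ) ^ j) • v σ := by
            funext t
            rw [if_pos hj]; rfl
          rw [h2, cd_smul, Pi.smul_apply, hv σ hj τ, hj, smul_smul, ← mul_pow,
            show (-1 : ℤ) * -1 = 1 by norm_num, one_pow, one_smul]
        · have h2 : (fun t => if σ.card = j then ((-1 : ℤ) ^ j) • v σ t else 0) =
              (0 : Finset (Fin q) → A) := by
            funext t
            rw [if_neg hj]; rfl
          rw [h2, cd_zero, Pi.zero_apply, smul_zero, hlow σ τ (by omega)]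
    obtain ⟨w, hw0, hwM, hw⟩ := key
    refine ⟨y + w, ?_, ?_, ?_⟩
    · intro τ
      rw [Pi.add_apply, Pi.add_apply, hy0, hw0, add_zero]
    · intro σ τ
      rw [Pi.add_apply, Pi.add_apply]
      exact AddSubgroup.add_mem _ (hyM σ τ) (hwM σ τ)
    · intro σ τ hσ
      rw [hadd, hw σ τ hσ, Pi.sub_apply, Pi.sub_apply]
      abel

theorem tot_proof (hCDD : Stmt_CDD.{u}) : Stmt_TOT.{u} := by
  intro p q A _ M hM hex z hz0 hzM hz
  obtain ⟨-, -, -, -, hadd, hsub, hdd, -⟩ := hCDD p q A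
  obtain ⟨y, hy0, hyM, hy⟩ := TOT_step hdd hsub hadd M hM hex z hz0 hzM hz (p + 1)
  refine ⟨y, hy0, hyM, ?_⟩
  funext σ τ
  refine hy σ τ ?_
  have := Finset.card_le_univ σ
  rw [Fintype.card_fin] at this
  omega

end Pool.Agent.DBX.ALG
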