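import Pool.Agent.DBX.ALG.Stmts
import Pool.Agent.DBX.Cd

set_option autoImplicit false

/-! # MP_2c751f_ag, squad DBX, area ALG: classes in the local cohomology of `I` are killed by a
power of every linear form -/

namespace Pool.Agent.DBX.ALG

open MvPolynomial Pool.Agent.DBX

universe u

namespace TRS_

variable {k : Type u} [Field k] {n : ℕ}

/-- elements of `R (σ ∪ a) ∅` have a denominator which is a power of `g a` over `R σ ∅` -/
theorem R_loc (D : Dat k n) (hg : ∀ a, D.g a ≠ 0) (a : Fin D.p) (σ : Finset (Fin D.p))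
    (r : Fr k n) (hr : r ∈ D.R (insert a σ) ∅) :
    ∃ N : ℕ, inc k n (D.g a) ^ N * r ∈ D.R σ ∅ := by
  have hga : inc k n (D.g a) ∈ D.R σ ∅ := Algebra.subset_adjoin (Or.inl (Or.inl ⟨D.g a, rfl⟩))
  unfold Dat.R at hr
  induction hr using Algebra.adjoin_induction with
  | mem x hx =>
    rcases hx with (⟨w, rfl⟩ | ⟨b, hb, rfl⟩) | ⟨b, hb, -⟩
    · exact ⟨0, by
        rw [pow_zero, one_mul]
        exact Algebra.subset_adjoin (Or.inl (Or.inl ⟨w, rfl⟩))⟩
    · rcases Finset.mem_insert.1 hb with h | h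
      · subst h
        refine ⟨1, ?_⟩
        rw [pow_one, mul_inv_cancel₀ (inc_ne (hg b))]
        exact Subalgebra.one_mem _
      · exact ⟨0, by
          rw [pow_zero, one_mul]
          exact Algebra.subset_adjoin (Or.inl (Or.inr ⟨b, h, rfl⟩))⟩
    · exact absurd hb (Finset.notMem_empty b)
  | algebraMap c =>
    exact ⟨0, by
      rw [pow_zero, one_mul]
      exact Subalgebra.algebraMap_mem _ c⟩
  | add x y _ _ hx hy =>
    obtain ⟨N, hN⟩ := hx
    obtain ⟨M, hM⟩ := hy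
    refine ⟨N + M, ?_⟩
    have e : inc k n (D.g a) ^ (N + M) * (x + y) =
        inc k n (D.g a) ^ M * (inc k n (D.g a) ^ N * x) +
          inc k n (D.g a) ^ N * (inc k n (D.g a) ^ M * y) := by ring
    rw [e]
    exact Subalgebra.add_mem _ (Subalgebra.mul_mem _ (Subalgebra.pow_mem _ hga _) hN)
      (Subalgebra.mul_mem _ (Subalgebra.pow_mem _ hga _) hM)
  | mul x y _ _ hx hy =>
    obtain ⟨N, hN⟩ := hx
    obtain ⟨M, hM⟩ := hy
    refine ⟨N + M, ?_⟩
    have e : inc k n (D.g a) ^ (N + M) * (x * y) =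
        (inc k n (D.g a) ^ N * x) * (inc k n (D.g a) ^ M * y) := by ring
    rw [e]
    exact Subalgebra.mul_mem _ hN hM

/-- the same for `E` -/
theorem E_loc (D : Dat k n) (hg : ∀ a, D.g a ≠ 0) (a : Fin D.p) (σ : Finset (Fin D.p))
    (z : Fr k n) (hz : z ∈ D.E (insert a σ) ∅) :
    ∃ N : ℕ, inc k n (D.g a) ^ N * z ∈ D.E σ ∅ := by
  have hga : inc k n (D.g a) ∈ D.R σ ∅ := Algebra.subset_adjoin (Or.inl (Or.inl ⟨D.g a, rfl⟩))
  unfold Dat.E at hz ⊢
  rw [if_pos rfl] at hz ⊢
  -- the second ideal, as an ideal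
  have key : ∀ (N : ℕ) (v : Fr k n), v ∈ toF (D.R σ ∅) (genIn (D.R σ ∅) (inc k n '' D.I)) →
      ∀ s ∈ D.R σ ∅, s * v ∈ toF (D.R σ ∅) (genIn (D.R σ ∅) (inc k n '' D.I)) := by
    intro N v hv s hs
    obtain ⟨w, hw, rfl⟩ := hv
    exact ⟨⟨s, hs⟩ * w, Ideal.mul_mem_left _ _ hw, rfl⟩
  obtain ⟨z, hz, rfl⟩ := hz
  have hz' : z ∈ Ideal.span {r : D.R (insert a σ) ∅ | (r : Fr k n) ∈ inc k n '' D.I} := hz
  show ∃ N : ℕ, inc k n (D.g a) ^ N * (z : Fr k n) ∈ _
  clear hz
  induction hz' using Submodule.span_induction with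
  | mem x hx =>
    obtain ⟨w, hw, hwx⟩ := hx
    refine ⟨0, ?_⟩
    rw [pow_zero, one_mul, ← hwx]
    have h1 : inc k n w ∈ D.R σ ∅ := Algebra.subset_adjoin (Or.inl (Or.inl ⟨w, rfl⟩))
    exact ⟨⟨inc k n w, h1⟩, Ideal.subset_span ⟨w, hw, rfl⟩, rfl⟩
  | zero =>
    refine ⟨0, ?_⟩
    have e : inc k n (D.g a) ^ 0 * (((0 : D.R (insert a σ) ∅)) : Fr k n) = 0 := by simp
    rw [e]
    exact Submodule.zero_mem _
  | add x y _ _ hx hy =>
    obtain ⟨N, hN⟩ := hx
    obtain ⟨M, hM⟩ := hy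
    refine ⟨N + M, ?_⟩
    have e : inc k n (D.g a) ^ (N + M) * ((x + y : D.R (insert a σ) ∅) : Fr k n) =
        inc k n (D.g a) ^ M * (inc k n (D.g a) ^ N * (x : Fr k n)) +
          inc k n (D.g a) ^ N * (inc k n (D.g a) ^ M * (y : Fr k n)) := by
      rw [Subalgebra.coe_add]; ring
    rw [e]
    exact Submodule.add_mem _ (key 0 _ hN _ (Subalgebra.pow_mem _ hga _))
      (key 0 _ hM _ (Subalgebra.pow_mem _ hga _))
  | smul r y _ hy =>
    obtain ⟨M, hM⟩ := hy
    obtain ⟨N, hN⟩ := R_loc D hg a σ (r : Fr k n) r.2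
    refine ⟨N + M, ?_⟩
    have e : inc k n (D.g a) ^ (N + M) * ((r • y : D.R (insert a σ) ∅) : Fr k n) =
        (inc k n (D.g a) ^ N * (r : Fr k n)) * (inc k n (D.g a) ^ M * (y : Fr k n)) := by
      rw [smul_eq_mul, Subalgebra.coe_mul]; ring
    rw [e]
    exact key 0 _ hM _ hN

/-- `w` of degree `N` kills the class of `x` -/
def Kil (D : Dat k n) (m : ℤ) (x : Finset (Fin D.p) → Fr k n) (N : ℕ) (w : Pol k n) : Prop :=
  w.IsHomogeneous N ∧ ∃ y : Finset (Fin D.p) → Fr k n, (∀ σ, y σ ∈ D.Eg (m + N) σ ∅) ∧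
    cd y = fun σ => inc k n w * x σ

theorem kil_add (D : Dat k n) (m : ℤ) (x : Finset (Fin D.p) → Fr k n) (N : ℕ) (w w' : Pol k n)
    (h : Kil D m x N w) (h' : Kil D m x N w') : Kil D m x N (w + w') := by
  obtain ⟨h1, y, hy, hc⟩ := h
  obtain ⟨h1', y', hy', hc'⟩ := h'
  refine ⟨h1.add h1', y + y', fun σ => Submodule.add_mem _ (hy σ) (hy' σ), ?_⟩
  rw [cd_add, hc, hc']
  funext σ
  rw [Pi.add_apply, map_add, add_mul]

theorem kil_zero (D : Dat k n) (m : ℤ) (x : Finset (Fin D.p) → Fr k n) (N : ℕ) :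
    Kil D m x N 0 := by
  refine ⟨isHomogeneous_zero _ _ _, 0, fun σ => Submodule.zero_mem _, ?_⟩
  rw [cd_zero]
  funext σ
  rw [map_zero, zero_mul, Pi.zero_apply]

theorem kil_sum (D : Dat k n) (m : ℤ) (x : Finset (Fin D.p) → Fr k n) (N : ℕ) {ι : Type}
    (s : Finset ι) (w : ι → Pol k n) (h : ∀ i ∈ s, Kil D m x N (w i)) :
    Kil D m x N (∑ i ∈ s, w i) := by
  classical
  induction s using Finset.induction_on with
  | empty =>
    rw [Finset.sum_empty]
    exact kil_zero D m x N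
  | insert a s ha ih =>
    rw [Finset.sum_insert ha]
    exact kil_add D m x N _ _ (h a (Finset.mem_insert_self _ _))
      (ih (fun i hi => h i (Finset.mem_insert_of_mem hi)))

theorem kil_mul (hEML : Stmt_EML.{u}) (D : Dat k n) (m : ℤ) (x : Finset (Fin D.p) → Fr k n)
    (N d : ℕ) (w v : Pol k n) (h : Kil D m x N w) (hv : v.IsHomogeneous d) :
    Kil D m x (N + d) (v * w) := by
  obtain ⟨e1, e2, -, -⟩ := hEML k n D
  obtain ⟨h1, y, hy, hc⟩ := h
  refine ⟨?_, fun σ => inc k n v * y σ, fun σ => ?_, ?_⟩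
  · rw [mul_comm]
    exact h1.mul hv
  · refine ⟨e1 σ ∅ v _ (hy σ).1, ?_⟩
    have h2 := e2 d (m + N) v hv _ (hy σ).2
    have e : m + ((N + d : ℕ) : ℤ) = m + N + d := by push_cast; ring
    rw [e]
    exact h2
  · have h3 := cd_map (AddMonoidHom.mulLeft (inc k n v)) y
    have h4 : cd (fun σ => inc k n v * y σ) = fun σ => inc k n v * cd y σ := h3
    rw [h4, hc]
    funext σ
    rw [map_mul, mul_assoc]

theorem kil_g (hEML : Stmt_EML.{u}) (D : Dat k n) (hD : D.Good) (m : ℤ)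
    (x : Finset (Fin D.p) → Fr k n) (hx : ∀ σ, x σ ∈ D.Eg m σ ∅) (hc : cd x = 0)
    (a : Fin D.p) : ∃ N, Kil D m x N (D.g a ^ N) := by
  obtain ⟨e1, e2, -, -⟩ := hEML k n D
  have h1 : ∀ σ : Finset (Fin D.p), ∃ N : ℕ, inc k n (D.g a) ^ N * kk a x σ ∈ D.E σ ∅ := by
    intro σ
    by_cases h : a ∈ σ
    · refine ⟨0, ?_⟩
      rw [kk_mem x h, mul_zero]
      exact Submodule.zero_mem _
    · obtain ⟨N, hN⟩ := E_loc D hD.g_ne a σ _ (hx (insert a σ)).1
      refine ⟨N, ?_⟩
      rw [kk_not x h, mul_smul_comm]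
      exact Submodule.smul_of_tower_mem _ _ hN
  choose N hN using h1
  refine ⟨Finset.univ.sup N, ?_, fun σ => inc k n (D.g a ^ (Finset.univ.sup N)) * kk a x σ, ?_, ?_⟩
  · have := (hD.g_hom a).pow (Finset.univ.sup N)
    rwa [one_mul] at this
  · intro σ
    refine ⟨?_, ?_⟩
    · have h2 : N σ ≤ Finset.univ.sup N := Finset.le_sup (Finset.mem_univ σ)
      obtain ⟨c, hcc⟩ := Nat.exists_eq_add_of_le h2
      have e : inc k n (D.g a ^ (Finset.univ.sup N)) * kk a x σ =
          inc k n (D.g a ^ c) * (inc k n (D.g a) ^ (N σ) * kk a x σ) := by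
        rw [hcc, map_pow, map_pow]; ring
      show inc k n (D.g a ^ (Finset.univ.sup N)) * kk a x σ ∈ D.E σ ∅
      rw [e]
      exact e1 σ ∅ _ _ (hN σ)
    · have h3 : kk a x σ ∈ HF k n m := by
        by_cases h : a ∈ σ
        · rw [kk_mem x h]
          exact Submodule.zero_mem _
        · rw [kk_not x h]
          exact Submodule.smul_of_tower_mem _ _ (hx (insert a σ)).2
      have h4 : (D.g a ^ (Finset.univ.sup N)).IsHomogeneous (Finset.univ.sup N) := by
        have := (hD.g_hom a).pow (Finset.univ.sup N)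
        rwa [one_mul] at this
      exact e2 _ m _ h4 _ h3
  · have h3 := cd_map (AddMonoidHom.mulLeft (inc k n (D.g a ^ (Finset.univ.sup N)))) (kk a x)
    have h4 : cd (fun σ => inc k n (D.g a ^ (Finset.univ.sup N)) * kk a x σ) =
        fun σ => inc k n (D.g a ^ (Finset.univ.sup N)) * cd (kk a x) σ := h3
    rw [h4, cd_kk_of_cocycle a hc]

end TRS_

theorem trs_proof (_hCDD : Stmt_CDD.{u}) (_hEMO : Stmt_EMO.{u}) (hEML : Stmt_EML.{u})
    (_hELO : Stmt_ELO.{u}) : Stmt_TRS.{u} := by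
  intro k _ n D hD m g x hx _ hc l hl
  have hc' : cd x = 0 := funext hc
  -- linear forms in the span of the `g a`
  have hspan : ∀ l : Pol k n, l ∈ Submodule.span k (Set.range D.g) →
      l.IsHomogeneous 1 ∧ ∃ N, TRS_.Kil D m x N (l ^ N) := by
    intro l hl
    induction hl using Submodule.span_induction with
    | mem v hv =>
      obtain ⟨a, rfl⟩ := hv
      exact ⟨hD.g_hom a, TRS_.kil_g hEML D hD m x hx hc' a⟩
    | zero =>
      refine ⟨isHomogeneous_zero _ _ _, 1, ?_⟩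
      rw [pow_one]
      exact TRS_.kil_zero D m x 1
    | add v w _ _ hv hw =>
      obtain ⟨h1, N, hN⟩ := hv
      obtain ⟨h2, M, hM⟩ := hw
      refine ⟨h1.add h2, N + M, ?_⟩
      rw [add_pow]
      refine TRS_.kil_sum D m x (N + M) _ _ ?_
      intro j hj
      rw [Finset.mem_range] at hj
      have hp : ∀ (v : Pol k n), v.IsHomogeneous 1 → ∀ i : ℕ, (v ^ i).IsHomogeneous i := by
        intro v hv i
        have := hv.pow i
        rwa [one_mul] at this
      have hch : ((N + M).choose j : Pol k n).IsHomogeneous 0 := by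
        have := isHomogeneous_C (Fin n) (((N + M).choose j : ℕ) : k)
        rwa [map_natCast] at this
      by_cases h : N ≤ j
      · obtain ⟨c, rfl⟩ := Nat.exists_eq_add_of_le h
        have h5 := TRS_.kil_mul hEML D m x N M (v ^ N)
          (v ^ c * w ^ (N + M - (N + c)) * ((N + M).choose (N + c) : Pol k n)) hN (by
            have h6 := ((hp v h1 c).mul (hp w h2 (N + M - (N + c)))).mul hch
            have e : c + (N + M - (N + c)) + 0 = M := by omega
            rwa [e] at h6)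
        have e : v ^ (N + c) * w ^ (N + M - (N + c)) * ((N + M).choose (N + c) : Pol k n) =
            v ^ c * w ^ (N + M - (N + c)) * ((N + M).choose (N + c) : Pol k n) * v ^ N := by
          rw [pow_add]; ring
        rw [e]
        exact h5
      · have h7 : M ≤ N + M - j := by omega
        obtain ⟨c, hcc⟩ := Nat.exists_eq_add_of_le h7
        have h5 := TRS_.kil_mul hEML D m x M N (w ^ M)
          (v ^ j * w ^ c * ((N + M).choose j : Pol k n)) hM (by
            have h6 := ((hp v h1 j).mul (hp w h2 c)).mul hch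
            have e : j + c + 0 = N := by omega
            rwa [e] at h6)
        have e : v ^ j * w ^ (N + M - j) * ((N + M).choose j : Pol k n) =
            v ^ j * w ^ c * ((N + M).choose j : Pol k n) * w ^ M := by
          rw [hcc, pow_add]; ring
        rw [add_comm M N] at h5
        rw [e]
        exact h5
    | smul c v _ hv =>
      obtain ⟨h1, N, hN⟩ := hv
      have e0 : c • v = C c * v := by rw [MvPolynomial.smul_eq_C_mul]
      refine ⟨?_, N, ?_⟩
      · rw [e0]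
        have := (isHomogeneous_C (Fin n) c).mul h1
        rwa [zero_add] at this
      · have h5 := TRS_.kil_mul hEML D m x N 0 (v ^ N) (C (c ^ N)) hN (isHomogeneous_C (Fin n) _)
        rw [e0, mul_pow, ← C_pow]
        exact h5
  have hl' : l ∈ Submodule.span k (Set.range D.g) := by
    have h1 : l ∈ MvPolynomial.homogeneousSubmodule (Fin n) k 1 := hl
    rw [MvPolynomial.homogeneousSubmodule_one_eq_span_X] at h1
    refine (Submodule.span_le.2 ?_) h1
    rintro _ ⟨i, rfl⟩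
    exact hD.g_span i
  obtain ⟨-, N, -, y, hy, hcy⟩ := hspan l hl'
  exact ⟨N, y, hy, fun σ => congrFun hcy σ⟩

end Pool.Agent.DBX.ALG
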