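import Pool.Agent.DBX.ALG.Stmts
import Pool.Agent.DBX.Lib.Cech

set_option autoImplicit false

/-! # MP_2c751f_ag, squad DBX, area ALG: module UNE -/

namespace Pool.Agent.DBX.ALG

open MvPolynomial Pool.Agent.DBX

noncomputable section

universe u

namespace UNE_

variable {k : Type u} [Field k] {n : ℕ}

theorem inc_mem_R (D : Dat k n) (σ : Finset (Fin D.p)) (τ : Finset (Fin D.M)) (p : Pol k n) :
    inc k n p ∈ D.R σ τ :=
  Algebra.subset_adjoin (Or.inl (Or.inl ⟨p, rfl⟩))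

/-- the ring as a module over the polynomial ring -/
def A (D : Dat k n) (σ : Finset (Fin D.p)) (τ : Finset (Fin D.M)) :
    Submodule (Pol k n) (Fr k n) where
  carrier := {z | z ∈ D.R σ τ}
  zero_mem' := (D.R σ τ).zero_mem
  add_mem' := fun h h' => (D.R σ τ).add_mem h h'
  smul_mem' := by
    intro c z hz
    change c • z ∈ D.R σ τ
    rw [Algebra.smul_def]
    exact (D.R σ τ).mul_mem (inc_mem_R D σ τ c) hz

theorem mem_A (D : Dat k n) (σ : Finset (Fin D.p)) (τ : Finset (Fin D.M)) (z : Fr k n) :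
    z ∈ A D σ τ ↔ z ∈ D.R σ τ := Iff.rfl

theorem E_le_R (D : Dat k n) (σ : Finset (Fin D.p)) (τ : Finset (Fin D.M)) (z : Fr k n)
    (hz : z ∈ D.E σ τ) : z ∈ D.R σ τ := by
  unfold Dat.E at hz
  split_ifs at hz
  · obtain ⟨a, _, rfl⟩ := hz
    exact a.2
  · obtain ⟨a, _, rfl⟩ := hz
    exact a.2

theorem mul_mem_E (D : Dat k n) (σ : Finset (Fin D.p)) (τ : Finset (Fin D.M)) (w : Pol k n)
    (hw : w ∈ D.I) (z : Fr k n) (hz : z ∈ D.R σ τ) : inc k n w * z ∈ D.E σ τ := by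
  have h1 : (⟨inc k n w, inc_mem_R D σ τ w⟩ : D.R σ τ) ∈
      genIn (D.R σ τ) (inc k n '' D.I) := by
    apply Ideal.subset_span
    exact ⟨w, hw, rfl⟩
  have h2 : (⟨inc k n w, inc_mem_R D σ τ w⟩ : D.R σ τ) * ⟨z, hz⟩ ∈
      genIn (D.R σ τ) (inc k n '' D.I) := Ideal.mul_mem_right _ _ h1
  unfold Dat.E
  split_ifs
  · exact ⟨_, h2, rfl⟩
  · exact ⟨_, Ideal.le_radical h2, rfl⟩

theorem loc (D : Dat k n) (hf : ∀ j, D.f j ≠ 0) (σ : Finset (Fin D.p)) (τ : Finset (Fin D.M))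
    (b : Fin D.M) (z : Fr k n) (hz : z ∈ D.R σ (insert b τ)) :
    ∃ N : ℕ, (D.f b) ^ N • z ∈ A D σ τ := by
  unfold Dat.R at hz
  refine Algebra.adjoin_induction (p := fun z _ => ∃ N : ℕ, (D.f b) ^ N • z ∈ A D σ τ)
    ?_ ?_ ?_ ?_ hz
  · rintro z ((⟨p, rfl⟩ | ⟨a, ha, rfl⟩) | ⟨b', hb', j, rfl⟩)
    · refine ⟨0, ?_⟩
      rw [pow_zero, one_smul, mem_A]
      exact inc_mem_R D σ τ p
    · refine ⟨0, ?_⟩
      rw [pow_zero, one_smul, mem_A]
      exact Algebra.subset_adjoin (Or.inl (Or.inr ⟨a, ha, rfl⟩))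
    · rcases Finset.mem_insert.1 hb' with h | h
      · subst h
        refine ⟨1, ?_⟩
        have h1 : (D.f b') ^ 1 • (inc k n (D.f j) / inc k n (D.f b')) = inc k n (D.f j) := by
          rw [pow_one, Algebra.smul_def]
          exact mul_div_cancel₀ _ (inc_ne (hf b'))
        rw [h1, mem_A]
        exact inc_mem_R D σ τ _
      · refine ⟨0, ?_⟩
        rw [pow_zero, one_smul, mem_A]
        exact Algebra.subset_adjoin (Or.inr ⟨b', h, j, rfl⟩)
  · intro r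
    refine ⟨0, ?_⟩
    rw [pow_zero, one_smul, mem_A]
    exact Subalgebra.algebraMap_mem _ r
  · rintro x y _ _ ⟨N, hN⟩ ⟨N', hN'⟩
    refine ⟨N + N', ?_⟩
    rw [smul_add]
    refine (A D σ τ).add_mem ?_ ?_
    · rw [add_comm, pow_add, mul_smul]
      exact (A D σ τ).smul_mem _ hN
    · rw [pow_add, mul_smul]
      exact (A D σ τ).smul_mem _ hN'
  · rintro x y _ _ ⟨N, hN⟩ ⟨N', hN'⟩
    refine ⟨N + N', ?_⟩
    have h1 : (D.f b) ^ (N + N') • (x * y) = ((D.f b) ^ N • x) * ((D.f b) ^ N' • y) := by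
      rw [pow_add, smul_mul_smul_comm]
    rw [h1, mem_A]
    exact (D.R σ τ).mul_mem hN hN'

end UNE_

theorem une_proof.{v} (_hCDD : Stmt_CDD.{v}) : Stmt_UNE.{v} := by
  intro k _ n D hD q hq hIq a _ x hx hc
  -- an element of `I` outside `q`
  obtain ⟨w, hwI, hwq⟩ : ∃ w ∈ D.I, w ∉ q := by
    by_contra hcon
    apply hIq
    intro w hw
    by_contra h
    exact hcon ⟨w, hw, h⟩
  obtain ⟨b, hb⟩ : ∃ b, D.f b ∉ q := by
    by_contra hcon
    have h1 : ∀ b, D.f b ∈ q := by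
      intro b
      by_contra h
      exact hcon ⟨b, h⟩
    have h2 : Ideal.span (Set.range D.f) ≤ q := by
      rw [Ideal.span_le]
      rintro _ ⟨b, rfl⟩
      exact h1 b
    obtain ⟨N, hN⟩ := hD.I_rad hwI
    exact hwq (hq.mem_of_pow_mem N (h2 hN))
  have hx' : ∀ τ, x τ ∈ UNE_.A D {a} τ := fun τ => UNE_.E_le_R D {a} τ _ (hx τ)
  have hc' : cd x = 0 := funext hc
  obtain ⟨N, hN⟩ := pow_smul_cob (A := UNE_.A D {a}) (v := b) (f := D.f b)
    (fun τ _ m hm => UNE_.loc D hD.f_ne {a} τ b m hm) hx' hc'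
  obtain ⟨y, hy, hy2⟩ := hN N le_rfl
  refine ⟨w * D.f b ^ N, ?_, fun τ => inc k n w * y τ, ?_, ?_⟩
  · intro h
    rcases hq.mem_or_mem h with h | h
    · exact hwq h
    · exact hb (hq.mem_of_pow_mem N h)
  · intro τ
    exact UNE_.mul_mem_E D {a} τ w hwI _ (hy τ)
  · intro τ
    have h1 : (fun τ => inc k n w * y τ) = w • y := by
      funext τ
      rw [Pi.smul_apply, Algebra.smul_def]
    rw [h1, cd_smul, hy2, Pi.smul_apply, Pi.smul_apply, smul_smul, Algebra.smul_def]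

end

end Pool.Agent.DBX.ALG
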